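import Pool.Agent.H15.G1.L.Jlem

/-!
# Module Car: Carleman variables

`T3_car`: `T3_slice` and `coll_cv` (H82/BK/Coll) for fixed `v` with `β = bt b ε`, `Φ z y`. `T3_carE`: first `σ → -σ` (`neg_preserving`: exchanges `post` and `post'`, `cosTh → -cosTh`; see
`fold_neg`, `fold_exc` in H82/CM/FoldG, private: copy), then `coll_cv` with `β = fun x => bt b ε (-x)`. `T3_carF`: the factorized form of `T3_car`
(constants out of the integrals; `ENNReal.ofReal_mul` needs `Kn ≥ 0` a.e.: `fast_Kn0`, `surf_ae`, as `fold_main`). `T3_carFE` the same for `T3_carE`.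
-/

set_option autoImplicit false

open MeasureTheory Set Filter Topology Pool.Agent.H25.Kin Pool.Agent.H82.BK Pool.Agent.H82.CM
open Pool.Agent.H48.PL Pool.Agent.H48.PI Pool.Agent.H48.PW Pool.Agent.H82.NT
open scoped ENNReal

namespace Pool.Agent.H15.G1

variable {d : ℕ} {γ s C Ca cb ε : ℝ} {b : ℝ → ℝ}

/-! ### auxiliary lemmas -/

private lemma car_post_neg (v w σ : Vec d) : post v w (-σ) = post' v w σ := by
  unfold post post'; rw [smul_neg, ← sub_eq_add_neg]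

private lemma car_post'_neg (v w σ : Vec d) : post' v w (-σ) = post v w σ := by
  unfold post post'; rw [smul_neg, sub_neg_eq_add]

private lemma car_cosTh_neg (v w σ : Vec d) : cosTh v w (-σ) = -cosTh v w σ := by
  unfold cosTh; rw [neg_dot, neg_div]

private lemma car_meas (v w : Vec d) {β : ℝ → ℝ} (hβ : Measurable β)
    {Φ : Vec d → Vec d → ℝ≥0∞} (hΦ : Measurable fun p : Vec d × Vec d => Φ p.1 p.2) :
    Measurable fun σ : Vec d =>
      ENNReal.ofReal (len (v - w) ^ γ * β (cosTh v w σ)) * Φ (post' v w σ) (post v w σ) := by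
  have h2 : Measurable fun σ : Vec d => ((v, w, σ) : Vec d × Vec d × Vec d) :=
    measurable_const.prodMk (measurable_const.prodMk measurable_id)
  have m2 : Measurable fun σ : Vec d => β (cosTh v w σ) := hβ.comp (measurable_cosTh.comp h2)
  have m3 : Measurable fun σ : Vec d => post' v w σ := continuous_post'.measurable.comp h2
  have m4 : Measurable fun σ : Vec d => post v w σ := continuous_post.measurable.comp h2
  have m5 : Measurable fun σ : Vec d => Φ (post' v w σ) (post v w σ) :=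
    Measurable.comp (g := fun p : Vec d × Vec d => Φ p.1 p.2) hΦ (m3.prodMk m4)
  exact (measurable_const.mul m2).ennreal_ofReal.mul m5

/-- exchange `σ ↦ -σ` -/
private lemma car_neg (hd : 1 ≤ d) (v : Vec d) {β : ℝ → ℝ} (hβ : Measurable β)
    {Φ : Vec d → Vec d → ℝ≥0∞} (hΦ : Measurable fun p : Vec d × Vec d => Φ p.1 p.2) :
    ∫⁻ w, ∫⁻ σ, ENNReal.ofReal (len (v - w) ^ γ * β (cosTh v w σ)) *
        Φ (post' v w σ) (post v w σ) ∂(surf d) =
      ∫⁻ w, ∫⁻ σ, ENNReal.ofReal (len (v - w) ^ γ * (fun x => β (-x)) (cosTh v w σ)) *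
        (fun a c => Φ c a) (post' v w σ) (post v w σ) ∂(surf d) := by
  refine lintegral_congr fun w => ?_
  rw [← (neg_preserving hd).lintegral_comp (car_meas v w hβ hΦ)]
  refine lintegral_congr fun σ => ?_
  rw [car_post_neg, car_post'_neg, car_cosTh_neg]

/-- the kernel in terms of `c` is nonnegative on the sphere -/
private lemma car_Kn {β' : ℝ → ℝ} (h : ∀ x, -1 ≤ x → x ≤ 1 → 0 ≤ β' x) {m σ : Vec d}
    (hσ : nsq σ = 1) (hm : 0 < dot m σ) : 0 ≤ Kn d γ β' (co m σ) := by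
  have h1 := co_pos hm
  have h2 := co_le_one (m := m) hσ
  unfold Kn
  refine mul_nonneg (mul_nonneg (by positivity) (Real.rpow_nonneg h1.le _)) (h _ ?_ ?_)
  · nlinarith
  · nlinarith

private lemma car_sec {Φ : Vec d → Vec d → Vec d → ℝ≥0∞}
    (hΦ : Measurable fun q : Vec d × Vec d × Vec d => Φ q.1 q.2.1 q.2.2) (v : Vec d) :
    Measurable fun p : Vec d × Vec d => Φ v p.1 p.2 :=
  hΦ.comp (measurable_const.prodMk measurable_id)

private lemma car_m4 {Φ : Vec d → Vec d → Vec d → ℝ≥0∞}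
    (hΦ : Measurable fun q : Vec d × Vec d × Vec d => Φ q.1 q.2.1 q.2.2) :
    Meas4 fun v (_ : Vec d) y z => Φ v z y := by
  unfold Meas4
  have h : Measurable fun q : Vec d × Vec d × Vec d × Vec d =>
      ((q.1, q.2.2.2, q.2.2.1) : Vec d × Vec d × Vec d) :=
    measurable_fst.prodMk (measurable_snd.snd.snd.prodMk measurable_snd.snd.fst)
  exact hΦ.comp h

private lemma car_T {k q : Vec d → ℝ} {T : Vec d → Vec d → Vec d → ℝ}
    (hq : Measurable q) (hk : Measurable k)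
    (hT : Measurable fun p : Vec d × Vec d × Vec d => T p.1 p.2.1 p.2.2) :
    (Measurable fun p : Vec d × Vec d × Vec d =>
      ENNReal.ofReal (k p.2.1 * (q p.1 * T p.1 p.2.1 p.2.2))) ∧
    (Measurable fun p : Vec d × Vec d × Vec d =>
      ENNReal.ofReal (k p.2.2 * (q p.1 * T p.1 p.2.1 p.2.2))) := by
  have h1 : Measurable fun p : Vec d × Vec d × Vec d => q p.1 * T p.1 p.2.1 p.2.2 :=
    (hq.comp measurable_fst).mul hT
  exact ⟨((hk.comp measurable_snd.fst).mul h1).ennreal_ofReal,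
    ((hk.comp measurable_snd.snd).mul h1).ennreal_ofReal⟩

/-- constants out of the integrals -/
private lemma car_out {Kf : Vec d → Vec d → ℝ} (hKf : ∀ m σ : Vec d, nsq σ = 1 → 0 < dot m σ → 0 ≤ Kf m σ)
    {q k : Vec d → ℝ} (hq0 : ∀ v, 0 ≤ q v) (hk0 : ∀ v, 0 ≤ k v)
    {U : Vec d → Vec d → Vec d → ℝ} (hU : ∀ v m σ, 0 ≤ U v m σ) :
    (∫⁻ v, ∫⁻ m, ∫⁻ σ in {σ : Vec d | 0 < dot m σ},
      ENNReal.ofReal (len m ^ γ * Kf m σ) *
        ENNReal.ofReal (k (v - m) * (q v * U v m σ)) ∂(surf d)) =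
      ∫⁻ v, ENNReal.ofReal (q v) * ∫⁻ m, ENNReal.ofReal (len m ^ γ * k (v - m)) *
        ∫⁻ σ in {σ : Vec d | 0 < dot m σ}, ENNReal.ofReal (Kf m σ * U v m σ) ∂(surf d) := by
  refine lintegral_congr fun v => ?_
  rw [← lintegral_const_mul' _ _ ENNReal.ofReal_ne_top]
  refine lintegral_congr fun m => ?_
  rw [← lintegral_const_mul' _ _ ENNReal.ofReal_ne_top,
    ← lintegral_const_mul' _ _ ENNReal.ofReal_ne_top]
  refine lintegral_congr_ae ?_
  filter_upwards [ae_restrict_of_ae surf_ae, ae_restrict_mem (measurableSet_half m)] with σ hσ hm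
  have hK := hKf m σ hσ hm
  have hl := Real.rpow_nonneg (len_nonneg m) γ
  rw [← ENNReal.ofReal_mul (mul_nonneg hl hK), ← ENNReal.ofReal_mul (mul_nonneg hl (hk0 _)),
    ← ENNReal.ofReal_mul (hq0 v)]
  congr 1
  ring

theorem T3_car (H : Hyp d γ s b C Ca) {Φ : Vec d → Vec d → Vec d → ℝ≥0∞}
    (hΦ : Measurable fun q : Vec d × Vec d × Vec d => Φ q.1 q.2.1 q.2.2) :
    (T3 γ b ε fun v _ y z => Φ v z y) = ∫⁻ v, ∫⁻ m, ∫⁻ σ in {σ : Vec d | 0 < dot m σ},
      ENNReal.ofReal (len m ^ γ * Kn d γ (bt b ε) (co m σ)) * Φ v (v - m) (v + hh σ m) ∂(surf d) := by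
  rw [T3_slice H.bm (car_m4 hΦ)]
  refine lintegral_congr fun v => ?_
  exact coll_cv H.hd γ (measurable_bt H.bm ε) (Φ := fun a c => Φ v a c) (car_sec hΦ v) v

theorem T3_carE (H : Hyp d γ s b C Ca) {Φ : Vec d → Vec d → Vec d → ℝ≥0∞}
    (hΦ : Measurable fun q : Vec d × Vec d × Vec d => Φ q.1 q.2.1 q.2.2) :
    (T3 γ b ε fun v _ y z => Φ v z y) = ∫⁻ v, ∫⁻ m, ∫⁻ σ in {σ : Vec d | 0 < dot m σ},
      ENNReal.ofReal (len m ^ γ * Kn d γ (fun x => bt b ε (-x)) (co m σ)) *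
        Φ v (v + hh σ m) (v - m) ∂(surf d) := by
  rw [T3_slice H.bm (car_m4 hΦ)]
  refine lintegral_congr fun v => ?_
  have hs := car_sec hΦ v
  have h1 := car_neg (γ := γ) H.hd1 v (measurable_bt H.bm ε) (Φ := fun a c => Φ v a c) hs
  have hs' : Measurable fun p : Vec d × Vec d => Φ v p.2 p.1 :=
    hs.comp (measurable_snd.prodMk measurable_fst)
  have mbt' : Measurable fun x => bt b ε (-x) := (measurable_bt H.bm ε).comp measurable_neg
  exact h1.trans (coll_cv H.hd γ mbt' (Φ := fun a c => Φ v c a) hs' v)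

theorem T3_carF (H : Hyp d γ s b C Ca) (hε : 0 < ε) {q k : Vec d → ℝ} {T : Vec d → Vec d → Vec d → ℝ}
    (hq : Measurable q) (hk : Measurable k) (hT : Measurable fun p : Vec d × Vec d × Vec d => T p.1 p.2.1 p.2.2)
    (hq0 : ∀ v, 0 ≤ q v) (hk0 : ∀ v, 0 ≤ k v) (hT0 : ∀ v z y, 0 ≤ T v z y) :
    (T3 γ b ε fun v _ y z => ENNReal.ofReal (k z * (q v * T v z y))) =
      ∫⁻ v, ENNReal.ofReal (q v) * ∫⁻ m, ENNReal.ofReal (len m ^ γ * k (v - m)) *
        ∫⁻ σ in {σ : Vec d | 0 < dot m σ}, ENNReal.ofReal (Kn d γ (bt b ε) (co m σ) *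
          T v (v - m) (v + hh σ m)) ∂(surf d) := by
  have e := T3_car (ε := ε) H (Φ := fun v z y => ENNReal.ofReal (k z * (q v * T v z y)))
    (car_T hq hk hT).1
  rw [e]
  exact car_out (γ := γ) (Kf := fun m σ => Kn d γ (bt b ε) (co m σ))
    (fun m σ hσ hm => car_Kn (fun x h1 h2 => bt_nonneg H.bd hε h1 h2) hσ hm) hq0 hk0
    (U := fun v m σ => T v (v - m) (v + hh σ m)) (fun v m σ => hT0 _ _ _)

theorem T3_carFE (H : Hyp d γ s b C Ca) (hε : 0 < ε) {q k : Vec d → ℝ} {T : Vec d → Vec d → Vec d → ℝ}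
    (hq : Measurable q) (hk : Measurable k) (hT : Measurable fun p : Vec d × Vec d × Vec d => T p.1 p.2.1 p.2.2)
    (hq0 : ∀ v, 0 ≤ q v) (hk0 : ∀ v, 0 ≤ k v) (hT0 : ∀ v z y, 0 ≤ T v z y) :
    (T3 γ b ε fun v _ y z => ENNReal.ofReal (k y * (q v * T v z y))) =
      ∫⁻ v, ENNReal.ofReal (q v) * ∫⁻ m, ENNReal.ofReal (len m ^ γ * k (v - m)) *
        ∫⁻ σ in {σ : Vec d | 0 < dot m σ}, ENNReal.ofReal (Kn d γ (fun x => bt b ε (-x)) (co m σ) *
          T v (v + hh σ m) (v - m)) ∂(surf d) := by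
  have e := T3_carE (ε := ε) H (Φ := fun v z y => ENNReal.ofReal (k y * (q v * T v z y)))
    (car_T hq hk hT).2
  rw [e]
  exact car_out (γ := γ) (Kf := fun m σ => Kn d γ (fun x => bt b ε (-x)) (co m σ))
    (fun m σ hσ hm => car_Kn (fun x h1 h2 => bt_nonneg H.bd hε (by linarith) (by linarith)) hσ hm)
    hq0 hk0 (U := fun v m σ => T v (v + hh σ m) (v - m)) (fun v m σ => hT0 _ _ _)

end Pool.Agent.H15.G1
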