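import Pool.Agent.H15.G1.L.Geo

/-!
# Module CuAng: the angular integral of a cusp increment, `2s < 1`

`X = 1 - cosTh ∈ [0,1]` on the support, `|v'-v|² = |V|² X/2` (`nsq_post_sub`), `bt b ε x ≤ 2 C X^(-β)` for `0 ≤ x`, `X ≥ ε` (and `0` for `X < ε`; the reflected part `b(-x) ≤ C (1+x)^(-β) ≤ C X^(-β)`), `β = (d-1)/2+s`.
`R = |V|²/(2ρ²)`: the integrand is `≤ 2C X^(-β) min(1, √(R X))`. (1) `≤ 2C X^(-β) min(X/ε, 1)`: `angular` (H25/Kin/Cap2) with `r = ε^(-1/2)`: `≤ C' ε^(-s)`.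
(2) for `R ≥ 1`: on `R X ≥ 1`: `min(R X, 1) = 1`, `angular` with `r = √R`: `C' R^s`; on `R X < 1`: `X^(-β) √(R X) = R^(-1/2) X^(-((d-1)/2+(s+1/2))) (R X)`, `angular` with `s + 1/2 < 1` in place of `s`:
`R^(-1/2) C'' R^(s+1/2) = C'' R^s`. (3) `R < 1`: monotone in `R`, use `R = 1`. Hence `≤ K min(ε^(-s), max(1,R)^s) ≤ K' max(ε, min(1, ρ²/|V|²))^(-s)`.
-/

set_option autoImplicit false

open MeasureTheory Set Filter Topology Pool.Agent.H25.Kin Pool.Agent.H82.BK Pool.Agent.H82.CM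
open Pool.Agent.H48.PL Pool.Agent.H48.PI Pool.Agent.H48.PW Pool.Agent.H82.NT
open scoped ENNReal

namespace Pool.Agent.H15.G1

variable {d : ℕ} {γ s C Ca cb ε : ℝ} {b : ℝ → ℝ}

private lemma cuAng_ang (hd : 1 ≤ d) {s : ℝ} (hs : 0 < s) (hs1 : s < 1) : ∃ C : ℝ, 0 ≤ C ∧
    ∀ v w : Vec d, v ≠ w → ∀ r : ℝ, 0 < r →
    ∫⁻ σ, ENNReal.ofReal ((1 - cosTh v w σ) ^ (-(((d : ℝ) - 1) / 2 + s)) * min (r ^ 2 * (1 - cosTh v w σ)) 1)
      ∂(surf d) ≤ ENNReal.ofReal (C * r ^ (2 * s)) := by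
  obtain ⟨C, hC, h⟩ := angular hd hs hs1
  refine ⟨C, hC, fun v w hvw r hr => ?_⟩
  have h1 := h (dirk v w) (nsq_dirk hvw) r hr
  simp_rw [← cosTh_eq] at h1
  exact h1

private lemma cuAng_bt {b : ℝ → ℝ} {C β ε : ℝ} (hC : AngBound b C β) (hβ : 0 ≤ β) (hε : 0 < ε) {x : ℝ}
    (h1 : 0 ≤ x) (h2 : x ≤ 1) :
    bt b ε x ≤ (if ε ≤ 1 - x then C * (1 - x) ^ (-β) else 0) + C := by
  have hC0 := hC.1
  have hp : 0 ≤ (1 - x) ^ (-β) := Real.rpow_nonneg (by linarith) _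
  have h3 : (if 0 < x then bcut b ε x else 0) ≤ (if ε ≤ 1 - x then C * (1 - x) ^ (-β) else 0) := by
    unfold bcut
    by_cases hx : x ≤ 1 - ε
    · rw [if_pos hx, if_pos (by linarith : ε ≤ 1 - x)]
      split_ifs with h4
      · exact (hC.2 x (by linarith) (by linarith)).2
      · positivity
    · have hx' : ¬ ε ≤ 1 - x := fun h => hx (by linarith)
      rw [if_neg hx, if_neg hx']
      split_ifs <;> exact le_refl _
  have h4 : (if 0 ≤ x then bcut b ε (-x) else 0) ≤ C := by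
    unfold bcut
    split_ifs with h5
    · refine (hC.2 (-x) (by linarith) (by linarith)).2.trans ?_
      have : (1 - -x) ^ (-β) ≤ 1 := Real.rpow_le_one_of_one_le_of_nonpos (by linarith) (by linarith)
      nlinarith
    · exact hC0
  unfold bt
  linarith

/-- the elementary inequality -/
private lemma cuAng_pt {β r X m : ℝ} (hr : 0 < r) (hX : 0 < X) (hm1 : m ≤ 1)
    (h : r ^ 2 * X < 1 → m ≤ r * X ^ (1 / 2 : ℝ)) :
    X ^ (-β) * m ≤ X ^ (-β) * min (r ^ 2 * X) 1 +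
      r⁻¹ * (X ^ (-(β + 1 / 2)) * min (r ^ 2 * X) 1) := by
  have hp : 0 < X ^ (-β) := Real.rpow_pos_of_pos hX _
  have hp' : 0 < X ^ (-(β + 1 / 2)) := Real.rpow_pos_of_pos hX _
  have hmin : 0 ≤ min (r ^ 2 * X) 1 := le_min (by positivity) zero_le_one
  rcases le_or_gt 1 (r ^ 2 * X) with h1 | h1
  · rw [min_eq_right h1]
    have h2 : X ^ (-β) * m ≤ X ^ (-β) * 1 := mul_le_mul_of_nonneg_left hm1 hp.le
    have h3 : 0 ≤ r⁻¹ * (X ^ (-(β + 1 / 2)) * 1) := by positivity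
    linarith
  · have h2 := h h1
    have h3 : X ^ (-β) * m ≤ X ^ (-β) * (r * X ^ (1 / 2 : ℝ)) := mul_le_mul_of_nonneg_left h2 hp.le
    have h4 : X ^ (-(β + 1 / 2)) * X = X ^ (-β) * X ^ (1 / 2 : ℝ) := by
      rw [← Real.rpow_add_one hX.ne', ← Real.rpow_add hX]
      congr 1; ring
    have h5 : r⁻¹ * (X ^ (-(β + 1 / 2)) * min (r ^ 2 * X) 1) = X ^ (-β) * (r * X ^ (1 / 2 : ℝ)) := by
      rw [min_eq_left h1.le]
      calc r⁻¹ * (X ^ (-(β + 1 / 2)) * (r ^ 2 * X)) = (r⁻¹ * r ^ 2) * (X ^ (-(β + 1 / 2)) * X) := by ring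
        _ = r * (X ^ (-β) * X ^ (1 / 2 : ℝ)) := by
          rw [h4]; congr 1; field_simp
        _ = _ := by ring
    have h6 : 0 ≤ X ^ (-β) * min (r ^ 2 * X) 1 := by positivity
    linarith

theorem cu_ang (H : Hyp d γ s b C Ca) (h2 : 2 * s < 1) : ∃ K : ℝ, 0 ≤ K ∧ ∀ ε : ℝ, 0 < ε → ε ≤ 1 →
    ∀ v w : Vec d, v ≠ w → ∀ ρ : ℝ, 0 < ρ →
      ∫⁻ σ, ENNReal.ofReal (bt b ε (cosTh v w σ) * min 1 (len (post v w σ - v) / ρ)) ∂(surf d) ≤
        ENNReal.ofReal (K * qC s ε ρ v w) := by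
  obtain ⟨C1, hC1, h1⟩ := cuAng_ang (d := d) H.hd1 H.hs H.hs1
  have hs0 := H.hs
  obtain ⟨C2, hC2, h2'⟩ := cuAng_ang (d := d) (s := s + 1 / 2) H.hd1 (by linarith) (by linarith)
  set β : ℝ := ((d : ℝ) - 1) / 2 + s with hβ
  have hC0 := H.bd.1
  have hM0 : 0 ≤ (surf d univ).toReal := ENNReal.toReal_nonneg
  refine ⟨C * (C1 + C2 + (surf d univ).toReal), by positivity, fun ε hε hε1 v w hvw ρ hρ => ?_⟩
  have hV : 0 < nsq (v - w) := sq_pos_of_ne (sub_ne_zero.2 hvw)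
  unfold qC
  set q : ℝ := max ε (min 1 (ρ ^ 2 / nsq (v - w))) with hq
  have hq0 : 0 < q := lt_max_of_lt_left hε
  have hq1 : q ≤ 1 := max_le hε1 (min_le_left _ _)
  set r : ℝ := q ^ (-(1 / 2) : ℝ) with hr
  have hr0 : 0 < r := Real.rpow_pos_of_pos hq0 _
  have hr2 : r ^ 2 = q⁻¹ := by
    rw [hr, ← Real.rpow_natCast, ← Real.rpow_mul hq0.le, ← Real.rpow_neg_one]
    norm_num
  have hr2s : r ^ (2 * s) = q ^ (-s) := by
    rw [hr, ← Real.rpow_mul hq0.le]; congr 1; ring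
  have hr3 : r⁻¹ * r ^ (2 * (s + 1 / 2)) = q ^ (-s) := by
    rw [← hr2s, ← Real.rpow_neg_one, ← Real.rpow_add hr0]; congr 1; ring
  have hqs : 1 ≤ q ^ (-s) := Real.one_le_rpow_of_pos_of_le_one_of_nonpos hq0 hq1 (by linarith)
  -- pointwise bound
  have key : ∀ᵐ σ ∂(surf d), ENNReal.ofReal (bt b ε (cosTh v w σ) * min 1 (len (post v w σ - v) / ρ)) ≤
      ENNReal.ofReal C * ENNReal.ofReal ((1 - cosTh v w σ) ^ (-β) * min (r ^ 2 * (1 - cosTh v w σ)) 1) +
      (ENNReal.ofReal (C * r⁻¹) * ENNReal.ofReal ((1 - cosTh v w σ) ^ (-(((d : ℝ) - 1) / 2 + (s + 1 / 2))) *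
        min (r ^ 2 * (1 - cosTh v w σ)) 1) + ENNReal.ofReal C) := by
    filter_upwards [surf_ae] with σ hσ
    have hx1 := one_sub_cosTh_nonneg (v := v) (w := w) hσ
    rcases lt_or_ge (cosTh v w σ) 0 with hx | hx
    · rw [bt_neg hx, zero_mul, ENNReal.ofReal_zero]; exact zero_le
    have hns := nsq_post_sub (v := v) (w := w) hσ
    set x : ℝ := cosTh v w σ with hxd
    set X : ℝ := 1 - x with hXd
    have hlen : len (post v w σ - v) = Real.sqrt (nsq (v - w) * X / 2) := by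
      unfold len; rw [hns]
    set m : ℝ := min 1 (len (post v w σ - v) / ρ) with hm
    have hm0 : 0 ≤ m := le_min zero_le_one (div_nonneg (len_nonneg _) hρ.le)
    have hm1 : m ≤ 1 := min_le_left _ _
    have hbt := cuAng_bt H.bd H.β0 hε hx (by linarith : x ≤ 1)
    have e3 : -(((d : ℝ) - 1) / 2 + (s + 1 / 2)) = -(β + 1 / 2) := by rw [hβ]; ring
    rw [e3]
    have hpos1 : 0 ≤ X ^ (-β) * min (r ^ 2 * X) 1 :=
      mul_nonneg (Real.rpow_nonneg hx1 _) (le_min (by positivity) zero_le_one)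
    have hpos2 : 0 ≤ X ^ (-(β + 1 / 2)) * min (r ^ 2 * X) 1 :=
      mul_nonneg (Real.rpow_nonneg hx1 _) (le_min (by positivity) zero_le_one)
    rw [← ENNReal.ofReal_mul hC0, ← ENNReal.ofReal_mul (by positivity),
      ← ENNReal.ofReal_add (by positivity) hC0, ← ENNReal.ofReal_add (by positivity) (by positivity)]
    refine ENNReal.ofReal_le_ofReal ?_
    have h5 : bt b ε x * m ≤ ((if ε ≤ X then C * X ^ (-β) else 0) + C) * m :=
      mul_le_mul_of_nonneg_right hbt hm0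
    have h6 : C * m ≤ C := by nlinarith
    have h7 : (if ε ≤ X then C * X ^ (-β) else 0) * m ≤
        C * (X ^ (-β) * min (r ^ 2 * X) 1) + C * r⁻¹ * (X ^ (-(β + 1 / 2)) * min (r ^ 2 * X) 1) := by
      split_ifs with hεX
      · have hX0 : 0 < X := lt_of_lt_of_le hε hεX
        have h8 := cuAng_pt (β := β) (r := r) (X := X) (m := m) hr0 hX0 hm1 (by
          intro hrX
          rw [hr2, inv_mul_lt_iff₀ hq0, mul_one] at hrX
          have hqε : ε < q := lt_of_le_of_lt hεX hrX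
          have hq2 : q ≤ ρ ^ 2 / nsq (v - w) := by
            rcases le_max_iff.1 (le_of_eq hq) with h | h
            · exact absurd h (not_le.2 hqε)
            · exact h.trans (min_le_right _ _)
          have hq3 : nsq (v - w) ≤ ρ ^ 2 * r ^ 2 := by
            rw [hr2]
            rw [le_div_iff₀ hV] at hq2
            rw [← div_eq_mul_inv, le_div_iff₀ hq0]
            linarith
          refine (min_le_right _ _).trans ?_
          rw [hlen, div_le_iff₀ hρ, ← Real.sqrt_eq_rpow]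
          have h9 : r * Real.sqrt X * ρ = Real.sqrt (ρ ^ 2 * r ^ 2 * X) := by
            rw [Real.sqrt_mul (by positivity), Real.sqrt_mul (by positivity), Real.sqrt_sq hρ.le,
              Real.sqrt_sq hr0.le]
            ring
          rw [h9]
          refine Real.sqrt_le_sqrt ?_
          have : nsq (v - w) * X ≤ ρ ^ 2 * r ^ 2 * X := mul_le_mul_of_nonneg_right hq3 hX0.le
          have h10 : 0 ≤ nsq (v - w) * X := by positivity
          linarith)
        calc C * X ^ (-β) * m = C * (X ^ (-β) * m) := by ring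
          _ ≤ C * (X ^ (-β) * min (r ^ 2 * X) 1 + r⁻¹ * (X ^ (-(β + 1 / 2)) * min (r ^ 2 * X) 1)) :=
            mul_le_mul_of_nonneg_left h8 hC0
          _ = _ := by ring
      · rw [zero_mul]; positivity
    calc bt b ε x * m ≤ ((if ε ≤ X then C * X ^ (-β) else 0) + C) * m := h5
      _ = (if ε ≤ X then C * X ^ (-β) else 0) * m + C * m := by ring
      _ ≤ _ := by linarith
  have hmeas1 : Measurable fun σ : Vec d => ENNReal.ofReal C *
      ENNReal.ofReal ((1 - cosTh v w σ) ^ (-β) * min (r ^ 2 * (1 - cosTh v w σ)) 1) :=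
    (aw_measurable β r v w).ennreal_ofReal.const_mul _
  have hmeas2 : Measurable fun σ : Vec d => ENNReal.ofReal (C * r⁻¹) *
      ENNReal.ofReal ((1 - cosTh v w σ) ^ (-(((d : ℝ) - 1) / 2 + (s + 1 / 2))) *
        min (r ^ 2 * (1 - cosTh v w σ)) 1) :=
    (aw_measurable (((d : ℝ) - 1) / 2 + (s + 1 / 2)) r v w).ennreal_ofReal.const_mul _
  refine (lintegral_mono_ae key).trans ?_
  rw [lintegral_add_left hmeas1, lintegral_add_left hmeas2, lintegral_const_mul' _ _ ENNReal.ofReal_ne_top,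
    lintegral_const_mul' _ _ ENNReal.ofReal_ne_top, lintegral_const]
  have g1 := h1 v w hvw r hr0
  have g2 := h2' v w hvw r hr0
  have g3 : ENNReal.ofReal C * surf d univ ≤ ENNReal.ofReal (C * (surf d univ).toReal * q ^ (-s)) := by
    have : surf d univ = ENNReal.ofReal (surf d univ).toReal :=
      (ENNReal.ofReal_toReal (measure_ne_top _ _)).symm
    rw [this, ← ENNReal.ofReal_mul hC0]
    refine ENNReal.ofReal_le_ofReal ?_
    rw [ENNReal.toReal_ofReal hM0]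
    have : 0 ≤ C * (surf d univ).toReal := by positivity
    nlinarith
  refine (add_le_add (mul_le_mul_right g1 _) (add_le_add (mul_le_mul_right g2 _) g3)).trans ?_
  have hqs0 : 0 ≤ q ^ (-s) := by linarith
  rw [← ENNReal.ofReal_mul hC0, ← ENNReal.ofReal_mul (by positivity),
    ← ENNReal.ofReal_add (by positivity) (by positivity), ← ENNReal.ofReal_add (by positivity) (by positivity)]
  refine ENNReal.ofReal_le_ofReal (le_of_eq ?_)
  rw [hr2s]
  have e5 : C * r⁻¹ * (C2 * r ^ (2 * (s + 1 / 2))) = C * C2 * q ^ (-s) := by rw [← hr3]; ring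
  rw [e5]; ring

/-- the mass of the collisions with `|v'-v|² ≥ t² |v-w|²` -/
theorem big_ang (H : Hyp d γ s b C Ca) : ∃ K : ℝ, 0 ≤ K ∧ ∀ ε : ℝ, 0 < ε → ∀ t : ℝ, 0 < t → t ≤ 1 →
    ∀ v w : Vec d, v ≠ w →
      ∫⁻ σ, (if t ^ 2 * nsq (v - w) ≤ nsq (post v w σ - v) then ENNReal.ofReal (bt b ε (cosTh v w σ)) else 0) ∂(surf d) ≤
        ENNReal.ofReal (K * t ^ (-(2 * s))) := by
  obtain ⟨C1, hC1, h1⟩ := cuAng_ang (d := d) H.hd1 H.hs H.hs1
  have hs0 := H.hs
  set β : ℝ := ((d : ℝ) - 1) / 2 + s with hβ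
  have hC0 := H.bd.1
  refine ⟨2 * C * C1, by positivity, fun ε hε t ht ht1 v w hvw => ?_⟩
  have hV : 0 < nsq (v - w) := sq_pos_of_ne (sub_ne_zero.2 hvw)
  set r : ℝ := t⁻¹ with hr
  have hr0 : 0 < r := inv_pos.2 ht
  have key : ∀ᵐ σ ∂(surf d), (if t ^ 2 * nsq (v - w) ≤ nsq (post v w σ - v) then
      ENNReal.ofReal (bt b ε (cosTh v w σ)) else 0) ≤
      ENNReal.ofReal (2 * C) * ENNReal.ofReal ((1 - cosTh v w σ) ^ (-β) * min (r ^ 2 * (1 - cosTh v w σ)) 1) := by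
    filter_upwards [surf_ae] with σ hσ
    have hx1 := one_sub_cosTh_nonneg (v := v) (w := w) hσ
    split_ifs with hc
    swap
    · exact zero_le
    rcases lt_or_ge (cosTh v w σ) 0 with hx | hx
    · rw [bt_neg hx, ENNReal.ofReal_zero]; exact zero_le
    rw [nsq_post_sub (v := v) (w := w) hσ] at hc
    set x : ℝ := cosTh v w σ with hxd
    have h3 : 2 * t ^ 2 ≤ 1 - x := by
      have : nsq (v - w) * (2 * t ^ 2) ≤ nsq (v - w) * (1 - x) := by linarith
      exact le_of_mul_le_mul_left this hV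
    have ht2 : 0 < t ^ 2 := by positivity
    have h4 : 1 ≤ r ^ 2 * (1 - x) := by
      rw [hr, inv_pow, le_inv_mul_iff₀ ht2]
      linarith
    rw [min_eq_right h4, mul_one, ← ENNReal.ofReal_mul (by positivity)]
    exact ENNReal.ofReal_le_ofReal (bt_le H.bd H.β0 hx (by linarith))
  refine (lintegral_mono_ae key).trans ?_
  rw [lintegral_const_mul' _ _ ENNReal.ofReal_ne_top]
  refine (mul_le_mul_right (h1 v w hvw r hr0) _).trans ?_
  rw [← ENNReal.ofReal_mul (by positivity)]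
  refine ENNReal.ofReal_le_ofReal (le_of_eq ?_)
  rw [hr, Real.inv_rpow ht.le, ← Real.rpow_neg ht.le]
  ring

end Pool.Agent.H15.G1
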