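import Pool.Agent.H15.G1.L.IntM

/-!
# Module LIm: calculus of `LI`

Linearity in `c` and in `k`, monotonicity; `LI = ∫⁻∫⁻` with everything inside `ENNReal.ofReal`. `LI_ne_top`: `g` nice, `0 ≤ γ ≤ 2`: `len (v-z)^γ ≤ 4 (1+nsq v)(1+nsq z)`,
`c ≤ A`; `RD` decay of `g` (products with polynomials integrable: as `freq_integrable` in H82/CM/RealG). `DD_ne_top` the same.
-/

set_option autoImplicit false

open MeasureTheory Set Filter Topology Pool.Agent.H25.Kin Pool.Agent.H82.BK Pool.Agent.H82.CM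
open Pool.Agent.H48.PL Pool.Agent.H48.PI Pool.Agent.H48.PW Pool.Agent.H82.NT
open scoped ENNReal

namespace Pool.Agent.H15.G1

variable {d : ℕ} {γ s C Ca cb ε : ℝ} {b : ℝ → ℝ}

private lemma lim_ne (hd : 1 ≤ d) (v : Vec d) : ∀ᵐ z : Vec d, v ≠ z := by
  have : Nonempty (Fin d) := ⟨⟨0, hd⟩⟩
  have h : (volume : Measure (Vec d)) {v} = 0 := measure_singleton v
  rw [ae_iff]
  refine measure_mono_null (fun z hz => ?_) h
  simp only [Set.mem_ofPred_eq, not_not] at hz
  exact hz.symm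

lemma LI_mono (hd : 1 ≤ d) (hγ : 0 ≤ γ) {p : ℕ} {g k k' ω : Vec d → ℝ} {c c' : Vec d → Vec d → ℝ}
    (hk : ∀ v z, v ≠ z → k z * c v z ≤ k' z * c' v z) : LI γ p g k ω c ≤ LI γ p g k' ω c' := by
  unfold LI
  refine lintegral_mono fun v => mul_le_mul_right (lintegral_mono_ae ?_) _
  filter_upwards [lim_ne hd v] with z hz
  refine ENNReal.ofReal_le_ofReal ?_
  have h1 := mul_le_mul_of_nonneg_left (hk v z hz) (Real.rpow_nonneg (len_nonneg (v - z)) γ)
  calc k z * len (v - z) ^ γ * c v z = len (v - z) ^ γ * (k z * c v z) := by ring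
    _ ≤ len (v - z) ^ γ * (k' z * c' v z) := h1
    _ = k' z * len (v - z) ^ γ * c' v z := by ring

private lemma lim_meas {k : Vec d → ℝ} {c : Vec d → Vec d → ℝ} (hk : Measurable k)
    (hc : Measurable fun q : Vec d × Vec d => c q.1 q.2) :
    Measurable fun q : Vec d × Vec d => ENNReal.ofReal (k q.2 * len (q.1 - q.2) ^ γ * c q.1 q.2) := by
  refine ENNReal.measurable_ofReal.comp ?_
  refine ((hk.comp measurable_snd).mul ?_).mul hc
  exact (continuous_len.comp (continuous_fst.sub continuous_snd)).measurable.pow_const γ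

private lemma lim_meas1 {k : Vec d → ℝ} {c : Vec d → Vec d → ℝ} (hk : Measurable k)
    (hc : Measurable fun q : Vec d × Vec d => c q.1 q.2) (v : Vec d) :
    Measurable fun z : Vec d => ENNReal.ofReal (k z * len (v - z) ^ γ * c v z) :=
  (lim_meas (γ := γ) hk hc).comp measurable_prodMk_left

private lemma lim_measG {p : ℕ} {g ω : Vec d → ℝ} (hg : Measurable g) (hω : Measurable ω) :
    Measurable fun v : Vec d => ENNReal.ofReal (ω v * Gs p g v) :=
  ENNReal.measurable_ofReal.comp (hω.mul (meas_Gs p hg))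

private lemma lim_measI {p : ℕ} {g k ω : Vec d → ℝ} {c : Vec d → Vec d → ℝ} (hg : Measurable g)
    (hk : Measurable k) (hω : Measurable ω) (hc : Measurable fun q : Vec d × Vec d => c q.1 q.2) :
    Measurable fun v : Vec d => ENNReal.ofReal (ω v * Gs p g v) *
      ∫⁻ z, ENNReal.ofReal (k z * len (v - z) ^ γ * c v z) :=
  (lim_measG hg hω).mul (lim_meas (γ := γ) hk hc).lintegral_prod_right'

lemma LI_add {p : ℕ} {g k ω : Vec d → ℝ} {c c' : Vec d → Vec d → ℝ} (hg : Measurable g) (hk : Measurable k)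
    (hω : Measurable ω) (hc : Measurable fun q : Vec d × Vec d => c q.1 q.2)
    (hc' : Measurable fun q : Vec d × Vec d => c' q.1 q.2) (hk0 : ∀ z, 0 ≤ k z) (h0 : ∀ v z, 0 ≤ c v z)
    (h0' : ∀ v z, 0 ≤ c' v z) :
    LI γ p g k ω (fun v z => c v z + c' v z) = LI γ p g k ω c + LI γ p g k ω c' := by
  unfold LI
  rw [← lintegral_add_left (lim_measI hg hk hω hc)]
  refine lintegral_congr fun v => ?_
  rw [← mul_add, ← lintegral_add_left (lim_meas1 hk hc v)]
  congr 1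
  refine lintegral_congr fun z => ?_
  have h1 := Real.rpow_nonneg (len_nonneg (v - z)) γ
  rw [← ENNReal.ofReal_add (mul_nonneg (mul_nonneg (hk0 z) h1) (h0 v z))
    (mul_nonneg (mul_nonneg (hk0 z) h1) (h0' v z)), ← mul_add]

lemma LI_mul {p : ℕ} {g k ω : Vec d → ℝ} {c : Vec d → Vec d → ℝ} {A : ℝ} (hA : 0 ≤ A) :
    LI γ p g k ω (fun v z => A * c v z) = ENNReal.ofReal A * LI γ p g k ω c := by
  unfold LI
  rw [← lintegral_const_mul' _ _ ENNReal.ofReal_ne_top]
  refine lintegral_congr fun v => ?_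
  have h1 : ∫⁻ z, ENNReal.ofReal (k z * len (v - z) ^ γ * (A * c v z)) =
      ENNReal.ofReal A * ∫⁻ z, ENNReal.ofReal (k z * len (v - z) ^ γ * c v z) := by
    rw [← lintegral_const_mul' _ _ ENNReal.ofReal_ne_top]
    refine lintegral_congr fun z => ?_
    rw [← ENNReal.ofReal_mul hA]
    congr 1
    ring
  rw [h1]
  ring

/-- `g = g₁ + (g - g₁)` -/
lemma LI_split {g g1 ω : Vec d → ℝ} (D : Dat g g1 ω) {p : ℕ} {c : Vec d → Vec d → ℝ}
    (hc : Measurable fun q : Vec d × Vec d => c q.1 q.2) (h0 : ∀ v z, 0 ≤ c v z) :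
    LI γ p g g ω c = LI γ p g g1 ω c + LI γ p g (gR g g1) ω c := by
  have hg : Measurable g := D.nice.cont.measurable
  unfold LI
  rw [← lintegral_add_left (lim_measI hg D.m1 D.ωc.measurable hc)]
  refine lintegral_congr fun v => ?_
  rw [← mul_add, ← lintegral_add_left (lim_meas1 D.m1 hc v)]
  congr 1
  refine lintegral_congr fun z => ?_
  have h1 := Real.rpow_nonneg (len_nonneg (v - z)) γ
  have h2 : 0 ≤ gR g g1 z := sub_nonneg.2 (D.le z)
  rw [← ENNReal.ofReal_add (mul_nonneg (mul_nonneg (D.g10 z) h1) (h0 v z))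
    (mul_nonneg (mul_nonneg h2 h1) (h0 v z))]
  congr 1
  unfold gR
  ring

private lemma lim_len (hγ : 0 ≤ γ) (hγ2 : γ ≤ 2) (v z : Vec d) :
    len (v - z) ^ γ ≤ 4 * (1 + nsq v) * (1 + nsq z) := by
  have hn := sq_nonneg' z
  have hv := sq_nonneg' v
  have h5 : len (v - z) ^ γ ≤ 1 + 2 * nsq v + 2 * nsq z := by
    have h6 : nsq (v - z) ≤ 2 * nsq v + 2 * nsq z := by
      have e1 := nsq_par v z
      have e2 := sq_nonneg' (v + z)
      linarith
    rcases le_or_gt (len (v - z)) 1 with h7 | h7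
    · have := Real.rpow_le_one (len_nonneg (v - z)) h7 hγ
      linarith
    · have h8 : len (v - z) ^ γ ≤ len (v - z) ^ (2 : ℝ) :=
        Real.rpow_le_rpow_of_exponent_le h7.le hγ2
      have h9 : len (v - z) ^ (2 : ℝ) = nsq (v - z) := by
        rw [← len_sq]
        exact Real.rpow_natCast _ 2
      linarith
  nlinarith [mul_nonneg hv hn]

private lemma lim_pow (N : ℕ) : PG (fun v : Vec d => (1 + nsq v) ^ N) := by
  induction N with
  | zero => simpa using (PG.const (1 : ℝ) : PG fun _ : Vec d => (1 : ℝ))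
  | succ N ih =>
    have h := ih.mul ((PG.const (1 : ℝ)).add PG.nsq)
    refine (funext fun v => ?_ : (fun v : Vec d => (1 + nsq v) ^ (N + 1)) =
      fun v : Vec d => (1 + nsq v) ^ N * (1 + nsq v)) ▸ h
    ring

private lemma lim_fin {g : Vec d → ℝ} (hg : Nice g) (N : ℕ) :
    ∫⁻ v : Vec d, ENNReal.ofReal (g v * (1 + nsq v) ^ N) ≠ ⊤ := by
  have h1 : RD (fun v : Vec d => g v * (1 + nsq v) ^ N) := hg.rd.mul_PG (lim_pow N)
  have h2 : Integrable (fun v : Vec d => g v * (1 + nsq v) ^ N) := by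
    refine h1.integrable (hg.cont.measurable.mul ?_).aestronglyMeasurable
    exact meas_Wp (d := d) N
  exact h2.lintegral_lt_top.ne

lemma LI_ne_top (hd : 1 ≤ d) (hγ : 0 ≤ γ) (hγ2 : γ ≤ 2) {g g1 ω : Vec d → ℝ} (D : Dat g g1 ω) {p : ℕ}
    {k : Vec d → ℝ} (hk : ∀ z, k z ≤ g z) (hk0 : ∀ z, 0 ≤ k z) {c : Vec d → Vec d → ℝ} {A : ℝ} (h0 : ∀ v z, 0 ≤ c v z)
    (hc : ∀ v z, c v z ≤ A) : LI γ p g k ω c ≠ ⊤ := by
  have hA : 0 ≤ A := (h0 0 0).trans (hc 0 0)
  obtain ⟨C0, hC0, hb⟩ := D.nice.rd.bound 0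
  have hgb : ∀ v, g v ≤ C0 := by
    intro v
    have h1 := hb v
    rw [pow_zero, inv_one, mul_one, Real.norm_eq_abs] at h1
    exact (le_abs_self _).trans h1
  obtain ⟨J, hJ⟩ : ∃ J : ℝ≥0∞, J = ∫⁻ v : Vec d, ENNReal.ofReal (g v * (1 + nsq v) ^ 1) := ⟨_, rfl⟩
  have hJt : J ≠ ⊤ := hJ ▸ lim_fin D.nice 1
  have hin : ∀ v : Vec d, ∫⁻ z, ENNReal.ofReal (k z * len (v - z) ^ γ * c v z) ≤
      ENNReal.ofReal (4 * A * (1 + nsq v)) * J := by
    intro v
    have hv := sq_nonneg' v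
    rw [hJ, ← lintegral_const_mul' _ _ ENNReal.ofReal_ne_top]
    refine lintegral_mono fun z => ?_
    have hz := sq_nonneg' z
    rw [← ENNReal.ofReal_mul (by positivity)]
    refine ENNReal.ofReal_le_ofReal ?_
    have h1 := lim_len hγ hγ2 v z
    have h2 := Real.rpow_nonneg (len_nonneg (v - z)) γ
    have h3 : k z * len (v - z) ^ γ ≤ g z * (4 * (1 + nsq v) * (1 + nsq z)) :=
      mul_le_mul (hk z) h1 h2 (D.g0 z)
    have h4 : k z * len (v - z) ^ γ * c v z ≤ g z * (4 * (1 + nsq v) * (1 + nsq z)) * A :=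
      mul_le_mul h3 (hc v z) (h0 v z) (mul_nonneg (D.g0 z) (by positivity))
    refine h4.trans (le_of_eq ?_)
    ring
  unfold LI
  have hout : ∀ v : Vec d, ENNReal.ofReal (ω v * Gs p g v) *
      ∫⁻ z, ENNReal.ofReal (k z * len (v - z) ^ γ * c v z) ≤
      (ENNReal.ofReal (8 * A * C0) * J) * ENNReal.ofReal (g v * (1 + nsq v) ^ (p + 1)) := by
    intro v
    have hv := sq_nonneg' v
    refine (mul_le_mul_right (hin v) _).trans ?_
    have h5 : ENNReal.ofReal (ω v * Gs p g v) * (ENNReal.ofReal (4 * A * (1 + nsq v)) * J) =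
        J * (ENNReal.ofReal (ω v * Gs p g v) * ENNReal.ofReal (4 * A * (1 + nsq v))) := by ring
    have h6 : (ENNReal.ofReal (8 * A * C0) * J) * ENNReal.ofReal (g v * (1 + nsq v) ^ (p + 1)) =
        J * (ENNReal.ofReal (8 * A * C0) * ENNReal.ofReal (g v * (1 + nsq v) ^ (p + 1))) := by ring
    have hω0 : 0 ≤ ω v := by linarith [D.ωl v]
    have hG0 : 0 ≤ Gs p g v := by
      unfold Gs Wp
      positivity
    rw [h5, h6, ← ENNReal.ofReal_mul (mul_nonneg hω0 hG0), ← ENNReal.ofReal_mul (by positivity)]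
    refine mul_le_mul_right (ENNReal.ofReal_le_ofReal ?_) _
    have h7 : ω v * Gs p g v ≤ 2 * (C0 * (g v * (1 + nsq v) ^ p)) := by
      refine mul_le_mul (D.ωu v) ?_ hG0 (by norm_num)
      unfold Gs Wp
      have h8 : g v ^ 2 ≤ C0 * g v := by
        rw [sq]
        exact mul_le_mul_of_nonneg_right (hgb v) (D.g0 v)
      have h9 := mul_le_mul_of_nonneg_right h8 (by positivity : 0 ≤ (1 + nsq v) ^ p)
      linarith
    have h10 := mul_le_mul_of_nonneg_right h7 (by positivity : 0 ≤ 4 * A * (1 + nsq v))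
    refine h10.trans (le_of_eq ?_)
    ring
  refine ((lintegral_mono hout).trans_lt ?_).ne
  have ht : ENNReal.ofReal (8 * A * C0) * J ≠ ⊤ := ENNReal.mul_ne_top ENNReal.ofReal_ne_top hJt
  rw [lintegral_const_mul' _ _ ht]
  exact (ENNReal.mul_ne_top ht (lim_fin D.nice (p + 1))).lt_top

lemma DD_ne_top (hd : 1 ≤ d) (hγ : 0 ≤ γ) (hγ2 : γ ≤ 2) {g : Vec d → ℝ} (hg : Nice g) (h0 : ∀ u, 0 ≤ g u) :
    DD γ g ≠ ⊤ := by
  obtain ⟨J, hJ⟩ : ∃ J : ℝ≥0∞, J = ∫⁻ v : Vec d, ENNReal.ofReal (g v * (1 + nsq v) ^ 1) := ⟨_, rfl⟩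
  have hJt : J ≠ ⊤ := hJ ▸ lim_fin hg 1
  have hin : ∀ v : Vec d, ∫⁻ w : Vec d, ENNReal.ofReal (g v * g w * len (v - w) ^ γ) ≤
      (ENNReal.ofReal 4 * J) * ENNReal.ofReal (g v * (1 + nsq v) ^ 1) := by
    intro v
    have hv := sq_nonneg' v
    have h5 : (ENNReal.ofReal 4 * J) * ENNReal.ofReal (g v * (1 + nsq v) ^ 1) =
        (ENNReal.ofReal 4 * ENNReal.ofReal (g v * (1 + nsq v) ^ 1)) * J := by ring
    rw [h5, ← ENNReal.ofReal_mul (by norm_num), hJ, ← lintegral_const_mul' _ _ ENNReal.ofReal_ne_top]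
    refine lintegral_mono fun z => ?_
    have hz := sq_nonneg' z
    have hg0 := h0 v
    have hgz := h0 z
    rw [← ENNReal.ofReal_mul (by positivity)]
    refine ENNReal.ofReal_le_ofReal ?_
    have h1 := lim_len hγ hγ2 v z
    have h3 := mul_le_mul_of_nonneg_left h1 (mul_nonneg hg0 hgz)
    refine h3.trans (le_of_eq ?_)
    ring
  unfold DD
  refine ((lintegral_mono hin).trans_lt ?_).ne
  have ht : ENNReal.ofReal 4 * J ≠ ⊤ := ENNReal.mul_ne_top ENNReal.ofReal_ne_top hJt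
  rw [lintegral_const_mul' _ _ ht]
  exact (ENNReal.mul_ne_top ht (lim_fin hg 1)).lt_top

end Pool.Agent.H15.G1
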