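import Pool.Agent.H15.G1.L.ThinG
import Pool.Agent.H15.G1.L.Car
import Pool.Agent.H15.G1.L.CuAng
import Pool.Agent.H15.G1.L.LIm

/-!
# Module ThinS: (L6)

Medium partner `z`, `m = v-z`, `|m|² ≤ (2+2L')⟨v⟩²`; `⟨z⟩ ≥ c⟨v⟩` (`c = min(δ, a₀^(-1/2))`). Not thin (`|m_e| > |m|/16`): `cM ≤ cN e t` for `t ≤ min(c,1/16)`. Thin: `thin_sgn` with `τ₂` small:
`Km Gs v ≤ Km (c₀ τ₂^(-2s))⁻¹ ∫_{Sg} Kn Gs v`, `Gs v ≤ 2 (F v - F y)²/Wp v + 2 F y²/Wp v ≤ 4 dF v y + 4 Gs y` (`|h| ≤ τ₂|m| ≤ τ₂ √(2+2L') ⟨v⟩`: `Wp y ≤ 2 Wp v`). First part: `(z,y) ∈ RegS` (`nsq h < θ(1+nsq v)`), `kM ≥ g2 z`: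
`≤ (1/2) LC` for `τ₂` small. Second part: `T3_J`: pair `(v,w)`, `y = v'`, `m := y-w`, `h := v-y`, `v-w = m+h`, `|v_e-w_e| = |m_e|+|h_e| ≥ |h|/2 ≥ τ₂|m|/4 ≥ τ₂|v-w|/8`, `⟨w⟩ ≥ c⟨y⟩ ≥ c⟨v⟩/2`: `cN e t`, and the mass of
`|h| ≥ τ₂|m|/2 ≥ τ₂|v-w|/4` is bounded (`big_ang`). `ω y ≤ 4 ω v`. `K₀` collects the constants.
-/

set_option autoImplicit false

open MeasureTheory Set Filter Topology Pool.Agent.H25.Kin Pool.Agent.H82.BK Pool.Agent.H82.CM
open Pool.Agent.H48.PL Pool.Agent.H48.PI Pool.Agent.H48.PW Pool.Agent.H82.NT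
open scoped ENNReal

namespace Pool.Agent.H15.G1

variable {d : ℕ} {γ s C Ca cb ε : ℝ} {b : ℝ → ℝ}

/-! ### geometry -/

private def tsR (P : Lp) (e : Fin d) : Set (Vec d × Vec d) :=
  {q | MedR P.δ P.a₀ P.L' q.1 q.2 ∧ |(q.1 - q.2) e| < len (q.1 - q.2) / 16}

private def tsS (P : Lp) (e : Fin d) (τ : ℝ) : Set (Vec d × Vec d × Vec d) :=
  {q | MedR P.δ P.a₀ P.L' q.1 q.2.1 ∧ |(q.1 - q.2.1) e| < len (q.1 - q.2.1) / 16 ∧
    q.2.2 - q.1 ∈ SdS e τ (q.1 - q.2.1) ∧ 0 ≤ (q.2.2 - q.1) e * (q.1 - q.2.1) e}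

private noncomputable def tsT (P : Lp) (e : Fin d) (v z : Vec d) : ℝ :=
  (tsR P e).indicator (fun _ => 1) (v, z)

private noncomputable def tsI (P : Lp) (e : Fin d) (τ : ℝ) (v z y : Vec d) : ℝ :=
  (tsS P e τ).indicator (fun _ => 1) (v, z, y)

private def tsBs (τ : ℝ) : Set (Vec d × Vec d × Vec d) :=
  {q | (τ / 4) ^ 2 * nsq (q.1 - q.2.1) ≤ nsq (q.2.2 - q.1)}

private noncomputable def tsB (τ : ℝ) (v w y : Vec d) : ℝ :=
  (tsBs τ).indicator (fun _ => 1) (v, w, y)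

private lemma tsR_meas (P : Lp) (e : Fin d) : MeasurableSet (tsR P e) := by
  have h1 : Continuous fun q : Vec d × Vec d => |(q.1 - q.2) e| :=
    ((continuous_apply e).comp (continuous_fst.sub continuous_snd)).abs
  have h2 : Continuous fun q : Vec d × Vec d => len (q.1 - q.2) / 16 :=
    (continuous_len.comp (continuous_fst.sub continuous_snd)).div_const _
  exact (meas_med P).inter (isOpen_lt h1 h2).measurableSet

private lemma tsS_meas (P : Lp) (e : Fin d) (τ : ℝ) : MeasurableSet (tsS P e τ) := by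
  have hc1 : Continuous fun q : Vec d × Vec d × Vec d => (q.1, q.2.1) :=
    continuous_fst.prodMk (continuous_fst.comp continuous_snd)
  have hm : Continuous fun q : Vec d × Vec d × Vec d => q.1 - q.2.1 :=
    continuous_fst.sub (continuous_fst.comp continuous_snd)
  have hh : Continuous fun q : Vec d × Vec d × Vec d => q.2.2 - q.1 :=
    (continuous_snd.comp continuous_snd).sub continuous_fst
  have h1 : Continuous fun q : Vec d × Vec d × Vec d => |(q.1 - q.2.1) e| :=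
    ((continuous_apply e).comp hm).abs
  have h2 : Continuous fun q : Vec d × Vec d × Vec d => len (q.1 - q.2.1) / 16 :=
    (continuous_len.comp hm).div_const _
  have h3 : Continuous fun q : Vec d × Vec d × Vec d => (q.2.2 - q.1) e * (q.1 - q.2.1) e :=
    ((continuous_apply e).comp hh).mul ((continuous_apply e).comp hm)
  have a1 : MeasurableSet {q : Vec d × Vec d × Vec d | MedR P.δ P.a₀ P.L' q.1 q.2.1} :=
    hc1.measurable (meas_med P)
  have a2 : MeasurableSet {q : Vec d × Vec d × Vec d | |(q.1 - q.2.1) e| < len (q.1 - q.2.1) / 16} :=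
    (isOpen_lt h1 h2).measurableSet
  have a3 : MeasurableSet {q : Vec d × Vec d × Vec d | q.2.2 - q.1 ∈ SdS e τ (q.1 - q.2.1)} :=
    (hm.prodMk hh).measurable (measurableSet_SdS e τ)
  have a4 : MeasurableSet {q : Vec d × Vec d × Vec d | 0 ≤ (q.2.2 - q.1) e * (q.1 - q.2.1) e} :=
    (isClosed_le continuous_const h3).measurableSet
  exact a1.inter (a2.inter (a3.inter a4))

private lemma tsBs_meas (τ : ℝ) : MeasurableSet (tsBs (d := d) τ) := by
  have hm : Continuous fun q : Vec d × Vec d × Vec d => nsq (q.1 - q.2.1) :=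
    continuous_sq.comp (continuous_fst.sub (continuous_fst.comp continuous_snd))
  have hh : Continuous fun q : Vec d × Vec d × Vec d => nsq (q.2.2 - q.1) :=
    continuous_sq.comp ((continuous_snd.comp continuous_snd).sub continuous_fst)
  exact (isClosed_le (continuous_const.mul hm) hh).measurableSet

private lemma tsT_meas (P : Lp) (e : Fin d) : Measurable fun q : Vec d × Vec d => tsT P e q.1 q.2 := by
  unfold tsT
  exact measurable_const.indicator (tsR_meas P e)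

private lemma tsI_meas (P : Lp) (e : Fin d) (τ : ℝ) :
    Measurable fun q : Vec d × Vec d × Vec d => tsI P e τ q.1 q.2.1 q.2.2 := by
  unfold tsI
  exact measurable_const.indicator (tsS_meas P e τ)

private lemma tsB_meas (τ : ℝ) :
    Measurable fun q : Vec d × Vec d × Vec d => tsB τ q.1 q.2.1 q.2.2 := by
  unfold tsB
  exact measurable_const.indicator (tsBs_meas τ)

private lemma tsT_nn (P : Lp) (e : Fin d) (v z : Vec d) : 0 ≤ tsT P e v z :=
  Set.indicator_nonneg (fun _ _ => zero_le_one) _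

private lemma tsI_nn (P : Lp) (e : Fin d) (τ : ℝ) (v z y : Vec d) : 0 ≤ tsI P e τ v z y :=
  Set.indicator_nonneg (fun _ _ => zero_le_one) _

private lemma tsB_nn (τ : ℝ) (v w y : Vec d) : 0 ≤ tsB τ v w y :=
  Set.indicator_nonneg (fun _ _ => zero_le_one) _

private lemma ts_m (P : Lp) {v z : Vec d} (h : MedR P.δ P.a₀ P.L' v z) :
    nsq (v - z) ≤ (2 + 2 * P.L') * (1 + nsq v) := by
  have h1 := nsq_par v z
  have h2 : 0 ≤ nsq (v + z) := sq_nonneg' _
  have h3 := h.1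
  have h4 : 0 ≤ nsq v := sq_nonneg' v
  linarith

private lemma ts_jb (P : Lp) (hP : P.Ok) {v z : Vec d} (h : MedR P.δ P.a₀ P.L' v z) :
    P.δ / P.a₀ * jb v ≤ jb z := by
  have ha := hP.ha₀
  have hδ := hP.hδ
  have hδ1 := hP.hδ1
  have ha0 : 0 < P.a₀ := by linarith
  have hc0 : 0 < P.δ / P.a₀ := by positivity
  have hc1 : P.δ / P.a₀ ≤ P.δ := div_le_self hδ.le ha
  have hv : 0 ≤ nsq v := sq_nonneg' v
  have hz : 0 ≤ nsq z := sq_nonneg' z
  have h0 : (P.δ / P.a₀) ^ 2 * (1 + nsq v) ≤ 1 + nsq z := by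
    by_cases hh : P.a₀ ≤ 1 + nsq v
    · have h2 : P.δ ^ 2 * (1 + nsq v) < nsq z := by
        by_contra hcon
        exact h.2 ⟨hh, not_lt.1 hcon⟩
      have h3 : (P.δ / P.a₀) ^ 2 ≤ P.δ ^ 2 := pow_le_pow_left₀ hc0.le hc1 2
      nlinarith
    · have hh' := not_le.1 hh
      have h3 : (P.δ / P.a₀) ^ 2 * P.a₀ ≤ 1 := by
        have h4 : (P.δ / P.a₀) ^ 2 * P.a₀ = P.δ ^ 2 / P.a₀ := by
          field_simp
        rw [h4, div_le_one ha0]
        nlinarith
      nlinarith [sq_nonneg (P.δ / P.a₀)]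
  unfold jb
  refine Real.le_sqrt_of_sq_le ?_
  rw [mul_pow, Real.sq_sqrt (by linarith)]
  exact h0

private lemma ts_disp2 (P : Lp) {e : Fin d} {τ : ℝ} {v z y : Vec d} (h : (v, z, y) ∈ tsS P e τ) :
    nsq (y - v) ≤ τ ^ 2 * (2 + 2 * P.L') * (1 + nsq v) := by
  obtain ⟨h1, -, h3, -⟩ := h
  have h4 := ts_m P h1
  have h5 : nsq (y - v) ≤ τ ^ 2 * nsq (v - z) := h3.2.1
  have h6 : τ ^ 2 * nsq (v - z) ≤ τ ^ 2 * ((2 + 2 * P.L') * (1 + nsq v)) :=
    mul_le_mul_of_nonneg_left h4 (sq_nonneg τ)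
  linarith

private lemma ts_disp (P : Lp) (hP : P.Ok) {e : Fin d} {τ : ℝ} (hτ : 0 < τ) {v z y : Vec d}
    (h : (v, z, y) ∈ tsS P e τ) : len (y - v) ≤ τ * Real.sqrt (2 + 2 * P.L') * jb v := by
  have h1 := ts_disp2 P h
  have hL := hP.hL34
  unfold len
  refine Real.sqrt_le_iff.2 ⟨?_, ?_⟩
  · have := jb_pos v
    positivity
  · rw [mul_pow, mul_pow, Real.sq_sqrt (by linarith), jb_sq]
    exact h1

private lemma ts_jby (P : Lp) (hP : P.Ok) {e : Fin d} {τ : ℝ} (hτ : 0 < τ) {v z y : Vec d}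
    (h : (v, z, y) ∈ tsS P e τ) : jb y ≤ (1 + τ * Real.sqrt (2 + 2 * P.L')) * jb v := by
  have h1 := ts_disp P hP hτ h
  have h2 := (abs_le.1 (jb_lip y v)).2
  linarith

private lemma ts_Wp (P : Lp) (hP : P.Ok) {e : Fin d} {τ : ℝ} (hτ : 0 < τ) (p : ℕ)
    (hp : (1 + τ * Real.sqrt (2 + 2 * P.L')) ^ (2 * p) ≤ 2) {v z y : Vec d}
    (h : (v, z, y) ∈ tsS P e τ) : Wp p y ≤ 2 * Wp p v := by
  have h1 := ts_jby P hP hτ h
  have h2 := (jb_pos y).le
  have h3 := (jb_pos v).le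
  have h4 : jb y ^ (2 * p) ≤ ((1 + τ * Real.sqrt (2 + 2 * P.L')) * jb v) ^ (2 * p) :=
    pow_le_pow_left₀ h2 h1 _
  unfold Wp
  rw [← jb_sq, ← jb_sq, ← pow_mul, ← pow_mul]
  rw [mul_pow] at h4
  refine h4.trans ?_
  exact mul_le_mul_of_nonneg_right hp (by positivity)

private lemma ts_G {gv gy A B : ℝ} (hA : 0 < A) (hB : 0 < B) (hBA : B ≤ 2 * A) :
    gv ^ 2 * A ≤ 4 * ((gv * A - gy * B) ^ 2 / B) + 4 * (gy ^ 2 * B) := by
  have e1 : 4 * ((gv * A - gy * B) ^ 2 / B) + 4 * (gy ^ 2 * B) =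
      (4 * (gv * A - gy * B) ^ 2 + 4 * (gy * B) ^ 2) / B := by
    field_simp
  rw [e1, le_div_iff₀ hB]
  have h1 : gv ^ 2 * A * B ≤ gv ^ 2 * A * (2 * A) :=
    mul_le_mul_of_nonneg_left hBA (by positivity)
  nlinarith [sq_nonneg (gv * A - 2 * (gy * B))]

private lemma ts_Gs (P : Lp) (hP : P.Ok) {e : Fin d} {τ : ℝ} (hτ : 0 < τ) (p : ℕ)
    (hp : (1 + τ * Real.sqrt (2 + 2 * P.L')) ^ (2 * p) ≤ 2) (g : Vec d → ℝ) {v z y : Vec d}
    (h : (v, z, y) ∈ tsS P e τ) : Gs p g v ≤ 4 * dF p g v y + 4 * Gs p g y :=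
  ts_G (Wp_pos p v) (Wp_pos p y) (ts_Wp P hP hτ p hp h)

private lemma ts_kM (P : Lp) (hP : P.Ok) {e : Fin d} {τ : ℝ}
    (hθ : τ ^ 2 * (2 + 2 * P.L') < P.θ) {g1 k : Vec d → ℝ} (h1 : ∀ u, 0 ≤ g1 u) {v z y : Vec d}
    (h : (v, z, y) ∈ tsS P e τ) : k z ≤ kM P g1 k v z y := by
  have h2 := ts_disp2 P h
  have hv : 0 ≤ nsq v := sq_nonneg' v
  have h3 : nsq (y - v) < P.θ * (1 + nsq v) := by
    refine lt_of_le_of_lt h2 ?_
    exact mul_lt_mul_of_pos_right hθ (by linarith)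
  have h4 : nsq (y - v) < (1 + nsq v) / 4 := by
    have := hP.hθ1
    nlinarith
  have hR : (z, y) ∈ RegS P.θ P.L v := by
    refine ⟨fun hc => ?_, fun hc => ?_⟩
    · have := hc.2
      simp only at this
      linarith
    · have := hc.2
      simp only at this
      linarith
  unfold kM
  rw [if_pos hR]
  by_cases hAS : AS P v z y
  · rw [if_pos hAS]
    linarith
  · rw [if_neg hAS]
    linarith [h1 z]

/-- the geometry after the exchange -/
private lemma ts_exch (P : Lp) (hP : P.Ok) {e : Fin d} {τ t : ℝ} (hτ : 0 < τ) (hτ1 : τ ≤ 1)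
    (hη : τ * Real.sqrt (2 + 2 * P.L') ≤ 1) (ht0 : 0 ≤ t) (ht : t ≤ P.δ / P.a₀ / 2) (ht2 : t ≤ τ / 8)
    {v w y z : Vec d} (hG : Geo v w y z) (h : (y, w, v) ∈ tsS P e τ) :
    cN e t v w = 1 ∧ tsB τ v w y = 1 := by
  have h1 := ts_jby P hP hτ h
  obtain ⟨hM, -, hS, hs⟩ := h
  simp only at hM hS hs
  have hpos := hG.pos
  have htot := hG.tot
  rw [hpos.2.1] at htot
  have hS1 : τ ^ 2 / 4 * nsq (y - w) ≤ nsq (v - y) := hS.1
  have hS2 : nsq (v - y) ≤ τ ^ 2 * nsq (y - w) := hS.2.1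
  have hS3 : len (v - y) ≤ 2 * |(v - y) e| := hS.2.2
  have hyv : nsq (v - y) = nsq (y - v) := by rw [← sq_neg, neg_sub]
  rw [hyv] at hS1 hS2
  have hmw : 0 ≤ nsq (y - w) := sq_nonneg' _
  have hτ2 : τ ^ 2 ≤ 1 := by nlinarith
  have h4 : nsq (v - w) ≤ 4 * nsq (y - w) := by nlinarith
  have h5 : (τ / 4) ^ 2 * nsq (v - w) ≤ nsq (y - v) := by
    have h6 : (τ / 4) ^ 2 * nsq (v - w) ≤ (τ / 4) ^ 2 * (4 * nsq (y - w)) :=
      mul_le_mul_of_nonneg_left h4 (sq_nonneg _)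
    nlinarith
  have h7 : τ / 4 * len (v - w) ≤ len (v - y) := by
    have h8 : (τ / 4 * len (v - w)) ^ 2 ≤ len (v - y) ^ 2 := by
      rw [mul_pow, len_sq, len_sq, hyv]
      exact h5
    exact le_of_sq_le_sq h8 (len_nonneg _)
  have h9 : |(v - y) e| ≤ |v e - w e| := by
    refine sq_le_sq.1 ?_
    have e1 : v e - w e = (v - y) e + (y - w) e := by
      simp
    rw [e1]
    nlinarith [sq_nonneg ((y - w) e)]
  have hl := len_nonneg (v - w)
  have h10 : t * len (v - w) ≤ |v e - w e| := by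
    have : t * len (v - w) ≤ τ / 8 * len (v - w) := mul_le_mul_of_nonneg_right ht2 hl
    linarith
  have h11 : t * jb v ≤ jb w := by
    have h12 := ts_jb P hP hM
    have h13 : jb v ≤ 2 * jb y := by
      have := jb_pos y
      nlinarith
    have h14 : t * jb v ≤ P.δ / P.a₀ / 2 * (2 * jb y) :=
      mul_le_mul ht h13 (jb_pos v).le (by linarith)
    linarith
  refine ⟨?_, ?_⟩
  · unfold cN
    rw [if_pos ⟨h11, h10⟩]
  · unfold tsB
    exact Set.indicator_of_mem (show (v, w, y) ∈ tsBs τ from h5) _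

/-! ### the three steps -/

open Classical in
private lemma ts_one (HL : HypL d γ s b C Ca cb) (P : Lp) (e : Fin d) (p : ℕ) {τ ε Km A B : ℝ}
    (hε : 0 < ε) (hA : 0 ≤ A) (hAB : A * B = Km)
    (hsgn : ∀ m : Vec d, m ≠ 0 → |m e| ≤ len m / 16 →
      ENNReal.ofReal B ≤ ∫⁻ σ in {σ : Vec d | 0 < dot m σ},
        (if hh σ m ∈ SdS e τ m ∧ 0 ≤ hh σ m e * m e then
          ENNReal.ofReal (Kn d γ (bt b ε) (co m σ)) else 0) ∂(surf d))
    {g k ω : Vec d → ℝ} (hq : Measurable fun v => ω v * Gs p g v) (hk : Measurable k)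
    (hq0 : ∀ v, 0 ≤ ω v * Gs p g v) (hk0 : ∀ v, 0 ≤ k v) :
    LI γ p g k ω (fun v z => Km * tsT P e v z) ≤
      T3 γ b ε fun v _ y z => ENNReal.ofReal (k z * ((ω v * Gs p g v) * (A * tsI P e τ v z y))) := by
  rw [T3_carF HL.H hε (T := fun v z y => A * tsI P e τ v z y) hq hk
    (measurable_const.mul (tsI_meas P e τ)) hq0 hk0 (fun v z y => mul_nonneg hA (tsI_nn P e τ v z y))]
  unfold LI
  refine lintegral_mono fun v => ?_
  refine mul_le_mul le_rfl ?_ zero_le zero_le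
  rw [← lintegral_sub_left_eq_self _ v]
  refine lintegral_mono fun m => ?_
  dsimp only
  rw [sub_sub_cancel]
  have hlk : 0 ≤ len m ^ γ * k (v - m) := mul_nonneg (Real.rpow_nonneg (len_nonneg m) γ) (hk0 _)
  by_cases h : (v, v - m) ∈ tsR P e
  · have hT : tsT P e v (v - m) = 1 := by
      unfold tsT
      exact Set.indicator_of_mem h _
    obtain ⟨hM, hth⟩ := h
    simp only [sub_sub_cancel] at hM hth
    have hm : m ≠ 0 := by
      rintro rfl
      rw [len_zero] at hth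
      have := abs_nonneg ((0 : Vec d) e)
      linarith
    rw [hT, mul_one]
    have e1 : k (v - m) * len m ^ γ * Km = len m ^ γ * k (v - m) * (A * B) := by
      rw [hAB]; ring
    rw [e1, ENNReal.ofReal_mul hlk, ENNReal.ofReal_mul hA]
    refine mul_le_mul le_rfl ?_ zero_le zero_le
    refine (mul_le_mul le_rfl (hsgn m hm hth.le) zero_le zero_le).trans ?_
    rw [← lintegral_const_mul' _ _ ENNReal.ofReal_ne_top]
    refine lintegral_mono fun σ => ?_
    dsimp only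
    by_cases hh1 : hh σ m ∈ SdS e τ m ∧ 0 ≤ hh σ m e * m e
    · rw [if_pos hh1]
      have hI : tsI P e τ v (v - m) (v + hh σ m) = 1 := by
        unfold tsI
        refine Set.indicator_of_mem ?_ _
        refine ⟨hM, ?_, ?_, ?_⟩
        · simp only [sub_sub_cancel]; exact hth
        · simp only [sub_sub_cancel, add_sub_cancel_left]; exact hh1.1
        · simp only [sub_sub_cancel, add_sub_cancel_left]; exact hh1.2
      rw [hI, mul_one, mul_comm (Kn _ _ _ _), ENNReal.ofReal_mul hA]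
    · rw [if_neg hh1, mul_zero]
      exact zero_le
  · have hT : tsT P e v (v - m) = 0 := by
      unfold tsT
      exact Set.indicator_of_notMem h _
    rw [hT, mul_zero, mul_zero, ENNReal.ofReal_zero]
    exact zero_le

private lemma ts_m2 (p : ℕ) {A : ℝ} (P : Lp) (e : Fin d) (τ : ℝ) {g k ω : Vec d → ℝ} (hg : Measurable g)
    (hk : Measurable k) (hω : Measurable ω) :
    Meas4 (d := d) fun v _ y z => ENNReal.ofReal (k z * ((ω v * (A * Gs p g y)) * tsI P e τ v z y)) := by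
  unfold Meas4
  have h1 : Measurable fun q : Vec d × Vec d × Vec d × Vec d => q.1 := measurable_fst
  have h3 : Measurable fun q : Vec d × Vec d × Vec d × Vec d => q.2.2.1 :=
    measurable_fst.comp (measurable_snd.comp measurable_snd)
  have h4 : Measurable fun q : Vec d × Vec d × Vec d × Vec d => q.2.2.2 :=
    measurable_snd.comp (measurable_snd.comp measurable_snd)
  have h5 : Measurable fun q : Vec d × Vec d × Vec d × Vec d => tsI P e τ q.1 q.2.2.2 q.2.2.1 :=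
    Measurable.comp (g := fun q : Vec d × Vec d × Vec d => tsI P e τ q.1 q.2.1 q.2.2)
      (f := fun q : Vec d × Vec d × Vec d × Vec d => (q.1, q.2.2.2, q.2.2.1))
      (tsI_meas P e τ) (h1.prodMk (h4.prodMk h3))
  exact ((hk.comp h4).mul (((hω.comp h1).mul (measurable_const.mul ((meas_Gs p hg).comp h3))).mul
    h5)).ennreal_ofReal

private lemma ts_two (P : Lp) (hP : P.Ok) {e : Fin d} {τ A : ℝ} (hτ : 0 < τ) (p : ℕ) (hA : 0 ≤ A)
    (hA8 : A ≤ 1 / 8) (hp : (1 + τ * Real.sqrt (2 + 2 * P.L')) ^ (2 * p) ≤ 2)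
    (hθ : τ ^ 2 * (2 + 2 * P.L') < P.θ) {g g1 k ω : Vec d → ℝ} (h1 : ∀ u, 0 ≤ g1 u)
    (hk0 : ∀ u, 0 ≤ k u) (hω0 : ∀ u, 0 ≤ ω u) (v z y : Vec d) :
    ENNReal.ofReal (k z * ((ω v * Gs p g v) * (A * tsI P e τ v z y))) ≤
      ENNReal.ofReal (1 / 2) * ENNReal.ofReal (kM P g1 k v z y * (ω v * dF p g v y)) +
        ENNReal.ofReal (k z * ((ω v * (4 * A * Gs p g y)) * tsI P e τ v z y)) := by
  by_cases h : (v, z, y) ∈ tsS P e τ
  · have hI : tsI P e τ v z y = 1 := by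
      unfold tsI
      exact Set.indicator_of_mem h _
    have h2 := ts_Gs P hP hτ p hp g h
    have h3 := ts_kM P hP hθ (k := k) h1 h
    have hdF : 0 ≤ dF p g v y := div_nonneg (sq_nonneg _) (Wp_pos p y).le
    have hkω : 0 ≤ k z * ω v := mul_nonneg (hk0 z) (hω0 v)
    have hGy := Gs_nonneg p g y
    rw [hI, mul_one, mul_one, ← ENNReal.ofReal_mul (by norm_num), ← ENNReal.ofReal_add]
    · refine ENNReal.ofReal_le_ofReal ?_
      have h4 : k z * (ω v * Gs p g v * A) ≤ k z * ω v * A * (4 * dF p g v y + 4 * Gs p g y) := by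
        have := mul_le_mul_of_nonneg_left h2 (mul_nonneg hkω hA)
        linarith
      have h5 : k z * (ω v * dF p g v y) ≤ kM P g1 k v z y * (ω v * dF p g v y) :=
        mul_le_mul_of_nonneg_right h3 (mul_nonneg (hω0 v) hdF)
      have h6 : k z * ω v * A * (4 * dF p g v y) ≤ 1 / 2 * (k z * (ω v * dF p g v y)) := by
        have h7 : A * (4 * (k z * ω v * dF p g v y)) ≤ 1 / 8 * (4 * (k z * ω v * dF p g v y)) :=
          mul_le_mul_of_nonneg_right hA8 (by positivity)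
        linarith
      linarith
    · have := (hk0 z).trans h3
      have := hω0 v
      positivity
    · have := hk0 z
      have := hω0 v
      positivity
  · have hI : tsI P e τ v z y = 0 := by
      unfold tsI
      exact Set.indicator_of_notMem h _
    rw [hI, mul_zero, mul_zero, mul_zero, ENNReal.ofReal_zero]
    exact zero_le

private lemma ts_m4 (P : Lp) (p : ℕ) {g g1 k ω : Vec d → ℝ} (hg : Measurable g) (hg1 : Measurable g1)
    (hk : Measurable k) (hω : Measurable ω) :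
    Meas4 (d := d) fun v _ y z => ENNReal.ofReal (1 / 2) *
      ENNReal.ofReal (kM P g1 k v z y * (ω v * dF p g v y)) := by
  unfold Meas4
  have h1 : Measurable fun q : Vec d × Vec d × Vec d × Vec d => q.1 := measurable_fst
  have h3 : Measurable fun q : Vec d × Vec d × Vec d × Vec d => q.2.2.1 :=
    measurable_fst.comp (measurable_snd.comp measurable_snd)
  have h4 : Measurable fun q : Vec d × Vec d × Vec d × Vec d => q.2.2.2 :=
    measurable_snd.comp (measurable_snd.comp measurable_snd)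
  have h5 : Measurable fun q : Vec d × Vec d × Vec d × Vec d => kM P g1 k q.1 q.2.2.2 q.2.2.1 :=
    Measurable.comp (g := fun q : Vec d × Vec d × Vec d => kM P g1 k q.1 q.2.1 q.2.2)
      (f := fun q : Vec d × Vec d × Vec d × Vec d => (q.1, q.2.2.2, q.2.2.1))
      (meas_kM P hg1 hk) (h1.prodMk (h4.prodMk h3))
  have h6 : Measurable fun q : Vec d × Vec d × Vec d × Vec d => dF p g q.1 q.2.2.1 :=
    Measurable.comp (g := fun q : Vec d × Vec d => dF p g q.1 q.2)
      (f := fun q : Vec d × Vec d × Vec d × Vec d => (q.1, q.2.2.1)) (meas_dF p hg) (h1.prodMk h3)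
  have h7 : Measurable fun q : Vec d × Vec d × Vec d × Vec d =>
      kM P g1 k q.1 q.2.2.2 q.2.2.1 * (ω q.1 * dF p g q.1 q.2.2.1) := h5.mul ((hω.comp h1).mul h6)
  exact measurable_const.mul h7.ennreal_ofReal

private lemma ts_four (HL : HypL d γ s b C Ca cb) (P : Lp) (hP : P.Ok) {e : Fin d} {τ A : ℝ} (hτ : 0 < τ)
    (p : ℕ) (hA : 0 ≤ A)
    (hA8 : A ≤ 1 / 8) (hp : (1 + τ * Real.sqrt (2 + 2 * P.L')) ^ (2 * p) ≤ 2)
    (hθ : τ ^ 2 * (2 + 2 * P.L') < P.θ) {g g1 k ω : Vec d → ℝ} (hg : Measurable g) (hg1 : Measurable g1)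
    (hk : Measurable k) (hω : Measurable ω) (h1 : ∀ u, 0 ≤ g1 u)
    (hk0 : ∀ u, 0 ≤ k u) (hω0 : ∀ u, 0 ≤ ω u) :
    (T3 γ b ε fun v _ y z => ENNReal.ofReal (k z * ((ω v * Gs p g v) * (A * tsI P e τ v z y)))) ≤
      ENNReal.ofReal (1 / 2) * (T3 γ b ε fun v _ y z =>
          ENNReal.ofReal (kM P g1 k v z y * (ω v * dF p g v y))) +
        T3 γ b ε fun v _ y z => ENNReal.ofReal (k z * ((ω v * (4 * A * Gs p g y)) * tsI P e τ v z y)) := by
  rw [← T3_mul (1 / 2) (by norm_num), ← T3_add HL.H.bm (ts_m4 P p hg hg1 hk hω)]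
  exact T3_mono HL.H.hd1 fun v w y z _ => ts_two P hP hτ p hA hA8 hp hθ h1 hk0 hω0 v z y

open Classical in
private lemma ts_three (HL : HypL d γ s b C Ca cb) (P : Lp) (hP : P.Ok) (e : Fin d) (p : ℕ)
    {τ ε A K t : ℝ} (hε : 0 < ε) (hA : 0 ≤ A) (hτ : 0 < τ) (hτ1 : τ ≤ 1)
    (hη : τ * Real.sqrt (2 + 2 * P.L') ≤ 1) (ht0 : 0 ≤ t) (ht : t ≤ P.δ / P.a₀ / 2) (ht2 : t ≤ τ / 8)
    (hbig : ∀ v w : Vec d, v ≠ w → ∫⁻ σ, (if (τ / 4) ^ 2 * nsq (v - w) ≤ nsq (post v w σ - v) then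
      ENNReal.ofReal (bt b ε (cosTh v w σ)) else 0) ∂(surf d) ≤ ENNReal.ofReal K)
    {g k ω : Vec d → ℝ} (hg : Measurable g) (hω : Measurable ω) (hk : Measurable k)
    (hk0 : ∀ v, 0 ≤ k v) (hω1 : ∀ v, 1 / 2 ≤ ω v) (hω2 : ∀ v, ω v ≤ 2) :
    (T3 γ b ε fun v _ y z => ENNReal.ofReal (k z * ((ω v * (A * Gs p g y)) * tsI P e τ v z y))) ≤
      LI γ p g k ω (fun v z => 4 * A * K * cN e t v z) := by
  have hd1 := HL.H.hd1
  rw [T3_J HL.H ε (ts_m2 p P e τ hg hk hω)]
  have hcN0 : ∀ v w : Vec d, 0 ≤ cN e t v w := by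
    intro v w
    unfold cN
    split_ifs <;> norm_num
  have hq0 : ∀ v, 0 ≤ ω v * Gs p g v := fun v => mul_nonneg (by linarith [hω1 v]) (Gs_nonneg p g v)
  have hT : Measurable fun q : Vec d × Vec d × Vec d =>
      4 * A * (cN e t q.1 q.2.1 * tsB τ q.1 q.2.1 q.2.2) := by
    have h1 : Measurable fun q : Vec d × Vec d × Vec d => cN e t q.1 q.2.1 :=
      Measurable.comp (g := fun q : Vec d × Vec d => cN e t q.1 q.2)
        (f := fun q : Vec d × Vec d × Vec d => (q.1, q.2.1)) (meas_cN e t)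
        (measurable_fst.prodMk (measurable_fst.comp measurable_snd))
    exact measurable_const.mul (h1.mul (tsB_meas τ))
  calc (T3 γ b ε fun v w y z => ENNReal.ofReal (k w * ((ω y * (A * Gs p g v)) * tsI P e τ y w v)))
      ≤ T3 γ b ε fun v w y _ => ENNReal.ofReal (k w * ((ω v * Gs p g v) *
          (4 * A * (cN e t v w * tsB τ v w y)))) := by
        refine T3_mono hd1 fun v w y z hG => ?_
        by_cases h : (y, w, v) ∈ tsS P e τ
        · have hI : tsI P e τ y w v = 1 := by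
            unfold tsI
            exact Set.indicator_of_mem h _
          obtain ⟨h1, h2⟩ := ts_exch P hP hτ hτ1 hη ht0 ht ht2 hG h
          rw [hI, h1, h2, mul_one, mul_one, mul_one]
          refine ENNReal.ofReal_le_ofReal (mul_le_mul_of_nonneg_left ?_ (hk0 w))
          have h3 : ω y ≤ 4 * ω v := by linarith [hω2 y, hω1 v]
          have h4 : 0 ≤ A * Gs p g v := mul_nonneg hA (Gs_nonneg p g v)
          have h5 := mul_le_mul_of_nonneg_right h3 h4
          linarith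
        · have hI : tsI P e τ y w v = 0 := by
            unfold tsI
            exact Set.indicator_of_notMem h _
          rw [hI, mul_zero, mul_zero, ENNReal.ofReal_zero]
          exact zero_le
    _ = ∫⁻ v, ENNReal.ofReal (ω v * Gs p g v) * ∫⁻ w, ENNReal.ofReal (k w * len (v - w) ^ γ) *
        ∫⁻ σ, ENNReal.ofReal (bt b ε (cosTh v w σ) *
          (4 * A * (cN e t v w * tsB τ v w (post v w σ)))) ∂(surf d) :=
        T3_loss HL.H hε (T := fun v w y => 4 * A * (cN e t v w * tsB τ v w y))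
          (hω.mul (meas_Gs p hg)) hk hT hq0 hk0
          (fun v w y => mul_nonneg (by linarith) (mul_nonneg (hcN0 v w) (tsB_nn τ v w y)))
    _ ≤ LI γ p g k ω (fun v z => 4 * A * K * cN e t v z) := by
        unfold LI
        refine lintegral_mono fun v => ?_
        refine mul_le_mul le_rfl ?_ zero_le zero_le
        have hne : ∀ᵐ w ∂(volume : Measure (Vec d)), v ≠ w := by
          have hne : Nonempty (Fin d) := ⟨⟨0, by omega⟩⟩
          have : (volume : Measure (Vec d)) {v} = 0 := measure_singleton v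
          filter_upwards [compl_mem_ae_iff.2 this] with w hw h
          exact hw h.symm
        refine lintegral_mono_ae ?_
        filter_upwards [hne] with w hw
        have hl : 0 ≤ k w * len (v - w) ^ γ := mul_nonneg (hk0 w) (Real.rpow_nonneg (len_nonneg _) γ)
        rw [ENNReal.ofReal_mul hl]
        refine mul_le_mul le_rfl ?_ zero_le zero_le
        have hAc : 0 ≤ 4 * A * cN e t v w := mul_nonneg (by linarith) (hcN0 v w)
        have e1 : 4 * A * K * cN e t v w = 4 * A * cN e t v w * K := by ring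
        rw [e1, ENNReal.ofReal_mul hAc]
        refine le_trans ?_ (mul_le_mul le_rfl (hbig v w hw) zero_le zero_le)
        rw [← lintegral_const_mul' _ _ ENNReal.ofReal_ne_top]
        refine lintegral_mono fun σ => ?_
        dsimp only
        by_cases h : (τ / 4) ^ 2 * nsq (v - w) ≤ nsq (post v w σ - v)
        · rw [if_pos h]
          have hB : tsB τ v w (post v w σ) = 1 := by
            unfold tsB
            exact Set.indicator_of_mem (show (v, w, post v w σ) ∈ tsBs τ from h) _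
          rw [hB, mul_one, mul_comm (bt _ _ _), ENNReal.ofReal_mul hAc]
        · rw [if_neg h]
          have hB : tsB τ v w (post v w σ) = 0 := by
            unfold tsB
            exact Set.indicator_of_notMem (show (v, w, post v w σ) ∉ tsBs τ from h) _
          rw [hB, mul_zero, mul_zero, mul_zero, ENNReal.ofReal_zero]
          exact zero_le

/-! ### the parameter -/

private lemma ts_param (P : Lp) (hP : P.Ok) (hs : 0 < s) (p : ℕ) {c Km : ℝ} :
    ∃ τ : ℝ, 0 < τ ∧ τ ≤ 1 / 4 ∧ (1 + τ * Real.sqrt (2 + 2 * P.L')) ^ (2 * p) ≤ 2 ∧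
      τ ^ 2 * (2 + 2 * P.L') < P.θ ∧ τ * Real.sqrt (2 + 2 * P.L') ≤ 1 ∧ Km * (τ ^ (2 * s) / c) ≤ 1 / 8 := by
  set M := Real.sqrt (2 + 2 * P.L') with hM
  have hθ := hP.hθ
  have e1 : ∀ᶠ τ : ℝ in 𝓝 0, τ < 1 / 4 := eventually_lt_nhds (by norm_num)
  have e2 : ∀ᶠ τ : ℝ in 𝓝 0, (1 + τ * M) ^ (2 * p) < 2 := by
    have h1 : Continuous fun τ : ℝ => (1 + τ * M) ^ (2 * p) := by fun_prop
    have h2 := h1.tendsto 0
    simp only [zero_mul, add_zero, one_pow] at h2
    exact h2.eventually_lt_const (by norm_num)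
  have e3 : ∀ᶠ τ : ℝ in 𝓝 0, τ ^ 2 * (2 + 2 * P.L') < P.θ := by
    have h1 : Continuous fun τ : ℝ => τ ^ 2 * (2 + 2 * P.L') := by fun_prop
    have h2 := h1.tendsto 0
    simp only [ne_eq, OfNat.ofNat_ne_zero, not_false_eq_true, zero_pow, zero_mul] at h2
    exact h2.eventually_lt_const hθ
  have e4 : ∀ᶠ τ : ℝ in 𝓝 0, τ * M < 1 := by
    have h1 : Continuous fun τ : ℝ => τ * M := by fun_prop
    have h2 := h1.tendsto 0
    simp only [zero_mul] at h2
    exact h2.eventually_lt_const (by norm_num)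
  have e5 : ∀ᶠ τ : ℝ in 𝓝 0, Km * (τ ^ (2 * s) / c) < 1 / 8 := by
    have h1 : Tendsto (fun τ : ℝ => τ ^ (2 * s)) (𝓝 0) (𝓝 (0 ^ (2 * s))) :=
      (Real.continuousAt_rpow_const 0 (2 * s) (Or.inr (by linarith))).tendsto
    have h2 := (h1.div_const c).const_mul Km
    rw [Real.zero_rpow (by linarith), zero_div, mul_zero] at h2
    exact h2.eventually_lt_const (by norm_num)
  have e6 : ∀ᶠ τ : ℝ in 𝓝[>] 0, 0 < τ := eventually_mem_nhdsWithin
  have e7 := ((((e1.and e2).and e3).and e4).and e5).filter_mono (nhdsWithin_le_nhds (s := Ioi (0 : ℝ)))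
  obtain ⟨τ, ⟨⟨⟨⟨h1, h2⟩, h3⟩, h4⟩, h5⟩, h6⟩ := (e7.and e6).exists
  exact ⟨τ, h6, h1.le, h2.le, h3, h4.le, h5.le⟩

/-! ### the theorem -/

theorem thin_s (HL : HypL d γ s b C Ca cb) (hγ : 0 ≤ γ) (P : Lp) (hP : P.Ok) (e : Fin d) (Km : ℝ) (hKm : 0 ≤ Km) :
    ∃ t K₀ ε₀ : ℝ, 0 < t ∧ t ≤ 1 ∧ 0 ≤ K₀ ∧ 0 < ε₀ ∧ ∀ ε : ℝ, 0 < ε → ε ≤ ε₀ → ∀ g g1 ω : Vec d → ℝ, Dat g g1 ω →
      LI γ (2 * P.p') g (gR g g1) ω (fun v z => Km * cM P v z) ≤
        ENNReal.ofReal (1 / 2) * LC γ b ε P g g1 (gR g g1) ω +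
          LI γ (2 * P.p') g (gR g g1) ω (fun v z => K₀ * cN e t v z) := by
  have _ := hγ
  obtain ⟨c, hc, hth⟩ := thin_sgn HL e
  obtain ⟨K, hK, hbig⟩ := big_ang HL.H
  obtain ⟨τ, hτ, hτ4, hp, hθ, hη, hKτ⟩ := ts_param (s := s) P hP HL.H.hs (2 * P.p') (c := c) (Km := Km)
  obtain ⟨A, hAdef⟩ : ∃ A : ℝ, A = Km * (τ ^ (2 * s) / c) := ⟨_, rfl⟩
  have hτs : 0 < τ ^ (2 * s) := Real.rpow_pos_of_pos hτ _
  have hA : 0 ≤ A := by rw [hAdef]; positivity
  have hA8 : A ≤ 1 / 8 := by rw [hAdef]; exact hKτ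
  have hAB : A * (c * τ ^ (-(2 * s))) = Km := by
    rw [hAdef, Real.rpow_neg hτ.le]
    field_simp
  have ha0 : 0 < P.a₀ := by linarith [hP.ha₀]
  have hδa : 0 < P.δ / P.a₀ / 2 := by
    have := hP.hδ
    positivity
  obtain ⟨t, htdef⟩ : ∃ t : ℝ, t = min (P.δ / P.a₀ / 2) (τ / 8) := ⟨_, rfl⟩
  have ht : 0 < t := by rw [htdef]; exact lt_min hδa (by linarith)
  have ht1 : t ≤ P.δ / P.a₀ / 2 := by rw [htdef]; exact min_le_left _ _
  have ht2 : t ≤ τ / 8 := by rw [htdef]; exact min_le_right _ _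
  obtain ⟨K1, hK1def⟩ : ∃ K1 : ℝ, K1 = K * (τ / 4) ^ (-(2 * s)) := ⟨_, rfl⟩
  have hK1 : 0 ≤ K1 := by
    rw [hK1def]
    have : 0 < (τ / 4) ^ (-(2 * s)) := Real.rpow_pos_of_pos (by linarith) _
    positivity
  refine ⟨t, Km + 4 * (4 * A) * K1, τ ^ 2 / 2, ht, by linarith, by positivity, by positivity, ?_⟩
  intro ε hε hε0 g g1 ω D
  have hgm : Measurable g := D.nice.cont.measurable
  have hkm : Measurable (gR g g1) := hgm.sub D.m1
  have hωm : Measurable ω := D.ωc.measurable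
  have hk0 : ∀ u, 0 ≤ gR g g1 u := fun u => sub_nonneg.2 (D.le u)
  have hω0 : ∀ u, 0 ≤ ω u := fun u => by linarith [D.ωl u]
  have hq : Measurable fun v => ω v * Gs (2 * P.p') g v := hωm.mul (meas_Gs _ hgm)
  have hq0 : ∀ v, 0 ≤ ω v * Gs (2 * P.p') g v := fun v => mul_nonneg (hω0 v) (Gs_nonneg _ g v)
  have hcN0 : ∀ v w : Vec d, 0 ≤ cN e t v w := by
    intro v w
    unfold cN
    split_ifs <;> norm_num
  -- splitting
  have s1 : LI γ (2 * P.p') g (gR g g1) ω (fun v z => Km * cM P v z) ≤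
      LI γ (2 * P.p') g (gR g g1) ω (fun v z => Km * cN e t v z + Km * tsT P e v z) := by
    unfold LI
    refine lintegral_mono fun v => ?_
    refine mul_le_mul le_rfl ?_ zero_le zero_le
    refine lintegral_mono fun z => ?_
    refine ENNReal.ofReal_le_ofReal (mul_le_mul_of_nonneg_left ?_
      (mul_nonneg (hk0 z) (Real.rpow_nonneg (len_nonneg _) γ)))
    change Km * cM P v z ≤ Km * cN e t v z + Km * tsT P e v z
    rw [← mul_add]
    refine mul_le_mul_of_nonneg_left ?_ hKm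
    by_cases hM : MedR P.δ P.a₀ P.L' v z
    · have hcM : cM P v z = 1 := by
        unfold cM
        rw [if_pos hM]
      rw [hcM]
      by_cases hN : t * len (v - z) ≤ |v e - z e|
      · have hj : t * jb v ≤ jb z := by
          have h1 := ts_jb P hP hM
          have h2 : t * jb v ≤ P.δ / P.a₀ * jb v :=
            mul_le_mul_of_nonneg_right (by linarith) (jb_pos v).le
          linarith
        have h3 : cN e t v z = 1 := by
          unfold cN
          rw [if_pos ⟨hj, hN⟩]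
        rw [h3]
        linarith [tsT_nn P e v z]
      · have h4 : tsT P e v z = 1 := by
          unfold tsT
          refine Set.indicator_of_mem ?_ _
          refine ⟨hM, ?_⟩
          have h5 := not_le.1 hN
          have h6 : t * len (v - z) ≤ len (v - z) / 16 := by
            have := len_nonneg (v - z)
            nlinarith
          simp only [Pi.sub_apply]
          linarith
        rw [h4]
        linarith [hcN0 v z]
    · have hcM : cM P v z = 0 := by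
        unfold cM
        rw [if_neg hM]
      rw [hcM]
      linarith [hcN0 v z, tsT_nn P e v z]
  have hcNm : Measurable fun q : Vec d × Vec d => cN e t q.1 q.2 := meas_cN e t
  have s2 : LI γ (2 * P.p') g (gR g g1) ω (fun v z => Km * cN e t v z + Km * tsT P e v z) =
      LI γ (2 * P.p') g (gR g g1) ω (fun v z => Km * cN e t v z) +
        LI γ (2 * P.p') g (gR g g1) ω (fun v z => Km * tsT P e v z) :=
    LI_add hgm hkm hωm (measurable_const.mul hcNm) (measurable_const.mul (tsT_meas P e)) hk0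
      (fun v z => mul_nonneg hKm (hcN0 v z)) (fun v z => mul_nonneg hKm (tsT_nn P e v z))
  have s3 := ts_one (ε := ε) (Km := Km) HL P e (2 * P.p') hε hA hAB
    (fun m hm hme => hth τ hτ hτ4 m hm hme ε hε hε0) (g := g) (ω := ω) hq hkm hq0 hk0
  have s4 := ts_four (γ := γ) (A := A) (ε := ε) HL P hP (e := e) hτ (2 * P.p') hA hA8 hp hθ hgm D.m1 hkm hωm
    D.g10 hk0 hω0
  have s5 := ts_three (γ := γ) (A := 4 * A) (K := K1) (ε := ε) HL P hP e (2 * P.p') hε (by linarith) hτ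
    (by linarith) hη ht.le ht1 ht2 (g := g) (k := gR g g1) (ω := ω)
    (fun v w hvw => by
      rw [hK1def]
      exact hbig ε hε (τ / 4) (by linarith) (by linarith) v w hvw) hgm hωm hkm hk0 D.ωl D.ωu
  have s6 : LI γ (2 * P.p') g (gR g g1) ω (fun v z => (Km + 4 * (4 * A) * K1) * cN e t v z) =
      LI γ (2 * P.p') g (gR g g1) ω (fun v z => Km * cN e t v z) +
        LI γ (2 * P.p') g (gR g g1) ω (fun v z => 4 * (4 * A) * K1 * cN e t v z) := by
    rw [← LI_add hgm hkm hωm (measurable_const.mul hcNm) (measurable_const.mul hcNm) hk0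
      (fun v z => mul_nonneg hKm (hcN0 v z)) (fun v z => mul_nonneg (by positivity) (hcN0 v z))]
    simp only [add_mul]
  rw [s6]
  refine s1.trans ?_
  rw [s2]
  calc LI γ (2 * P.p') g (gR g g1) ω (fun v z => Km * cN e t v z) +
        LI γ (2 * P.p') g (gR g g1) ω (fun v z => Km * tsT P e v z)
      ≤ LI γ (2 * P.p') g (gR g g1) ω (fun v z => Km * cN e t v z) +
        (ENNReal.ofReal (1 / 2) * LC γ b ε P g g1 (gR g g1) ω +
          LI γ (2 * P.p') g (gR g g1) ω (fun v z => 4 * (4 * A) * K1 * cN e t v z)) :=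
        add_le_add le_rfl (s3.trans (s4.trans (add_le_add le_rfl s5)))
    _ = _ := by ring

/-- `V_e PhS` controls the pairs of `cN` -/
lemma cN_le {a : ℝ} (ha : 0 ≤ a) (e : Fin d) {t : ℝ} (ht : 0 < t) (ht1 : t ≤ 1) (v z : Vec d) (hv : v ≠ z) :
    len (v - z) ^ (1 + a) * cN e t v z ≤ t ^ (-6 : ℝ) * ((v e - z e) * PhS e a v z) := by
  have _ := ha
  have hl : 0 < len (v - z) := len_pos (sub_ne_zero.2 hv)
  have h6 : 0 < t ^ (-6 : ℝ) := Real.rpow_pos_of_pos ht _
  have e1 : (v e - z e) * PhS e a v z =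
      min 1 (jb z / jb v) ^ 4 * ((v e - z e) ^ 2 * len (v - z) ^ (a - 1)) := by
    unfold PhS phi
    simp only [Pi.sub_apply]
    ring
  have hla : 0 < len (v - z) ^ (a - 1) := Real.rpow_pos_of_pos hl _
  have hmin : 0 < min 1 (jb z / jb v) := lt_min one_pos (div_pos (jb_pos z) (jb_pos v))
  rw [e1]
  unfold cN
  split_ifs with h
  · obtain ⟨h1, h2⟩ := h
    have h3 : t ≤ min 1 (jb z / jb v) := le_min ht1 ((le_div_iff₀ (jb_pos v)).2 h1)
    have h4 : t ^ 4 ≤ min 1 (jb z / jb v) ^ 4 := pow_le_pow_left₀ ht.le h3 4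
    have h5 : (t * len (v - z)) ^ 2 ≤ (v e - z e) ^ 2 := by
      rw [← sq_abs (v e - z e)]
      exact pow_le_pow_left₀ (by positivity) h2 2
    have h7 : len (v - z) ^ (1 + a) = len (v - z) ^ 2 * len (v - z) ^ (a - 1) := by
      rw [← Real.rpow_natCast, ← Real.rpow_add hl]
      congr 1
      push_cast
      ring
    have h8 : t ^ (-6 : ℝ) * t ^ 6 = 1 := by
      rw [Real.rpow_neg ht.le, show (6 : ℝ) = ((6 : ℕ) : ℝ) by norm_num, Real.rpow_natCast]
      exact inv_mul_cancel₀ (by positivity)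
    calc len (v - z) ^ (1 + a) * 1
        = t ^ (-6 : ℝ) * t ^ 6 * (len (v - z) ^ 2 * len (v - z) ^ (a - 1)) := by
          rw [h8, h7]; ring
      _ = t ^ (-6 : ℝ) * (t ^ 4 * ((t * len (v - z)) ^ 2 * len (v - z) ^ (a - 1))) := by ring
      _ ≤ t ^ (-6 : ℝ) * (min 1 (jb z / jb v) ^ 4 * ((v e - z e) ^ 2 * len (v - z) ^ (a - 1))) := by
          refine mul_le_mul_of_nonneg_left ?_ h6.le
          refine mul_le_mul h4 (mul_le_mul_of_nonneg_right h5 hla.le) (by positivity) (by positivity)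
  · rw [mul_zero]
    positivity

end Pool.Agent.H15.G1
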