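import Pool.Agent.H15.G1.L.FinL
import Pool.Agent.H15.G1.L.ThinS
import Pool.Agent.H82.CM.RealG

/-!
# Module Real: from `ℝ≥0∞` to real integrals

`LP = ∫⁻ ofReal (φ v) Gn v`, `LLo = ∫⁻ ofReal (φ v) Ls v`, `φ = g Wp ω` (`T3_carF` + `gain_eq`; `T3_loss` + `loss_eq`). `LLo` is finite, hence by the hypothesis also `LP`. `cut_eq` (H82/CM/RealG): `boltzCut = Gn.toReal - Ls.toReal`, so
`∫ boltzCut φ = LP.toReal - LLo.toReal` (`integral_toReal`, both finite). `LI g₁ κ = ofReal (∫ Gs ω κ ∫ g₁ len^γ)` (integrable by decay) and `LI (K₀ cN) ≤ ofReal (∫ Gs ω K₀ t^(-6) ∫ V_e PhS (g-g₁))` (`cN_le`), `DD = ofReal (∫ q ..)`.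
-/

set_option autoImplicit false

open MeasureTheory Set Filter Topology Pool.Agent.H25.Kin Pool.Agent.H82.BK Pool.Agent.H82.CM
open Pool.Agent.H48.PL Pool.Agent.H48.PI Pool.Agent.H48.PW Pool.Agent.H82.NT
open scoped ENNReal

namespace Pool.Agent.H15.G1

variable {d : ℕ} {γ s C Ca cb ε : ℝ} {b : ℝ → ℝ}

/-- the test function `g W ω` -/
private noncomputable def real_phi (P : Lp) (g ω : Vec d → ℝ) (v : Vec d) : ℝ :=
  g v * Wp (2 * P.p') v * ω v

private lemma real_phi_nonneg (P : Lp) {g g1 ω : Vec d → ℝ} (D : Dat g g1 ω) (v : Vec d) :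
    0 ≤ real_phi P g ω v := by
  have h1 := D.g0 v
  have h2 := (Wp_pos (2 * P.p') v).le
  have h3 := D.ωl v
  exact mul_nonneg (mul_nonneg h1 h2) (by linarith)

private lemma real_phi_meas (P : Lp) {g g1 ω : Vec d → ℝ} (D : Dat g g1 ω) :
    Measurable (real_phi P g ω) :=
  (D.nice.cont.measurable.mul (meas_Wp _)).mul D.ωc.measurable

/-- gain -/
private lemma real_LP (H : Hyp d γ s b C Ca) (hε : 0 < ε) (P : Lp) {g g1 ω : Vec d → ℝ}
    (D : Dat g g1 ω) :
    LP γ b ε P g ω = ∫⁻ v, ENNReal.ofReal (real_phi P g ω v) * Gn γ b ε g v := by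
  have mg := D.nice.cont.measurable
  have h := T3_carF H hε (q := real_phi P g ω) (k := g) (T := fun _ _ y => g y)
    (real_phi_meas P D) mg (mg.comp measurable_snd.snd) (real_phi_nonneg P D) D.g0
    (fun _ _ y => D.g0 y)
  have e1 : LP γ b ε P g ω =
      T3 γ b ε fun v _ y z => ENNReal.ofReal (g z * (real_phi P g ω v * g y)) := by
    unfold LP real_phi
    congr 1
    funext v w y z
    congr 1
    ring
  rw [e1, h]
  refine lintegral_congr fun v => ?_
  rw [gain_eq H.hd γ H.bm H.bd hε mg D.g0 v]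

/-- loss -/
private lemma real_LLo (H : Hyp d γ s b C Ca) (hε : 0 < ε) (P : Lp) {g g1 ω : Vec d → ℝ}
    (D : Dat g g1 ω) :
    LLo γ b ε P g ω = ∫⁻ v, ENNReal.ofReal (real_phi P g ω v) * Ls γ b ε g v := by
  have mg := D.nice.cont.measurable
  have h := T3_loss H hε (q := fun v => real_phi P g ω v * g v) (k := g) (T := fun _ _ _ => 1)
    ((real_phi_meas P D).mul mg) mg measurable_const
    (fun v => mul_nonneg (real_phi_nonneg P D v) (D.g0 v)) D.g0 (fun _ _ _ => zero_le_one)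
  have e1 : LLo γ b ε P g ω =
      T3 γ b ε fun v w _ _ => ENNReal.ofReal (g w * (real_phi P g ω v * g v * 1)) := by
    unfold LLo real_phi Gs
    congr 1
    funext v w y z
    congr 1
    ring
  rw [e1, h]
  refine lintegral_congr fun v => ?_
  rw [loss_eq H.hd γ H.bm H.bd hε mg D.g0 v, ← lintegral_sub_left_eq_self _ v,
    ENNReal.ofReal_mul (real_phi_nonneg P D v), mul_assoc,
    ← lintegral_const_mul' _ _ ENNReal.ofReal_ne_top]
  congr 1
  refine lintegral_congr fun w => ?_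
  have e2 : ∫⁻ σ, ENNReal.ofReal (bt b ε (cosTh v (v - w) σ) * 1) ∂(surf d) = BB b ε (dir w) := by
    unfold BB
    refine lintegral_congr fun σ => ?_
    have e3 : cosTh v (v - w) σ = dot (dir w) σ := by
      rw [cosTh_eq]
      unfold dirk dir
      rw [sub_sub_cancel]
    rw [mul_one, e3]
  rw [e2, sub_sub_cancel, mul_comm (g (v - w))]
  ring

/-- the measurability of gain and loss -/
private lemma real_meas (hb : Measurable b) (ε : ℝ) {g : Vec d → ℝ} (hg : Measurable g) :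
    Measurable (Gn γ b ε g) ∧ Measurable (Ls γ b ε g) := by
  have mk : Measurable fun q : (Vec d × Vec d) × Vec d => kerB γ b ε q.1.1 q.1.2 q.2 :=
    (measurable_kerB γ hb ε).comp
      (measurable_fst.fst.prodMk (measurable_fst.snd.prodMk measurable_snd))
  have hp : Measurable fun q : (Vec d × Vec d) × Vec d => ((q.1.1, q.1.2, q.2) : Vec d × Vec d × Vec d) :=
    measurable_fst.fst.prodMk (measurable_fst.snd.prodMk measurable_snd)
  have m1 : Measurable fun q : (Vec d × Vec d) × Vec d =>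
      g (post' q.1.1 q.1.2 q.2) * g (post q.1.1 q.1.2 q.2) :=
    (hg.comp ((continuous_post' (d := d)).measurable.comp hp)).mul
      (hg.comp ((continuous_post (d := d)).measurable.comp hp))
  have m2 : Measurable fun q : (Vec d × Vec d) × Vec d => g q.1.2 * g q.1.1 :=
    (hg.comp measurable_fst.snd).mul (hg.comp measurable_fst.fst)
  refine ⟨?_, ?_⟩
  · have h1 : Measurable fun p : Vec d × Vec d => ∫⁻ σ, ENNReal.ofReal
        (kerB γ b ε p.1 p.2 σ * (g (post' p.1 p.2 σ) * g (post p.1 p.2 σ))) ∂(surf d) :=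
      Measurable.lintegral_prod_right' (f := fun q : (Vec d × Vec d) × Vec d =>
        ENNReal.ofReal (kerB γ b ε q.1.1 q.1.2 q.2 *
          (g (post' q.1.1 q.1.2 q.2) * g (post q.1.1 q.1.2 q.2)))) (mk.mul m1).ennreal_ofReal
    exact h1.lintegral_prod_right'
  · have h1 : Measurable fun p : Vec d × Vec d => ∫⁻ σ, ENNReal.ofReal
        (kerB γ b ε p.1 p.2 σ * (g p.2 * g p.1)) ∂(surf d) :=
      Measurable.lintegral_prod_right' (f := fun q : (Vec d × Vec d) × Vec d =>
        ENNReal.ofReal (kerB γ b ε q.1.1 q.1.2 q.2 * (g q.1.2 * g q.1.1))) (mk.mul m2).ennreal_ofReal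
    exact h1.lintegral_prod_right'

/-- the operator against the test function -/
private lemma real_cut (H : Hyp d γ s b C Ca) (hε : 0 < ε) (P : Lp) {g g1 ω : Vec d → ℝ}
    (D : Dat g g1 ω) (h1 : LP γ b ε P g ω ≠ ⊤) (h2 : LLo γ b ε P g ω ≠ ⊤) :
    ∫ v, boltzCut γ b ε g v * (g v * (1 + nsq v) ^ (2 * P.p') * ω v) =
      (LP γ b ε P g ω).toReal - (LLo γ b ε P g ω).toReal := by
  obtain ⟨mG, mL⟩ := real_meas (γ := γ) H.bm ε D.nice.cont.measurable
  have mφ := (real_phi_meas P D).ennreal_ofReal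
  rw [real_LP H hε P D] at h1 ⊢
  rw [real_LLo H hε P D] at h2 ⊢
  have i1 := integrable_toReal_of_lintegral_ne_top (mφ.mul mG).aemeasurable h1
  have i2 := integrable_toReal_of_lintegral_ne_top (mφ.mul mL).aemeasurable h2
  have e1 := integral_toReal (mφ.mul mG).aemeasurable (ae_lt_top (mφ.mul mG) h1)
  have e2 := integral_toReal (mφ.mul mL).aemeasurable (ae_lt_top (mφ.mul mL) h2)
  simp only [Pi.mul_apply] at i1 i2 e1 e2
  rw [← e1, ← e2, ← integral_sub i1 i2]
  refine integral_congr_ae (Eventually.of_forall fun v => ?_)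
  obtain ⟨t1, t2, e⟩ := cut_eq H D.nice D.g0 hε v
  have h3 := real_phi_nonneg P D v
  simp only
  rw [ENNReal.toReal_mul, ENNReal.toReal_mul, ENNReal.toReal_ofReal h3, e]
  unfold real_phi Wp
  ring

/-- `LI` as a real integral -/
private lemma real_LI (hd : 2 ≤ d) (hγ : 0 ≤ γ) (hγ2 : γ ≤ 2) {g g1 ω : Vec d → ℝ}
    (D : Dat g g1 ω) {p : ℕ} {k : Vec d → ℝ} (hm : Measurable k) (hk : ∀ z, k z ≤ g z)
    (hk0 : ∀ z, 0 ≤ k z) {c : Vec d → Vec d → ℝ} (hc : Measurable fun q : Vec d × Vec d => c q.1 q.2)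
    {A : ℝ} (h0 : ∀ v z, 0 ≤ c v z) (hA : ∀ v z, c v z ≤ A) :
    Integrable (fun v : Vec d => Gs p g v * ω v * ∫ z, k z * len (v - z) ^ γ * c v z) ∧
      (LI γ p g k ω c).toReal = ∫ v, Gs p g v * ω v * ∫ z, k z * len (v - z) ^ γ * c v z := by
  have hfin := LI_ne_top (by omega : 1 ≤ d) hγ hγ2 D (p := p) hk hk0 h0 hA
  have mker : Measurable fun q : Vec d × Vec d => k q.2 * len (q.1 - q.2) ^ γ * c q.1 q.2 :=
    ((hm.comp measurable_snd).mul ((continuous_len.measurable.comp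
      (measurable_fst.sub measurable_snd)).pow_const γ)).mul hc
  have n1 : ∀ v z : Vec d, 0 ≤ k z * len (v - z) ^ γ * c v z := fun v z =>
    mul_nonneg (mul_nonneg (hk0 z) (Real.rpow_nonneg (len_nonneg _) _)) (h0 v z)
  have n2 : ∀ v : Vec d, 0 ≤ ∫ z, k z * len (v - z) ^ γ * c v z := fun v =>
    integral_nonneg fun z => n1 v z
  have n3 : ∀ v : Vec d, 0 ≤ ω v * Gs p g v := fun v =>
    mul_nonneg (by linarith [D.ωl v]) (Gs_nonneg p g v)
  have i1 : ∀ v : Vec d, Integrable fun z => k z * len (v - z) ^ γ * c v z := by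
    intro v
    have i2 := (freq_integrable hd (by linarith) hγ2 D.nice v).const_mul A
    refine i2.mono' (mker.comp (measurable_const.prodMk measurable_id)).aestronglyMeasurable
      (Eventually.of_forall fun z => ?_)
    have hl := Real.rpow_nonneg (len_nonneg (v - z)) γ
    rw [Real.norm_of_nonneg (n1 v z)]
    calc k z * len (v - z) ^ γ * c v z ≤ g z * len (v - z) ^ γ * A :=
          mul_le_mul (mul_le_mul_of_nonneg_right (hk z) hl) (hA v z) (h0 v z)
            (mul_nonneg (D.g0 z) hl)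
      _ = A * (g z * len (v - z) ^ γ) := by ring
  have e1 : LI γ p g k ω c =
      ∫⁻ v, ENNReal.ofReal (Gs p g v * ω v * ∫ z, k z * len (v - z) ^ γ * c v z) := by
    unfold LI
    refine lintegral_congr fun v => ?_
    rw [← ofReal_integral_eq_lintegral_ofReal (i1 v) (Eventually.of_forall fun z => n1 v z),
      ← ENNReal.ofReal_mul (n3 v), mul_comm (ω v)]
  have mI : AEStronglyMeasurable
      (fun v : Vec d => Gs p g v * ω v * ∫ z, k z * len (v - z) ^ γ * c v z) volume := by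
    have h1 : StronglyMeasurable fun v : Vec d => ∫ z, k z * len (v - z) ^ γ * c v z :=
      mker.stronglyMeasurable.integral_prod_right
    exact ((meas_Gs p D.nice.cont.measurable).mul D.ωc.measurable).aestronglyMeasurable.mul
      h1.aestronglyMeasurable
  have nn : 0 ≤ᵐ[volume] fun v : Vec d => Gs p g v * ω v * ∫ z, k z * len (v - z) ^ γ * c v z :=
    Eventually.of_forall fun v => mul_nonneg (by rw [mul_comm]; exact n3 v) (n2 v)
  refine ⟨⟨mI, ?_⟩, ?_⟩
  · rw [hasFiniteIntegral_iff_ofReal nn, ← e1]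
    exact lt_top_iff_ne_top.2 hfin
  · rw [e1, integral_eq_lintegral_of_nonneg_ae nn mI]

/-- `DD` as a real integral -/
private lemma real_DD {g : Vec d → ℝ} (hg : Nice g) (h0 : ∀ u, 0 ≤ g u) :
    (DD γ g).toReal = ∫ q : Vec d × Vec d, g q.1 * g q.2 * len (q.1 - q.2) ^ γ := by
  have mg := hg.cont.measurable
  have mF : Measurable fun q : Vec d × Vec d => g q.1 * g q.2 * len (q.1 - q.2) ^ γ :=
    ((mg.comp measurable_fst).mul (mg.comp measurable_snd)).mul ((continuous_len.measurable.comp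
      (measurable_fst.sub measurable_snd)).pow_const γ)
  rw [integral_eq_lintegral_of_nonneg_ae (Eventually.of_forall fun q => mul_nonneg
    (mul_nonneg (h0 _) (h0 _)) (Real.rpow_nonneg (len_nonneg _) _)) mF.aestronglyMeasurable]
  unfold DD
  rw [Measure.volume_eq_prod, lintegral_prod _ mF.ennreal_ofReal.aemeasurable]

/-- `(v_e-w_e) PhS / |v-w|^(1+γ)` -/
private noncomputable def real_c (e : Fin d) (γ : ℝ) (v z : Vec d) : ℝ :=
  (v e - z e) * PhS e γ v z / len (v - z) ^ (1 + γ)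

private lemma real_c_bd (e : Fin d) (hγ : 0 ≤ γ) (v z : Vec d) :
    0 ≤ real_c e γ v z ∧ real_c e γ v z ≤ 1 := by
  have hl := len_nonneg (v - z)
  have hm0 : 0 ≤ min 1 (jb z / jb v) ^ 4 := by positivity
  have hj : 0 ≤ jb z / jb v := div_nonneg (Real.sqrt_nonneg _) (Real.sqrt_nonneg _)
  have hm1 : min 1 (jb z / jb v) ^ 4 ≤ 1 :=
    pow_le_one₀ (le_min zero_le_one hj) (min_le_left _ _)
  have e1 : (v e - z e) * PhS e γ v z =
      min 1 (jb z / jb v) ^ 4 * ((v e - z e) ^ 2 * len (v - z) ^ (γ - 1)) := by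
    unfold PhS phi
    rw [Pi.sub_apply]
    ring
  have h0 : 0 ≤ (v e - z e) ^ 2 * len (v - z) ^ (γ - 1) :=
    mul_nonneg (sq_nonneg _) (Real.rpow_nonneg hl _)
  unfold real_c
  rw [e1]
  refine ⟨div_nonneg (mul_nonneg hm0 h0) (Real.rpow_nonneg hl _), ?_⟩
  rcases hl.eq_or_lt with h | h
  · rw [← h, Real.zero_rpow (by linarith : (1 : ℝ) + γ ≠ 0), div_zero]
    exact zero_le_one
  · rw [div_le_one (Real.rpow_pos_of_pos h _)]
    have h1 : (v e - z e) ^ 2 ≤ len (v - z) ^ 2 := by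
      rw [len_sq]
      unfold nsq
      have := Finset.single_le_sum (f := fun i => (v - z) i ^ 2) (fun i _ => sq_nonneg _)
        (Finset.mem_univ e)
      simpa only [Pi.sub_apply] using this
    have h2 : len (v - z) ^ 2 * len (v - z) ^ (γ - 1) = len (v - z) ^ (1 + γ) := by
      rw [← Real.rpow_natCast (len (v - z)) 2, ← Real.rpow_add h]
      congr 1
      push_cast
      ring
    calc min 1 (jb z / jb v) ^ 4 * ((v e - z e) ^ 2 * len (v - z) ^ (γ - 1))
        ≤ 1 * (len (v - z) ^ 2 * len (v - z) ^ (γ - 1)) :=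
          mul_le_mul hm1 (mul_le_mul_of_nonneg_right h1 (Real.rpow_nonneg hl _)) h0 zero_le_one
      _ = len (v - z) ^ (1 + γ) := by rw [one_mul, h2]

private lemma real_c_mul (e : Fin d) (v z : Vec d) (x : ℝ) :
    x * len (v - z) ^ (1 + γ) * real_c e γ v z = (v e - z e) * PhS e γ v z * x := by
  rcases (len_nonneg (v - z)).eq_or_lt with h | h
  · have h1 : v e - z e = 0 := by
      have h2 : nsq (v - z) = 0 := by rw [← len_sq, ← h]; norm_num
      unfold nsq at h2
      rw [Finset.sum_eq_zero_iff_of_nonneg fun i _ => sq_nonneg _] at h2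
      have h3 := h2 e (Finset.mem_univ e)
      simpa using h3
    unfold real_c
    rw [h1]
    simp
  · unfold real_c
    have h1 := (Real.rpow_pos_of_pos h (1 + γ)).ne'
    field_simp

private lemma real_c_meas (e : Fin d) (γ : ℝ) :
    Measurable fun q : Vec d × Vec d => real_c e γ q.1 q.2 := by
  have m1 : Measurable fun q : Vec d × Vec d => q.1 e - q.2 e :=
    ((measurable_pi_apply e).comp measurable_fst).sub ((measurable_pi_apply e).comp measurable_snd)
  have m2 : Measurable fun q : Vec d × Vec d => len (q.1 - q.2) :=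
    continuous_len.measurable.comp (measurable_fst.sub measurable_snd)
  have m3 : Measurable (jb : Vec d → ℝ) := by
    unfold jb
    exact (continuous_const.add continuous_sq).sqrt.measurable
  have m4 : Measurable fun q : Vec d × Vec d => PhS e γ q.1 q.2 := by
    unfold PhS phi
    have m5 : Measurable fun q : Vec d × Vec d => (q.1 - q.2) e :=
      (measurable_pi_apply e).comp (measurable_fst.sub measurable_snd)
    exact ((measurable_const.min ((m3.comp measurable_snd).div (m3.comp measurable_fst))).pow_const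
      4).mul (m5.mul (m2.pow_const (γ - 1)))
  exact (m1.mul m4).div (m2.pow_const (1 + γ))

theorem real_step (HL : HypL d (1 + γ) s b C Ca cb) (hγ : 0 ≤ γ) (h2 : γ + 2 * s < 1) (P : Lp) (e : Fin d) {t K₀ κ N η : ℝ}
    (ht : 0 < t) (ht1 : t ≤ 1) (hK₀ : 0 ≤ K₀) (hκ : 0 < κ) (hN : 0 ≤ N) (hη : 0 ≤ η) {g g1 ω : Vec d → ℝ} (D : Dat g g1 ω)
    (hε : 0 < ε)
    (h : 2 * LP (1 + γ) b ε P g ω + LI (1 + γ) (2 * P.p') g g1 ω (fun _ _ => κ) ≤
          2 * LLo (1 + γ) b ε P g ω + LI (1 + γ) (2 * P.p') g (gR g g1) ω (fun v z => K₀ * cN e t v z) +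
            ENNReal.ofReal N * DD (1 + γ) g + ENNReal.ofReal η) :
    2 * ∫ v, boltzCut (1 + γ) b ε g v * (g v * (1 + nsq v) ^ (2 * P.p') * ω v) ≤
      (∫ v, g v ^ 2 * (1 + nsq v) ^ (2 * P.p') * ω v *
        (K₀ * t ^ (-6 : ℝ) * (∫ w, (v e - w e) * PhS e γ v w * (g w - g1 w)) - κ * ∫ w, len (v - w) ^ (1 + γ) * g1 w)) +
      N * (∫ q : Vec d × Vec d, g q.1 * g q.2 * len (q.1 - q.2) ^ (1 + γ)) + η := by
  have H := HL.H
  have hs := H.hs
  have hd := H.hd
  have hd1 : 1 ≤ d := by omega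
  have g0 : (0 : ℝ) ≤ 1 + γ := by linarith
  have g2 : (1 : ℝ) + γ ≤ 2 := by linarith
  have mg := D.nice.cont.measurable
  have hR0 : ∀ z, 0 ≤ gR g g1 z := fun z => sub_nonneg.2 (D.le z)
  have hRg : ∀ z, gR g g1 z ≤ g z := fun z => by unfold gR; linarith [D.g10 z]
  have mR : Measurable (gR g g1) := mg.sub D.m1
  have hT0 : 0 ≤ K₀ * t ^ (-6 : ℝ) := mul_nonneg hK₀ (Real.rpow_nonneg ht.le _)
  -- the comparison of the last term
  have hmono : LI (1 + γ) (2 * P.p') g (gR g g1) ω (fun v z => K₀ * cN e t v z) ≤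
      LI (1 + γ) (2 * P.p') g (gR g g1) ω (fun v z => K₀ * t ^ (-6 : ℝ) * real_c e γ v z) := by
    refine LI_mono hd1 g0 fun v z hvz => mul_le_mul_of_nonneg_left ?_ (hR0 z)
    have h1 := cN_le hγ e ht ht1 v z hvz
    have h3 : 0 < len (v - z) := len_pos (sub_ne_zero.2 hvz)
    have h4 := Real.rpow_pos_of_pos h3 (1 + γ)
    have h5 : cN e t v z ≤ t ^ (-6 : ℝ) * real_c e γ v z := by
      unfold real_c
      rw [mul_div_assoc', le_div_iff₀ h4, mul_comm]
      exact h1
    calc K₀ * cN e t v z ≤ K₀ * (t ^ (-6 : ℝ) * real_c e γ v z) :=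
          mul_le_mul_of_nonneg_left h5 hK₀
      _ = K₀ * t ^ (-6 : ℝ) * real_c e γ v z := by ring
  have h6 := real_LI (γ := 1 + γ) hd g0 g2 D (p := 2 * P.p') D.m1 D.le D.g10 (c := fun _ _ => κ)
    measurable_const (A := κ) (fun _ _ => hκ.le) (fun _ _ => le_rfl)
  have h7 := real_LI (γ := 1 + γ) hd g0 g2 D (p := 2 * P.p') mR hRg hR0
    (c := fun v z => K₀ * t ^ (-6 : ℝ) * real_c e γ v z)
    (measurable_const.mul (real_c_meas e γ)) (A := K₀ * t ^ (-6 : ℝ) * 1)
    (fun v z => mul_nonneg hT0 (real_c_bd e hγ v z).1)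
    (fun v z => mul_le_mul_of_nonneg_left (real_c_bd e hγ v z).2 hT0)
  have fLLo := LLo_ne_top H g0 hε P D
  have fN := LI_ne_top hd1 g0 g2 D (p := 2 * P.p') hRg hR0
    (c := fun v z => K₀ * t ^ (-6 : ℝ) * real_c e γ v z) (A := K₀ * t ^ (-6 : ℝ) * 1)
    (fun v z => mul_nonneg hT0 (real_c_bd e hγ v z).1)
    (fun v z => mul_le_mul_of_nonneg_left (real_c_bd e hγ v z).2 hT0)
  have fκ := LI_ne_top hd1 g0 g2 D (p := 2 * P.p') D.le D.g10 (c := fun _ _ => κ) (A := κ)
    (fun _ _ => hκ.le) (fun _ _ => le_rfl)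
  have fD := DD_ne_top hd1 g0 g2 D.nice D.g0
  -- the inequality with finite right-hand side
  have h8 : 2 * LP (1 + γ) b ε P g ω + LI (1 + γ) (2 * P.p') g g1 ω (fun _ _ => κ) ≤
      2 * LLo (1 + γ) b ε P g ω +
        LI (1 + γ) (2 * P.p') g (gR g g1) ω (fun v z => K₀ * t ^ (-6 : ℝ) * real_c e γ v z) +
          ENNReal.ofReal N * DD (1 + γ) g + ENNReal.ofReal η := by
    refine h.trans ?_
    gcongr
  have f1 : 2 * LLo (1 + γ) b ε P g ω ≠ ⊤ := ENNReal.mul_ne_top ENNReal.ofNat_ne_top fLLo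
  have f2 : ENNReal.ofReal N * DD (1 + γ) g ≠ ⊤ := ENNReal.mul_ne_top ENNReal.ofReal_ne_top fD
  have f3 := ENNReal.add_ne_top.2 ⟨f1, fN⟩
  have f4 := ENNReal.add_ne_top.2 ⟨f3, f2⟩
  have f5 := ENNReal.add_ne_top.2 ⟨f4, ENNReal.ofReal_ne_top (r := η)⟩
  have f6 := ne_top_of_le_ne_top f5 h8
  have f7 : 2 * LP (1 + γ) b ε P g ω ≠ ⊤ := (ENNReal.add_ne_top.1 f6).1
  have fLP : LP (1 + γ) b ε P g ω ≠ ⊤ := by
    intro h9
    rw [h9, ENNReal.mul_top (by norm_num)] at f7
    exact f7 rfl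
  have h10 := ENNReal.toReal_mono f5 h8
  rw [ENNReal.toReal_add f7 fκ, ENNReal.toReal_add f4 ENNReal.ofReal_ne_top,
    ENNReal.toReal_add f3 f2, ENNReal.toReal_add f1 fN, ENNReal.toReal_mul, ENNReal.toReal_mul,
    ENNReal.toReal_mul, ENNReal.toReal_ofReal hN, ENNReal.toReal_ofReal hη, ENNReal.toReal_ofNat,
    h6.2, h7.2, real_DD D.nice D.g0] at h10
  rw [real_cut H hε P D fLP fLLo]
  have e1 : (∫ v, g v ^ 2 * (1 + nsq v) ^ (2 * P.p') * ω v *
        (K₀ * t ^ (-6 : ℝ) * (∫ w, (v e - w e) * PhS e γ v w * (g w - g1 w)) -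
          κ * ∫ w, len (v - w) ^ (1 + γ) * g1 w)) =
      (∫ v, Gs (2 * P.p') g v * ω v * ∫ z, gR g g1 z * len (v - z) ^ (1 + γ) *
        (K₀ * t ^ (-6 : ℝ) * real_c e γ v z)) -
      ∫ v, Gs (2 * P.p') g v * ω v * ∫ z, g1 z * len (v - z) ^ (1 + γ) * κ := by
    rw [← integral_sub h7.1 h6.1]
    refine integral_congr_ae (Eventually.of_forall fun v => ?_)
    have a1 : (∫ z, gR g g1 z * len (v - z) ^ (1 + γ) * (K₀ * t ^ (-6 : ℝ) * real_c e γ v z)) =
        K₀ * t ^ (-6 : ℝ) * ∫ w, (v e - w e) * PhS e γ v w * (g w - g1 w) := by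
      rw [← integral_const_mul]
      refine integral_congr_ae (Eventually.of_forall fun z => ?_)
      have a2 := real_c_mul (γ := γ) e v z (gR g g1 z)
      simp only
      calc gR g g1 z * len (v - z) ^ (1 + γ) * (K₀ * t ^ (-6 : ℝ) * real_c e γ v z)
          = K₀ * t ^ (-6 : ℝ) * (gR g g1 z * len (v - z) ^ (1 + γ) * real_c e γ v z) := by ring
        _ = K₀ * t ^ (-6 : ℝ) * ((v e - z e) * PhS e γ v z * (g z - g1 z)) := by rw [a2]; rfl
    have a3 : (∫ z, g1 z * len (v - z) ^ (1 + γ) * κ) = κ * ∫ w, len (v - w) ^ (1 + γ) * g1 w := by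
      rw [← integral_const_mul]
      refine integral_congr_ae (Eventually.of_forall fun z => ?_)
      simp only
      ring
    simp only
    rw [a1, a3]
    unfold Gs Wp
    ring
  rw [e1]
  linarith

end Pool.Agent.H15.G1
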