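import Pool.Agent.H15.G1.L.Comb
import Pool.Agent.H15.G1.L.Real

/-!
# Module L2: the `L²` inequality

`comb` at `γ := 1 + a`, `real_step` for every small `ε`, `η = A ε^(1/2-s) → 0`, `boltz_weak_tendsto` with the test function `g Wp ω` (polynomial growth: bounded decay). `p = 2p'`, `d+(1+a)+4 ≤ 2p' ≤ 2p`.
-/

set_option autoImplicit false

open MeasureTheory Set Filter Topology Pool.Agent.H25.Kin Pool.Agent.H82.BK Pool.Agent.H82.CM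
open Pool.Agent.H48.PL Pool.Agent.H48.PI Pool.Agent.H48.PW Pool.Agent.H82.NT
open scoped ENNReal

namespace Pool.Agent.H15.G1

variable {d : ℕ} {γ s C Ca cb ε : ℝ} {b : ℝ → ℝ}

private lemma l2_pg_pow (p : ℕ) : PG (fun v : Vec d => (1 + nsq v) ^ p) := by
  induction p with
  | zero => simpa using PG.const (1 : ℝ)
  | succ n ih =>
    have h := ih.mul ((PG.const (1 : ℝ)).add PG.nsq)
    simpa only [pow_succ] using h

theorem l2_op' {a : ℝ} (HL : HypL d (1 + a) s b C Ca cb) (ha : 0 ≤ a) (ha1 : a + 2 * s < 1) (e : Fin d) :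
    ∃ p : ℕ, (d : ℝ) + (1 + a) + 4 ≤ 2 * p ∧ ∃ K₀ κ δ₁ : ℝ, 0 ≤ K₀ ∧ 0 < κ ∧ 0 < δ₁ ∧
    ∀ C₀ R : ℝ, 0 < C₀ → 1 ≤ R → ∃ N : ℝ, 0 ≤ N ∧
    ∀ g g₁ ω n : Vec d → ℝ, Nice g → (∀ u, 0 ≤ g u) → Measurable g₁ → (∀ u, 0 ≤ g₁ u) →
      (∀ u, g₁ u ≤ g u) → (∀ u, g₁ u ≤ C₀) → (∀ u, R < jb u → g₁ u = 0) →
      Continuous ω → (∀ v, 1 / 2 ≤ ω v) → (∀ v, ω v ≤ 2) →
      Integrable n → (∀ u, 0 ≤ n u) → ∫ u, n u ≤ δ₁ → CuspW n ω →
      2 * ∫ v, boltzQ (1 + a) b g v * (g v * (1 + nsq v) ^ p * ω v) ≤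
        (∫ v, g v ^ 2 * (1 + nsq v) ^ p * ω v *
          (K₀ * (∫ w, (v e - w e) * PhS e a v w * (g w - g₁ w)) - κ * ∫ w, len (v - w) ^ (1 + a) * g₁ w)) +
        N * ∫ q : Vec d × Vec d, g q.1 * g q.2 * len (q.1 - q.2) ^ (1 + a) := by
  obtain ⟨p', hp', t, K₀, κ, δ₁, ht, ht1, hK₀, hκ, hδ₁, P, hP, hmain⟩ :=
    comb HL (by linarith) (by linarith) e
  subst hP
  have hs : s < 1 / 2 := by linarith
  refine ⟨2 * P.p', ?_, K₀ * t ^ (-6 : ℝ), κ, δ₁, mul_nonneg hK₀ (Real.rpow_nonneg ht.le _), hκ, hδ₁,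
    fun C₀ R hC₀ hR => ?_⟩
  · have h0 : (0 : ℝ) ≤ P.p' := Nat.cast_nonneg _
    push_cast
    linarith
  obtain ⟨N, hN, hall⟩ := hmain C₀ R hC₀ hR
  refine ⟨N, hN, fun g g₁ ω n hg hg0 hm1 hg10 hle hC hcut hωc hωl hωu hn hn0 hn1 hcusp => ?_⟩
  have D : Dat g g₁ ω := ⟨hg, hg0, hm1, hg10, hle, hωc, hωl, hωu⟩
  obtain ⟨A, ε₀, hA, hε₀, hev⟩ := hall g g₁ ω n D hC hcut hn hn0 hn1 hcusp
  have hωPG : PG ω := by
    refine ⟨0, 2, fun v => ?_⟩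
    have h1 := hωl v
    rw [pow_zero, mul_one, Real.norm_eq_abs, abs_of_nonneg (by linarith)]
    exact hωu v
  have hφ : PG (fun v => g v * (1 + nsq v) ^ (2 * P.p') * ω v) :=
    (hg.rd.toPG.mul (l2_pg_pow _)).mul hωPG
  have hφm : Measurable (fun v => g v * (1 + nsq v) ^ (2 * P.p') * ω v) :=
    ((hg.cont.mul ((continuous_const.add continuous_sq).pow _)).mul hωc).measurable
  have hlim := (boltz_weak_tendsto HL.H hg hφ hφm).const_mul 2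
  have hη : Tendsto (fun ε : ℝ => A * ε ^ (1 / 2 - s)) (𝓝[>] 0) (𝓝 0) := by
    have h1 : Tendsto (fun ε : ℝ => ε ^ (1 / 2 - s)) (𝓝[>] 0) (𝓝 ((0 : ℝ) ^ (1 / 2 - s))) :=
      ((Real.continuousAt_rpow_const 0 (1 / 2 - s) (Or.inr (by linarith))).tendsto).mono_left
        nhdsWithin_le_nhds
    rw [Real.zero_rpow (by linarith)] at h1
    simpa using h1.const_mul A
  have hlim2 := hη.const_add
    ((∫ v, g v ^ 2 * (1 + nsq v) ^ (2 * P.p') * ω v *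
        (K₀ * t ^ (-6 : ℝ) * (∫ w, (v e - w e) * PhS e a v w * (g w - g₁ w)) -
          κ * ∫ w, len (v - w) ^ (1 + a) * g₁ w)) +
      N * (∫ q : Vec d × Vec d, g q.1 * g q.2 * len (q.1 - q.2) ^ (1 + a)))
  rw [add_zero] at hlim2
  refine le_of_tendsto_of_tendsto hlim hlim2 ?_
  filter_upwards [Ioc_mem_nhdsGT hε₀] with ε hε
  exact real_step HL ha ha1 P e ht ht1 hK₀ hκ hN (mul_nonneg hA (Real.rpow_nonneg hε.1.le _)) D hε.1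
    (hev ε hε.1 hε.2)

end Pool.Agent.H15.G1
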