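import Pool.Agent.H15.G1.L.Geo

/-!
# Module AnnLow: the mass of the annulus `Λρ ≤ |v'-v| ≤ 6Λρ`

`shell_low` (H82/CM/Shell) with `k = dirk v w`, `u = 2Λ²ρ²/|V|² ≤ 1/64`: `u ≤ X ≤ 32u` gives `Λ²ρ² ≤ |v'-v|² = |V|²X/2 ≤ 32Λ²ρ² ≤ 36Λ²ρ²`. Cut-off not active: `X ≥ u ≥ 2ε ≥ ε`; `x = 1 - X > 0`.
`bt b ε x ≥ b x ≥ cb X^(-β) ≥ cb (32u)^(-β)` (`HL.lo`, the other summand of `bt` is `≥ 0`). Measure `≥ c u^((d-1)/2)`: product `c' u^(-s)`.
-/

set_option autoImplicit false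

open MeasureTheory Set Filter Topology Pool.Agent.H25.Kin Pool.Agent.H82.BK Pool.Agent.H82.CM
open Pool.Agent.H48.PL Pool.Agent.H48.PI Pool.Agent.H48.PW Pool.Agent.H82.NT
open scoped ENNReal

namespace Pool.Agent.H15.G1

variable {d : ℕ} {γ s C Ca cb ε : ℝ} {b : ℝ → ℝ}

open Classical in
theorem ann_low (HL : HypL d γ s b C Ca cb) : ∃ c : ℝ, 0 < c ∧ ∀ ε ρ Λ : ℝ, 0 < ε → 0 < ρ → 1 ≤ Λ →
    ∀ v w : Vec d, v ≠ w → 128 * (Λ * ρ) ^ 2 ≤ nsq (v - w) → ε * nsq (v - w) ≤ ρ ^ 2 →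
      ENNReal.ofReal (c * Λ ^ (-(2 * s)) * (ρ ^ 2 / nsq (v - w)) ^ (-s)) ≤
        ∫⁻ σ, (if Λ * ρ ≤ len (post v w σ - v) ∧ len (post v w σ - v) ≤ 6 * Λ * ρ then
          ENNReal.ofReal (bt b ε (cosTh v w σ)) else 0) ∂(surf d) := by
  obtain ⟨c, hc, hsh⟩ := shell_low HL.H.hd
  have hcb := HL.lo.1
  have hβ := HL.H.β0
  have hs := HL.H.hs
  set D : ℝ := ((d : ℝ) - 1) / 2 with hD
  refine ⟨cb * (32 : ℝ) ^ (-(D + s)) * c * (2 : ℝ) ^ (-s), by positivity, fun ε ρ Λ hε hρ hΛ v w hvw h128 hεV => ?_⟩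
  set V : ℝ := nsq (v - w) with hV
  have hV0 : 0 < V := sq_pos_of_ne (sub_ne_zero.2 hvw)
  have hΛ0 : 0 < Λ := by linarith
  have hΛρ : 0 < Λ * ρ := mul_pos hΛ0 hρ
  set u : ℝ := 2 * (Λ * ρ) ^ 2 / V with hu
  have hu0 : 0 < u := by positivity
  have huV : u * V = 2 * (Λ * ρ) ^ 2 := by
    rw [hu]
    exact div_mul_cancel₀ _ hV0.ne'
  have hu1 : u ≤ 1 / 64 := by
    rw [hu, div_le_iff₀ hV0]
    linarith
  have hεu : ε ≤ u := by
    rw [hu, le_div_iff₀ hV0]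
    have h1 : ρ ^ 2 ≤ (Λ * ρ) ^ 2 := by
      have : ρ ≤ Λ * ρ := by nlinarith
      exact pow_le_pow_left₀ hρ.le this 2
    nlinarith [sq_nonneg (Λ * ρ)]
  have hk := nsq_dirk hvw
  have h1 := hsh (dirk v w) hk u hu0 hu1
  set S : Set (Vec d) := {σ : Vec d | u ≤ 1 - dot (dirk v w) σ ∧ 1 - dot (dirk v w) σ ≤ 32 * u} with hS
  have hSm : MeasurableSet S :=
    ((isClosed_le continuous_const (continuous_const.sub (dot_cont (dirk v w)))).inter
      (isClosed_le (continuous_const.sub (dot_cont (dirk v w))) continuous_const)).measurableSet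
  have hlow : ENNReal.ofReal (cb * (32 * u) ^ (-(D + s)) * (c * u ^ D)) ≤
      ∫⁻ σ, (if Λ * ρ ≤ len (post v w σ - v) ∧ len (post v w σ - v) ≤ 6 * Λ * ρ then
          ENNReal.ofReal (bt b ε (cosTh v w σ)) else 0) ∂(surf d) := by
    calc ENNReal.ofReal (cb * (32 * u) ^ (-(D + s)) * (c * u ^ D))
        = ENNReal.ofReal (cb * (32 * u) ^ (-(D + s))) * ENNReal.ofReal (c * u ^ D) :=
          ENNReal.ofReal_mul (by positivity)
      _ ≤ ENNReal.ofReal (cb * (32 * u) ^ (-(D + s))) * surf d S := by gcongr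
      _ = ∫⁻ _σ in S, ENNReal.ofReal (cb * (32 * u) ^ (-(D + s))) ∂(surf d) := by
          rw [setLIntegral_const]
      _ ≤ ∫⁻ σ in S, (if Λ * ρ ≤ len (post v w σ - v) ∧ len (post v w σ - v) ≤ 6 * Λ * ρ then
          ENNReal.ofReal (bt b ε (cosTh v w σ)) else 0) ∂(surf d) := by
          refine lintegral_mono_ae ?_
          have hae : ∀ᵐ σ ∂((surf d).restrict S), nsq σ = 1 := ae_restrict_of_ae surf_ae
          filter_upwards [hae, ae_restrict_mem hSm] with σ hσ hσS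
          obtain ⟨h2, h3⟩ := hσS
          have hx : cosTh v w σ = dot (dirk v w) σ := cosTh_eq v w σ
          rw [← hx] at h2 h3
          have e1 : nsq (post v w σ - v) = V * (1 - cosTh v w σ) / 2 := nsq_post_sub hσ
          have a1 : (Λ * ρ) ^ 2 ≤ nsq (post v w σ - v) := by
            rw [e1]
            nlinarith [mul_le_mul_of_nonneg_right h2 hV0.le]
          have a2 : nsq (post v w σ - v) ≤ (6 * Λ * ρ) ^ 2 := by
            rw [e1]
            nlinarith [mul_le_mul_of_nonneg_right h3 hV0.le, sq_nonneg (Λ * ρ)]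
          have b1 : Λ * ρ ≤ len (post v w σ - v) := Real.le_sqrt_of_sq_le a1
          have b2 : len (post v w σ - v) ≤ 6 * Λ * ρ := by
            unfold len
            rw [Real.sqrt_le_left (by positivity)]
            exact a2
          rw [if_pos ⟨b1, b2⟩]
          refine ENNReal.ofReal_le_ofReal ?_
          have x1 : 1 / 2 ≤ cosTh v w σ := by linarith
          have x2 : cosTh v w σ < 1 := by linarith
          have h4 := bt_ge (ε := ε) HL.H.bd (x := cosTh v w σ) (by linarith) (by linarith) (by linarith)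
          have h5 := HL.lo.2 (cosTh v w σ) (by linarith) x2
          have h6 : (32 * u) ^ (-(D + s)) ≤ (1 - cosTh v w σ) ^ (-(D + s)) :=
            Real.rpow_le_rpow_of_nonpos (by linarith) h3 (by linarith)
          calc cb * (32 * u) ^ (-(D + s)) ≤ cb * (1 - cosTh v w σ) ^ (-(D + s)) :=
                mul_le_mul_of_nonneg_left h6 hcb.le
            _ ≤ b (cosTh v w σ) := h5
            _ ≤ bt b ε (cosTh v w σ) := h4
      _ ≤ _ := setLIntegral_le_lintegral _ _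
  refine le_trans (ENNReal.ofReal_le_ofReal (le_of_eq ?_)) hlow
  have e2 : u = 2 * Λ ^ 2 * (ρ ^ 2 / V) := by
    rw [hu]
    ring
  have hq : 0 ≤ ρ ^ 2 / V := by positivity
  have e3 : u ^ (-s) = 2 ^ (-s) * Λ ^ (-(2 * s)) * (ρ ^ 2 / V) ^ (-s) := by
    rw [e2, Real.mul_rpow (by positivity) hq, Real.mul_rpow (by norm_num) (by positivity)]
    congr 2
    rw [← Real.rpow_natCast Λ 2, ← Real.rpow_mul hΛ0.le]
    congr 1
    push_cast
    ring
  have e4 : (32 * u) ^ (-(D + s)) * u ^ D = 32 ^ (-(D + s)) * u ^ (-s) := by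
    rw [Real.mul_rpow (by norm_num) hu0.le, mul_assoc, ← Real.rpow_add hu0]
    congr 2
    ring
  calc cb * (32 : ℝ) ^ (-(D + s)) * c * (2 : ℝ) ^ (-s) * Λ ^ (-(2 * s)) * (ρ ^ 2 / V) ^ (-s)
      = cb * c * (32 ^ (-(D + s)) * (2 ^ (-s) * Λ ^ (-(2 * s)) * (ρ ^ 2 / V) ^ (-s))) := by ring
    _ = cb * c * ((32 * u) ^ (-(D + s)) * u ^ D) := by rw [← e3, e4]
    _ = cb * (32 * u) ^ (-(D + s)) * (c * u ^ D) := by ring

end Pool.Agent.H15.G1
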