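import Pool.Agent.H15.G1.LDefs

/-!
# Module IntM: measurability of the integrands and elementary facts

All sets are given by continuous inequalities (`nsq`, `len`, `jb` are continuous; `RegS` jointly: see `measurableSet_RegS`; `MedR` = a `≤` and not a conjunction of two `≤`).
-/

set_option autoImplicit false

open MeasureTheory Set Filter Topology Pool.Agent.H25.Kin Pool.Agent.H82.BK Pool.Agent.H82.CM
open Pool.Agent.H48.PL Pool.Agent.H48.PI Pool.Agent.H48.PW Pool.Agent.H82.NT
open scoped ENNReal

namespace Pool.Agent.H15.G1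

variable {d : ℕ} {γ s C Ca cb ε : ℝ} {b : ℝ → ℝ}

private lemma im_nsq {α : Type*} [MeasurableSpace α] {f : α → Vec d} (hf : Measurable f) :
    Measurable fun a => nsq (f a) := (continuous_sq (d := d)).measurable.comp hf

private lemma im_len {α : Type*} [MeasurableSpace α] {f : α → Vec d} (hf : Measurable f) :
    Measurable fun a => len (f a) := (continuous_len (d := d)).measurable.comp hf

private lemma im_one {α : Type*} [MeasurableSpace α] {f : α → Vec d} (hf : Measurable f) :
    Measurable fun a => 1 + nsq (f a) := measurable_const.add (im_nsq hf)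

private lemma im_jb {α : Type*} [MeasurableSpace α] {f : α → Vec d} (hf : Measurable f) :
    Measurable fun a => jb (f a) := by
  unfold jb
  exact (im_one hf).sqrt

private lemma im_pos (v : Vec d) : 0 < 1 + nsq v := by
  have := sq_nonneg' v
  linarith

private lemma im_reg {α : Type*} [MeasurableSpace α] {v z y : α → Vec d} (hv : Measurable v)
    (hz : Measurable z) (hy : Measurable y) (θ L : ℝ) :
    MeasurableSet {q | (z q, y q) ∈ RegS θ L (v q)} := by
  have e : {q | (z q, y q) ∈ RegS θ L (v q)} = ({q | nsq (y q) < (1 + nsq (v q)) / 4} ∩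
      {q | (1 + nsq (v q)) / 4 ≤ nsq (y q - v q)})ᶜ ∩
      ({q | L * (1 + nsq (v q)) < nsq (z q)} ∩
        {q | θ * (1 + nsq (v q)) ≤ nsq (y q - v q)})ᶜ := by
    ext q
    simp [RegS]
  rw [e]
  have h1 := im_nsq hy
  have h2 := im_nsq hz
  have h3 := im_nsq (hy.sub hv)
  have h4 := im_one hv
  exact ((measurableSet_lt h1 (h4.div_const _)).inter
    (measurableSet_le (h4.div_const _) h3)).compl.inter
    ((measurableSet_lt (measurable_const.mul h4) h2).inter
      (measurableSet_le (measurable_const.mul h4) h3)).compl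

private lemma im_slow {α : Type*} [MeasurableSpace α] {v z : α → Vec d} (hv : Measurable v)
    (hz : Measurable z) (δ a₀ : ℝ) : MeasurableSet {q | SlowR δ a₀ (v q) (z q)} := by
  have e : {q | SlowR δ a₀ (v q) (z q)} = {q | a₀ ≤ 1 + nsq (v q)} ∩
      {q | nsq (z q) ≤ δ ^ 2 * (1 + nsq (v q))} := by
    ext q
    simp [SlowR]
  rw [e]
  exact (measurableSet_le measurable_const (im_one hv)).inter
    (measurableSet_le (im_nsq hz) (measurable_const.mul (im_one hv)))

private lemma im_med {α : Type*} [MeasurableSpace α] {v z : α → Vec d} (hv : Measurable v)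
    (hz : Measurable z) (δ a₀ L : ℝ) : MeasurableSet {q | MedR δ a₀ L (v q) (z q)} := by
  have e : {q | MedR δ a₀ L (v q) (z q)} = {q | nsq (z q) ≤ L * (1 + nsq (v q))} ∩
      {q | SlowR δ a₀ (v q) (z q)}ᶜ := by
    ext q
    simp [MedR]
  rw [e]
  exact (measurableSet_le (im_nsq hz) (measurable_const.mul (im_one hv))).inter
    (im_slow hv hz δ a₀).compl

private lemma im_an {α : Type*} [MeasurableSpace α] {m h : α → Vec d} (hm : Measurable m)
    (hh : Measurable h) (τ : ℝ) : MeasurableSet {q | h q ∈ AnS τ (m q)} := by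
  have e : {q | h q ∈ AnS τ (m q)} = {q | τ ^ 2 / 64 * nsq (m q) ≤ nsq (h q)} ∩
      {q | nsq (h q) ≤ τ ^ 2 * nsq (m q)} := by
    ext q
    simp [AnS]
  rw [e]
  exact (measurableSet_le (measurable_const.mul (im_nsq hm)) (im_nsq hh)).inter
    (measurableSet_le (im_nsq hh) (measurable_const.mul (im_nsq hm)))

private lemma im_hr {α : Type*} [MeasurableSpace α] {u v z : α → Vec d} (hu : Measurable u)
    (hv : Measurable v) (hz : Measurable z) (c : ℝ) : MeasurableSet {q | HR c (u q) (v q) (z q)} := by
  unfold HR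
  exact measurableSet_lt (im_len (hv.sub hu))
    (measurable_const.mul ((im_len (hv.sub hz)).min (im_jb hv)))

private lemma im_qC {α : Type*} [MeasurableSpace α] {ρ : α → ℝ} {v w : α → Vec d}
    (hρ : Measurable ρ) (hv : Measurable v) (hw : Measurable w) (s ε : ℝ) :
    Measurable fun q => qC s ε (ρ q) (v q) (w q) := by
  unfold qC
  exact (measurable_const.max (measurable_const.min ((hρ.pow_const 2).div
    (im_nsq (hv.sub hw))))).pow_const _

lemma meas_reg (P : Lp) : MeasurableSet {q : Vec d × Vec d × Vec d | (q.2.1, q.2.2) ∈ RegS P.θ P.L q.1} :=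
  im_reg measurable_fst (measurable_fst.comp measurable_snd) (measurable_snd.comp measurable_snd) _ _

lemma meas_slow (P : Lp) : MeasurableSet {q : Vec d × Vec d | SlowR P.δ P.a₀ q.1 q.2} :=
  im_slow measurable_fst measurable_snd _ _

lemma meas_med (P : Lp) : MeasurableSet {q : Vec d × Vec d | MedR P.δ P.a₀ P.L' q.1 q.2} :=
  im_med measurable_fst measurable_snd _ _ _

lemma meas_fast (P : Lp) : MeasurableSet {q : Vec d × Vec d | FastR P q.1 q.2} := by
  unfold FastR
  exact measurableSet_lt (measurable_const.mul (im_one measurable_fst)) (im_nsq measurable_snd)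

lemma meas_as (P : Lp) : MeasurableSet {q : Vec d × Vec d × Vec d | AS P q.1 q.2.1 q.2.2} := by
  have h2 : Measurable fun q : Vec d × Vec d × Vec d => q.2.1 := measurable_fst.comp measurable_snd
  have h3 : Measurable fun q : Vec d × Vec d × Vec d => q.2.2 := measurable_snd.comp measurable_snd
  have e : {q : Vec d × Vec d × Vec d | AS P q.1 q.2.1 q.2.2} =
      {q | MedR P.δ P.a₀ P.L' q.1 q.2.1} ∩ {q | q.2.2 - q.1 ∈ AnS P.τ (q.1 - q.2.1)} := by
    ext q
    simp [AS]
  rw [e]
  exact (im_med measurable_fst h2 _ _ _).inter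
    (im_an (measurable_fst.sub h2) (h3.sub measurable_fst) _)

/-- `(v,z,y) ↦ kM` -/
lemma meas_kM (P : Lp) {g1 g2 : Vec d → ℝ} (h1 : Measurable g1) (h2 : Measurable g2) :
    Measurable fun q : Vec d × Vec d × Vec d => kM P g1 g2 q.1 q.2.1 q.2.2 := by
  have hz : Measurable fun q : Vec d × Vec d × Vec d => q.2.1 := measurable_fst.comp measurable_snd
  unfold kM
  exact Measurable.ite (meas_reg P) ((h2.comp hz).add
    (Measurable.ite (meas_as P) measurable_const (h1.comp hz))) measurable_const

lemma meas_rho (P : Lp) : Measurable fun q : Vec d × Vec d => rho P q.1 q.2 := by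
  unfold rho Tb
  exact measurable_const.mul (((im_one measurable_fst).div (im_one measurable_snd)).pow_const _)

private lemma im_Wp {α : Type*} [MeasurableSpace α] {f : α → Vec d} (hf : Measurable f) (p : ℕ) :
    Measurable fun a => Wp p (f a) := by
  unfold Wp
  exact (im_one hf).pow_const _

lemma meas_Wp (p : ℕ) : Measurable (Wp (d := d) p) := im_Wp measurable_id p

lemma meas_Gs (p : ℕ) {g : Vec d → ℝ} (hg : Measurable g) : Measurable (Gs p g) := by
  unfold Gs
  exact (hg.pow_const 2).mul (meas_Wp p)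

lemma meas_dF (p : ℕ) {g : Vec d → ℝ} (hg : Measurable g) : Measurable fun q : Vec d × Vec d => dF p g q.1 q.2 := by
  unfold dF
  have h1 := im_Wp (d := d) (measurable_fst (α := Vec d) (β := Vec d)) p
  have h2 := im_Wp (d := d) (measurable_snd (α := Vec d) (β := Vec d)) p
  exact ((((hg.comp measurable_fst).mul h1).sub ((hg.comp measurable_snd).mul h2)).pow_const 2).div h2

lemma meas_cS (P : Lp) : Measurable fun q : Vec d × Vec d => cS P q.1 q.2 := by
  unfold cS
  exact Measurable.ite (meas_slow P) measurable_const measurable_const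

lemma meas_cM (P : Lp) : Measurable fun q : Vec d × Vec d => cM P q.1 q.2 := by
  unfold cM
  exact Measurable.ite (meas_med P) measurable_const measurable_const

lemma meas_cF (P : Lp) : Measurable fun q : Vec d × Vec d => cF P q.1 q.2 := by
  unfold cF
  exact Measurable.ite (meas_fast P) measurable_const measurable_const

lemma meas_mF (P : Lp) (s ε : ℝ) : Measurable fun q : Vec d × Vec d => mF P s ε q.1 q.2 := by
  unfold mF
  exact ((measurable_const.div ((im_nsq (measurable_fst.sub measurable_snd)).div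
    (im_one measurable_fst))).max measurable_const).pow_const _

lemma meas_cB (P : Lp) (s ε : ℝ) : Measurable fun q : Vec d × Vec d => cB P s ε q.1 q.2 := by
  unfold cB
  exact measurable_const.add ((meas_mF P s ε).mul (meas_cF P))

lemma meas_cN (e : Fin d) (t : ℝ) : Measurable fun q : Vec d × Vec d => cN e t q.1 q.2 := by
  unfold cN
  have h1 : Measurable fun q : Vec d × Vec d => q.1 e := (measurable_pi_apply e).comp measurable_fst
  have h2 : Measurable fun q : Vec d × Vec d => q.2 e := (measurable_pi_apply e).comp measurable_snd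
  refine Measurable.ite ?_ measurable_const measurable_const
  exact (measurableSet_le (measurable_const.mul (im_jb measurable_fst)) (im_jb measurable_snd)).inter
    (measurableSet_le (measurable_const.mul (im_len (measurable_fst.sub measurable_snd)))
      (continuous_abs.measurable.comp (h1.sub h2)))

lemma meas_cH (s ε c : ℝ) : Measurable fun q : Vec d × Vec d × Vec d => cH s ε c q.1 q.2.1 q.2.2 := by
  have h1 : Measurable fun q : Vec d × Vec d × Vec d => q.1 := measurable_fst
  have h2 : Measurable fun q : Vec d × Vec d × Vec d => q.2.1 := measurable_fst.comp measurable_snd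
  have h3 : Measurable fun q : Vec d × Vec d × Vec d => q.2.2 := measurable_snd.comp measurable_snd
  unfold cH
  refine Measurable.ite ?_ (im_qC (im_len (h2.sub h1)) h2 h3 s ε) measurable_const
  exact (im_hr h1 h2 h3 c).inter (measurableSet_le (measurable_const.mul (im_nsq (h2.sub h3)))
    (im_nsq (h2.sub h1)))

lemma meas_cG (s ε c : ℝ) : Measurable fun q : Vec d × Vec d × Vec d => cG s ε c q.1 q.2.1 q.2.2 := by
  have h1 : Measurable fun q : Vec d × Vec d × Vec d => q.1 := measurable_fst
  have h2 : Measurable fun q : Vec d × Vec d × Vec d => q.2.1 := measurable_fst.comp measurable_snd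
  have h3 : Measurable fun q : Vec d × Vec d × Vec d => q.2.2 := measurable_snd.comp measurable_snd
  unfold cG
  exact Measurable.ite (im_hr h1 h2 h3 c) (im_qC (im_len (h2.sub h1)) h2 h3 s ε) measurable_const

lemma meas_cE (s ε : ℝ) : Measurable fun q : Vec d × Vec d × Vec d => cE s ε q.1 q.2.1 q.2.2 := by
  have h1 : Measurable fun q : Vec d × Vec d × Vec d => q.1 := measurable_fst
  have h2 : Measurable fun q : Vec d × Vec d × Vec d => q.2.1 := measurable_fst.comp measurable_snd
  have h3 : Measurable fun q : Vec d × Vec d × Vec d => q.2.2 := measurable_snd.comp measurable_snd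
  unfold cE
  exact Measurable.ite (measurableSet_lt (im_nsq (h2.sub h1))
    (measurable_const.mul (im_nsq (h2.sub h3)))) measurable_const measurable_const

/-- `((u,v),(z,y))` -/
lemma meas_ret (Λ c : ℝ) :
    MeasurableSet {q : (Vec d × Vec d) × (Vec d × Vec d) | RetS Λ c q.1.1 q.1.2 q.2.1 q.2.2} := by
  have hu : Measurable fun q : (Vec d × Vec d) × (Vec d × Vec d) => q.1.1 :=
    measurable_fst.comp measurable_fst
  have hv : Measurable fun q : (Vec d × Vec d) × (Vec d × Vec d) => q.1.2 :=
    measurable_snd.comp measurable_fst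
  have hz : Measurable fun q : (Vec d × Vec d) × (Vec d × Vec d) => q.2.1 :=
    measurable_fst.comp measurable_snd
  have hy : Measurable fun q : (Vec d × Vec d) × (Vec d × Vec d) => q.2.2 :=
    measurable_snd.comp measurable_snd
  unfold RetS
  exact (measurableSet_le (measurable_const.mul (im_len (hy.sub hu))) (im_len (hy.sub hv))).inter
    ((measurableSet_le (im_len (hy.sub hv)) (measurable_const.mul (im_len (hy.sub hu)))).inter
      (measurableSet_lt (im_len (hy.sub hu))
        (measurable_const.mul ((im_len (hv.sub hz)).min (im_jb hv)))))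

/-- exactly one of slow, medium, fast -/
lemma c_one (P : Lp) (hP : P.Ok) (v z : Vec d) : cS P v z + cM P v z + cF P v z = 1 := by
  have hv := im_pos v
  unfold cS cM cF
  by_cases hs : SlowR P.δ P.a₀ v z
  · have h1 : ¬ MedR P.δ P.a₀ P.L' v z := fun h => h.2 hs
    have h2 : ¬ FastR P v z := by
      intro h
      have h3 := hs.2
      have h4 : P.L' * (1 + nsq v) < nsq z := h
      have h5 : P.δ ^ 2 ≤ 1 := pow_le_one₀ hP.hδ.le hP.hδ1
      have h6 := hP.hL34
      nlinarith
    rw [if_pos hs, if_neg h1, if_neg h2]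
    norm_num
  · by_cases hf : FastR P v z
    · have h1 : ¬ MedR P.δ P.a₀ P.L' v z := fun h => absurd h.1 (not_le.mpr hf)
      rw [if_neg hs, if_neg h1, if_pos hf]
      norm_num
    · have h1 : MedR P.δ P.a₀ P.L' v z := ⟨not_lt.mp hf, hs⟩
      rw [if_neg hs, if_pos h1, if_neg hf]
      norm_num

lemma c_nonneg (P : Lp) (v z : Vec d) : 0 ≤ cS P v z ∧ 0 ≤ cM P v z ∧ 0 ≤ cF P v z ∧
    cS P v z ≤ 1 ∧ cM P v z ≤ 1 ∧ cF P v z ≤ 1 := by
  unfold cS cM cF
  refine ⟨?_, ?_, ?_, ?_, ?_, ?_⟩ <;> split_ifs <;> norm_num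

lemma mF_bd (P : Lp) {s ε : ℝ} (hs : 0 ≤ s) (hε : 0 < ε) (v z : Vec d) : 0 ≤ mF P s ε v z ∧ mF P s ε v z ≤ ε ^ (-s) := by
  unfold mF
  refine ⟨Real.rpow_nonneg (hε.le.trans (le_max_right _ _)) _, ?_⟩
  exact Real.rpow_le_rpow_of_nonpos hε (le_max_right _ _) (by linarith)

lemma qC_bd {s ε : ℝ} (hs : 0 ≤ s) (hε : 0 < ε) (ρ : ℝ) (v w : Vec d) : 0 ≤ qC s ε ρ v w ∧ qC s ε ρ v w ≤ ε ^ (-s) := by
  unfold qC
  refine ⟨Real.rpow_nonneg (hε.le.trans (le_max_left _ _)) _, ?_⟩
  exact Real.rpow_le_rpow_of_nonpos hε (le_max_left _ _) (by linarith)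

lemma Wp_pos (p : ℕ) (v : Vec d) : 0 < Wp p v := pow_pos (im_pos v) p

lemma one_le_Wp (p : ℕ) (v : Vec d) : 1 ≤ Wp p v := by
  have := sq_nonneg' v
  exact one_le_pow₀ (by linarith)

lemma Gs_nonneg (p : ℕ) (g : Vec d → ℝ) (v : Vec d) : 0 ≤ Gs p g v :=
  mul_nonneg (sq_nonneg _) (Wp_pos p v).le

end Pool.Agent.H15.G1
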