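import Pool.Agent.H15.G1.L.Jlem
import Pool.Agent.H15.G1.L.IntM

/-!
# Module Bterm: (L2)

`kM ≤ g z`; `T3_J`: `LB ≤ T3 (g w · ω y · Gs v)`, `ω y ≤ ω v + |ω y - ω v|`.
-/

set_option autoImplicit false

open MeasureTheory Set Filter Topology Pool.Agent.H25.Kin Pool.Agent.H82.BK Pool.Agent.H82.CM
open Pool.Agent.H48.PL Pool.Agent.H48.PI Pool.Agent.H48.PW Pool.Agent.H82.NT
open scoped ENNReal

namespace Pool.Agent.H15.G1

variable {d : ℕ} {γ s C Ca cb ε : ℝ} {b : ℝ → ℝ}

theorem b_term (H : Hyp d γ s b C Ca) (hε : 0 < ε) (P : Lp) {g g1 ω : Vec d → ℝ} (D : Dat g g1 ω) :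
    LB γ b ε P g g1 (gR g g1) ω ≤ LLo γ b ε P g ω + LCu γ b ε P g ω := by
  have hgm : Measurable g := D.nice.cont.measurable
  have hωm : Measurable ω := D.ωc.measurable
  have hGs : Measurable (Gs (2 * P.p') g) := meas_Gs _ hgm
  have hω0 : ∀ v, 0 ≤ ω v := fun v => by linarith [D.ωl v]
  have hmono : ∀ Ψ Φ : Vec d → Vec d → Vec d → Vec d → ℝ≥0∞,
      (∀ v w y z, Ψ v w y z ≤ Φ v w y z) → T3 γ b ε Ψ ≤ T3 γ b ε Φ := by
    intro Ψ Φ h
    unfold T3
    exact lintegral_mono fun p => mul_le_mul_right (h _ _ _ _) _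
  have hk : ∀ v z y, kM P g1 (gR g g1) v z y ≤ g z := by
    intro v z y
    have h0 := D.g0 z
    have h1 := D.g10 z
    have h2 := D.le z
    unfold kM gR
    split_ifs <;> linarith
  set Ψ : Vec d → Vec d → Vec d → Vec d → ℝ≥0∞ :=
    fun v _ y z => ENNReal.ofReal (g z * (ω v * Gs (2 * P.p') g y)) with hΨ
  have hm1 : Meas4 Ψ := by
    unfold Meas4
    simp only [hΨ]
    refine ENNReal.measurable_ofReal.comp ?_
    refine (hgm.comp (measurable_snd.comp (measurable_snd.comp measurable_snd))).mul ?_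
    exact (hωm.comp measurable_fst).mul
      (hGs.comp (measurable_fst.comp (measurable_snd.comp measurable_snd)))
  have h1 : LB γ b ε P g g1 (gR g g1) ω ≤ T3 γ b ε Ψ := by
    unfold LB
    refine hmono _ _ fun v w y z => ENNReal.ofReal_le_ofReal ?_
    exact mul_le_mul_of_nonneg_right (hk v z y) (mul_nonneg (hω0 v) (Gs_nonneg _ g y))
  rw [T3_J H ε hm1] at h1
  refine h1.trans ?_
  have hm2 : Meas4 fun v w (_ _ : Vec d) => ENNReal.ofReal (g w * (Gs (2 * P.p') g v * ω v)) := by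
    unfold Meas4
    refine ENNReal.measurable_ofReal.comp ?_
    refine (hgm.comp (measurable_fst.comp measurable_snd)).mul ?_
    exact (hGs.comp measurable_fst).mul (hωm.comp measurable_fst)
  unfold LLo LCu
  rw [← T3_add H.bm hm2]
  refine hmono _ _ fun v w y z => ?_
  simp only [hΨ]
  have h0 := D.g0 w
  have hG := Gs_nonneg (2 * P.p') g v
  rw [← ENNReal.ofReal_add (mul_nonneg h0 (mul_nonneg hG (hω0 v)))
    (mul_nonneg h0 (mul_nonneg hG (abs_nonneg _)))]
  refine ENNReal.ofReal_le_ofReal ?_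
  rw [← mul_add, ← mul_add, mul_comm (ω y)]
  refine mul_le_mul_of_nonneg_left (mul_le_mul_of_nonneg_left ?_ hG) h0
  have := le_abs_self (ω y - ω v)
  linarith

end Pool.Agent.H15.G1
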