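import Pool.Agent.H15.G1.L.LIm

/-!
# Module SmallP: pairs below the cut-off

`nsq (v-u) < ε nsq (v-z)` implies `1 ≤ √ε |v-z| / |v-u|` for `v ≠ u`, so `LI ≤ ε^(1/2-s) ∫ 2 Gs v |v-u|^(-1) ∫ g z |v-z|^(1+γ)`; decay of `g` and `∫ |v-u|^(-1) wt(v) dv` bounded uniformly in `u` (`d ≥ 2`; library: integrability of
`len^(-1)` near `0`, e.g. `kg`, `freq_integrable`; uniform in `u`: split `|v-u| ≤ 1`).
-/

set_option autoImplicit false

open MeasureTheory Set Filter Topology Pool.Agent.H25.Kin Pool.Agent.H82.BK Pool.Agent.H82.CM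
open Pool.Agent.H48.PL Pool.Agent.H48.PI Pool.Agent.H48.PW Pool.Agent.H82.NT
open scoped ENNReal

namespace Pool.Agent.H15.G1

variable {d : ℕ} {γ s C Ca cb ε : ℝ} {b : ℝ → ℝ}

private lemma sp_len (hγ : 0 ≤ γ) (hγ2 : γ ≤ 2) (v z : Vec d) :
    len (v - z) ^ γ ≤ 4 * (1 + nsq v) * (1 + nsq z) := by
  have hn := sq_nonneg' z
  have hv := sq_nonneg' v
  have h5 : len (v - z) ^ γ ≤ 1 + 2 * nsq v + 2 * nsq z := by
    have h6 : nsq (v - z) ≤ 2 * nsq v + 2 * nsq z := by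
      have e1 := nsq_par v z
      have e2 := sq_nonneg' (v + z)
      linarith
    rcases le_or_gt (len (v - z)) 1 with h7 | h7
    · have := Real.rpow_le_one (len_nonneg (v - z)) h7 hγ
      linarith
    · have h8 : len (v - z) ^ γ ≤ len (v - z) ^ (2 : ℝ) :=
        Real.rpow_le_rpow_of_exponent_le h7.le hγ2
      have h9 : len (v - z) ^ (2 : ℝ) = nsq (v - z) := by
        rw [← len_sq]
        exact Real.rpow_natCast _ 2
      linarith
  nlinarith [mul_nonneg hv hn]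

private lemma sp_pow (N : ℕ) : PG (fun v : Vec d => (1 + nsq v) ^ N) := by
  induction N with
  | zero => simpa using (PG.const (1 : ℝ) : PG fun _ : Vec d => (1 : ℝ))
  | succ N ih =>
    have h := ih.mul ((PG.const (1 : ℝ)).add PG.nsq)
    refine (funext fun v => ?_ : (fun v : Vec d => (1 + nsq v) ^ (N + 1)) =
      fun v : Vec d => (1 + nsq v) ^ N * (1 + nsq v)) ▸ h
    ring

private lemma sp_fin {g : Vec d → ℝ} (hg : Nice g) (N : ℕ) :
    ∫⁻ v : Vec d, ENNReal.ofReal (g v * (1 + nsq v) ^ N) ≠ ⊤ := by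
  have h1 : RD (fun v : Vec d => g v * (1 + nsq v) ^ N) := hg.rd.mul_PG (sp_pow N)
  have h2 : Integrable (fun v : Vec d => g v * (1 + nsq v) ^ N) := by
    refine h1.integrable (hg.cont.measurable.mul ?_).aestronglyMeasurable
    exact meas_Wp (d := d) N
  exact h2.lintegral_lt_top.ne

private lemma sp_bd {g : Vec d → ℝ} (hg : Nice g) (N : ℕ) :
    ∃ B : ℝ, 0 ≤ B ∧ ∀ v : Vec d, g v * (1 + nsq v) ^ N ≤ B := by
  have h1 : RD (fun v : Vec d => g v * (1 + nsq v) ^ N) := hg.rd.mul_PG (sp_pow N)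
  obtain ⟨B, hB, hb⟩ := h1.bound 0
  refine ⟨B, hB, fun v => ?_⟩
  have h2 := hb v
  rw [pow_zero, inv_one, mul_one, Real.norm_eq_abs] at h2
  exact (le_abs_self _).trans h2

/-- `1/|z|` is bounded by the integrable kernel plus `1` -/
private lemma sp_inv (z : Vec d) : (len z)⁻¹ ≤ 2 ^ (d + 5) * kg (-1) z + 1 := by
  have hk := kg_nonneg (-1) z
  have hl := len_nonneg z
  rcases le_or_gt (len z) 1 with h | h
  · have h1 : (1 + ‖z‖) ^ (d + 5) ≤ 2 ^ (d + 5) := by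
      refine pow_le_pow_left₀ (w_pos z).le ?_ _
      have := norm_le_len z
      linarith
    have h2 : 1 ≤ 2 ^ (d + 5) * ((1 + ‖z‖) ^ (d + 5))⁻¹ := by
      rw [← div_eq_mul_inv, le_div_iff₀ (pow_pos (w_pos z) _), one_mul]
      exact h1
    have h3 : (len z)⁻¹ ≤ (len z)⁻¹ * (1 + nsq z) * (2 ^ (d + 5) * ((1 + ‖z‖) ^ (d + 5))⁻¹) := by
      have h4 : (len z)⁻¹ ≤ (len z)⁻¹ * (1 + nsq z) :=
        le_mul_of_one_le_right (inv_nonneg.2 hl) (by linarith [sq_nonneg' z])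
      exact h4.trans (le_mul_of_one_le_right (mul_nonneg (inv_nonneg.2 hl)
        (by linarith [sq_nonneg' z])) h2)
    have h5 : 2 ^ (d + 5) * kg (-1) z =
        (len z)⁻¹ * (1 + nsq z) * (2 ^ (d + 5) * ((1 + ‖z‖) ^ (d + 5))⁻¹) := by
      unfold kg
      rw [Real.rpow_neg_one]
      ring
    rw [h5]
    linarith
  · have h1 : (len z)⁻¹ ≤ 1 := inv_le_one_of_one_le₀ h.le
    have h2 : 0 ≤ 2 ^ (d + 5) * kg (-1) z := by positivity
    linarith

/-- the pointwise bound of the cut-off kernel -/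
private lemma sp_cE {u v z : Vec d} (hvu : 0 < len (v - u)) {s ε : ℝ} (hε : 0 < ε) :
    cE s ε u v z ≤ ε ^ (1 / 2 - s) * (len (v - u))⁻¹ * len (v - z) := by
  have hl := len_nonneg (v - z)
  unfold cE
  split_ifs with h
  · have e1 : ε ^ (1 / 2 - s) = ε ^ (-s) * √ε := by
      rw [Real.sqrt_eq_rpow, ← Real.rpow_add hε]
      congr 1
      ring
    have e2 : len (v - u) < √ε * len (v - z) := by
      refine lt_of_pow_lt_pow_left₀ 2 (by positivity) ?_
      rw [mul_pow, len_sq, len_sq, Real.sq_sqrt hε.le]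
      exact h
    have e3 : 1 ≤ √ε * (len (v - u))⁻¹ * len (v - z) := by
      have h1 : √ε * (len (v - u))⁻¹ * len (v - z) = (√ε * len (v - z)) / len (v - u) := by
        rw [div_eq_mul_inv]
        ring
      rw [h1, le_div_iff₀ hvu, one_mul]
      exact e2.le
    have e4 := mul_le_mul_of_nonneg_left e3 (Real.rpow_nonneg hε.le (-s))
    rw [mul_one] at e4
    refine e4.trans (le_of_eq ?_)
    rw [e1]
    ring
  · positivity

theorem small_pairs (hd : 2 ≤ d) (hs : 0 < s) (hγ : 0 ≤ γ) (hγ2 : γ ≤ 2) {g : Vec d → ℝ} (hg : Nice g)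
    (h0 : ∀ u, 0 ≤ g u) (p : ℕ) : ∃ A : ℝ, 0 ≤ A ∧ ∀ ω : Vec d → ℝ, Measurable ω → (∀ v, ω v ≤ 2) →
    ∀ u : Vec d, ∀ ε : ℝ, 0 < ε → ε ≤ 1 → LI γ p g g ω (cE s ε u) ≤ ENNReal.ofReal (A * ε ^ (1 / 2 - s)) := by
  obtain ⟨C0, hC0, hgb⟩ := sp_bd hg 0
  obtain ⟨B, hB, hgB⟩ := sp_bd hg (p + 2)
  obtain ⟨J, hJ⟩ : ∃ J : ℝ≥0∞, J = ∫⁻ v : Vec d, ENNReal.ofReal (g v * (1 + nsq v) ^ 2) := ⟨_, rfl⟩
  have hJt : J ≠ ⊤ := hJ ▸ sp_fin hg 2
  obtain ⟨J1, hJ1⟩ : ∃ J1 : ℝ≥0∞, J1 = ∫⁻ v : Vec d, ENNReal.ofReal (g v * (1 + nsq v) ^ (p + 2)) :=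
    ⟨_, rfl⟩
  have hJ1t : J1 ≠ ⊤ := hJ1 ▸ sp_fin hg (p + 2)
  obtain ⟨Kk, hKk⟩ : ∃ Kk : ℝ≥0∞, Kk = ∫⁻ z : Vec d, ENNReal.ofReal (kg (-1) z) := ⟨_, rfl⟩
  have hKt : Kk ≠ ⊤ := by
    rw [hKk]
    exact (kg_integrable (d := d) hd (γ := -1) (by norm_num) (by norm_num)).lintegral_lt_top.ne
  have hB2 : (0 : ℝ) ≤ B * 2 ^ (d + 5) := by positivity
  obtain ⟨T, hT⟩ : ∃ T : ℝ≥0∞, T = ENNReal.ofReal (32 * C0) * J *
      (ENNReal.ofReal (B * 2 ^ (d + 5)) * Kk + J1) := ⟨_, rfl⟩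
  have hTt : T ≠ ⊤ := by
    rw [hT]
    exact ENNReal.mul_ne_top (ENNReal.mul_ne_top ENNReal.ofReal_ne_top hJt)
      (ENNReal.add_ne_top.2 ⟨ENNReal.mul_ne_top ENNReal.ofReal_ne_top hKt, hJ1t⟩)
  refine ⟨T.toReal, ENNReal.toReal_nonneg, ?_⟩
  intro ω hωm hω u ε hε hε1
  set E : ℝ := ε ^ (1 / 2 - s) with hE
  have hE0 : 0 ≤ E := Real.rpow_nonneg hε.le _
  have : Nonempty (Fin d) := ⟨⟨0, by omega⟩⟩
  have hne : ∀ᵐ v : Vec d, v ≠ u := by
    have h : (volume : Measure (Vec d)) {u} = 0 := measure_singleton u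
    rw [ae_iff]
    refine measure_mono_null (fun z hz => ?_) h
    simp only [Set.mem_ofPred_eq, not_not] at hz
    exact hz
  have hgmeas : Measurable g := hg.cont.measurable
  -- the inner integral
  have hin : ∀ v : Vec d, v ≠ u →
      ∫⁻ z, ENNReal.ofReal (g z * len (v - z) ^ γ * cE s ε u v z) ≤
      ENNReal.ofReal (16 * E * (len (v - u))⁻¹ * (1 + nsq v) ^ 2) * J := by
    intro v hv
    have hvu : 0 < len (v - u) := len_pos (sub_ne_zero.2 hv)
    have hv0 := sq_nonneg' v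
    rw [hJ, ← lintegral_const_mul' _ _ ENNReal.ofReal_ne_top]
    refine lintegral_mono fun z => ?_
    have hz := sq_nonneg' z
    rw [← ENNReal.ofReal_mul (by positivity)]
    refine ENNReal.ofReal_le_ofReal ?_
    have h1 := sp_len hγ hγ2 v z
    have h2 := sp_len (γ := 1) zero_le_one one_le_two v z
    rw [Real.rpow_one] at h2
    have h3 := Real.rpow_nonneg (len_nonneg (v - z)) γ
    have h4 := sp_cE (u := u) (v := v) (z := z) hvu (s := s) hε
    have h5 : len (v - z) ^ γ * len (v - z) ≤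
        (4 * (1 + nsq v) * (1 + nsq z)) * (4 * (1 + nsq v) * (1 + nsq z)) :=
      mul_le_mul h1 h2 (len_nonneg _) (by positivity)
    have h6 : 0 ≤ E * (len (v - u))⁻¹ := by positivity
    calc g z * len (v - z) ^ γ * cE s ε u v z
        ≤ g z * len (v - z) ^ γ * (E * (len (v - u))⁻¹ * len (v - z)) :=
          mul_le_mul_of_nonneg_left h4 (mul_nonneg (h0 z) h3)
      _ = (g z * (E * (len (v - u))⁻¹)) * (len (v - z) ^ γ * len (v - z)) := by ring
      _ ≤ (g z * (E * (len (v - u))⁻¹)) *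
          ((4 * (1 + nsq v) * (1 + nsq z)) * (4 * (1 + nsq v) * (1 + nsq z))) :=
          mul_le_mul_of_nonneg_left h5 (mul_nonneg (h0 z) h6)
      _ = 16 * E * (len (v - u))⁻¹ * (1 + nsq v) ^ 2 * (g z * (1 + nsq z) ^ 2) := by ring
  -- the outer integral
  have hout : ∀ v : Vec d, v ≠ u → ENNReal.ofReal (ω v * Gs p g v) *
      ∫⁻ z, ENNReal.ofReal (g z * len (v - z) ^ γ * cE s ε u v z) ≤
      (ENNReal.ofReal E * (ENNReal.ofReal (32 * C0) * J)) *
        (ENNReal.ofReal (B * 2 ^ (d + 5)) * ENNReal.ofReal (kg (-1) (v - u)) +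
          ENNReal.ofReal (g v * (1 + nsq v) ^ (p + 2))) := by
    intro v hv
    have hv0 := sq_nonneg' v
    have hg0 := h0 v
    have hgC : g v ≤ C0 := by
      have := hgb v
      rwa [pow_zero, mul_one] at this
    have hG : ω v * Gs p g v ≤ 2 * (C0 * (g v * (1 + nsq v) ^ p)) := by
      have hG0 : 0 ≤ Gs p g v := by
        unfold Gs Wp
        positivity
      refine mul_le_mul (hω v) ?_ hG0 (by norm_num)
      unfold Gs Wp
      have h8 : g v ^ 2 ≤ C0 * g v := by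
        rw [sq]
        exact mul_le_mul_of_nonneg_right hgC hg0
      have h9 := mul_le_mul_of_nonneg_right h8 (by positivity : 0 ≤ (1 + nsq v) ^ p)
      linarith
    have hli := len_nonneg (v - u)
    have hk := kg_nonneg (-1) (v - u)
    have h10 : ENNReal.ofReal (ω v * Gs p g v) *
        ENNReal.ofReal (16 * E * (len (v - u))⁻¹ * (1 + nsq v) ^ 2) ≤
        ENNReal.ofReal (E * (32 * C0)) * (ENNReal.ofReal (B * 2 ^ (d + 5) * kg (-1) (v - u)) +
          ENNReal.ofReal (g v * (1 + nsq v) ^ (p + 2))) := by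
      rw [← ENNReal.ofReal_add (by positivity) (by positivity)]
      refine (mul_le_mul_left (ENNReal.ofReal_le_ofReal hG) _).trans ?_
      rw [← ENNReal.ofReal_mul (by positivity), ← ENNReal.ofReal_mul (by positivity)]
      refine ENNReal.ofReal_le_ofReal ?_
      have h11 : g v * (1 + nsq v) ^ (p + 2) * (len (v - u))⁻¹ ≤
          B * 2 ^ (d + 5) * kg (-1) (v - u) + g v * (1 + nsq v) ^ (p + 2) := by
        have h12 := mul_le_mul_of_nonneg_left (sp_inv (v - u))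
          (by positivity : 0 ≤ g v * (1 + nsq v) ^ (p + 2))
        have h13 := mul_le_mul_of_nonneg_right (hgB v)
          (by positivity : 0 ≤ 2 ^ (d + 5) * kg (-1) (v - u))
        refine h12.trans ?_
        rw [mul_add, mul_one]
        linarith
      have h14 := mul_le_mul_of_nonneg_left h11 (by positivity : 0 ≤ E * (32 * C0))
      refine le_trans (le_of_eq ?_) h14
      ring
    calc ENNReal.ofReal (ω v * Gs p g v) *
        ∫⁻ z, ENNReal.ofReal (g z * len (v - z) ^ γ * cE s ε u v z)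
        ≤ ENNReal.ofReal (ω v * Gs p g v) *
          (ENNReal.ofReal (16 * E * (len (v - u))⁻¹ * (1 + nsq v) ^ 2) * J) :=
          mul_le_mul_right (hin v hv) _
      _ = (ENNReal.ofReal (ω v * Gs p g v) *
          ENNReal.ofReal (16 * E * (len (v - u))⁻¹ * (1 + nsq v) ^ 2)) * J := by ring
      _ ≤ (ENNReal.ofReal (E * (32 * C0)) * (ENNReal.ofReal (B * 2 ^ (d + 5) * kg (-1) (v - u)) +
          ENNReal.ofReal (g v * (1 + nsq v) ^ (p + 2)))) * J := mul_le_mul_left h10 _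
      _ = _ := by
          rw [ENNReal.ofReal_mul hE0, ENNReal.ofReal_mul hB2]
          ring
  have hfin : ∫⁻ v : Vec d, (ENNReal.ofReal (B * 2 ^ (d + 5)) * ENNReal.ofReal (kg (-1) (v - u)) +
          ENNReal.ofReal (g v * (1 + nsq v) ^ (p + 2))) =
      ENNReal.ofReal (B * 2 ^ (d + 5)) * Kk + J1 := by
    have hm1 : Measurable fun v : Vec d =>
        ENNReal.ofReal (B * 2 ^ (d + 5)) * ENNReal.ofReal (kg (-1) (v - u)) :=
      (ENNReal.measurable_ofReal.comp ((kg_measurable (-1)).comp (measurable_id.sub_const u))).const_mul _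
    rw [lintegral_add_left hm1, lintegral_const_mul' _ _ ENNReal.ofReal_ne_top, ← hJ1, hKk,
      lintegral_sub_right_eq_self (fun z : Vec d => ENNReal.ofReal (kg (-1) z)) u]
  unfold LI
  refine (lintegral_mono_ae (hne.mono fun v hv => hout v hv)).trans ?_
  rw [lintegral_const_mul' _ _ (ENNReal.mul_ne_top ENNReal.ofReal_ne_top
    (ENNReal.mul_ne_top ENNReal.ofReal_ne_top hJt)), hfin, mul_comm T.toReal E,
    ENNReal.ofReal_mul hE0, ENNReal.ofReal_toReal hTt, hT, mul_assoc]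

end Pool.Agent.H15.G1
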