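import Pool.Agent.H15.G1.L.Hardy3
import Pool.Agent.H15.G1.L.CuAng
import Pool.Agent.H15.G1.L.SmallP

/-!
# Module CuB: (L5), the increments of `ω`

`cu_u`: `T3_loss` and `cu_ang` with `ρ = |v-u|` (null set `v = u`) and `ρ = ⟨v⟩`; `Gs ≤ 2 ω Gs`. `qC s ε |v-u|`: on `HR c` it is `cG`; not `HR c`: `≤ K cB` (as in Hardy2); `qC s ε ⟨v⟩ ≤ K cB` in the same way (`c = 1`). `hardy_u`, `small_pairs`.
`cu_b`: `CuspW` and Tonelli: `ofReal |ω y - ω v| ≤ ∫⁻ ofReal (n u) ofReal (min 1 .. + min 1 ..)`, `LCu ≤ ∫⁻ ofReal (n u) LU u du` (`ofReal_integral_eq_lintegral_ofReal`; the integrand is integrable, dominated by `2n`).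
-/

set_option autoImplicit false

open MeasureTheory Set Filter Topology Pool.Agent.H25.Kin Pool.Agent.H82.BK Pool.Agent.H82.CM
open Pool.Agent.H48.PL Pool.Agent.H48.PI Pool.Agent.H48.PW Pool.Agent.H82.NT
open scoped ENNReal

namespace Pool.Agent.H15.G1

variable {d : ℕ} {γ s C Ca cb ε : ℝ} {b : ℝ → ℝ}


/-! ### the kernel `qC` -/

private lemma cub_nsq_pos {v z : Vec d} (h : v ≠ z) : 0 < nsq (v - z) := sq_pos_of_ne (sub_ne_zero.2 h)

private lemma cub_pow_mul {s a x : ℝ} (ha : 0 < a) (hx : 0 < x) {y : ℝ} (h : a * x ≤ y) (hs : 0 ≤ s) :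
    y ^ (-s) ≤ a ^ (-s) * x ^ (-s) := by
  rw [← Real.mul_rpow ha.le hx.le]
  exact Real.rpow_le_rpow_of_nonpos (mul_pos ha hx) h (by linarith)

/-- `K₂ = (c²/(2+2L'))^(-s)` -/
private noncomputable def cubK (P : Lp) (s c : ℝ) : ℝ := (c ^ 2 / (2 + 2 * P.L')) ^ (-s)

private lemma cubK_nonneg (P : Lp) (hP : P.Ok) {s c : ℝ} : 0 ≤ cubK P s c := by
  have := hP.hL34
  unfold cubK
  exact Real.rpow_nonneg (by positivity) _

private lemma cub_le_K (P : Lp) (hP : P.Ok) {s c y : ℝ} (hs : 0 ≤ s) (hc : 0 < c) (h : c ^ 2 / (2 + 2 * P.L') ≤ y) :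
    y ^ (-s) ≤ cubK P s c := by
  have := hP.hL34
  unfold cubK
  exact Real.rpow_le_rpow_of_nonpos (by positivity) h (by linarith)

private lemma cub_one_le_cB (P : Lp) {s ε : ℝ} (hs : 0 ≤ s) (hε : 0 < ε) (v z : Vec d) : 1 ≤ cB P s ε v z := by
  have h1 := (mF_bd P hs hε v z).1
  have h2 := (c_nonneg P v z).2.2.1
  have h3 := mul_nonneg h1 h2
  unfold cB
  linarith

/-- a barrier at distance `c⟨v⟩` -/
private lemma cub_far (P : Lp) (hP : P.Ok) {s c ε : ℝ} (hs : 0 ≤ s) (hc : 0 < c) (hc1 : c ≤ 1) (hε : 0 < ε)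
    {v z : Vec d} (hvz : v ≠ z) {ρ : ℝ} (hρ : c * jb v ≤ ρ) :
    qC s ε ρ v z ≤ cubK P s c * cB P s ε v z := by
  have hL := hP.hL34
  have hn := cub_nsq_pos hvz
  have hj := jb_sq v
  have hj0 := jb_pos v
  have hv := sq_nonneg' v
  have hz := sq_nonneg' z
  have hρ2 : c ^ 2 * (1 + nsq v) ≤ ρ ^ 2 := by
    rw [← hj, ← mul_pow]
    exact pow_le_pow_left₀ (by positivity) hρ 2
  have hX0 : 0 < (1 + nsq v) / nsq (v - z) := by positivity
  set X := (1 + nsq v) / nsq (v - z) with hX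
  have hX2 : c ^ 2 * X ≤ ρ ^ 2 / nsq (v - z) := by
    rw [hX, ← mul_div_assoc]
    exact div_le_div_of_nonneg_right hρ2 hn.le
  have hK0 := cubK_nonneg P hP (s := s) (c := c)
  have hcB := cub_one_le_cB P hs hε v z
  have hc2 : c ^ 2 / (2 + 2 * P.L') ≤ c ^ 2 := div_le_self (by positivity) (by linarith)
  have hc21 : c ^ 2 ≤ 1 := pow_le_one₀ hc.le hc1
  by_cases hf : FastR P v z
  · -- fast
    have hcF : cF P v z = 1 := by unfold cF; rw [if_pos hf]
    have hXb : X ≤ 1 := by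
      unfold FastR at hf
      have e1 : nsq z ≤ 2 * nsq (v - z) + 2 * nsq v := by
        have := nsq_par (z - v) v
        have e2 : nsq (z - v) = nsq (v - z) := by
          rw [← neg_sub, sq_neg]
        rw [e2, sub_add_cancel] at this
        have := sq_nonneg' (z - v - v)
        linarith
      rw [hX, div_le_one hn]
      nlinarith
    have hθX : P.θ / (nsq (v - z) / (1 + nsq v)) = P.θ * X := by
      rw [hX]; field_simp
    have hmF : mF P s ε v z = max (P.θ * X) ε ^ (-s) := by unfold mF; rw [hθX]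
    have hθ := hP.hθ
    have hθ1 := hP.hθ1
    have h1 : qC s ε ρ v z ≤ (c ^ 2) ^ (-s) * max (P.θ * X) ε ^ (-s) := by
      unfold qC
      refine cub_pow_mul (by positivity) (lt_max_of_lt_right hε) ?_ hs
      rcases max_choice (P.θ * X) ε with h | h
      · rw [h]
        refine le_max_of_le_right (le_min ?_ ?_)
        · have : P.θ * X ≤ 1 := by nlinarith
          nlinarith [mul_pos hθ hX0]
        · refine le_trans ?_ hX2
          have : P.θ * X ≤ X := by nlinarith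
          exact mul_le_mul_of_nonneg_left this (by positivity)
      · rw [h]
        refine le_max_of_le_left ?_
        nlinarith
    have h2 : (c ^ 2) ^ (-s) ≤ cubK P s c := cub_le_K P hP hs hc hc2
    have h3 : 0 ≤ max (P.θ * X) ε ^ (-s) := Real.rpow_nonneg (le_max_of_le_right hε.le) _
    have h4 : max (P.θ * X) ε ^ (-s) ≤ cB P s ε v z := by
      unfold cB; rw [hcF, hmF]; linarith
    calc qC s ε ρ v z ≤ (c ^ 2) ^ (-s) * max (P.θ * X) ε ^ (-s) := h1
      _ ≤ cubK P s c * max (P.θ * X) ε ^ (-s) := mul_le_mul_of_nonneg_right h2 h3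
      _ ≤ cubK P s c * cB P s ε v z := mul_le_mul_of_nonneg_left h4 hK0
  · -- not fast
    have h1 : qC s ε ρ v z ≤ cubK P s c := by
      unfold qC
      refine cub_le_K P hP hs hc (le_max_of_le_right (le_min (hc2.trans hc21) (le_trans ?_ hX2)))
      unfold FastR at hf
      have e1 : nsq (v - z) ≤ (2 + 2 * P.L') * (1 + nsq v) := by
        have h5 := nsq_par v z
        have h6 := sq_nonneg' (v + z)
        nlinarith
      rw [hX, ← mul_div_assoc, div_le_div_iff₀ (by positivity) hn]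
      nlinarith [mul_le_mul_of_nonneg_left e1 (sq_nonneg c)]
    nlinarith

/-- the kernel of the cusp at `u` -/
private lemma cub_near (P : Lp) (hP : P.Ok) {s c ε : ℝ} (hs : 0 ≤ s) (hc : 0 < c) (hc1 : c ≤ 1) (hε : 0 < ε)
    {v z : Vec d} (hvz : v ≠ z) (u : Vec d) :
    qC s ε (len (v - u)) v z ≤ cG s ε c u v z + cubK P s c * cB P s ε v z := by
  have hL := hP.hL34
  have hn := cub_nsq_pos hvz
  have hK0 := cubK_nonneg P hP (s := s) (c := c)
  have hcB := cub_one_le_cB P hs hε v z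
  have hKc : cubK P s c ≤ cubK P s c * cB P s ε v z := le_mul_of_one_le_right hK0 hcB
  have hc2 : c ^ 2 / (2 + 2 * P.L') ≤ c ^ 2 := div_le_self (by positivity) (by linarith)
  have hc21 : c ^ 2 ≤ 1 := pow_le_one₀ hc.le hc1
  by_cases h : HR c u v z
  · have : cG s ε c u v z = qC s ε (len (v - u)) v z := by unfold cG; rw [if_pos h]
    rw [this]
    nlinarith
  · have h0 : cG s ε c u v z = 0 := by unfold cG; rw [if_neg h]
    rw [h0, zero_add]
    unfold HR at h
    rw [not_lt] at h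
    rcases le_total (len (v - z)) (jb v) with h1 | h1
    · rw [min_eq_left h1] at h
      refine le_trans ?_ hKc
      unfold qC
      refine cub_le_K P hP hs hc (le_max_of_le_right (le_min (hc2.trans hc21) (hc2.trans ?_)))
      rw [le_div_iff₀ hn, ← len_sq, ← mul_pow]
      exact pow_le_pow_left₀ (mul_nonneg hc.le (len_nonneg _)) h 2
    · rw [min_eq_right h1] at h
      exact cub_far P hP hs hc hc1 hε hvz h

/-- the increment kernel `min(1,|y-v|/|v-u|) + min(1,|y-v|/⟨v⟩)` -/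
private noncomputable def cubT (u v y : Vec d) : ℝ :=
  min 1 (len (y - v) / len (v - u)) + min 1 (len (y - v) / jb v)

private lemma cubT_eq (u v y : Vec d) : cubT u v y =
    min 1 (len (y - v) / len (v - u)) + min 1 (len (y - v) / jb v) := rfl

private lemma cubT_nonneg (u v y : Vec d) : 0 ≤ cubT u v y := by
  unfold cubT
  have h1 := len_nonneg (y - v)
  have h2 := len_nonneg (v - u)
  have h3 := (jb_pos v).le
  exact add_nonneg (le_min zero_le_one (div_nonneg h1 h2)) (le_min zero_le_one (div_nonneg h1 h3))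

private lemma cubT_meas : Measurable fun q : Vec d × Vec d × Vec d => cubT q.1 q.2.1 q.2.2 := by
  unfold cubT
  have h1 : Measurable fun q : Vec d × Vec d × Vec d => len (q.2.2 - q.2.1) :=
    (continuous_len.comp (by fun_prop : Continuous fun q : Vec d × Vec d × Vec d => q.2.2 - q.2.1)).measurable
  have h2 : Measurable fun q : Vec d × Vec d × Vec d => len (q.2.1 - q.1) :=
    (continuous_len.comp (by fun_prop : Continuous fun q : Vec d × Vec d × Vec d => q.2.1 - q.1)).measurable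
  have h3 : Measurable fun q : Vec d × Vec d × Vec d => jb q.2.1 :=
    (jb_cont.comp (by fun_prop : Continuous fun q : Vec d × Vec d × Vec d => q.2.1)).measurable
  exact (measurable_const.min (h1.div h2)).add (measurable_const.min (h1.div h3))

private lemma cub_fin {U G X I : ℝ≥0∞} {K₀ K₁ K₂ a : ℝ} (hK₀ : 0 ≤ K₀) (hK₁ : 0 ≤ K₁) (hK₂ : 0 ≤ K₂)
    (h1 : U ≤ ENNReal.ofReal (2 * K₀) * (G + ENNReal.ofReal (2 * K₂) * I))
    (h2 : G ≤ ENNReal.ofReal K₁ * (X + I + ENNReal.ofReal a)) :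
    U ≤ ENNReal.ofReal (2 * K₀ * (K₁ + 2 * K₂)) * (X + I) + ENNReal.ofReal (2 * K₀ * K₁ * a) := by
  calc U ≤ ENNReal.ofReal (2 * K₀) * (G + ENNReal.ofReal (2 * K₂) * I) := h1
    _ ≤ ENNReal.ofReal (2 * K₀) * (ENNReal.ofReal K₁ * (X + I + ENNReal.ofReal a) +
        ENNReal.ofReal (2 * K₂) * (X + I)) := by
        gcongr
        exact le_add_self
    _ = ENNReal.ofReal (2 * K₀) * ((ENNReal.ofReal K₁ + ENNReal.ofReal (2 * K₂)) * (X + I)) +
        ENNReal.ofReal (2 * K₀) * (ENNReal.ofReal K₁ * ENNReal.ofReal a) := by ring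
    _ = _ := by
        rw [← ENNReal.ofReal_add hK₁ (by positivity), ← mul_assoc, ← ENNReal.ofReal_mul (by positivity),
          ← ENNReal.ofReal_mul hK₁, ← ENNReal.ofReal_mul (by positivity), ← mul_assoc (2 * K₀) K₁ a]

private lemma cub_comp {α : Type*} [MeasurableSpace α] {f : α → Vec d × Vec d × Vec d} (hf : Measurable f) :
    Measurable fun x : α => cubT (f x).1 (f x).2.1 (f x).2.2 := by
  have h9 := (cubT_meas (d := d)).comp hf
  exact h9

private lemma cub_ae (hd : 1 ≤ d) (u : Vec d) : ∀ᵐ v ∂(volume : Measure (Vec d)), v ≠ u := by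
  have hne : Nonempty (Fin d) := ⟨⟨0, by omega⟩⟩
  have : (volume : Measure (Vec d)) {u} = 0 := measure_singleton u
  filter_upwards [compl_mem_ae_iff.2 this] with w hw h
  exact hw h

attribute [local irreducible] cubT

/-- the angular integral -/
private lemma cub_ang2 {K₀ : ℝ}
    (hb : Measurable b) (hK₀ : 0 ≤ K₀) (hc : ∀ ε : ℝ, 0 < ε → ε ≤ 1 →
    ∀ v w : Vec d, v ≠ w → ∀ ρ : ℝ, 0 < ρ →
      ∫⁻ σ, ENNReal.ofReal (bt b ε (cosTh v w σ) * min 1 (len (post v w σ - v) / ρ)) ∂(surf d) ≤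
        ENNReal.ofReal (K₀ * qC s ε ρ v w)) (hs : 0 ≤ s) {ε : ℝ} (hε : 0 < ε) (hε1 : ε ≤ 1) {u v w : Vec d}
    (hvu : v ≠ u) (hvw : v ≠ w) :
    ∫⁻ σ, ENNReal.ofReal (bt b ε (cosTh v w σ) * cubT u v (post v w σ)) ∂(surf d) ≤
      ENNReal.ofReal (K₀ * (qC s ε (len (v - u)) v w + qC s ε (jb v) v w)) := by
  have h1 := hc ε hε hε1 v w hvw (len (v - u)) (len_pos (sub_ne_zero.2 hvu))
  have h2 := hc ε hε hε1 v w hvw (jb v) (jb_pos v)
  have hm3 : Measurable fun σ : Vec d => ((v, w, σ) : Vec d × Vec d × Vec d) :=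
    measurable_const.prodMk (measurable_const.prodMk measurable_id)
  have m1 : Measurable fun σ : Vec d => bt b ε (cosTh v w σ) :=
    (measurable_bt hb ε).comp (measurable_cosTh.comp hm3)
  have m2 : Measurable fun σ : Vec d => len (post v w σ - v) :=
    continuous_len.measurable.comp ((continuous_post.measurable.comp hm3).sub measurable_const)
  have m3 : Measurable fun σ : Vec d => ENNReal.ofReal (bt b ε (cosTh v w σ) *
      min 1 (len (post v w σ - v) / len (v - u))) :=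
    (m1.mul (measurable_const.min (m2.div_const _))).ennreal_ofReal
  calc ∫⁻ σ, ENNReal.ofReal (bt b ε (cosTh v w σ) * cubT u v (post v w σ)) ∂(surf d)
      ≤ ∫⁻ σ, (ENNReal.ofReal (bt b ε (cosTh v w σ) * min 1 (len (post v w σ - v) / len (v - u))) +
          ENNReal.ofReal (bt b ε (cosTh v w σ) * min 1 (len (post v w σ - v) / jb v))) ∂(surf d) := by
        refine lintegral_mono fun σ => ?_
        rw [cubT_eq, mul_add]
        exact ENNReal.ofReal_add_le
    _ = _ := lintegral_add_left m3 _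
    _ ≤ ENNReal.ofReal (K₀ * qC s ε (len (v - u)) v w) + ENNReal.ofReal (K₀ * qC s ε (jb v) v w) :=
        add_le_add h1 h2
    _ = _ := by
        rw [← ENNReal.ofReal_add (mul_nonneg hK₀ (qC_bd hs hε _ v w).1) (mul_nonneg hK₀ (qC_bd hs hε _ v w).1),
          mul_add]

private lemma cG_nonneg' {s ε c : ℝ} (hs : 0 ≤ s) (hε : 0 < ε) (u v z : Vec d) : 0 ≤ cG s ε c u v z := by
  unfold cG
  split_ifs
  · exact (qC_bd hs hε _ v z).1
  · exact le_rfl

private lemma cub_stepB (P : Lp) {g g1 ω : Vec d → ℝ} (D : Dat g g1 ω) {s ε c K₀ K₂ : ℝ} (hs : 0 ≤ s) (hε : 0 < ε)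
    (hK₀ : 0 ≤ K₀) (hK₂ : 0 ≤ K₂) (u : Vec d) :
    LI γ (2 * P.p') g g ω (fun v z => (2 * K₀) * (cG s ε c u v z + (2 * K₂) * cB P s ε v z)) =
      ENNReal.ofReal (2 * K₀) * (LI γ (2 * P.p') g g ω (cG s ε c u) +
        ENNReal.ofReal (2 * K₂) * LI γ (2 * P.p') g g ω (cB P s ε)) := by
  have hgm : Measurable g := D.nice.cont.measurable
  have hωm : Measurable ω := D.ωc.measurable
  have mG0 : Measurable fun q : Vec d × Vec d => ((u, q.1, q.2) : Vec d × Vec d × Vec d) :=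
    measurable_const.prodMk (measurable_fst.prodMk measurable_snd)
  have mG : Measurable fun q : Vec d × Vec d => cG s ε c u q.1 q.2 := ((meas_cG s ε c).comp mG0 :)
  have mB := meas_cB (d := d) P s ε
  have mB2 : Measurable fun q : Vec d × Vec d => (2 * K₂) * cB P s ε q.1 q.2 := mB.const_mul _
  have hB0 : ∀ v z : Vec d, 0 ≤ (2 * K₂) * cB P s ε v z := fun v z =>
    mul_nonneg (by positivity) (zero_le_one.trans (cub_one_le_cB P hs hε v z))
  rw [LI_mul (c := fun v z => cG s ε c u v z + (2 * K₂) * cB P s ε v z) (by positivity),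
    LI_add (c := cG s ε c u) (c' := fun v z => (2 * K₂) * cB P s ε v z) hgm hgm hωm mG mB2 D.g0
      (cG_nonneg' hs hε u) hB0,
    LI_mul (c := cB P s ε) (by positivity)]

private lemma cub_stepA (H : Hyp d γ s b C Ca) (P : Lp) (hP : P.Ok) {g g1 ω : Vec d → ℝ} (D : Dat g g1 ω)
    {c K₀ : ℝ} (hK₀ : 0 ≤ K₀) (hang : ∀ ε : ℝ, 0 < ε → ε ≤ 1 →
    ∀ v w : Vec d, v ≠ w → ∀ ρ : ℝ, 0 < ρ →
      ∫⁻ σ, ENNReal.ofReal (bt b ε (cosTh v w σ) * min 1 (len (post v w σ - v) / ρ)) ∂(surf d) ≤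
        ENNReal.ofReal (K₀ * qC s ε ρ v w)) (hc : 0 < c) (hc1 : c ≤ 1) {ε : ℝ} (hε : 0 < ε) (hε1 : ε ≤ 1)
    (u : Vec d) : LU γ b ε P g u ≤ LI γ (2 * P.p') g g ω
      (fun v z => (2 * K₀) * (cG s ε c u v z + (2 * cubK P s c) * cB P s ε v z)) := by
  have hs := H.hs
  have hd1 := H.hd1
  have hgm : Measurable g := D.nice.cont.measurable
  have e1 : LU γ b ε P g u = T3 γ b ε fun v w y _ =>
      ENNReal.ofReal (g w * (Gs (2 * P.p') g v * cubT u v y)) := by
    simp only [cubT_eq]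
    rfl
  have hT0 : Measurable fun p : Vec d × Vec d × Vec d => ((u, p.1, p.2.2) : Vec d × Vec d × Vec d) :=
    measurable_const.prodMk (measurable_fst.prodMk measurable_snd.snd)
  have hT : Measurable fun p : Vec d × Vec d × Vec d => cubT u p.1 p.2.2 := (cub_comp hT0 :)
  have e2 := T3_loss (γ := γ) H hε (T := fun v _ y => cubT u v y) (meas_Gs (2 * P.p') hgm) hgm hT
    (fun v => Gs_nonneg _ _ v) D.g0 (fun v _ y => cubT_nonneg u v y)
  rw [e1, e2]
  unfold LI
  refine lintegral_mono_ae ?_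
  filter_upwards [cub_ae hd1 u] with v hvu
  have hGs := Gs_nonneg (2 * P.p') g v
  have hω := D.ωl v
  have hcon : ENNReal.ofReal (Gs (2 * P.p') g v) ≤ ENNReal.ofReal 2 * ENNReal.ofReal (ω v * Gs (2 * P.p') g v) := by
    rw [← ENNReal.ofReal_mul (by norm_num)]
    refine ENNReal.ofReal_le_ofReal ?_
    nlinarith
  refine (mul_le_mul_left hcon _).trans ?_
  rw [mul_comm (ENNReal.ofReal 2), mul_assoc]
  refine mul_le_mul_right ?_ _
  rw [← lintegral_const_mul' _ _ ENNReal.ofReal_ne_top]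
  refine lintegral_mono_ae ?_
  filter_upwards [cub_ae hd1 v] with w hw
  have hvw : v ≠ w := fun h => hw h.symm
  have hq := cub_near P hP hs.le hc hc1 hε hvw u
  have hq2 := cub_far P hP hs.le hc hc1 hε hvw (ρ := jb v)
    (mul_le_of_le_one_left (jb_pos v).le hc1)
  have hgl : 0 ≤ g w * len (v - w) ^ γ := mul_nonneg (D.g0 w) (Real.rpow_nonneg (len_nonneg _) _)
  have ha := cub_ang2 H.bm hK₀ hang hs.le hε hε1 hvu hvw
  have hle : K₀ * (qC s ε (len (v - u)) v w + qC s ε (jb v) v w) ≤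
      K₀ * (cG s ε c u v w + (2 * cubK P s c) * cB P s ε v w) :=
    mul_le_mul_of_nonneg_left (by linarith) hK₀
  have ha2 := ha.trans (ENNReal.ofReal_le_ofReal hle)
  refine (mul_le_mul_right (mul_le_mul_right ha2 _) _).trans_eq ?_
  rw [← ENNReal.ofReal_mul hgl, ← ENNReal.ofReal_mul (by norm_num)]
  congr 1
  ring

theorem cu_u (HL : HypL d γ s b C Ca cb) (h2 : 2 * s < 1) (hγ : 0 ≤ γ) (P : Lp) (hP : P.Ok) :
    ∃ K : ℝ, 0 ≤ K ∧ ∀ g g1 ω : Vec d → ℝ, Dat g g1 ω → ∃ A : ℝ, 0 ≤ A ∧ ∀ ε : ℝ, 0 < ε → ε ≤ 1 → ∀ u : Vec d,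
      LU γ b ε P g u ≤ ENNReal.ofReal K * (LC γ b ε P g g1 (gR g g1) ω + LI γ (2 * P.p') g g ω (cB P s ε)) +
        ENNReal.ofReal (A * ε ^ (1 / 2 - s)) := by
  have H := HL.H
  have hs := H.hs
  obtain ⟨c, K₁, hc, hc1, hK₁, hu⟩ := hardy_u HL h2 hγ P hP
  obtain ⟨K₀, hK₀, hang⟩ := cu_ang H h2
  have hK₂0 : 0 ≤ cubK P s c := cubK_nonneg P hP
  refine ⟨2 * K₀ * (K₁ + 2 * cubK P s c), by positivity, fun g g1 ω D => ?_⟩
  obtain ⟨A, hA, hsm⟩ := small_pairs H.hd hs hγ H.g2 D.nice D.g0 (2 * P.p')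
  refine ⟨2 * K₀ * K₁ * A, by positivity, fun ε hε hε1 u => ?_⟩
  have hA1 := cub_stepA H P hP D hK₀ hang hc hc1 hε hε1 u
  have hB1 := cub_stepB (γ := γ) P D (c := c) hs.le hε hK₀ hK₂0 u
  have hC1 := hu ε hε hε1 g g1 ω D u
  have hD1 := hsm ω D.ωc.measurable D.ωu u ε hε hε1
  have e2 : 2 * K₀ * K₁ * A * ε ^ (1 / 2 - s) = 2 * K₀ * K₁ * (A * ε ^ (1 / 2 - s)) := by ring
  rw [e2]
  exact cub_fin hK₀ hK₁ hK₂0 (hA1.trans hB1.le) (hC1.trans (mul_le_mul_right (add_le_add_right hD1 _) _))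

theorem cu_b (HL : HypL d γ s b C Ca cb) (h2 : 2 * s < 1) (hγ : 0 ≤ γ) (P : Lp) (hP : P.Ok) :
    ∃ K : ℝ, 0 ≤ K ∧ ∀ g g1 ω n : Vec d → ℝ, Dat g g1 ω → Integrable n → (∀ u, 0 ≤ n u) → CuspW n ω →
      ∃ A : ℝ, 0 ≤ A ∧ ∀ ε : ℝ, 0 < ε → ε ≤ 1 →
        LCu γ b ε P g ω ≤ ENNReal.ofReal (∫ u, n u) * (ENNReal.ofReal K *
          (LC γ b ε P g g1 (gR g g1) ω + LI γ (2 * P.p') g g ω (cB P s ε)) + ENNReal.ofReal (A * ε ^ (1 / 2 - s))) := by
  obtain ⟨K, hK, h⟩ := cu_u HL h2 hγ P hP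
  refine ⟨K, hK, fun g g1 ω n D hn hn0 hcu => ?_⟩
  obtain ⟨A, hA, hA1⟩ := h g g1 ω D
  refine ⟨A, hA, fun ε hε hε1 => ?_⟩
  have hgm : Measurable g := D.nice.cont.measurable
  -- a measurable modification of `n`
  set F : Vec d × Vec d × Vec d → Vec d → ℝ≥0∞ := fun p u =>
    ENNReal.ofReal (len (p.1 - p.2.1) ^ γ * bt b ε (cosTh p.1 p.2.1 p.2.2)) *
      ENNReal.ofReal (g p.2.1 * (Gs (2 * P.p') g p.1 * cubT u p.1 (post p.1 p.2.1 p.2.2))) with hF
  have hFm : Measurable (Function.uncurry F) := by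
    rw [hF]
    unfold Function.uncurry
    have q1 : Measurable fun x : (Vec d × Vec d × Vec d) × Vec d => x.1 := measurable_fst
    have m1 : Measurable fun x : (Vec d × Vec d × Vec d) × Vec d =>
        len (x.1.1 - x.1.2.1) ^ γ * bt b ε (cosTh x.1.1 x.1.2.1 x.1.2.2) :=
      ((measurable_lenpow γ).comp q1).mul ((measurable_bt HL.H.bm ε).comp (measurable_cosTh.comp q1))
    have m2 : Measurable fun x : (Vec d × Vec d × Vec d) × Vec d => g x.1.2.1 :=
      hgm.comp q1.snd.fst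
    have m3 : Measurable fun x : (Vec d × Vec d × Vec d) × Vec d => Gs (2 * P.p') g x.1.1 :=
      (meas_Gs _ hgm).comp q1.fst
    have m5 : Measurable fun x : (Vec d × Vec d × Vec d) × Vec d => post x.1.1 x.1.2.1 x.1.2.2 :=
      continuous_post.measurable.comp q1
    have m6 : Measurable fun x : (Vec d × Vec d × Vec d) × Vec d =>
        ((x.2, x.1.1, post x.1.1 x.1.2.1 x.1.2.2) : Vec d × Vec d × Vec d) :=
      measurable_snd.prodMk (q1.fst.prodMk m5)
    have m4 : Measurable fun x : (Vec d × Vec d × Vec d) × Vec d => cubT x.2 x.1.1 (post x.1.1 x.1.2.1 x.1.2.2) :=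
      (cub_comp m6 :)
    exact m1.ennreal_ofReal.mul (m2.mul (m3.mul m4)).ennreal_ofReal
  have hLU : ∀ u, LU γ b ε P g u = ∫⁻ p, F p u ∂(mu3 d) := fun u => by
    simp only [hF, cubT_eq]
    rfl
  have hnm : AEMeasurable (fun u => ENNReal.ofReal (n u)) := hn.aestronglyMeasurable.aemeasurable.ennreal_ofReal
  -- Tonelli
  have hswap : ∫⁻ p, (∫⁻ u, ENNReal.ofReal (n u) * F p u) ∂(mu3 d) =
      ∫⁻ u, ∫⁻ p, ENNReal.ofReal (n u) * F p u ∂(mu3 d) := by
    refine lintegral_lintegral_swap ?_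
    exact (hnm.comp_snd).mul hFm.aemeasurable
  have hstep : LCu γ b ε P g ω ≤ ∫⁻ p, (∫⁻ u, ENNReal.ofReal (n u) * F p u) ∂(mu3 d) := by
    unfold LCu T3
    refine lintegral_mono fun p => ?_
    obtain ⟨v, w, σ⟩ := p
    have hG := Gs_nonneg (2 * P.p') g v
    have hg0 := D.g0 w
    have hc0 : ∀ u, 0 ≤ n u * cubT u v (post v w σ) := fun u => mul_nonneg (hn0 u) (cubT_nonneg _ _ _)
    have h1 : |ω (post v w σ) - ω v| ≤ ∫ u, n u * cubT u v (post v w σ) := by
      simp only [cubT_eq]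
      exact hcu v (post v w σ)
    have h3 : ENNReal.ofReal (|ω (post v w σ) - ω v|) ≤ ∫⁻ u, ENNReal.ofReal (n u * cubT u v (post v w σ)) := by
      refine (ENNReal.ofReal_le_ofReal h1).trans ?_
      refine (Real.ofReal_le_enorm _).trans ((enorm_integral_le_lintegral_enorm _).trans_eq ?_)
      exact lintegral_congr fun u => Real.enorm_of_nonneg (hc0 u)
    simp only [hF]
    calc ENNReal.ofReal (len (v - w) ^ γ * bt b ε (cosTh v w σ)) *
          ENNReal.ofReal (g w * (Gs (2 * P.p') g v * |ω (post v w σ) - ω v|))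
        = ENNReal.ofReal (len (v - w) ^ γ * bt b ε (cosTh v w σ)) *
          ENNReal.ofReal (g w * Gs (2 * P.p') g v) * ENNReal.ofReal (|ω (post v w σ) - ω v|) := by
          rw [mul_assoc, ← ENNReal.ofReal_mul (mul_nonneg hg0 hG), mul_assoc (g w)]
      _ ≤ ENNReal.ofReal (len (v - w) ^ γ * bt b ε (cosTh v w σ)) *
          ENNReal.ofReal (g w * Gs (2 * P.p') g v) * ∫⁻ u, ENNReal.ofReal (n u * cubT u v (post v w σ)) := by
          gcongr
      _ = ∫⁻ u, ENNReal.ofReal (len (v - w) ^ γ * bt b ε (cosTh v w σ)) *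
          ENNReal.ofReal (g w * Gs (2 * P.p') g v) * ENNReal.ofReal (n u * cubT u v (post v w σ)) := by
          rw [lintegral_const_mul']
          exact ENNReal.mul_ne_top ENNReal.ofReal_ne_top ENNReal.ofReal_ne_top
      _ = ∫⁻ u, ENNReal.ofReal (n u) * (ENNReal.ofReal (len (v - w) ^ γ * bt b ε (cosTh v w σ)) *
          ENNReal.ofReal (g w * (Gs (2 * P.p') g v * cubT u v (post v w σ)))) := by
          refine lintegral_congr fun u => ?_
          rw [ENNReal.ofReal_mul (hn0 u), ← mul_assoc (g w), ENNReal.ofReal_mul (mul_nonneg hg0 hG)]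
          ring
  refine hstep.trans (hswap.le.trans ?_)
  calc ∫⁻ u, ∫⁻ p, ENNReal.ofReal (n u) * F p u ∂(mu3 d)
      = ∫⁻ u, ENNReal.ofReal (n u) * LU γ b ε P g u := by
        refine lintegral_congr fun u => ?_
        rw [lintegral_const_mul' _ _ ENNReal.ofReal_ne_top, hLU u]
    _ ≤ ∫⁻ u, ENNReal.ofReal (n u) * (ENNReal.ofReal K *
          (LC γ b ε P g g1 (gR g g1) ω + LI γ (2 * P.p') g g ω (cB P s ε)) + ENNReal.ofReal (A * ε ^ (1 / 2 - s))) :=
        lintegral_mono fun u => mul_le_mul_right (hA1 ε hε hε1 u) _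
    _ = _ := by
        rw [lintegral_mul_const'' _ hnm, ← ofReal_integral_eq_lintegral_ofReal hn (Eventually.of_forall hn0)]

end Pool.Agent.H15.G1
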