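import Pool.Agent.H15.G1.L.Jlem
import Pool.Agent.H15.G1.L.LIm
import Pool.Agent.H15.G1.InOut

/-!
# Module D2b: (L4) integrated

`T3_J`: `LD2 = T3 fun v w y _ => if (w,v) ∈ RegS y then 0 else g v (ω y Gs w rho y w)`; then exchange the names by Tonelli (`T3_slice`, `lintegral_lintegral_swap`): variable of `Gs` first, partner second:
inner integral over `σ` is `ThD b ε P w v` in the names `v := w`, `z := v` (definition of `ThD`: `post z v σ`, `cosTh z v σ`). `ω y ≤ 2 ≤ 4 ω w`. `InOut.out, outS, outF`, `c_one`. `len (v-w) = len (w-v)`.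
-/

set_option autoImplicit false

open MeasureTheory Set Filter Topology Pool.Agent.H25.Kin Pool.Agent.H82.BK Pool.Agent.H82.CM
open Pool.Agent.H48.PL Pool.Agent.H48.PI Pool.Agent.H48.PW Pool.Agent.H82.NT
open scoped ENNReal

namespace Pool.Agent.H15.G1

variable {d : ℕ} {γ s C Ca cb ε : ℝ} {b : ℝ → ℝ}

private lemma d2b_ne (hd : 1 ≤ d) (v : Vec d) : ∀ᵐ z : Vec d, v ≠ z := by
  have : Nonempty (Fin d) := ⟨⟨0, hd⟩⟩
  have h : (volume : Measure (Vec d)) {v} = 0 := measure_singleton v
  rw [ae_iff]
  refine measure_mono_null (fun z hz => ?_) h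
  simp only [Set.mem_ofPred_eq, not_not] at hz
  exact hz.symm

private lemma d2b_rho0 (P : Lp) (v z : Vec d) : 0 ≤ rho P v z := by
  unfold rho Tb
  have h1 := sq_nonneg' v
  have h2 := sq_nonneg' z
  positivity

open Classical in
private lemma d2b_meas4 (P : Lp) {g ω : Vec d → ℝ} (hg : Measurable g) (hω : Measurable ω) :
    Meas4 (d := d) fun v _ y z => if (z, y) ∈ RegS P.θ P.L v then 0 else
      ENNReal.ofReal (g y * (ω v * Gs (2 * P.p') g z * rho P v z)) := by
  unfold Meas4
  have mv : Measurable fun q : Vec d × Vec d × Vec d × Vec d => q.1 := measurable_fst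
  have my : Measurable fun q : Vec d × Vec d × Vec d × Vec d => q.2.2.1 :=
    measurable_fst.comp (measurable_snd.comp measurable_snd)
  have mz : Measurable fun q : Vec d × Vec d × Vec d × Vec d => q.2.2.2 :=
    measurable_snd.comp (measurable_snd.comp measurable_snd)
  have m1 : Measurable fun q : Vec d × Vec d × Vec d × Vec d => g q.2.2.1 := hg.comp my
  have m2 : Measurable fun q : Vec d × Vec d × Vec d × Vec d => ω q.1 := hω.comp mv
  have m3 : Measurable fun q : Vec d × Vec d × Vec d × Vec d => Gs (2 * P.p') g q.2.2.2 :=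
    (meas_Gs (2 * P.p') hg).comp mz
  have mvz : Measurable fun q : Vec d × Vec d × Vec d × Vec d => (q.1, q.2.2.2) := mv.prodMk mz
  have m4' := (meas_rho (d := d) P).comp mvz
  have m4 : Measurable fun q : Vec d × Vec d × Vec d × Vec d => rho P q.1 q.2.2.2 := m4'
  have m5 := m1.mul ((m2.mul m3).mul m4)
  have m6 : Measurable fun q : Vec d × Vec d × Vec d × Vec d => (q.1, q.2.2.2, q.2.2.1) :=
    mv.prodMk (mz.prodMk my)
  have m7 : MeasurableSet {q : Vec d × Vec d × Vec d × Vec d |
      (q.2.2.2, q.2.2.1) ∈ RegS P.θ P.L q.1} := m6 (meas_reg P)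
  have m8 : Measurable fun q : Vec d × Vec d × Vec d × Vec d =>
      ENNReal.ofReal (g q.2.2.1 * (ω q.1 * Gs (2 * P.p') g q.2.2.2 * rho P q.1 q.2.2.2)) :=
    ENNReal.measurable_ofReal.comp m5
  exact Measurable.ite m7 measurable_const m8

/-- the pointwise bound -/
private lemma d2b_th (P : Lp) (hP : P.Ok) (I : InOut d γ s b P ε) {v z : Vec d} (h : v ≠ z) :
    ENNReal.ofReal 4 * ThD b ε P v z ≤
      ENNReal.ofReal (P.κ / 4 * cS P v z + 4 * P.KD * cM P v z) := by
  have hκ := hP.hκ
  have hK := hP.hKD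
  by_cases hF : FastR P v z
  · rw [I.outF v z h hF, mul_zero]
    exact bot_le
  · by_cases hS : SlowR P.δ P.a₀ v z
    · have hM : ¬ MedR P.δ P.a₀ P.L' v z := fun hm => hm.2 hS
      have e1 : cS P v z = 1 := by unfold cS; rw [if_pos hS]
      have e2 : cM P v z = 0 := by unfold cM; rw [if_neg hM]
      rw [e1, e2]
      refine (mul_le_mul_right (I.outS v z h hS) _).trans ?_
      rw [← ENNReal.ofReal_mul (by norm_num)]
      refine ENNReal.ofReal_le_ofReal ?_
      linarith
    · have hM : MedR P.δ P.a₀ P.L' v z := ⟨not_lt.1 hF, hS⟩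
      have e1 : cS P v z = 0 := by unfold cS; rw [if_neg hS]
      have e2 : cM P v z = 1 := by unfold cM; rw [if_pos hM]
      rw [e1, e2]
      refine (mul_le_mul_right (I.out v z h) _).trans ?_
      rw [← ENNReal.ofReal_mul (by norm_num)]
      refine ENNReal.ofReal_le_ofReal ?_
      linarith

theorem d2_b (H : Hyp d γ s b C Ca) (hε : 0 < ε) (P : Lp) (hP : P.Ok) (I : InOut d γ s b P ε)
    {g g1 ω : Vec d → ℝ} (D : Dat g g1 ω) :
    LD2 γ b ε P g ω ≤ LI γ (2 * P.p') g g ω (fun v z => P.κ / 4 * cS P v z) +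
      LI γ (2 * P.p') g g ω (fun v z => 4 * P.KD * cM P v z) := by
  classical
  have hg : Measurable g := D.nice.cont.measurable
  have hω : Measurable ω := D.ωc.measurable
  have hκ := hP.hκ
  have hK := hP.hKD
  have hc := c_nonneg P (d := d)
  rw [← LI_add hg hg hω ((meas_cS P).const_mul _) ((meas_cM P).const_mul _) D.g0
    (fun v z => mul_nonneg (by positivity) (hc v z).1)
    (fun v z => mul_nonneg (by positivity) (hc v z).2.1)]
  have hm := d2b_meas4 (d := d) P hg hω
  have hm' : Meas4 (d := d) fun v w y z => if (w, v) ∈ RegS P.θ P.L y then 0 else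
      ENNReal.ofReal (g v * (ω y * Gs (2 * P.p') g w * rho P y w)) := by
    unfold Meas4 at hm ⊢
    have mv : Measurable fun q : Vec d × Vec d × Vec d × Vec d => (q.2.2.1, q.2.2.2, q.1, q.2.1) :=
      (measurable_fst.comp (measurable_snd.comp measurable_snd)).prodMk
        ((measurable_snd.comp (measurable_snd.comp measurable_snd)).prodMk
          (measurable_fst.prodMk (measurable_fst.comp measurable_snd)))
    have h9 := hm.comp mv
    exact h9
  unfold LD2
  rw [T3_J H ε hm, T3_slice H.bm hm']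
  have hF : Measurable fun q : Vec d × Vec d => ∫⁻ σ, ENNReal.ofReal (len (q.1 - q.2) ^ γ *
      bt b ε (cosTh q.1 q.2 σ)) * (if (q.2, q.1) ∈ RegS P.θ P.L (post q.1 q.2 σ) then 0 else
        ENNReal.ofReal (g q.1 * (ω (post q.1 q.2 σ) * Gs (2 * P.p') g q.2 *
          rho P (post q.1 q.2 σ) q.2))) ∂(surf d) := by
    have h3 : Measurable fun q : (Vec d × Vec d) × Vec d => ENNReal.ofReal (len (q.1.1 - q.1.2) ^ γ *
      bt b ε (cosTh q.1.1 q.1.2 q.2)) * (if (q.1.2, q.1.1) ∈ RegS P.θ P.L (post q.1.1 q.1.2 q.2) then 0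
        else ENNReal.ofReal (g q.1.1 * (ω (post q.1.1 q.1.2 q.2) * Gs (2 * P.p') g q.1.2 *
          rho P (post q.1.1 q.1.2 q.2) q.1.2))) := by
      have ma : Measurable fun q : (Vec d × Vec d) × Vec d => (q.1.1, q.1.2, q.2) :=
        (measurable_fst.comp measurable_fst).prodMk
          ((measurable_snd.comp measurable_fst).prodMk measurable_snd)
      have mpo := (continuous_post (d := d)).measurable
      have mpo' := (continuous_post' (d := d)).measurable
      have m4 : Measurable fun p : Vec d × Vec d × Vec d =>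
          (p.1, p.2.1, post p.1 p.2.1 p.2.2, post' p.1 p.2.1 p.2.2) :=
        measurable_fst.prodMk ((measurable_fst.comp measurable_snd).prodMk (mpo.prodMk mpo'))
      unfold Meas4 at hm'
      have mk : Measurable fun p : Vec d × Vec d × Vec d => ENNReal.ofReal (len (p.1 - p.2.1) ^ γ *
          bt b ε (cosTh p.1 p.2.1 p.2.2)) :=
        ENNReal.measurable_ofReal.comp ((measurable_lenpow γ).mul
          ((measurable_bt H.bm ε).comp measurable_cosTh))
      have h10 := hm'.comp m4
      have h11 := (mk.mul h10).comp ma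
      exact h11
    have h12 := h3.lintegral_prod_right' (ν := surf d)
    exact h12
  rw [lintegral_lintegral_swap hF.aemeasurable]
  unfold LI
  refine lintegral_mono fun v => ?_
  rw [← lintegral_const_mul' _ _ ENNReal.ofReal_ne_top]
  refine lintegral_mono_ae ?_
  filter_upwards [d2b_ne H.hd1 v] with z hz
  have hG := Gs_nonneg (2 * P.p') g v
  have hωv : 0 ≤ ω v := by linarith [D.ωl v]
  have hgz := D.g0 z
  have hl := Real.rpow_nonneg (len_nonneg (v - z)) γ
  have hlc : len (z - v) = len (v - z) := len_comm z v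
  have key : ∀ σ : Vec d, ENNReal.ofReal (len (z - v) ^ γ * bt b ε (cosTh z v σ)) *
      (if (v, z) ∈ RegS P.θ P.L (post z v σ) then 0 else
        ENNReal.ofReal (g z * (ω (post z v σ) * Gs (2 * P.p') g v * rho P (post z v σ) v))) ≤
      ENNReal.ofReal (ω v * Gs (2 * P.p') g v * (g z * len (v - z) ^ γ) * 4) *
        (if (v, z) ∈ RegS P.θ P.L (post z v σ) then 0 else
          ENNReal.ofReal (bt b ε (cosTh z v σ) * rho P (post z v σ) v)) := by
    intro σ
    by_cases hr : (v, z) ∈ RegS P.θ P.L (post z v σ)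
    · rw [if_pos hr, if_pos hr, mul_zero, mul_zero]
    · rw [if_neg hr, if_neg hr, hlc]
      have hρ := d2b_rho0 P (post z v σ) v
      have h1 : g z * (ω (post z v σ) * Gs (2 * P.p') g v * rho P (post z v σ) v) ≤
          (ω v * Gs (2 * P.p') g v * g z * 4) * rho P (post z v σ) v := by
        have h2 : ω (post z v σ) ≤ 4 * ω v := by linarith [D.ωu (post z v σ), D.ωl v]
        have h3 : ω (post z v σ) * (g z * Gs (2 * P.p') g v * rho P (post z v σ) v) ≤
            4 * ω v * (g z * Gs (2 * P.p') g v * rho P (post z v σ) v) :=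
          mul_le_mul_of_nonneg_right h2 (by positivity)
        calc g z * (ω (post z v σ) * Gs (2 * P.p') g v * rho P (post z v σ) v)
            = ω (post z v σ) * (g z * Gs (2 * P.p') g v * rho P (post z v σ) v) := by ring
          _ ≤ 4 * ω v * (g z * Gs (2 * P.p') g v * rho P (post z v σ) v) := h3
          _ = (ω v * Gs (2 * P.p') g v * g z * 4) * rho P (post z v σ) v := by ring
      rw [ENNReal.ofReal_mul hl, mul_assoc]
      refine (mul_le_mul_right (mul_le_mul_right (ENNReal.ofReal_le_ofReal h1) _) _).trans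
        (le_of_eq ?_)
      have e1 : ω v * Gs (2 * P.p') g v * (g z * len (v - z) ^ γ) * 4 =
          len (v - z) ^ γ * (ω v * Gs (2 * P.p') g v * g z * 4) := by ring
      rw [e1, ENNReal.ofReal_mul hl, ENNReal.ofReal_mul (by positivity : 0 ≤ ω v *
        Gs (2 * P.p') g v * g z * 4), ENNReal.ofReal_mul' hρ]
      ring
  refine (lintegral_mono key).trans ?_
  rw [lintegral_const_mul' _ _ ENNReal.ofReal_ne_top]
  have eT : (∫⁻ σ, (if (v, z) ∈ RegS P.θ P.L (post z v σ) then 0 else
          ENNReal.ofReal (bt b ε (cosTh z v σ) * rho P (post z v σ) v)) ∂(surf d)) =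
      ThD b ε P v z := rfl
  rw [eT, ENNReal.ofReal_mul (by positivity), mul_assoc]
  have hth := d2b_th (γ := γ) (s := s) (b := b) (ε := ε) P hP I hz
  refine (mul_le_mul_right hth _).trans (le_of_eq ?_)
  rw [← ENNReal.ofReal_mul (by positivity), ← ENNReal.ofReal_mul (by positivity)]
  congr 1
  ring

end Pool.Agent.H15.G1
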