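import Pool.Agent.H15.G1.L.Car
import Pool.Agent.H15.G1.L.LIm

/-!
# Module FinL: finiteness at level `ε`

`bt b ε x ≤ 2 C ε^(-β)` (`β = (d-1)/2+s`), so `∫ bt dσ` is bounded and `LLo ≤ K_ε · LI 1`. `LC`: `dF v y ≤ 2 Gs v (Wp v / Wp y) + 2 Gs y`, `Wp y ≥ 1`, `kM ≤ g z`; first part by `T3_carF`
(`Kn ≤ K_ε` on the support `2c² ≥ 1` of `bt b ε (2c²-1)`), i.e. `≤ K_ε ∫∫ g(z) Gs v Wp v |v-z|^γ < ∞` (decay of `g`); second part by `T3_J`: `T3 (g w ω y Gs v)`.
-/

set_option autoImplicit false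

open MeasureTheory Set Filter Topology Pool.Agent.H25.Kin Pool.Agent.H82.BK Pool.Agent.H82.CM
open Pool.Agent.H48.PL Pool.Agent.H48.PI Pool.Agent.H48.PW Pool.Agent.H82.NT
open scoped ENNReal

namespace Pool.Agent.H15.G1

variable {d : ℕ} {γ s C Ca cb ε : ℝ} {b : ℝ → ℝ}

/-- the folded kernel is bounded -/
private lemma finL_bt {β : ℝ} (hC : AngBound b C β) (hβ : 0 ≤ β) (hε : 0 < ε) {x : ℝ} (h1 : x ≤ 1) :
    bt b ε x ≤ C * (ε ^ (-β) + 1) := by
  have hC0 := hC.1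
  have hp : 0 ≤ ε ^ (-β) := Real.rpow_nonneg hε.le _
  rcases lt_or_ge x 0 with hx | hx
  · rw [bt_neg hx]
    positivity
  have h3 : (if 0 < x then bcut b ε x else 0) ≤ C * ε ^ (-β) := by
    unfold bcut
    split_ifs with h4 h5
    · refine (hC.2 x (by linarith) (by linarith)).2.trans ?_
      refine mul_le_mul_of_nonneg_left ?_ hC0
      exact Real.rpow_le_rpow_of_nonpos hε (by linarith) (by linarith)
    · positivity
    · positivity
  have h4 : (if 0 ≤ x then bcut b ε (-x) else 0) ≤ C := by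
    rw [if_pos hx]
    unfold bcut
    split_ifs with h6
    · refine (hC.2 (-x) (by linarith) (by linarith)).2.trans ?_
      have h7 : (1 - -x) ^ (-β) ≤ 1 := by
        calc (1 - -x) ^ (-β) ≤ (1 : ℝ) ^ (-β) :=
              Real.rpow_le_rpow_of_nonpos one_pos (by linarith) (by linarith)
          _ = 1 := Real.one_rpow _
      calc C * (1 - -x) ^ (-β) ≤ C * 1 := mul_le_mul_of_nonneg_left h7 hC0
        _ = C := mul_one C
    · exact hC0
  unfold bt
  linarith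

private lemma finL_Kn (H : Hyp d γ s b C Ca) (hε : 0 < ε) {m σ : Vec d} (hσ : nsq σ = 1)
    (hm : 0 < dot m σ) : Kn d γ (bt b ε) (co m σ) ≤
      2 ^ (d - 1) * 4 * (C * (ε ^ (-(((d : ℝ) - 1) / 2 + s)) + 1)) := by
  have hc0 := co_pos hm
  have hc1 := co_le_one (m := m) hσ
  set c := co m σ with hc
  have hC0 : 0 ≤ C := H.bd.1
  have hp : 0 ≤ ε ^ (-(((d : ℝ) - 1) / 2 + s)) := Real.rpow_nonneg hε.le _
  rcases lt_or_ge (2 * c ^ 2 - 1) 0 with h2 | h2
  · unfold Kn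
    rw [bt_neg h2, mul_zero]
    positivity
  · unfold Kn
    have h5 := finL_bt (ε := ε) H.bd H.β0 hε (x := 2 * c ^ 2 - 1) (by nlinarith)
    have h8 : c ^ (-2 - γ) ≤ 4 := by
      have hg1 := H.g1
      have hg2 := H.g2
      have hcc : (1 / 2 : ℝ) ≤ c ^ 2 := by linarith
      have h9 : c ^ (-2 - γ) = (c ^ 2) ^ ((-2 - γ) / 2) := by
        rw [← Real.rpow_natCast c 2, ← Real.rpow_mul hc0.le]
        congr 1
        push_cast
        ring
      rw [h9]
      calc (c ^ 2) ^ ((-2 - γ) / 2) ≤ (1 / 2 : ℝ) ^ ((-2 - γ) / 2) :=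
            Real.rpow_le_rpow_of_nonpos (by norm_num) hcc (by linarith)
        _ ≤ (1 / 2 : ℝ) ^ (-2 : ℝ) :=
            Real.rpow_le_rpow_of_exponent_ge (by norm_num) (by norm_num) (by linarith)
        _ = 4 := by
            rw [Real.rpow_neg (by norm_num)]
            norm_num
    have h10 : 0 ≤ c ^ (-2 - γ) := Real.rpow_nonneg hc0.le _
    calc 2 ^ (d - 1) * c ^ (-2 - γ) * bt b ε (2 * c ^ 2 - 1)
        ≤ 2 ^ (d - 1) * c ^ (-2 - γ) * (C * (ε ^ (-(((d : ℝ) - 1) / 2 + s)) + 1)) :=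
          mul_le_mul_of_nonneg_left h5 (by positivity)
      _ ≤ 2 ^ (d - 1) * 4 * (C * (ε ^ (-(((d : ℝ) - 1) / 2 + s)) + 1)) := by
          apply mul_le_mul_of_nonneg_right _ (by positivity)
          exact mul_le_mul_of_nonneg_left h8 (by positivity)

private lemma finL_core (hd : 1 ≤ d) (hγ : 0 ≤ γ) (hγ2 : γ ≤ 2) {g g1 ω : Vec d → ℝ} (D : Dat g g1 ω)
    {q : Vec d → ℝ} {p : ℕ} {A : ℝ} (hA : 0 ≤ A) (hqA : ∀ v, q v ≤ A * (ω v * Gs p g v))
    {K : ℝ≥0∞} (hK : K ≠ ⊤) {Y : Vec d → Vec d → ℝ≥0∞} (hY : ∀ v w, Y v w ≤ K) :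
    (∫⁻ v, ENNReal.ofReal (q v) * ∫⁻ w, ENNReal.ofReal (g w * len (v - w) ^ γ) * Y v w) ≠ ⊤ := by
  have hAK : ENNReal.ofReal A * K ≠ ⊤ := ENNReal.mul_ne_top ENNReal.ofReal_ne_top hK
  have hLI := LI_ne_top (γ := γ) (p := p) hd hγ hγ2 D (k := g) (fun z => le_rfl) D.g0
    (c := fun _ _ => 1) (A := 1) (fun _ _ => zero_le_one) (fun _ _ => le_rfl)
  have h1 : (∫⁻ v, ENNReal.ofReal (q v) * ∫⁻ w, ENNReal.ofReal (g w * len (v - w) ^ γ) * Y v w) ≤
      ENNReal.ofReal A * K * LI γ p g g ω (fun _ _ => 1) := by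
    unfold LI
    rw [← lintegral_const_mul' _ _ hAK]
    refine lintegral_mono fun v => ?_
    have h2 : ENNReal.ofReal (q v) ≤ ENNReal.ofReal A * ENNReal.ofReal (ω v * Gs p g v) := by
      rw [← ENNReal.ofReal_mul hA]
      exact ENNReal.ofReal_le_ofReal (hqA v)
    have h3 : ∫⁻ w, ENNReal.ofReal (g w * len (v - w) ^ γ) * Y v w ≤
        (∫⁻ w, ENNReal.ofReal (g w * len (v - w) ^ γ * 1)) * K := by
      rw [← lintegral_mul_const' _ _ hK]
      refine lintegral_mono fun w => ?_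
      simp only [mul_one]
      exact mul_le_mul_right (hY v w) _
    calc ENNReal.ofReal (q v) * ∫⁻ w, ENNReal.ofReal (g w * len (v - w) ^ γ) * Y v w
        ≤ (ENNReal.ofReal A * ENNReal.ofReal (ω v * Gs p g v)) *
          ((∫⁻ w, ENNReal.ofReal (g w * len (v - w) ^ γ * 1)) * K) := mul_le_mul' h2 h3
      _ = _ := by ring
  exact ne_top_of_le_ne_top (ENNReal.mul_ne_top hAK hLI) h1

private lemma finL_loss (H : Hyp d γ s b C Ca) (hγ : 0 ≤ γ) (hε : 0 < ε) {g g1 ω : Vec d → ℝ}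
    (D : Dat g g1 ω) {q : Vec d → ℝ} (hq : Measurable q) (hq0 : ∀ v, 0 ≤ q v) {p : ℕ} {A : ℝ}
    (hA : 0 ≤ A) (hqA : ∀ v, q v ≤ A * (ω v * Gs p g v)) :
    (T3 γ b ε fun v w _ _ => ENNReal.ofReal (g w * q v)) ≠ ⊤ := by
  have hg : Measurable g := D.nice.smooth.continuous.measurable
  have e := T3_loss (T := fun _ _ _ => (1 : ℝ)) H hε hq hg measurable_const hq0 D.g0
    (fun _ _ _ => zero_le_one)
  simp only [mul_one] at e
  rw [e]
  refine finL_core H.hd1 hγ H.g2 D hA hqA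
    (K := ENNReal.ofReal (C * (ε ^ (-(((d : ℝ) - 1) / 2 + s)) + 1)) * surf d univ)
    (ENNReal.mul_ne_top ENNReal.ofReal_ne_top (measure_ne_top _ _))
    (Y := fun v w => ∫⁻ σ, ENNReal.ofReal (bt b ε (cosTh v w σ)) ∂(surf d)) fun v w => ?_
  rw [← lintegral_const]
  refine lintegral_mono_ae ?_
  filter_upwards [surf_ae] with σ hσ
  exact ENNReal.ofReal_le_ofReal
    (finL_bt H.bd H.β0 hε (abs_le.1 (abs_cosTh_le (v := v) (w := w) hσ)).2)

private lemma finL_gain (H : Hyp d γ s b C Ca) (hγ : 0 ≤ γ) (hε : 0 < ε) {g g1 ω : Vec d → ℝ}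
    (D : Dat g g1 ω) {q : Vec d → ℝ} (hq : Measurable q) (hq0 : ∀ v, 0 ≤ q v) {p : ℕ} {A : ℝ}
    (hA : 0 ≤ A) (hqA : ∀ v, q v ≤ A * (ω v * Gs p g v)) :
    (T3 γ b ε fun v _ _ z => ENNReal.ofReal (g z * q v)) ≠ ⊤ := by
  have hg : Measurable g := D.nice.smooth.continuous.measurable
  have e := T3_carF (T := fun _ _ _ => (1 : ℝ)) H hε hq hg measurable_const hq0 D.g0
    (fun _ _ _ => zero_le_one)
  simp only [mul_one] at e
  rw [e]
  have e2 : ∀ v : Vec d, (∫⁻ m, ENNReal.ofReal (len m ^ γ * g (v - m)) *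
      ∫⁻ σ in {σ : Vec d | 0 < dot m σ}, ENNReal.ofReal (Kn d γ (bt b ε) (co m σ)) ∂(surf d)) =
      ∫⁻ z, ENNReal.ofReal (g z * len (v - z) ^ γ) *
        ∫⁻ σ in {σ : Vec d | 0 < dot (v - z) σ},
          ENNReal.ofReal (Kn d γ (bt b ε) (co (v - z) σ)) ∂(surf d) := by
    intro v
    rw [← lintegral_sub_left_eq_self (fun z => ENNReal.ofReal (g z * len (v - z) ^ γ) *
        ∫⁻ σ in {σ : Vec d | 0 < dot (v - z) σ},
          ENNReal.ofReal (Kn d γ (bt b ε) (co (v - z) σ)) ∂(surf d)) v]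
    refine lintegral_congr fun m => ?_
    simp only [sub_sub_cancel]
    rw [mul_comm (g (v - m))]
  simp only [e2]
  refine finL_core H.hd1 hγ H.g2 D hA hqA
    (K := ENNReal.ofReal (2 ^ (d - 1) * 4 * (C * (ε ^ (-(((d : ℝ) - 1) / 2 + s)) + 1))) * surf d univ)
    (ENNReal.mul_ne_top ENNReal.ofReal_ne_top (measure_ne_top _ _))
    (Y := fun v z => ∫⁻ σ in {σ : Vec d | 0 < dot (v - z) σ},
      ENNReal.ofReal (Kn d γ (bt b ε) (co (v - z) σ)) ∂(surf d)) fun v z => ?_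
  refine (lintegral_mono_ae (g := fun _ =>
    ENNReal.ofReal (2 ^ (d - 1) * 4 * (C * (ε ^ (-(((d : ℝ) - 1) / 2 + s)) + 1)))) ?_).trans ?_
  · filter_upwards [ae_restrict_of_ae surf_ae, ae_restrict_mem (measurableSet_half (v - z))] with σ hσ hm
    exact ENNReal.ofReal_le_ofReal (finL_Kn H hε hσ hm)
  · rw [lintegral_const, Measure.restrict_apply_univ]
    exact mul_le_mul_right (measure_mono (subset_univ _)) _

theorem LLo_ne_top (H : Hyp d γ s b C Ca) (hγ : 0 ≤ γ) (hε : 0 < ε) (P : Lp) {g g1 ω : Vec d → ℝ} (D : Dat g g1 ω) :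
    LLo γ b ε P g ω ≠ ⊤ := by
  have hg : Measurable g := D.nice.smooth.continuous.measurable
  have hω0 : ∀ v, 0 ≤ ω v := fun v => by linarith [D.ωl v]
  refine finL_loss H hγ hε D ((meas_Gs _ hg).mul D.ωc.measurable)
    (fun v => mul_nonneg (Gs_nonneg _ _ _) (hω0 v)) (p := 2 * P.p') zero_le_one fun v => ?_
  rw [one_mul]
  exact (mul_comm _ _).le

theorem LC_ne_top (H : Hyp d γ s b C Ca) (hγ : 0 ≤ γ) (hε : 0 < ε) (P : Lp) {g g1 ω : Vec d → ℝ} (D : Dat g g1 ω) :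
    LC γ b ε P g g1 (gR g g1) ω ≠ ⊤ := by
  have hg : Measurable g := D.nice.smooth.continuous.measurable
  set p := 2 * P.p' with hp
  have hk : ∀ v z y, 0 ≤ kM P g1 (gR g g1) v z y ∧ kM P g1 (gR g g1) v z y ≤ g z := by
    intro v z y
    have h1 := D.le z
    have h2 := D.g10 z
    have h3 := D.g0 z
    unfold kM gR
    split_ifs <;> constructor <;> linarith
  have hdF : ∀ v y, 0 ≤ dF p g v y ∧ dF p g v y ≤ 2 * Gs (p + p) g v + 2 * Gs p g y := by
    intro v y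
    have hy := one_le_Wp p y
    have hy0 := Wp_pos p y
    unfold dF
    refine ⟨by positivity, ?_⟩
    rw [div_le_iff₀ hy0]
    have e1 : Gs (p + p) g v = (g v * Wp p v) ^ 2 := by
      unfold Gs Wp
      rw [pow_add]
      ring
    have e2 : Gs p g y * Wp p y = (g y * Wp p y) ^ 2 := by
      unfold Gs
      ring
    rw [e1]
    have h1 : (g v * Wp p v) ^ 2 ≤ (g v * Wp p v) ^ 2 * Wp p y :=
      le_mul_of_one_le_right (sq_nonneg _) hy
    nlinarith [sq_nonneg (g v * Wp p v + g y * Wp p y)]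
  have hle : LC γ b ε P g g1 (gR g g1) ω ≤ T3 γ b ε fun v w y z =>
      (fun v _ _ z => ENNReal.ofReal (g z * (4 * Gs (p + p) g v))) v w y z +
        (fun _ _ y z => ENNReal.ofReal (g z * (4 * Gs p g y))) v w y z := by
    unfold LC
    refine T3_mono H.hd1 fun v w y z _ => ?_
    have h0 := D.g0 z
    have h1 := hk v z y
    have h2 := hdF v y
    have h3 := Gs_nonneg (p + p) g v
    have h4 := Gs_nonneg p g y
    have hω1 := D.ωl v
    have hω2 := D.ωu v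
    show _ ≤ ENNReal.ofReal (g z * (4 * Gs (p + p) g v)) + ENNReal.ofReal (g z * (4 * Gs p g y))
    rw [← ENNReal.ofReal_add (by positivity) (by positivity)]
    refine ENNReal.ofReal_le_ofReal ?_
    have h5 : ω v * dF p g v y ≤ 2 * dF p g v y := mul_le_mul_of_nonneg_right hω2 h2.1
    calc kM P g1 (gR g g1) v z y * (ω v * dF p g v y) ≤
          g z * (ω v * dF p g v y) :=
          mul_le_mul_of_nonneg_right h1.2 (mul_nonneg (by linarith) h2.1)
      _ ≤ g z * (4 * Gs (p + p) g v + 4 * Gs p g y) :=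
          mul_le_mul_of_nonneg_left (by linarith) h0
      _ = _ := by ring
  have m1 : Meas4 fun v (_ : Vec d) (_ : Vec d) z => ENNReal.ofReal (g z * (4 * Gs (p + p) g v)) := by
    unfold Meas4
    exact ((hg.comp measurable_snd.snd.snd).mul
      (measurable_const.mul ((meas_Gs _ hg).comp measurable_fst))).ennreal_ofReal
  have m2 : Meas4 fun (_ : Vec d) (_ : Vec d) y z => ENNReal.ofReal (g z * (4 * Gs p g y)) := by
    unfold Meas4
    exact ((hg.comp measurable_snd.snd.snd).mul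
      (measurable_const.mul ((meas_Gs _ hg).comp measurable_snd.snd.fst))).ennreal_ofReal
  have hq8 : ∀ (r : ℕ) (v : Vec d), 4 * Gs r g v ≤ 8 * (ω v * Gs r g v) := by
    intro r v
    have h3 := Gs_nonneg r g v
    have hω1 := D.ωl v
    nlinarith
  refine ne_top_of_le_ne_top ?_ hle
  rw [T3_add H.bm m1]
  refine ENNReal.add_ne_top.2 ⟨?_, ?_⟩
  · exact finL_gain H hγ hε D (measurable_const.mul (meas_Gs _ hg))
      (fun v => mul_nonneg (by norm_num) (Gs_nonneg _ _ _)) (by norm_num) (hq8 (p + p))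
  · rw [T3_J H ε m2]
    exact finL_loss H hγ hε D (measurable_const.mul (meas_Gs _ hg))
      (fun v => mul_nonneg (by norm_num) (Gs_nonneg _ _ _)) (by norm_num) (hq8 p)

end Pool.Agent.H15.G1
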