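import Pool.Agent.H15.G1.L.Car
import Pool.Agent.H15.G1.L.LIm
import Pool.Agent.H15.G1.InOut

/-!
# Module InSum: (L3) integrated

`T3_carF` for `LA` (split `kM` into the `g2` part with `GMg (Tb (2p') 1 v)` and the `g1` part with `GMg (TbA P v m)` for medium and `GMg (Tb ..)` for the other partners; `Wp v / Wp y = Tb (2p') 1 v y`,
`v - (v-m) = m`, `v + hh - v = hh`), `T3_carFE` for `LD1` (`GEg (Tb p' 1 v)`, partner `g = g1 + g2`), `T3_loss` for `LLo` (inner integral `BB b ε (dir m)` with `m = v - w`). Then `InOut` for every `m ≠ 0`: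
cases slow, medium, fast (`c_one`). Substitution `z = v - m` in `LI` (`lintegral_sub_left_eq_self`). No subtraction: everything is additive in `ℝ≥0∞`.
-/

set_option autoImplicit false

open MeasureTheory Set Filter Topology Pool.Agent.H25.Kin Pool.Agent.H82.BK Pool.Agent.H82.CM
open Pool.Agent.H48.PL Pool.Agent.H48.PI Pool.Agent.H48.PW Pool.Agent.H82.NT
open scoped ENNReal

namespace Pool.Agent.H15.G1

variable {d : ℕ} {γ s C Ca cb ε : ℝ} {b : ℝ → ℝ}

private lemma isum_le (q : Vec d → ℝ≥0∞) (A B : Vec d → Vec d → ℝ≥0∞) :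
    (∫⁻ v, q v * ∫⁻ m, A v m) + (∫⁻ v, q v * ∫⁻ m, B v m) ≤ ∫⁻ v, q v * ∫⁻ m, (A v m + B v m) := by
  refine (le_lintegral_add _ _).trans (lintegral_mono fun v => ?_)
  simp only
  rw [← mul_add]
  exact mul_le_mul_right (le_lintegral_add _ _) _

private lemma isum_LI (p : ℕ) (g k ω : Vec d → ℝ) (c : Vec d → Vec d → ℝ) :
    LI γ p g k ω c = ∫⁻ v, ENNReal.ofReal (ω v * Gs p g v) *
      ∫⁻ m, ENNReal.ofReal (k (v - m) * len m ^ γ * c v (v - m)) := by
  unfold LI
  refine lintegral_congr fun v => ?_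
  rw [← lintegral_sub_left_eq_self (fun m => ENNReal.ofReal (k (v - m) * len m ^ γ * c v (v - m))) v]
  simp only [sub_sub_cancel]

open Classical in
/-- the angular function of the `g2` part -/
private noncomputable def isT2 (P : Lp) (v z y : Vec d) : ℝ :=
  if (z, y) ∈ RegS P.θ P.L v then Wp (2 * P.p') v / Wp (2 * P.p') y else 0

open Classical in
/-- the angular function of the `g1` part -/
private noncomputable def isT1 (P : Lp) (v z y : Vec d) : ℝ :=
  if (z, y) ∈ RegS P.θ P.L v ∧ ¬ AS P v z y then Wp (2 * P.p') v / Wp (2 * P.p') y else 0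

open Classical in
/-- the angular function of the exceptional part -/
private noncomputable def isTE (P : Lp) (v z y : Vec d) : ℝ :=
  if (z, y) ∈ RegS P.θ P.L v then 0 else rho P v z

private lemma isT2_nn (P : Lp) (v z y : Vec d) : 0 ≤ isT2 P v z y := by
  unfold isT2
  split_ifs
  · exact div_nonneg (Wp_pos _ _).le (Wp_pos _ _).le
  · exact le_rfl

private lemma isT1_nn (P : Lp) (v z y : Vec d) : 0 ≤ isT1 P v z y := by
  unfold isT1
  split_ifs
  · exact div_nonneg (Wp_pos _ _).le (Wp_pos _ _).le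
  · exact le_rfl

private lemma isrho_nn (P : Lp) (v z : Vec d) : 0 ≤ rho P v z := by
  unfold rho Tb
  have h1 := sq_nonneg' v
  have h2 := sq_nonneg' z
  positivity

private lemma isTE_nn (P : Lp) (v z y : Vec d) : 0 ≤ isTE P v z y := by
  unfold isTE
  split_ifs
  · exact le_rfl
  · exact isrho_nn P v z

private lemma ismW (P : Lp) : Measurable fun p : Vec d × Vec d × Vec d =>
    Wp (2 * P.p') p.1 / Wp (2 * P.p') p.2.2 :=
  ((meas_Wp _).comp measurable_fst).div ((meas_Wp _).comp (measurable_snd.comp measurable_snd))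

private lemma isT2_m (P : Lp) : Measurable fun p : Vec d × Vec d × Vec d => isT2 P p.1 p.2.1 p.2.2 := by
  classical
  exact Measurable.ite (meas_reg P) (ismW P) measurable_const

private lemma isT1_s (P : Lp) : MeasurableSet {p : Vec d × Vec d × Vec d |
    (p.2.1, p.2.2) ∈ RegS P.θ P.L p.1 ∧ ¬ AS P p.1 p.2.1 p.2.2} :=
  MeasurableSet.inter (meas_reg P) (MeasurableSet.compl (meas_as P))

private lemma isT1_m (P : Lp) : Measurable fun p : Vec d × Vec d × Vec d => isT1 P p.1 p.2.1 p.2.2 := by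
  classical
  exact Measurable.ite (isT1_s P) (ismW P) measurable_const

private lemma isTE_m (P : Lp) : Measurable fun p : Vec d × Vec d × Vec d => isTE P p.1 p.2.1 p.2.2 := by
  classical
  have c0 : Measurable fun p : Vec d × Vec d × Vec d => ((p.1, p.2.1) : Vec d × Vec d) :=
    measurable_fst.prodMk (measurable_fst.comp measurable_snd)
  have c1 := (meas_rho P).comp c0
  simp only [Function.comp_def] at c1
  exact Measurable.ite (meas_reg P) measurable_const c1

private lemma isW_div (p : ℕ) (v u : Vec d) : Wp p v / Wp p u = Tb p 1 v u := by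
  unfold Wp Tb
  rw [one_mul, div_pow]

/-- `GMg` with the barrier -/
private lemma is_GM (P : Lp) (v m : Vec d) :
    ∫⁻ σ in {σ : Vec d | 0 < dot m σ}, ENNReal.ofReal (Kn d γ (bt b ε) (co m σ) *
      isT2 P v (v - m) (v + hh σ m)) ∂(surf d) = GMg γ b ε (Tb (2 * P.p') 1 v) (RegS P.θ P.L v) v m := by
  unfold GMg
  refine lintegral_congr fun σ => ?_
  unfold isT2
  rw [isW_div]
  split_ifs
  · rfl
  · rw [mul_zero, ENNReal.ofReal_zero]

private lemma is_GA (P : Lp) (v m : Vec d) (h : MedR P.δ P.a₀ P.L' v (v - m)) :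
    ∫⁻ σ in {σ : Vec d | 0 < dot m σ}, ENNReal.ofReal (Kn d γ (bt b ε) (co m σ) *
      isT1 P v (v - m) (v + hh σ m)) ∂(surf d) = GMg γ b ε (TbA P v m) (RegS P.θ P.L v) v m := by
  unfold GMg
  refine lintegral_congr fun σ => ?_
  unfold isT1 TbA AS
  rw [isW_div, sub_sub_cancel]
  by_cases h1 : (v - m, v + hh σ m) ∈ RegS P.θ P.L v
  · by_cases h2 : v + hh σ m - v ∈ AnS P.τ m
    · rw [if_neg (fun h3 => h3.2 ⟨h, h2⟩), if_pos h1, if_pos h2]
    · rw [if_pos ⟨h1, fun h3 => h2 h3.2⟩, if_pos h1, if_neg h2]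
  · rw [if_neg (fun h3 => h1 h3.1), if_neg h1, mul_zero, ENNReal.ofReal_zero]

private lemma is_GB (P : Lp) (v m : Vec d) (h : ¬ MedR P.δ P.a₀ P.L' v (v - m)) :
    ∫⁻ σ in {σ : Vec d | 0 < dot m σ}, ENNReal.ofReal (Kn d γ (bt b ε) (co m σ) *
      isT1 P v (v - m) (v + hh σ m)) ∂(surf d) = GMg γ b ε (Tb (2 * P.p') 1 v) (RegS P.θ P.L v) v m := by
  unfold GMg
  refine lintegral_congr fun σ => ?_
  unfold isT1 AS
  rw [isW_div]
  by_cases h1 : (v - m, v + hh σ m) ∈ RegS P.θ P.L v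
  · rw [if_pos ⟨h1, fun h3 => h h3.1⟩, if_pos h1]
  · rw [if_neg (fun h3 => h1 h3.1), if_neg h1, mul_zero, ENNReal.ofReal_zero]

private lemma is_GE (P : Lp) (v m : Vec d) :
    ∫⁻ σ in {σ : Vec d | 0 < dot m σ}, ENNReal.ofReal (Kn d γ (fun x => bt b ε (-x)) (co m σ) *
      isTE P v (v + hh σ m) (v - m)) ∂(surf d) = GEg γ b ε (Tb P.p' 1 v) (RegS P.θ P.L v) v m := by
  unfold GEg
  refine lintegral_congr fun σ => ?_
  unfold isTE rho
  split_ifs
  · rw [mul_zero, ENNReal.ofReal_zero]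
  · rfl

private lemma is_BB (v m : Vec d) :
    ∫⁻ σ, ENNReal.ofReal (bt b ε (cosTh v (v - m) σ) * 1) ∂(surf d) = BB b ε (dir m) := by
  unfold BB
  refine lintegral_congr fun σ => ?_
  rw [mul_one]
  congr 2
  unfold cosTh dir
  rw [sub_sub_cancel, dot_comm, smul_dot, div_eq_inv_mul]

/-- the pointwise inequality -/
private lemma is_point {G G1 G2 M MA E S B K K3 KF : ℝ≥0∞} {cs cm cf : Prop} [Decidable cs] [Decidable cm]
    [Decidable cf] (hG : G = G1 + G2) (h : cs ∧ ¬ cm ∧ ¬ cf ∨ ¬ cs ∧ cm ∧ ¬ cf ∨ ¬ cs ∧ ¬ cm ∧ cf)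
    (h1 : cs → M + E + S ≤ B) (h2 : cm → M + E ≤ B + K) (h3 : cm → MA + E + K3 ≤ B)
    (h4 : cf → M + E + KF ≤ B) :
    G2 * M + G1 * (if cm then MA else M) + G * E + (G * (if cs then S else 0) +
      G1 * (if cm then K3 else 0) + G * (if cf then KF else 0)) ≤ G * B + G2 * (if cm then K else 0) := by
  rcases h with ⟨hs, hm, hf⟩ | ⟨hs, hm, hf⟩ | ⟨hs, hm, hf⟩
  · rw [if_neg hm, if_pos hs, if_neg hm, if_neg hf, if_neg hm]
    simp only [mul_zero, add_zero]
    calc G2 * M + G1 * M + G * E + G * S = G * (M + E + S) := by rw [hG]; ring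
      _ ≤ G * B := mul_le_mul_right (h1 hs) _
  · rw [if_pos hm, if_neg hs, if_pos hm, if_neg hf, if_pos hm]
    simp only [mul_zero, add_zero, zero_add]
    calc G2 * M + G1 * MA + G * E + G1 * K3 = G2 * (M + E) + G1 * (MA + E + K3) := by rw [hG]; ring
      _ ≤ G2 * (B + K) + G1 * B := add_le_add (mul_le_mul_right (h2 hm) _) (mul_le_mul_right (h3 hm) _)
      _ = G * B + G2 * K := by rw [hG]; ring
  · rw [if_neg hm, if_neg hs, if_neg hm, if_pos hf, if_neg hm]
    simp only [mul_zero, add_zero, zero_add]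
    calc G2 * M + G1 * M + G * E + G * KF = G * (M + E + KF) := by rw [hG]; ring
      _ ≤ G * B := mul_le_mul_right (h4 hf) _

open Classical in
/-- exactly one of the three cases -/
private lemma is_cases (P : Lp) (hP : P.Ok) (v z : Vec d) :
    SlowR P.δ P.a₀ v z ∧ ¬ MedR P.δ P.a₀ P.L' v z ∧ ¬ FastR P v z ∨
    ¬ SlowR P.δ P.a₀ v z ∧ MedR P.δ P.a₀ P.L' v z ∧ ¬ FastR P v z ∨
    ¬ SlowR P.δ P.a₀ v z ∧ ¬ MedR P.δ P.a₀ P.L' v z ∧ FastR P v z := by
  have h := c_one P hP v z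
  unfold cS cM cF at h
  by_cases h1 : SlowR P.δ P.a₀ v z <;> by_cases h2 : MedR P.δ P.a₀ P.L' v z <;>
    by_cases h3 : FastR P v z <;> simp [h1, h2, h3] at h ⊢

private lemma is_q0 (P : Lp) {g g1 ω : Vec d → ℝ} (D : Dat g g1 ω) (v : Vec d) :
    0 ≤ ω v * Gs (2 * P.p') g v := mul_nonneg ((by norm_num : (0 : ℝ) ≤ 1 / 2).trans (D.ωl v)) (Gs_nonneg _ _ _)

private lemma is_qm (P : Lp) {g g1 ω : Vec d → ℝ} (D : Dat g g1 ω) (hg : Measurable g) :
    Measurable fun v => ω v * Gs (2 * P.p') g v := D.ωc.measurable.mul (meas_Gs _ hg)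

/-- `LA` -/
private lemma is_LA (H : Hyp d γ s b C Ca) (hε : 0 < ε) (P : Lp) {g g1 ω : Vec d → ℝ} (D : Dat g g1 ω)
    (hg : Measurable g) :
    LA γ b ε P g g1 (gR g g1) ω =
      (∫⁻ v, ENNReal.ofReal (ω v * Gs (2 * P.p') g v) * ∫⁻ m, ENNReal.ofReal (len m ^ γ * gR g g1 (v - m)) *
        ∫⁻ σ in {σ : Vec d | 0 < dot m σ}, ENNReal.ofReal (Kn d γ (bt b ε) (co m σ) *
          isT2 P v (v - m) (v + hh σ m)) ∂(surf d)) +
      (∫⁻ v, ENNReal.ofReal (ω v * Gs (2 * P.p') g v) * ∫⁻ m, ENNReal.ofReal (len m ^ γ * g1 (v - m)) *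
        ∫⁻ σ in {σ : Vec d | 0 < dot m σ}, ENNReal.ofReal (Kn d γ (bt b ε) (co m σ) *
          isT1 P v (v - m) (v + hh σ m)) ∂(surf d)) := by
  have hR0 : ∀ u, 0 ≤ gR g g1 u := fun u => sub_nonneg.2 (D.le u)
  have hRm : Measurable (gR g g1) := hg.sub D.m1
  have hq0 := is_q0 P D
  have hqm := is_qm P D hg
  rw [← T3_carF H hε hqm hRm (isT2_m P) hq0 hR0 (isT2_nn P),
    ← T3_carF H hε hqm D.m1 (isT1_m P) hq0 D.g10 (isT1_nn P), ← T3_add H.bm]
  · unfold LA
    congr 1
    funext v w y z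
    rw [← ENNReal.ofReal_add (mul_nonneg (hR0 z) (mul_nonneg (hq0 v) (isT2_nn P v z y)))
      (mul_nonneg (D.g10 z) (mul_nonneg (hq0 v) (isT1_nn P v z y)))]
    congr 1
    unfold kM isT2 isT1
    by_cases h1 : (z, y) ∈ RegS P.θ P.L v
    · by_cases h2 : AS P v z y
      · rw [if_pos h1, if_pos h1, if_pos h2, if_neg (fun h3 => h3.2 h2)]
        ring
      · rw [if_pos h1, if_pos h1, if_neg h2, if_pos ⟨h1, h2⟩]
        ring
    · rw [if_neg h1, if_neg h1, if_neg (fun h3 => h1 h3.1)]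
      ring
  · have c1 : Measurable fun q : Vec d × Vec d × Vec d × Vec d => gR g g1 q.2.2.2 :=
      hRm.comp (measurable_snd.comp (measurable_snd.comp measurable_snd))
    have c2 : Measurable fun q : Vec d × Vec d × Vec d × Vec d => ω q.1 * Gs (2 * P.p') g q.1 :=
      hqm.comp measurable_fst
    have c0 : Measurable fun q : Vec d × Vec d × Vec d × Vec d => ((q.1, q.2.2.2, q.2.2.1) : Vec d × Vec d × Vec d) :=
      measurable_fst.prodMk ((measurable_snd.comp (measurable_snd.comp measurable_snd)).prodMk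
        (measurable_fst.comp (measurable_snd.comp measurable_snd)))
    have c3 := (isT2_m P).comp c0
    simp only [Function.comp_def] at c3
    have c4 := (c1.mul (c2.mul c3)).ennreal_ofReal
    exact c4

/-- `LD1` -/
private lemma is_LD (H : Hyp d γ s b C Ca) (hε : 0 < ε) (P : Lp) {g g1 ω : Vec d → ℝ} (D : Dat g g1 ω)
    (hg : Measurable g) :
    LD1 γ b ε P g ω =
      ∫⁻ v, ENNReal.ofReal (ω v * Gs (2 * P.p') g v) * ∫⁻ m, ENNReal.ofReal (len m ^ γ * g (v - m)) *
        ∫⁻ σ in {σ : Vec d | 0 < dot m σ}, ENNReal.ofReal (Kn d γ (fun x => bt b ε (-x)) (co m σ) *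
          isTE P v (v + hh σ m) (v - m)) ∂(surf d) := by
  rw [← T3_carFE H hε (is_qm P D hg) hg (isTE_m P) (is_q0 P D) D.g0 (isTE_nn P)]
  unfold LD1
  congr 1
  funext v w y z
  unfold isTE
  split_ifs
  · rw [mul_zero, mul_zero, ENNReal.ofReal_zero]
  · rfl

/-- `LLo` -/
private lemma is_LL (H : Hyp d γ s b C Ca) (hε : 0 < ε) (P : Lp) {g g1 ω : Vec d → ℝ} (D : Dat g g1 ω)
    (hg : Measurable g) :
    LLo γ b ε P g ω =
      ∫⁻ v, ENNReal.ofReal (ω v * Gs (2 * P.p') g v) * ∫⁻ m, ENNReal.ofReal (g (v - m) * len m ^ γ) *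
        BB b ε (dir m) := by
  have h1 : LLo γ b ε P g ω = T3 γ b ε fun v w y _ => ENNReal.ofReal (g w * (ω v * Gs (2 * P.p') g v *
      (fun _ _ _ => (1 : ℝ)) v w y)) := by
    unfold LLo
    congr 1
    funext v w y z
    congr 1
    simp only
    ring
  rw [h1, T3_loss H hε (is_qm P D hg) hg measurable_const (is_q0 P D) D.g0 (fun _ _ _ => zero_le_one)]
  refine lintegral_congr fun v => ?_
  congr 1
  rw [← lintegral_sub_left_eq_self (fun m => ENNReal.ofReal (g (v - m) * len m ^ γ) * BB b ε (dir m)) v]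
  refine lintegral_congr fun w => ?_
  rw [← is_BB v (v - w), sub_sub_cancel]

theorem in_sum (H : Hyp d γ s b C Ca) (hε : 0 < ε) (P : Lp) (hP : P.Ok) (I : InOut d γ s b P ε)
    {g g1 ω : Vec d → ℝ} (D : Dat g g1 ω) :
    LA γ b ε P g g1 (gR g g1) ω + LD1 γ b ε P g ω +
        (LI γ (2 * P.p') g g ω (fun v z => 3 / 4 * P.κ * cS P v z) +
          LI γ (2 * P.p') g g1 ω (fun v z => P.K₃ * cM P v z) +
          LI γ (2 * P.p') g g ω (fun v z => (P.K₃ + P.c₅ * mF P s ε v z) * cF P v z)) ≤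
      LLo γ b ε P g ω + LI γ (2 * P.p') g (gR g g1) ω (fun v z => P.K * cM P v z) := by
  classical
  have hg : Measurable g := D.nice.cont.measurable
  have hR0 : ∀ u, 0 ≤ gR g g1 u := fun u => sub_nonneg.2 (D.le u)
  have hRm : Measurable (gR g g1) := hg.sub D.m1
  rw [is_LA H hε P D hg, is_LD H hε P D hg, is_LL H hε P D hg, isum_LI, isum_LI, isum_LI, isum_LI]
  refine (add_le_add (add_le_add (isum_le _ _ _) le_rfl) (add_le_add (isum_le _ _ _) le_rfl)).trans ?_
  refine (add_le_add (isum_le _ _ _) (isum_le _ _ _)).trans ((isum_le _ _ _).trans ?_)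
  have hmeas : Measurable fun q : Vec d × Vec d => ENNReal.ofReal (gR g g1 (q.1 - q.2) * len q.2 ^ γ *
      (P.K * cM P q.1 (q.1 - q.2))) := by
    refine ENNReal.measurable_ofReal.comp (((hRm.comp (measurable_fst.sub measurable_snd)).mul
      ((continuous_len.measurable.comp measurable_snd).pow_const γ)).mul
      (((meas_cM P).comp (measurable_fst.prodMk (measurable_fst.sub measurable_snd))).const_mul _))
  have hq : Measurable fun v => ENNReal.ofReal (ω v * Gs (2 * P.p') g v) :=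
    ENNReal.measurable_ofReal.comp (is_qm P D hg)
  have hm1 : Measurable fun v => ENNReal.ofReal (ω v * Gs (2 * P.p') g v) *
      ∫⁻ m, ENNReal.ofReal (gR g g1 (v - m) * len m ^ γ * (P.K * cM P v (v - m))) :=
    hq.mul hmeas.lintegral_prod_right'
  refine le_trans (lintegral_mono fun v => ?_) (lintegral_add_right _ hm1).le
  simp only
  rw [← mul_add]
  refine mul_le_mul_right ?_ _
  have hm2 : Measurable fun m => ENNReal.ofReal (gR g g1 (v - m) * len m ^ γ * (P.K * cM P v (v - m))) :=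
    hmeas.comp (measurable_const.prodMk measurable_id)
  refine le_trans ?_ (lintegral_add_right _ hm2).le
  have h0 : ∀ᵐ m : Vec d, m ≠ 0 := by
    have : Nonempty (Fin d) := ⟨⟨0, by have := H.hd; omega⟩⟩
    rw [ae_iff]
    simp
  refine lintegral_mono_ae (h0.mono fun m hm => ?_)
  have hl : 0 ≤ len m ^ γ := Real.rpow_nonneg (len_nonneg m) _
  set z := v - m with hz
  have hG : ENNReal.ofReal (len m ^ γ * g z) =
      ENNReal.ofReal (len m ^ γ * g1 z) + ENNReal.ofReal (len m ^ γ * gR g g1 z) := by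
    rw [← ENNReal.ofReal_add (mul_nonneg hl (D.g10 z)) (mul_nonneg hl (hR0 z))]
    congr 1
    unfold gR
    ring
  have key := is_point (G := ENNReal.ofReal (len m ^ γ * g z)) (G1 := ENNReal.ofReal (len m ^ γ * g1 z))
    (G2 := ENNReal.ofReal (len m ^ γ * gR g g1 z))
    (M := GMg γ b ε (Tb (2 * P.p') 1 v) (RegS P.θ P.L v) v m) (MA := GMg γ b ε (TbA P v m) (RegS P.θ P.L v) v m)
    (E := GEg γ b ε (Tb P.p' 1 v) (RegS P.θ P.L v) v m) (S := ENNReal.ofReal (3 / 4 * P.κ))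
    (B := BB b ε (dir m)) (K := ENNReal.ofReal P.K) (K3 := ENNReal.ofReal P.K₃)
    (KF := ENNReal.ofReal (P.K₃ + P.c₅ * mF P s ε v z)) hG (is_cases P hP v z)
    (fun h => I.slow v m hm h) (fun h => I.med2 v m hm h) (fun h => I.med1 v m hm h) (fun h => I.fast v m hm h)
  have e1 : ∫⁻ σ in {σ : Vec d | 0 < dot m σ}, ENNReal.ofReal (Kn d γ (bt b ε) (co m σ) *
      isT1 P v z (v + hh σ m)) ∂(surf d) = (if MedR P.δ P.a₀ P.L' v z then
        GMg γ b ε (TbA P v m) (RegS P.θ P.L v) v m else GMg γ b ε (Tb (2 * P.p') 1 v) (RegS P.θ P.L v) v m) := by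
    by_cases h : MedR P.δ P.a₀ P.L' v z
    · rw [if_pos h]; exact is_GA P v m h
    · rw [if_neg h]; exact is_GB P v m h
  have e2 : ENNReal.ofReal (g z * len m ^ γ * (3 / 4 * P.κ * cS P v z)) =
      ENNReal.ofReal (len m ^ γ * g z) * (if SlowR P.δ P.a₀ v z then ENNReal.ofReal (3 / 4 * P.κ) else 0) := by
    unfold cS
    split_ifs
    · rw [← ENNReal.ofReal_mul (mul_nonneg hl (D.g0 z))]
      congr 1
      ring
    · simp
  have e3 : ENNReal.ofReal (g1 z * len m ^ γ * (P.K₃ * cM P v z)) =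
      ENNReal.ofReal (len m ^ γ * g1 z) * (if MedR P.δ P.a₀ P.L' v z then ENNReal.ofReal P.K₃ else 0) := by
    unfold cM
    split_ifs
    · rw [← ENNReal.ofReal_mul (mul_nonneg hl (D.g10 z))]
      congr 1
      ring
    · simp
  have e4 : ENNReal.ofReal (g z * len m ^ γ * ((P.K₃ + P.c₅ * mF P s ε v z) * cF P v z)) =
      ENNReal.ofReal (len m ^ γ * g z) * (if FastR P v z then
        ENNReal.ofReal (P.K₃ + P.c₅ * mF P s ε v z) else 0) := by
    unfold cF
    split_ifs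
    · rw [← ENNReal.ofReal_mul (mul_nonneg hl (D.g0 z))]
      congr 1
      ring
    · simp
  have e5 : ENNReal.ofReal (gR g g1 z * len m ^ γ * (P.K * cM P v z)) =
      ENNReal.ofReal (len m ^ γ * gR g g1 z) * (if MedR P.δ P.a₀ P.L' v z then ENNReal.ofReal P.K else 0) := by
    unfold cM
    split_ifs
    · rw [← ENNReal.ofReal_mul (mul_nonneg hl (hR0 z))]
      congr 1
      ring
    · simp
  have e6 : ENNReal.ofReal (g z * len m ^ γ) = ENNReal.ofReal (len m ^ γ * g z) := by rw [mul_comm]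
  rw [e1, e2, e3, e4, e6, e5]
  have e7 := is_GM (γ := γ) (ε := ε) (b := b) P v m
  have e8 := is_GE (γ := γ) (ε := ε) (b := b) P v m
  rw [← hz] at e7 e8
  rw [e7, e8]
  exact key

end Pool.Agent.H15.G1
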