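import Pool.Agent.H15.G1.L.Car
import Pool.Agent.H15.G1.L.CuAng
import Pool.Agent.H15.G1.L.LIm
import Pool.Agent.H82.NT.SwapA

/-!
# Module PaB: (L7), products with a bounded medium partner

On `AS` with `g1 z ≠ 0`: `⟨z⟩ ≤ R`, `z` not slow: `1+nsq v ≤ max(a₀, R²/δ²) =: R₁`, `Wp v ≤ R₁^(2p')`. Split at `F v = g v Wp v ≤ N₁` or `> N₁`. Low part: `≤ 2 N₁ T3 [g z g y 1_AS]`, `T3_J`: `T3 [g w g v 1_{AS}(y,w,v)]`,
`|v-y|² ≥ τ²/64 |y-w|² ≥ τ²/128 |v-w|²`: `big_ang` with `t = τ/12`: `≤ N DD`. High part: `g1 z F v ≤ C₀ (F v)²/N₁ = (C₀/N₁) Gs v Wp v`, so `≤ (C₀ R₁^(2p')/N₁) T3 [1_AS g y (ω v Gs v)]`; `T3_car`: inner integral `AM τ γ b ε g v m` over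
`nsq m ≤ (2+2L')(1+nsq v)`: `swap_all` (H82/NT/SwapA): `≤ K ∫ |m|^γ g(v-m) dm`; `N₁` large: `≤ LI (κ/32)`, twice `κ/16`.
-/

set_option autoImplicit false

open MeasureTheory Set Filter Topology Pool.Agent.H25.Kin Pool.Agent.H82.BK Pool.Agent.H82.CM
open Pool.Agent.H48.PL Pool.Agent.H48.PI Pool.Agent.H48.PW Pool.Agent.H82.NT
open scoped ENNReal

namespace Pool.Agent.H15.G1

variable {d : ℕ} {γ s C Ca cb ε : ℝ} {b : ℝ → ℝ}

private lemma pab_nsq (v m : Vec d) : nsq m ≤ 2 * nsq v + 2 * nsq (v - m) := by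
  unfold nsq
  rw [Finset.mul_sum, Finset.mul_sum, ← Finset.sum_add_distrib]
  refine Finset.sum_le_sum fun i _ => ?_
  rw [Pi.sub_apply]
  nlinarith [sq_nonneg (2 * v i - m i)]

/-- the weight at a velocity with a bounded medium partner -/
private lemma pab_w (P : Lp) (hP : P.Ok) {R : ℝ} {v z : Vec d}
    (h : MedR P.δ P.a₀ P.L' v z) (hz : jb z ≤ R) :
    Wp (2 * P.p') v ≤ (max P.a₀ (R ^ 2 / P.δ ^ 2)) ^ (2 * P.p') := by
  have hv := sq_nonneg' v
  have hδ := hP.hδ
  have hz2 : nsq z ≤ R ^ 2 := by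
    have h0 := sq_nonneg' z
    have h1 : jb z ^ 2 = 1 + nsq z := Real.sq_sqrt (by linarith)
    have h2 : jb z ^ 2 ≤ R ^ 2 := pow_le_pow_left₀ (Real.sqrt_nonneg _) hz 2
    linarith
  unfold Wp
  refine pow_le_pow_left₀ (by linarith) ?_ _
  by_contra hc
  push Not at hc
  rw [max_lt_iff] at hc
  apply h.2
  refine ⟨hc.1.le, ?_⟩
  have h3 := hc.2
  rw [div_lt_iff₀ (by positivity)] at h3
  linarith

open Classical in
/-- `g(y)` on the small displacements of medium pairs -/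
private noncomputable def paT (P : Lp) (g : Vec d → ℝ) (v z y : Vec d) : ℝ := if AS P v z y then g y else 0

private lemma paT_meas (P : Lp) {g : Vec d → ℝ} (hg : Measurable g) :
    Measurable fun q : Vec d × Vec d × Vec d => paT P g q.1 q.2.1 q.2.2 := by
  unfold paT
  exact Measurable.ite (meas_as P) (hg.comp (measurable_snd.comp measurable_snd)) measurable_const

private lemma paT_nonneg (P : Lp) {g : Vec d → ℝ} (hg : ∀ u, 0 ≤ g u) (v z y : Vec d) : 0 ≤ paT P g v z y := by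
  unfold paT
  split_ifs
  · exact hg y
  · exact le_rfl

open Classical in
/-- indicator of the deflections which are not small -/
private noncomputable def paI (t : ℝ) (v w y : Vec d) : ℝ := if t ^ 2 * nsq (v - w) ≤ nsq (y - v) then 1 else 0

private lemma paI_meas (t : ℝ) : Measurable fun q : Vec d × Vec d × Vec d => paI t q.1 q.2.1 q.2.2 := by
  unfold paI
  refine Measurable.ite ?_ measurable_const measurable_const
  exact (isClosed_le (continuous_const.mul (continuous_sq.comp (continuous_fst.sub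
    (continuous_fst.comp continuous_snd)))) (continuous_sq.comp
    ((continuous_snd.comp continuous_snd).sub continuous_fst))).measurableSet

private lemma paI_nonneg (t : ℝ) (v w y : Vec d) : 0 ≤ paI t v w y := by
  unfold paI
  split_ifs
  · exact zero_le_one
  · exact le_rfl

/-- the low part -/
private lemma pab_low (H : Hyp d γ s b C Ca) (P : Lp) (hP : P.Ok) : ∃ K : ℝ, 0 ≤ K ∧
    ∀ g g1 ω : Vec d → ℝ, Dat g g1 ω → ∀ ε : ℝ, 0 < ε →
      (T3 γ b ε fun v _ y z => ENNReal.ofReal (g z * paT P g v z y)) ≤ ENNReal.ofReal K * DD γ g := by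
  obtain ⟨K₀, hK₀, hbig⟩ := big_ang H
  have hτ := hP.hτ
  have hτ1 := hP.hτ1
  set t : ℝ := P.τ / 12 with ht
  have ht0 : 0 < t := by positivity
  have ht1 : t ≤ 1 := by rw [ht]; linarith
  set K₁ : ℝ := K₀ * t ^ (-(2 * s)) with hK₁
  have hK₁0 : 0 ≤ K₁ := by positivity
  refine ⟨K₁, hK₁0, fun g g1 ω D ε hε => ?_⟩
  have hg : Measurable g := D.nice.cont.measurable
  have hΨ : Meas4 (fun v _ y z => ENNReal.ofReal (g z * paT P g v z y) :
      Vec d → Vec d → Vec d → Vec d → ℝ≥0∞) := by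
    have m1 : Measurable fun q : Vec d × Vec d × Vec d × Vec d => q.2.2.2 :=
      measurable_snd.comp (measurable_snd.comp measurable_snd)
    have m2 : Measurable fun q : Vec d × Vec d × Vec d × Vec d => q.2.2.1 :=
      measurable_fst.comp (measurable_snd.comp measurable_snd)
    exact ((hg.comp m1).mul ((paT_meas P hg).comp
      (measurable_fst.prodMk (m1.prodMk m2)))).ennreal_ofReal
  rw [T3_J H ε hΨ]
  refine (T3_mono (Φ := fun v w y _ => ENNReal.ofReal (g w * (g v * paI t v w y))) H.hd1 ?_).trans ?_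
  · intro v w y z hG
    refine ENNReal.ofReal_le_ofReal (mul_le_mul_of_nonneg_left ?_ (D.g0 w))
    unfold paT paI
    by_cases h : AS P y w v
    · rw [if_pos h, if_pos, mul_one]
      obtain ⟨-, h1, -⟩ := h
      have e1 : v - z = y - w := hG.pos.2.1
      have e2 := hG.tot
      have e3 := hG.le
      rw [e1] at e2 e3
      have e4 : nsq (v - y) = nsq (y - v) := by
        unfold nsq
        exact Finset.sum_congr rfl fun i _ => by rw [Pi.sub_apply, Pi.sub_apply]; ring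
      rw [e4] at h1
      have e5 := sq_nonneg' (y - w)
      rw [ht, div_pow]
      have e6 : 0 ≤ P.τ ^ 2 := sq_nonneg _
      have e7 : P.τ ^ 2 * nsq (v - w) ≤ P.τ ^ 2 * (2 * nsq (y - w)) :=
        mul_le_mul_of_nonneg_left (by linarith) e6
      have e8 : 0 ≤ P.τ ^ 2 * nsq (y - w) := mul_nonneg e6 e5
      nlinarith
    · rw [if_neg h]
      split_ifs
      · rw [mul_one]; exact D.g0 v
      · rw [mul_zero]
  · rw [T3_loss H hε hg hg (paI_meas t) D.g0 D.g0 (paI_nonneg t)]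
    unfold DD
    rw [← lintegral_const_mul' _ _ ENNReal.ofReal_ne_top]
    refine lintegral_mono fun v => ?_
    show ENNReal.ofReal (g v) * _ ≤ ENNReal.ofReal K₁ * _
    have h1 : ∫⁻ w, ENNReal.ofReal (g w * len (v - w) ^ γ) *
        ∫⁻ σ, ENNReal.ofReal (bt b ε (cosTh v w σ) * paI t v w (post v w σ)) ∂(surf d) ≤
        ∫⁻ w, ENNReal.ofReal K₁ * ENNReal.ofReal (g w * len (v - w) ^ γ) := by
      refine lintegral_mono_ae ?_
      filter_upwards [ae_ne H.hd1 v] with w hw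
      rw [mul_comm (ENNReal.ofReal K₁)]
      have h2 := hbig ε hε t ht0 ht1 v w hw
      have h3 : ∫⁻ σ, ENNReal.ofReal (bt b ε (cosTh v w σ) * paI t v w (post v w σ)) ∂(surf d) ≤
          ENNReal.ofReal K₁ := by
        refine le_trans (lintegral_mono fun σ => ?_) h2
        unfold paI
        dsimp only
        split_ifs
        · rw [mul_one]
        · rw [mul_zero, ENNReal.ofReal_zero]
      gcongr
    calc ENNReal.ofReal (g v) * ∫⁻ w, ENNReal.ofReal (g w * len (v - w) ^ γ) *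
          ∫⁻ σ, ENNReal.ofReal (bt b ε (cosTh v w σ) * paI t v w (post v w σ)) ∂(surf d)
        ≤ ENNReal.ofReal (g v) * ∫⁻ w, ENNReal.ofReal K₁ * ENNReal.ofReal (g w * len (v - w) ^ γ) := by
          gcongr
      _ = ENNReal.ofReal K₁ * ∫⁻ w, ENNReal.ofReal (g v * g w * len (v - w) ^ γ) := by
          rw [← lintegral_const_mul' _ _ ENNReal.ofReal_ne_top,
            ← lintegral_const_mul' _ _ ENNReal.ofReal_ne_top]
          refine lintegral_congr fun w => ?_
          rw [mul_assoc (g v), ENNReal.ofReal_mul (D.g0 v)]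
          ring

/-- the high part -/
private lemma pab_high (H : Hyp d γ s b C Ca) (P : Lp) (hP : P.Ok) : ∃ K : ℝ, 0 ≤ K ∧
    ∀ g g1 ω : Vec d → ℝ, Dat g g1 ω → ∀ ε : ℝ, 0 < ε →
      (T3 γ b ε fun v _ y z => ENNReal.ofReal (1 * ((ω v * Gs (2 * P.p') g v) * paT P g v z y))) ≤
        ENNReal.ofReal K * LI γ (2 * P.p') g g ω (fun _ _ => 1) := by
  classical
  have hτ := hP.hτ
  have hτ1 := hP.hτ1
  have hL := hP.hL
  have hLL := hP.hLL
  set Λ : ℝ := 2 + 2 * P.L' with hΛ
  have hΛ0 : 0 < Λ := by rw [hΛ]; linarith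
  obtain ⟨K, hK, hsw⟩ := swap_all H hτ (by linarith : P.τ ≤ 1) hΛ0
  refine ⟨K, hK, fun g g1 ω D ε hε => ?_⟩
  have hg : Measurable g := D.nice.cont.measurable
  have hω : Measurable ω := D.ωc.measurable
  have hq : Measurable fun v => ω v * Gs (2 * P.p') g v := hω.mul (meas_Gs _ hg)
  have hq0 : ∀ v, 0 ≤ ω v * Gs (2 * P.p') g v := fun v =>
    mul_nonneg (by have := D.ωl v; linarith) (Gs_nonneg _ _ _)
  rw [T3_carF H hε (k := fun _ => 1) hq measurable_const (paT_meas P hg) hq0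
    (fun _ => zero_le_one) (paT_nonneg P D.g0)]
  unfold LI
  rw [← lintegral_const_mul' _ _ ENNReal.ofReal_ne_top]
  refine lintegral_mono fun v => ?_
  show ENNReal.ofReal (ω v * Gs (2 * P.p') g v) * _ ≤
    ENNReal.ofReal K * (ENNReal.ofReal (ω v * Gs (2 * P.p') g v) * _)
  rw [← mul_assoc, mul_comm (ENNReal.ofReal K), mul_assoc]
  have hS : MeasurableSet {m : Vec d | nsq m ≤ Λ * (1 + nsq v)} :=
    (isClosed_le continuous_sq continuous_const).measurableSet
  have hv := sq_nonneg' v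
  have h1 : ∫⁻ m, ENNReal.ofReal (len m ^ γ * 1) * ∫⁻ σ in {σ : Vec d | 0 < dot m σ},
      ENNReal.ofReal (Kn d γ (bt b ε) (co m σ) * paT P g v (v - m) (v + hh σ m)) ∂(surf d) ≤
      ∫⁻ m in {m : Vec d | nsq m ≤ Λ * (1 + nsq v)}, ENNReal.ofReal (len m ^ γ) * AM P.τ γ b ε g v m := by
    rw [← lintegral_indicator hS]
    refine lintegral_mono fun m => ?_
    dsimp only
    rw [mul_one]
    by_cases hm : nsq m ≤ Λ * (1 + nsq v)
    · rw [indicator_of_mem (show m ∈ {m : Vec d | nsq m ≤ Λ * (1 + nsq v)} from hm)]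
      have h2 : ∫⁻ σ in {σ : Vec d | 0 < dot m σ},
          ENNReal.ofReal (Kn d γ (bt b ε) (co m σ) * paT P g v (v - m) (v + hh σ m)) ∂(surf d) ≤
          AM P.τ γ b ε g v m := by
        unfold AM
        refine lintegral_mono fun σ => ?_
        dsimp only
        unfold paT
        by_cases h : AS P v (v - m) (v + hh σ m)
        · have h3 : hh σ m ∈ AnS P.τ m := by
            have h4 := h.2
            rw [show v + hh σ m - v = hh σ m by abel, show v - (v - m) = m by abel] at h4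
            exact h4
          rw [if_pos h, if_pos h3]
        · rw [if_neg h, mul_zero, ENNReal.ofReal_zero]
          exact bot_le
      gcongr
    · have h2 : ∀ σ, paT P g v (v - m) (v + hh σ m) = 0 := by
        intro σ
        unfold paT
        rw [if_neg]
        intro h
        apply hm
        have h3 := h.1.1
        have h4 := pab_nsq v m
        rw [hΛ]
        nlinarith
      have h3 : ∫⁻ σ in {σ : Vec d | 0 < dot m σ},
          ENNReal.ofReal (Kn d γ (bt b ε) (co m σ) * paT P g v (v - m) (v + hh σ m)) ∂(surf d) = 0 := by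
        simp only [h2, mul_zero, ENNReal.ofReal_zero, lintegral_zero]
      rw [h3, mul_zero]
      exact bot_le
  have h2 := hsw g hg D.g0 v ε hε
  have h3 : ∫⁻ m in {m : Vec d | nsq m ≤ P.τ ^ 2 * Λ * (1 + nsq v)},
      ENNReal.ofReal (len m ^ γ * g (v - m)) ≤ ∫⁻ z, ENNReal.ofReal (g z * len (v - z) ^ γ * 1) := by
    refine (setLIntegral_le_lintegral _ _).trans (le_of_eq ?_)
    rw [← lintegral_sub_left_eq_self (fun z => ENNReal.ofReal (g z * len (v - z) ^ γ * 1)) v]
    refine lintegral_congr fun m => ?_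
    rw [show v - (v - m) = m by abel, mul_one, mul_comm]
  have h4 : ∫⁻ m, ENNReal.ofReal (len m ^ γ * 1) * ∫⁻ σ in {σ : Vec d | 0 < dot m σ},
      ENNReal.ofReal (Kn d γ (bt b ε) (co m σ) * paT P g v (v - m) (v + hh σ m)) ∂(surf d) ≤
      ENNReal.ofReal K * ∫⁻ z, ENNReal.ofReal (g z * len (v - z) ^ γ * 1) := by
    refine h1.trans (h2.trans ?_)
    gcongr
  gcongr

/-- the pointwise bound -/
private lemma pab_pt (P : Lp) (hP : P.Ok) {C₀ R N : ℝ} (hC₀ : 0 < C₀) (hN : 0 < N)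
    {g g1 ω : Vec d → ℝ} (D : Dat g g1 ω) (h1 : ∀ u, g1 u ≤ C₀) (h2 : ∀ u, R < jb u → g1 u = 0)
    (v z y : Vec d) (hA : AS P v z y) :
    g1 z * g y * (g v * Wp (2 * P.p') v * ω v) ≤ 2 * N * (g z * g y) +
      C₀ * (max P.a₀ (R ^ 2 / P.δ ^ 2)) ^ (2 * P.p') / N * (1 * ((ω v * Gs (2 * P.p') g v) * g y)) := by
  have hgv := D.g0 v
  have hgz := D.g0 z
  have hgy := D.g0 y
  have hg1 := D.g10 z
  have hW := Wp_pos (2 * P.p') v
  have hω : 0 ≤ ω v := by have := D.ωl v; linarith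
  have hωu := D.ωu v
  have hG := Gs_nonneg (2 * P.p') g v
  have ha := hP.ha₀
  have hR2 : 0 ≤ (max P.a₀ (R ^ 2 / P.δ ^ 2)) ^ (2 * P.p') :=
    pow_nonneg (le_trans (by linarith) (le_max_left _ _)) _
  by_cases hz : g1 z = 0
  · rw [hz, zero_mul, zero_mul]
    positivity
  · have hjz : jb z ≤ R := by
      by_contra hc
      push Not at hc
      exact hz (h2 z hc)
    have hw := pab_w P hP hA.1 hjz
    set R₂ : ℝ := (max P.a₀ (R ^ 2 / P.δ ^ 2)) ^ (2 * P.p') with hR₂
    set W : ℝ := Wp (2 * P.p') v with hWd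
    have hF : 0 ≤ g v * W := mul_nonneg hgv hW.le
    by_cases hlow : g v * W ≤ N
    · have e1 : g v * W * ω v ≤ N * 2 := mul_le_mul hlow hωu hω hN.le
      have e2 : g1 z * g y ≤ g z * g y := mul_le_mul_of_nonneg_right (D.le z) hgy
      have e3 : g1 z * g y * (g v * W * ω v) ≤ g z * g y * (N * 2) :=
        mul_le_mul e2 e1 (mul_nonneg hF hω) (mul_nonneg hgz hgy)
      have e4 : 0 ≤ C₀ * R₂ / N * (1 * ((ω v * Gs (2 * P.p') g v) * g y)) := by positivity
      linarith
    · push Not at hlow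
      have e1 : 1 ≤ g v * W / N := by rw [le_div_iff₀ hN]; linarith
      have e2 : g1 z * g y * (g v * W * ω v) ≤ C₀ * g y * (g v * W * ω v) :=
        mul_le_mul_of_nonneg_right (mul_le_mul_of_nonneg_right (h1 z) hgy) (mul_nonneg hF hω)
      have e3 : C₀ * g y * (g v * W * ω v) ≤ C₀ * g y * (g v * W * ω v) * (g v * W / N) :=
        le_mul_of_one_le_right (by positivity) e1
      have e4 : C₀ * g y * (g v * W * ω v) * (g v * W / N) =
          C₀ * W / N * (1 * ((ω v * (g v ^ 2 * W)) * g y)) := by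
        field_simp
      have e5 : C₀ * W / N * (1 * ((ω v * (g v ^ 2 * W)) * g y)) ≤
          C₀ * R₂ / N * (1 * ((ω v * (g v ^ 2 * W)) * g y)) := by
        refine mul_le_mul_of_nonneg_right ?_ (by positivity)
        exact div_le_div_of_nonneg_right (mul_le_mul_of_nonneg_left hw hC₀.le) hN.le
      have e6 : Gs (2 * P.p') g v = g v ^ 2 * W := rfl
      rw [e6]
      have e7 : 0 ≤ 2 * N * (g z * g y) := by positivity
      linarith

theorem pa_b (H : Hyp d γ s b C Ca) (hγ : 0 ≤ γ) (P : Lp) (hP : P.Ok) (C₀ R : ℝ) (hC₀ : 0 < C₀) (hR : 1 ≤ R) :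
    ∃ N : ℝ, 0 ≤ N ∧ ∀ g g1 ω : Vec d → ℝ, Dat g g1 ω → (∀ u, g1 u ≤ C₀) → (∀ u, R < jb u → g1 u = 0) →
      ∀ ε : ℝ, 0 < ε → 2 * LPA γ b ε P g g1 ω ≤ ENNReal.ofReal N * DD γ g +
        LI γ (2 * P.p') g g ω (fun _ _ => P.κ / 16) := by
  obtain ⟨K₁, hK₁, hlow⟩ := pab_low H P hP
  obtain ⟨Ks, hKs, hhigh⟩ := pab_high H P hP
  have hκ := hP.hκ
  have ha := hP.ha₀
  set R₂ : ℝ := (max P.a₀ (R ^ 2 / P.δ ^ 2)) ^ (2 * P.p') with hR₂
  have hR2 : 0 ≤ R₂ := pow_nonneg (le_trans (by linarith) (le_max_left _ _)) _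
  set N₁ : ℝ := 32 * (C₀ * R₂) * Ks / P.κ + 1 with hN₁
  have hN0 : 0 < N₁ := by positivity
  refine ⟨2 * (2 * N₁ * K₁), by positivity, fun g g1 ω D h1 h2 ε hε => ?_⟩
  have hg : Measurable g := D.nice.cont.measurable
  have hω : Measurable ω := D.ωc.measurable
  have hA0 : 0 ≤ C₀ * R₂ / N₁ := by positivity
  have hω0 : 0 ≤ ω := fun v => by have := D.ωl v; show 0 ≤ ω v; linarith
  have m1 : Measurable fun q : Vec d × Vec d × Vec d × Vec d => q.2.2.2 :=
    measurable_snd.comp (measurable_snd.comp measurable_snd)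
  have m2 : Measurable fun q : Vec d × Vec d × Vec d × Vec d => q.2.2.1 :=
    measurable_fst.comp (measurable_snd.comp measurable_snd)
  have hΨ : Meas4 (fun v _ y z => ENNReal.ofReal (2 * N₁) * ENNReal.ofReal (g z * paT P g v z y) :
      Vec d → Vec d → Vec d → Vec d → ℝ≥0∞) :=
    (((hg.comp m1).mul ((paT_meas P hg).comp
      (measurable_fst.prodMk (m1.prodMk m2)))).ennreal_ofReal).const_mul _
  have hle : LPA γ b ε P g g1 ω ≤ T3 γ b ε fun v _ y z =>
      ENNReal.ofReal (2 * N₁) * ENNReal.ofReal (g z * paT P g v z y) +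
      ENNReal.ofReal (C₀ * R₂ / N₁) *
        ENNReal.ofReal (1 * ((ω v * Gs (2 * P.p') g v) * paT P g v z y)) := by
    unfold LPA
    refine T3_mono H.hd1 ?_
    intro v w y z _
    split_ifs with h
    · have h3 := pab_pt P hP hC₀ hN0 D h1 h2 v z y h.2
      unfold paT
      rw [if_pos h.2, ← ENNReal.ofReal_mul (by positivity), ← ENNReal.ofReal_mul hA0,
        ← ENNReal.ofReal_add]
      · exact ENNReal.ofReal_le_ofReal h3
      · have := D.g0 z
        have := D.g0 y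
        positivity
      · have := D.g0 y
        have h4 := hω0 v
        have h5 := Gs_nonneg (2 * P.p') g v
        have h6 : 0 ≤ ω v := h4
        positivity
    · exact bot_le
  rw [T3_add H.bm hΨ, T3_mul _ (by positivity), T3_mul _ hA0] at hle
  have e1 : LI γ (2 * P.p') g g ω (fun _ _ => P.κ / 16) =
      ENNReal.ofReal (P.κ / 16) * LI γ (2 * P.p') g g ω (fun _ _ => 1) := by
    rw [← LI_mul (by positivity)]
    simp only [mul_one]
  rw [e1]
  have hA : 2 * (C₀ * R₂ / N₁ * Ks) ≤ P.κ / 16 := by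
    rw [div_mul_eq_mul_div, ← mul_div_assoc, div_le_iff₀ hN0, hN₁]
    have e2 : P.κ / 16 * (32 * (C₀ * R₂) * Ks / P.κ + 1) = 2 * (C₀ * R₂ * Ks) + P.κ / 16 := by
      field_simp
      ring
    rw [e2]
    linarith
  calc 2 * LPA γ b ε P g g1 ω ≤ 2 * (ENNReal.ofReal (2 * N₁) * (ENNReal.ofReal K₁ * DD γ g) +
        ENNReal.ofReal (C₀ * R₂ / N₁) *
          (ENNReal.ofReal Ks * LI γ (2 * P.p') g g ω (fun _ _ => 1))) := by
        refine mul_le_mul_right (hle.trans ?_) _
        exact add_le_add (mul_le_mul_right (hlow g g1 ω D ε hε) _)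
          (mul_le_mul_right (hhigh g g1 ω D ε hε) _)
    _ = ENNReal.ofReal (2 * (2 * N₁ * K₁)) * DD γ g + ENNReal.ofReal (2 * (C₀ * R₂ / N₁ * Ks)) *
          LI γ (2 * P.p') g g ω (fun _ _ => 1) := by
        have e2 : ENNReal.ofReal (2 * (2 * N₁ * K₁)) =
            2 * (ENNReal.ofReal (2 * N₁) * ENNReal.ofReal K₁) := by
          rw [ENNReal.ofReal_mul (q := 2 * N₁ * K₁) (by norm_num : (0 : ℝ) ≤ 2),
            ENNReal.ofReal_mul (q := K₁) (by positivity : 0 ≤ 2 * N₁), ENNReal.ofReal_ofNat]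
        have e3 : ENNReal.ofReal (2 * (C₀ * R₂ / N₁ * Ks)) =
            2 * (ENNReal.ofReal (C₀ * R₂ / N₁) * ENNReal.ofReal Ks) := by
          rw [ENNReal.ofReal_mul (q := C₀ * R₂ / N₁ * Ks) (by norm_num : (0 : ℝ) ≤ 2),
            ENNReal.ofReal_mul (q := Ks) hA0, ENNReal.ofReal_ofNat]
        rw [e2, e3]
        ring
    _ ≤ _ := by
        gcongr

end Pool.Agent.H15.G1
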