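import Pool.Agent.H15.G1.L.SplitQ
import Pool.Agent.H15.G1.L.Bterm
import Pool.Agent.H15.G1.L.InSum
import Pool.Agent.H15.G1.L.D2b
import Pool.Agent.H15.G1.L.CuB
import Pool.Agent.H15.G1.L.ThinS
import Pool.Agent.H15.G1.L.PaB
import Pool.Agent.H15.G1.L.FinL

/-!
# Module Comb: (L8)

`in_out` with `K₃ = 4 KD + κ`; `cu_b`: `K_C`; `δ₁ = min 1 (1/(4(K_C+1))) ...` so that `δ₁ K_C ≤ min(1/4, κ/16, c₅/2)`; `thin_s` with `Km = K + 4 KD + κ/8`; `pa_b`. Sum: `2LP + LC + LI(3/4 κ cS) + LI g₁ (K₃ cM) + LI((K₃+c₅ mF) cF)` `≤ 2LLo + LI g₂ (K cM) + LCu + LI(κ/4 cS) + LI(4KD cM) + 2LPA`;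
`LCu ≤ (1/4) LC + LI(κ/16 · 1) + LI(c₅/2 mF cF) + η`, `2LPA ≤ N DD + LI(κ/16 · 1)`, `1 = cS + cM + cF`, `LI g = LI g₁ + LI g₂` on `cM`; medium `g₂`: `thin_s`. Cancel the finite terms `LC`, `LI ..` (`LC_ne_top`, `LI_ne_top`, `mF ≤ ε^(-s)`). What remains on the left is `2LP + LI g₁ (κ/4)`
(slow: `3/4-1/4-1/8 = 3/8`; medium: `K₃-4KD-κ/8`; fast: `K₃-κ/8`). Best done in reals: take `toReal` of all finite quantities, or move everything by `ENNReal` cancellation once.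
-/

set_option autoImplicit false

open MeasureTheory Set Filter Topology Pool.Agent.H25.Kin Pool.Agent.H82.BK Pool.Agent.H82.CM
open Pool.Agent.H48.PL Pool.Agent.H48.PI Pool.Agent.H48.PW Pool.Agent.H82.NT
open scoped ENNReal

namespace Pool.Agent.H15.G1

variable {d : ℕ} {γ s C Ca cb ε : ℝ} {b : ℝ → ℝ}

/-- the arithmetic with finite quantities -/
private lemma comb_alg {X C A B D1 D2 PA Lo Cu S M1 M2 F Fm T Nd E : ℝ≥0∞}
    (hX : X ≠ ⊤) (hC : C ≠ ⊤) (hA : A ≠ ⊤) (hB : B ≠ ⊤) (hD1 : D1 ≠ ⊤) (hD2 : D2 ≠ ⊤) (hPA : PA ≠ ⊤)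
    (hLo : Lo ≠ ⊤) (hCu : Cu ≠ ⊤) (hS : S ≠ ⊤) (hM1 : M1 ≠ ⊤) (hM2 : M2 ≠ ⊤) (hF : F ≠ ⊤)
    (hFm : Fm ≠ ⊤) (hT : T ≠ ⊤) (hNd : Nd ≠ ⊤) (hE : E ≠ ⊤)
    {κ c₅ KD K KC δ i : ℝ} (hκ : 0 < κ) (hc₅ : 0 < c₅) (hKD : 0 ≤ KD) (hK : 0 ≤ K) (hKC : 0 ≤ KC)
    (hi : 0 ≤ i) (hiδ : i ≤ δ) (q1 : δ * KC ≤ 1 / 4) (q2 : δ * KC ≤ κ / 16) (q3 : δ * KC ≤ c₅ / 2)
    (h1 : 2 * X + C ≤ A + B + D1 + D2 + 2 * PA) (h2 : B ≤ Lo + Cu)
    (h3 : A + D1 + (ENNReal.ofReal (3 / 4 * κ) * S + ENNReal.ofReal (4 * KD + κ) * M1 +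
      (ENNReal.ofReal (4 * KD + κ) * F + ENNReal.ofReal c₅ * Fm)) ≤ Lo + ENNReal.ofReal K * M2)
    (h4 : D2 ≤ ENNReal.ofReal (κ / 4) * S + ENNReal.ofReal (4 * KD) * (M1 + M2))
    (h5 : Cu ≤ ENNReal.ofReal i * (ENNReal.ofReal KC * (C + (S + (M1 + M2) + F + Fm)) + E))
    (h6 : ENNReal.ofReal (K + 4 * KD + κ / 8) * M2 ≤ ENNReal.ofReal (1 / 2) * C + T)
    (h7 : 2 * PA ≤ Nd + ENNReal.ofReal (κ / 16) * (S + (M1 + M2) + F)) :
    2 * X + ENNReal.ofReal (κ / 4) * (S + M1 + F) ≤ 2 * Lo + T + Nd + ENNReal.ofReal δ * E := by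
  lift X to NNReal using hX
  lift C to NNReal using hC
  lift A to NNReal using hA
  lift B to NNReal using hB
  lift D1 to NNReal using hD1
  lift D2 to NNReal using hD2
  lift PA to NNReal using hPA
  lift Lo to NNReal using hLo
  lift Cu to NNReal using hCu
  lift S to NNReal using hS
  lift M1 to NNReal using hM1
  lift M2 to NNReal using hM2
  lift F to NNReal using hF
  lift Fm to NNReal using hFm
  lift T to NNReal using hT
  lift Nd to NNReal using hNd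
  lift E to NNReal using hE
  have hδ : 0 ≤ δ := hi.trans hiδ
  simp only [ENNReal.ofReal] at h3 h4 h5 h6 h7 ⊢
  have r1 : (2 : ℝ) * X + C ≤ A + B + D1 + D2 + 2 * PA := by exact_mod_cast h1
  have r2 : (B : ℝ) ≤ Lo + Cu := by exact_mod_cast h2
  have r3 : ((A + D1 + (Real.toNNReal (3 / 4 * κ) * S + Real.toNNReal (4 * KD + κ) * M1 +
      (Real.toNNReal (4 * KD + κ) * F + Real.toNNReal c₅ * Fm)) : NNReal) : ℝ) ≤
      ((Lo + Real.toNNReal K * M2 : NNReal) : ℝ) := by exact_mod_cast h3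
  have r4 : (D2 : ℝ) ≤ ((Real.toNNReal (κ / 4) * S + Real.toNNReal (4 * KD) * (M1 + M2) : NNReal) : ℝ) := by
    exact_mod_cast h4
  have r5 : (Cu : ℝ) ≤ ((Real.toNNReal i * (Real.toNNReal KC * (C + (S + (M1 + M2) + F + Fm)) + E) : NNReal) : ℝ) := by
    exact_mod_cast h5
  have r6 : ((Real.toNNReal (K + 4 * KD + κ / 8) * M2 : NNReal) : ℝ) ≤
      ((Real.toNNReal (1 / 2) * C + T : NNReal) : ℝ) := by exact_mod_cast h6
  have r7 : (2 : ℝ) * PA ≤ ((Nd + Real.toNNReal (κ / 16) * (S + (M1 + M2) + F) : NNReal) : ℝ) := by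
    exact_mod_cast h7
  have key : ((2 * X + Real.toNNReal (κ / 4) * (S + M1 + F) : NNReal) : ℝ) ≤
      ((2 * Lo + T + Nd + Real.toNNReal δ * E : NNReal) : ℝ) := by
    simp only [NNReal.coe_add, NNReal.coe_mul, NNReal.coe_ofNat,
      Real.coe_toNNReal _ (show 0 ≤ 3 / 4 * κ by positivity),
      Real.coe_toNNReal _ (show 0 ≤ 4 * KD + κ by positivity), Real.coe_toNNReal _ hc₅.le,
      Real.coe_toNNReal _ hK, Real.coe_toNNReal _ (show 0 ≤ κ / 4 by positivity),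
      Real.coe_toNNReal _ (show 0 ≤ 4 * KD by positivity), Real.coe_toNNReal _ hi,
      Real.coe_toNNReal _ hKC, Real.coe_toNNReal _ (show 0 ≤ K + 4 * KD + κ / 8 by positivity),
      Real.coe_toNNReal _ (show (0 : ℝ) ≤ 1 / 2 by norm_num),
      Real.coe_toNNReal _ (show 0 ≤ κ / 16 by positivity), Real.coe_toNNReal _ hδ]
      at r3 r4 r5 r6 r7 ⊢
    have n1 : (0 : ℝ) ≤ C := C.2
    have n2 : (0 : ℝ) ≤ S := S.2
    have n3 : (0 : ℝ) ≤ M1 := M1.2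
    have n4 : (0 : ℝ) ≤ M2 := M2.2
    have n5 : (0 : ℝ) ≤ F := F.2
    have n6 : (0 : ℝ) ≤ Fm := Fm.2
    have n7 : (0 : ℝ) ≤ E := E.2
    have p1 : i * (KC * (C + (S + (M1 + M2) + F + Fm)) + E) ≤
        δ * (KC * (C + (S + (M1 + M2) + F + Fm)) + E) :=
      mul_le_mul_of_nonneg_right hiδ (by positivity)
    have p2 : δ * KC * C ≤ 1 / 4 * C := mul_le_mul_of_nonneg_right q1 n1
    have p3 : δ * KC * (S + (M1 + M2) + F) ≤ κ / 16 * (S + (M1 + M2) + F) :=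
      mul_le_mul_of_nonneg_right q2 (by positivity)
    have p4 : δ * KC * Fm ≤ c₅ / 2 * Fm := mul_le_mul_of_nonneg_right q3 n6
    have m1 : 0 ≤ κ * S := by positivity
    have m2 : 0 ≤ κ * M1 := by positivity
    have m3 : 0 ≤ κ * F := by positivity
    have m4 : 0 ≤ KD * F := by positivity
    have m5 : 0 ≤ c₅ * Fm := by positivity
    nlinarith
  exact_mod_cast key

/-- the bound for the part with partner `g₁` -/
private lemma comb_LI1 (hd : 1 ≤ d) (hγ : 0 ≤ γ) {P : Lp} (hP : P.Ok) {g g1 ω : Vec d → ℝ} (D : Dat g g1 ω) {κ : ℝ}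
    (hκ : 0 ≤ κ) :
    LI γ (2 * P.p') g g1 ω (fun _ _ => κ) ≤ ENNReal.ofReal κ * (LI γ (2 * P.p') g g ω (cS P) +
      LI γ (2 * P.p') g g1 ω (cM P) + LI γ (2 * P.p') g g ω (cF P)) := by
  have hg : Measurable g := D.nice.cont.measurable
  have hω : Measurable ω := D.ωc.measurable
  have e1 : LI γ (2 * P.p') g g1 ω (fun _ _ => κ) =
      LI γ (2 * P.p') g g1 ω (fun v z => κ * ((cS P v z + cM P v z) + cF P v z)) := by
    congr 1
    funext v z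
    rw [c_one P hP v z, mul_one]
  have c0 := fun v z : Vec d => c_nonneg P v z
  have e2 : LI γ (2 * P.p') g g1 ω (fun v z => (cS P v z + cM P v z) + cF P v z) =
      LI γ (2 * P.p') g g1 ω (fun v z => cS P v z + cM P v z) + LI γ (2 * P.p') g g1 ω (fun v z => cF P v z) :=
    LI_add hg D.m1 hω ((meas_cS P).add (meas_cM P)) (meas_cF P) D.g10
      (fun v z => add_nonneg (c0 v z).1 (c0 v z).2.1) (fun v z => (c0 v z).2.2.1)
  have e3 : LI γ (2 * P.p') g g1 ω (fun v z => cS P v z + cM P v z) =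
      LI γ (2 * P.p') g g1 ω (fun v z => cS P v z) + LI γ (2 * P.p') g g1 ω (fun v z => cM P v z) :=
    LI_add hg D.m1 hω (meas_cS P) (meas_cM P) D.g10 (fun v z => (c0 v z).1) (fun v z => (c0 v z).2.1)
  rw [e1, LI_mul hκ, e2, e3]
  refine mul_le_mul_right (add_le_add (add_le_add ?_ le_rfl) ?_) _
  · exact LI_mono hd hγ fun v z _ => mul_le_mul_of_nonneg_right (D.le z) (c0 v z).1
  · exact LI_mono hd hγ fun v z _ => mul_le_mul_of_nonneg_right (D.le z) (c0 v z).2.2.1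

/-- the decomposition of `LI g g (A)` -/
private lemma comb_LI {P : Lp} (hP : P.Ok) {g g1 ω : Vec d → ℝ} (D : Dat g g1 ω) {A : ℝ}
    (hA : 0 ≤ A) :
    LI γ (2 * P.p') g g ω (fun _ _ => A) = ENNReal.ofReal A * (LI γ (2 * P.p') g g ω (cS P) +
      (LI γ (2 * P.p') g g1 ω (cM P) + LI γ (2 * P.p') g (gR g g1) ω (cM P)) +
        LI γ (2 * P.p') g g ω (cF P)) := by
  have hg : Measurable g := D.nice.cont.measurable
  have hω : Measurable ω := D.ωc.measurable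
  have e1 : LI γ (2 * P.p') g g ω (fun _ _ => A) =
      LI γ (2 * P.p') g g ω (fun v z => A * ((cS P v z + cM P v z) + cF P v z)) := by
    congr 1
    funext v z
    rw [c_one P hP v z, mul_one]
  have c0 := fun v z : Vec d => c_nonneg P v z
  have e2 : LI γ (2 * P.p') g g ω (fun v z => (cS P v z + cM P v z) + cF P v z) =
      LI γ (2 * P.p') g g ω (fun v z => cS P v z + cM P v z) + LI γ (2 * P.p') g g ω (fun v z => cF P v z) :=
    LI_add hg hg hω ((meas_cS P).add (meas_cM P)) (meas_cF P) D.g0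
      (fun v z => add_nonneg (c0 v z).1 (c0 v z).2.1) (fun v z => (c0 v z).2.2.1)
  have e3 : LI γ (2 * P.p') g g ω (fun v z => cS P v z + cM P v z) =
      LI γ (2 * P.p') g g ω (fun v z => cS P v z) + LI γ (2 * P.p') g g ω (fun v z => cM P v z) :=
    LI_add hg hg hω (meas_cS P) (meas_cM P) D.g0 (fun v z => (c0 v z).1) (fun v z => (c0 v z).2.1)
  have e4 : LI γ (2 * P.p') g g ω (cM P) =
      LI γ (2 * P.p') g g1 ω (cM P) + LI γ (2 * P.p') g (gR g g1) ω (cM P) :=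
    LI_split D (meas_cM P) (fun v z => (c0 v z).2.1)
  rw [e1, LI_mul hA, e2, e3]
  change ENNReal.ofReal A * (LI γ (2 * P.p') g g ω (cS P) + LI γ (2 * P.p') g g ω (cM P) +
    LI γ (2 * P.p') g g ω (cF P)) = _
  rw [e4]

theorem comb (HL : HypL d γ s b C Ca cb) (h2 : 2 * s < 1) (hγ : 0 ≤ γ) (e : Fin d) :
    ∃ p' : ℕ, (d : ℝ) + γ + 4 ≤ 2 * p' ∧ ∃ t K₀ κ δ₁ : ℝ, 0 < t ∧ t ≤ 1 ∧ 0 ≤ K₀ ∧ 0 < κ ∧ 0 < δ₁ ∧
    ∃ P : Lp, P.p' = p' ∧ ∀ C₀ R : ℝ, 0 < C₀ → 1 ≤ R → ∃ N : ℝ, 0 ≤ N ∧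
    ∀ g g1 ω n : Vec d → ℝ, Dat g g1 ω → (∀ u, g1 u ≤ C₀) → (∀ u, R < jb u → g1 u = 0) →
      Integrable n → (∀ u, 0 ≤ n u) → ∫ u, n u ≤ δ₁ → CuspW n ω →
      ∃ A ε₀ : ℝ, 0 ≤ A ∧ 0 < ε₀ ∧ ∀ ε : ℝ, 0 < ε → ε ≤ ε₀ →
        2 * LP γ b ε P g ω + LI γ (2 * p') g g1 ω (fun _ _ => κ) ≤
          2 * LLo γ b ε P g ω + LI γ (2 * p') g (gR g g1) ω (fun v z => K₀ * cN e t v z) +
            ENNReal.ofReal N * DD γ g + ENNReal.ofReal (A * ε ^ (1 / 2 - s)) := by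
  have H := HL.H
  have hd : 1 ≤ d := le_trans (by norm_num) H.hd
  have hs0 : 0 ≤ s := H.hs.le
  have hγ2 : γ ≤ 2 := by linarith [H.h2]
  obtain ⟨p', κ, θ, c₅, KD, hp', hκ, hKD, hK₃⟩ := in_out HL h2 hγ
  obtain ⟨L, L', δ, a₀, τ, K, ε₁, hP, hε₁, hε₁', hI⟩ := hK₃ (4 * KD + κ) (by positivity)
  obtain ⟨P, hPdef⟩ : ∃ P : Lp, P = ⟨p', κ, θ, c₅, KD, 4 * KD + κ, L, L', δ, a₀, τ, K⟩ := ⟨_, rfl⟩
  rw [← hPdef] at hP hI
  have hPp : P.p' = p' := by rw [hPdef]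
  have hPκ : P.κ = κ := by rw [hPdef]
  have hPc : P.c₅ = c₅ := by rw [hPdef]
  have hPD : P.KD = KD := by rw [hPdef]
  have hP3 : P.K₃ = 4 * KD + κ := by rw [hPdef]
  have hPK : P.K = K := by rw [hPdef]
  have hc₅ : 0 < c₅ := hPc ▸ hP.hc₅
  have hK : 0 ≤ K := hPK ▸ hP.hK
  obtain ⟨KC, hKC, hcu⟩ := cu_b HL h2 hγ P hP
  obtain ⟨t, K₀, ε₂, ht, ht1, hK₀, hε₂, hth⟩ :=
    thin_s HL hγ P hP e (K + 4 * KD + κ / 8) (by positivity)
  obtain ⟨q, hq0, q1, q2, q3⟩ : ∃ q : ℝ, 0 < q ∧ q ≤ 1 / 4 ∧ q ≤ κ / 16 ∧ q ≤ c₅ / 2 :=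
    ⟨min (1 / 4) (min (κ / 16) (c₅ / 2)), lt_min (by norm_num) (lt_min (by positivity) (by positivity)),
      min_le_left _ _, (min_le_right _ _).trans (min_le_left _ _),
      (min_le_right _ _).trans (min_le_right _ _)⟩
  have hKC1 : 0 < KC + 1 := by linarith
  have hδK : q / (KC + 1) * KC ≤ q := by
    rw [div_mul_eq_mul_div, div_le_iff₀ hKC1]
    nlinarith
  refine ⟨p', hp', t, K₀, κ / 4, q / (KC + 1), ht, ht1, hK₀, by positivity, by positivity, P, hPp, ?_⟩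
  intro C₀ R hC₀ hR
  obtain ⟨N, hN, hpa⟩ := pa_b H hγ P hP C₀ R hC₀ hR
  refine ⟨N, hN, ?_⟩
  intro g g1 ω n D hg1 hg1R hn hn0 hnδ hcusp
  obtain ⟨A, hA, hcuA⟩ := hcu g g1 ω n D hn hn0 hcusp
  refine ⟨q / (KC + 1) * A, min ε₁ ε₂, by positivity, lt_min hε₁ hε₂, ?_⟩
  intro ε hε hεle
  have hεε₁ : ε ≤ ε₁ := hεle.trans (min_le_left _ _)
  have hεε₂ : ε ≤ ε₂ := hεle.trans (min_le_right _ _)
  have hε1 : ε ≤ 1 := by linarith
  have I := hI ε hε hεε₁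
  have hg : Measurable g := D.nice.cont.measurable
  have hω : Measurable ω := D.ωc.measurable
  have c0 := fun v z : Vec d => c_nonneg P v z
  have mf0 := fun v z : Vec d => mF_bd P hs0 hε v z
  have hgR0 : ∀ z, 0 ≤ gR g g1 z := fun z => sub_nonneg.2 (D.le z)
  have hgRle : ∀ z, gR g g1 z ≤ g z := fun z => by
    have := D.g10 z
    unfold gR
    linarith
  have hgRm : Measurable (gR g g1) := hg.sub D.m1
  rw [← hPp]
  -- finiteness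
  have fS : LI γ (2 * P.p') g g ω (cS P) ≠ ⊤ :=
    LI_ne_top hd hγ hγ2 D (fun z => le_rfl) D.g0 (fun v z => (c0 v z).1) (A := 1)
      (fun v z => (c0 v z).2.2.2.1)
  have fM1 : LI γ (2 * P.p') g g1 ω (cM P) ≠ ⊤ :=
    LI_ne_top hd hγ hγ2 D D.le D.g10 (fun v z => (c0 v z).2.1) (A := 1)
      (fun v z => (c0 v z).2.2.2.2.1)
  have fM2 : LI γ (2 * P.p') g (gR g g1) ω (cM P) ≠ ⊤ :=
    LI_ne_top hd hγ hγ2 D hgRle hgR0 (fun v z => (c0 v z).2.1) (A := 1)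
      (fun v z => (c0 v z).2.2.2.2.1)
  have fF : LI γ (2 * P.p') g g ω (cF P) ≠ ⊤ :=
    LI_ne_top hd hγ hγ2 D (fun z => le_rfl) D.g0 (fun v z => (c0 v z).2.2.1) (A := 1)
      (fun v z => (c0 v z).2.2.2.2.2)
  have fFm : LI γ (2 * P.p') g g ω (fun v z => mF P s ε v z * cF P v z) ≠ ⊤ := by
    refine LI_ne_top hd hγ hγ2 D (fun z => le_rfl) D.g0
      (fun v z => mul_nonneg (mf0 v z).1 (c0 v z).2.2.1) (A := ε ^ (-s)) (fun v z => ?_)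
    calc mF P s ε v z * cF P v z ≤ ε ^ (-s) * 1 :=
          mul_le_mul (mf0 v z).2 (c0 v z).2.2.2.2.2 (c0 v z).2.2.1 (Real.rpow_nonneg hε.le _)
      _ = ε ^ (-s) := mul_one _
  have cN01 : ∀ v z : Vec d, 0 ≤ cN e t v z ∧ cN e t v z ≤ 1 := by
    intro v z
    unfold cN
    split_ifs <;> norm_num
  have fT : LI γ (2 * P.p') g (gR g g1) ω (fun v z => K₀ * cN e t v z) ≠ ⊤ :=
    LI_ne_top hd hγ hγ2 D hgRle hgR0 (fun v z => mul_nonneg hK₀ (cN01 v z).1) (A := K₀)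
      (fun v z => mul_le_of_le_one_right hK₀ (cN01 v z).2)
  have fLo := LLo_ne_top H hγ hε P D
  have fC := LC_ne_top H hγ hε P D
  have fDD : ENNReal.ofReal N * DD γ g ≠ ⊤ :=
    ENNReal.mul_ne_top ENNReal.ofReal_ne_top (DD_ne_top hd hγ hγ2 D.nice D.g0)
  -- the inequalities
  have i1 := split_q H hε P D
  have i2 := b_term H hε P D
  have i3 := in_sum H hε P hP I D
  have i4 := d2_b H hε P hP I D
  have i5 := hcuA ε hε hε1
  have i6 := hth ε hε hεε₂ g g1 ω D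
  have i7 := hpa g g1 ω D hg1 hg1R ε hε
  have eCF : LI γ (2 * P.p') g g ω (fun v z => (P.K₃ + P.c₅ * mF P s ε v z) * cF P v z) =
      ENNReal.ofReal (4 * KD + κ) * LI γ (2 * P.p') g g ω (cF P) +
        ENNReal.ofReal c₅ * LI γ (2 * P.p') g g ω (fun v z => mF P s ε v z * cF P v z) := by
    have e1 : (fun v z : Vec d => (P.K₃ + P.c₅ * mF P s ε v z) * cF P v z) =
        fun v z => (4 * KD + κ) * cF P v z + c₅ * (mF P s ε v z * cF P v z) := by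
      funext v z
      rw [hP3, hPc]
      ring
    rw [e1, LI_add hg hg hω ((meas_cF P).const_mul _) (((meas_mF P s ε).mul (meas_cF P)).const_mul _) D.g0
      (fun v z => mul_nonneg (by positivity) (c0 v z).2.2.1)
      (fun v z => mul_nonneg hc₅.le (mul_nonneg (mf0 v z).1 (c0 v z).2.2.1)),
      LI_mul (by positivity : (0 : ℝ) ≤ 4 * KD + κ), LI_mul hc₅.le]
  have eB : LI γ (2 * P.p') g g ω (cB P s ε) = (LI γ (2 * P.p') g g ω (cS P) +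
      (LI γ (2 * P.p') g g1 ω (cM P) + LI γ (2 * P.p') g (gR g g1) ω (cM P)) +
        LI γ (2 * P.p') g g ω (cF P)) + LI γ (2 * P.p') g g ω (fun v z => mF P s ε v z * cF P v z) := by
    have e1 : LI γ (2 * P.p') g g ω (cB P s ε) =
        LI γ (2 * P.p') g g ω (fun _ _ => 1) + LI γ (2 * P.p') g g ω (fun v z => mF P s ε v z * cF P v z) :=
      LI_add hg hg hω measurable_const ((meas_mF P s ε).mul (meas_cF P)) D.g0
        (fun v z => zero_le_one) (fun v z => mul_nonneg (mf0 v z).1 (c0 v z).2.2.1)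
    rw [e1, comb_LI hP D zero_le_one, ENNReal.ofReal_one, one_mul]
  have j3 : LA γ b ε P g g1 (gR g g1) ω + LD1 γ b ε P g ω +
      (ENNReal.ofReal (3 / 4 * κ) * LI γ (2 * P.p') g g ω (cS P) +
        ENNReal.ofReal (4 * KD + κ) * LI γ (2 * P.p') g g1 ω (cM P) +
        (ENNReal.ofReal (4 * KD + κ) * LI γ (2 * P.p') g g ω (cF P) +
          ENNReal.ofReal c₅ * LI γ (2 * P.p') g g ω (fun v z => mF P s ε v z * cF P v z))) ≤
      LLo γ b ε P g ω + ENNReal.ofReal K * LI γ (2 * P.p') g (gR g g1) ω (cM P) := by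
    rw [← eCF, ← LI_mul (by positivity : (0 : ℝ) ≤ 3 / 4 * κ),
      ← LI_mul (by positivity : (0 : ℝ) ≤ 4 * KD + κ), ← LI_mul hK]
    rw [hPκ, hPK, hP3] at i3
    rw [hP3]
    exact i3
  have eM : LI γ (2 * P.p') g g ω (cM P) =
      LI γ (2 * P.p') g g1 ω (cM P) + LI γ (2 * P.p') g (gR g g1) ω (cM P) :=
    LI_split D (meas_cM P) (fun v z => (c0 v z).2.1)
  have j4 : LD2 γ b ε P g ω ≤ ENNReal.ofReal (κ / 4) * LI γ (2 * P.p') g g ω (cS P) +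
      ENNReal.ofReal (4 * KD) * (LI γ (2 * P.p') g g1 ω (cM P) +
        LI γ (2 * P.p') g (gR g g1) ω (cM P)) := by
    rw [← eM, ← LI_mul (by positivity : (0 : ℝ) ≤ κ / 4), ← LI_mul (by positivity : (0 : ℝ) ≤ 4 * KD)]
    rw [hPκ, hPD] at i4
    exact i4
  rw [eB] at i5
  have j6 : ENNReal.ofReal (K + 4 * KD + κ / 8) * LI γ (2 * P.p') g (gR g g1) ω (cM P) ≤
      ENNReal.ofReal (1 / 2) * LC γ b ε P g g1 (gR g g1) ω +
        LI γ (2 * P.p') g (gR g g1) ω (fun v z => K₀ * cN e t v z) := by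
    rw [← LI_mul (by positivity : (0 : ℝ) ≤ K + 4 * KD + κ / 8)]
    exact i6
  have j7 : 2 * LPA γ b ε P g g1 ω ≤ ENNReal.ofReal N * DD γ g + ENNReal.ofReal (κ / 16) *
      (LI γ (2 * P.p') g g ω (cS P) + (LI γ (2 * P.p') g g1 ω (cM P) +
        LI γ (2 * P.p') g (gR g g1) ω (cM P)) + LI γ (2 * P.p') g g ω (cF P)) := by
    rw [← comb_LI hP D (by positivity : (0 : ℝ) ≤ κ / 16)]
    rw [hPκ] at i7
    exact i7
  -- more finiteness
  have fAD : LA γ b ε P g g1 (gR g g1) ω + LD1 γ b ε P g ω ≠ ⊤ := by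
    refine ne_top_of_le_ne_top ?_ (le_self_add.trans j3)
    exact ENNReal.add_ne_top.2 ⟨fLo, ENNReal.mul_ne_top ENNReal.ofReal_ne_top fM2⟩
  have fE : ENNReal.ofReal (A * ε ^ (1 / 2 - s)) ≠ ⊤ := ENNReal.ofReal_ne_top
  have fCu : LCu γ b ε P g ω ≠ ⊤ := by
    refine ne_top_of_le_ne_top (ENNReal.mul_ne_top ENNReal.ofReal_ne_top ?_) i5
    refine ENNReal.add_ne_top.2 ⟨ENNReal.mul_ne_top ENNReal.ofReal_ne_top ?_, fE⟩
    exact ENNReal.add_ne_top.2 ⟨fC, ENNReal.add_ne_top.2 ⟨ENNReal.add_ne_top.2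
      ⟨ENNReal.add_ne_top.2 ⟨fS, ENNReal.add_ne_top.2 ⟨fM1, fM2⟩⟩, fF⟩, fFm⟩⟩
  have fB : LB γ b ε P g g1 (gR g g1) ω ≠ ⊤ :=
    ne_top_of_le_ne_top (ENNReal.add_ne_top.2 ⟨fLo, fCu⟩) i2
  have fD2 : LD2 γ b ε P g ω ≠ ⊤ := by
    refine ne_top_of_le_ne_top (ENNReal.add_ne_top.2 ⟨ENNReal.mul_ne_top ENNReal.ofReal_ne_top fS,
      ENNReal.mul_ne_top ENNReal.ofReal_ne_top (ENNReal.add_ne_top.2 ⟨fM1, fM2⟩)⟩) j4
  have f2PA : 2 * LPA γ b ε P g g1 ω ≠ ⊤ := by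
    refine ne_top_of_le_ne_top (ENNReal.add_ne_top.2 ⟨fDD, ENNReal.mul_ne_top ENNReal.ofReal_ne_top
      (ENNReal.add_ne_top.2 ⟨ENNReal.add_ne_top.2 ⟨fS, ENNReal.add_ne_top.2 ⟨fM1, fM2⟩⟩, fF⟩)⟩) j7
  have fPA : LPA γ b ε P g g1 ω ≠ ⊤ := by
    refine ne_top_of_le_ne_top f2PA ?_
    rw [two_mul]
    exact le_self_add
  have f2X : 2 * LP γ b ε P g ω ≠ ⊤ := by
    refine ne_top_of_le_ne_top ?_ (le_self_add.trans i1)
    refine ENNReal.add_ne_top.2 ⟨ENNReal.add_ne_top.2 ⟨ENNReal.add_ne_top.2 ⟨ENNReal.add_ne_top.2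
      ⟨?_, fB⟩, ?_⟩, fD2⟩, f2PA⟩
    · exact (ENNReal.add_ne_top.1 fAD).1
    · exact (ENNReal.add_ne_top.1 fAD).2
  have fX : LP γ b ε P g ω ≠ ⊤ := by
    refine ne_top_of_le_ne_top f2X ?_
    rw [two_mul]
    exact le_self_add
  have fin := comb_alg fX fC (ENNReal.add_ne_top.1 fAD).1 fB (ENNReal.add_ne_top.1 fAD).2 fD2 fPA fLo
    fCu fS fM1 fM2 fF fFm fT fDD fE hκ hc₅ hKD hK hKC (integral_nonneg hn0) hnδ
    (hδK.trans q1) (hδK.trans q2) (hδK.trans q3) i1 i2 j3 j4 i5 j6 j7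
  refine (add_le_add le_rfl (comb_LI1 hd hγ hP D (by positivity))).trans (fin.trans (le_of_eq ?_))
  rw [← ENNReal.ofReal_mul (by positivity : (0 : ℝ) ≤ q / (KC + 1)), mul_assoc]

end Pool.Agent.H15.G1
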