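import Pool.Agent.H15.G1.LDefs

/-!
# Module Geo: the relations between the four velocities

`y = post v w σ`, `z = post' v w σ`, `|σ| = 1`, `x = cosTh v w σ ≥ 0`, `V = v - w`: `y - v = (|V| σ - V)/2`, `v - z = (|V| σ + V)/2`, so
`nsq (y-v) = nsq V (1-x)/2`, `nsq (v-z) = nsq V (1+x)/2`, perpendicular. `bt b ε x = 0` for `x < 0` (by definition).
`ae_good` (H25/Kin/BMeas): a.e. point of `mu3 d` has `v ≠ w`, `|σ| = 1`.
-/

set_option autoImplicit false

open MeasureTheory Set Filter Topology Pool.Agent.H25.Kin Pool.Agent.H82.BK Pool.Agent.H82.CM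
open Pool.Agent.H48.PL Pool.Agent.H48.PI Pool.Agent.H48.PW Pool.Agent.H82.NT
open scoped ENNReal

namespace Pool.Agent.H15.G1

variable {d : ℕ} {γ s C Ca cb ε : ℝ} {b : ℝ → ℝ}

private lemma geo_e1 (v w σ : Vec d) :
    post v w σ - v = (len (v - w) / 2) • σ - (1 / 2 : ℝ) • (v - w) := by
  unfold post
  funext i
  simp only [Pi.add_apply, Pi.sub_apply, Pi.smul_apply, smul_eq_mul]
  ring

private lemma geo_e2 (v w σ : Vec d) :
    v - post' v w σ = (len (v - w) / 2) • σ + (1 / 2 : ℝ) • (v - w) := by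
  unfold post'
  funext i
  simp only [Pi.add_apply, Pi.sub_apply, Pi.smul_apply, smul_eq_mul]
  ring

private lemma geo_dot (v w σ : Vec d) : dot σ (v - w) = len (v - w) * cosTh v w σ := by
  rcases eq_or_ne v w with rfl | h
  · have h0 : dot σ (v - v) = 0 := by simp [dot]
    have h1 : len (v - v) = 0 := by simp [len, nsq]
    rw [h0, h1, zero_mul]
  · have h1 : len (v - w) ≠ 0 := (len_pos (sub_ne_zero.2 h)).ne'
    unfold cosTh
    field_simp

private lemma geo_nsq (v w σ : Vec d) (hσ : nsq σ = 1) :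
    nsq (post v w σ - v) = nsq (v - w) * (1 - cosTh v w σ) / 2 ∧
    nsq (v - post' v w σ) = nsq (v - w) * (1 + cosTh v w σ) / 2 ∧
    dot (post v w σ - v) (v - post' v w σ) = 0 := by
  have hl := len_sq (v - w)
  have hd := geo_dot v w σ
  refine ⟨?_, ?_, ?_⟩
  · rw [geo_e1, nsq_sub, nsq_smul, nsq_smul, dot_smul, smul_dot, hσ, hd, ← hl]
    ring
  · rw [geo_e2, nsq_add, nsq_smul, nsq_smul, dot_smul, smul_dot, hσ, hd, ← hl]
    ring
  · rw [geo_e1, geo_e2, dot_add, dot_smul, dot_smul, dot_comm (_ - _) σ, dot_comm (_ - _) (v - w),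
      dot_sub, dot_sub, dot_smul, dot_smul, dot_smul, dot_smul, dot_self, dot_self,
      dot_comm (v - w) σ, hσ, hd, ← hl]
    ring

lemma geo_post {v w σ : Vec d} (hv : v ≠ w) (hσ : nsq σ = 1) (hc : 0 ≤ cosTh v w σ) :
    Geo v w (post v w σ) (post' v w σ) := by
  obtain ⟨h1, h2, h3⟩ := geo_nsq v w σ hσ
  have hn : 0 ≤ nsq (v - w) := sq_nonneg' _
  have hs : v + w = post v w σ + post' v w σ := by
    unfold post post'
    funext i
    simp only [Pi.add_apply, Pi.sub_apply, Pi.smul_apply, smul_eq_mul]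
    ring
  refine ⟨hv, hs, ?_, h3, ?_, ?_⟩
  · unfold post post'
    have e1 := nsq_add ((1 / 2 : ℝ) • (v + w)) ((len (v - w) / 2) • σ)
    have e2 := nsq_sub ((1 / 2 : ℝ) • (v + w)) ((len (v - w) / 2) • σ)
    rw [e1, e2, nsq_smul, nsq_smul, hσ, nsq_add v w]
    have e3 := nsq_sub v w
    have hl := len_sq (v - w)
    nlinarith
  · rw [h1, h2]
    nlinarith
  · rw [h1, h2]
    ring

lemma nsq_post_sub {v w σ : Vec d} (hσ : nsq σ = 1) :
    nsq (post v w σ - v) = nsq (v - w) * (1 - cosTh v w σ) / 2 := (geo_nsq v w σ hσ).1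

private lemma geo_sub {v w y z : Vec d} (h : Geo v w y z) : v - z = y - w := by
  have h1 := h.sum
  rw [sub_eq_sub_iff_add_eq_add, h1]

private lemma geo_nsq_sub {v w y z : Vec d} (h : Geo v w y z) : nsq (y - z) = nsq (v - w) := by
  have e : y - z = (y - v) + (v - z) := by abel
  rw [e, nsq_add, h.perp, ← h.tot]
  ring

private lemma geo_nsq_neg (u v : Vec d) : nsq (u - v) = nsq (v - u) := by
  rw [nsq_sub, nsq_sub, dot_comm u v]
  ring

private lemma geo_pos {v w y z : Vec d} (h : Geo v w y z) : 0 < nsq (v - z) := by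
  have h1 : 0 < nsq (v - w) := sq_pos_of_ne (sub_ne_zero.2 h.ne)
  have h2 := h.le
  have h3 := h.tot
  linarith

lemma Geo.symm {v w y z : Vec d} (h : Geo v w y z) : Geo y z v w := by
  have hs := geo_sub h
  have hd := geo_nsq_sub h
  have h1 : 0 < nsq (v - w) := sq_pos_of_ne (sub_ne_zero.2 h.ne)
  refine ⟨?_, h.sum.symm, h.en.symm, ?_, ?_, ?_⟩
  · rintro rfl
    have h2 : nsq (y - y) = 0 := by simp [nsq]
    rw [h2] at hd
    linarith
  · have e : v - y = (-1 : ℝ) • (y - v) := by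
      rw [neg_one_smul, neg_sub]
    rw [e, smul_dot, ← hs, h.perp, mul_zero]
  · rw [geo_nsq_neg v y, ← hs]
    exact h.le
  · rw [geo_nsq_neg v y, ← hs, hd]
    exact h.tot

/-- `z ≠ v` -/
lemma Geo.pos {v w y z : Vec d} (h : Geo v w y z) : 0 < nsq (v - z) ∧ v - z = y - w ∧ nsq (y - z) = nsq (v - w) := by
  exact ⟨geo_pos h, geo_sub h, geo_nsq_sub h⟩

lemma bt_neg_zero {x : ℝ} (hx : x < 0) : bt b ε x = 0 := bt_neg hx

/-- monotonicity; only the triples with `0 ≤ cos` matter -/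
theorem T3_mono (hd : 1 ≤ d) {Ψ Φ : Vec d → Vec d → Vec d → Vec d → ℝ≥0∞}
    (h : ∀ v w y z, Geo v w y z → Ψ v w y z ≤ Φ v w y z) : T3 γ b ε Ψ ≤ T3 γ b ε Φ := by
  unfold T3
  refine lintegral_mono_ae ?_
  filter_upwards [ae_good hd] with p hp
  by_cases hc : 0 ≤ cosTh p.1 p.2.1 p.2.2
  · exact mul_le_mul_right (h _ _ _ _ (geo_post hp.1 hp.2 hc)) _
  · rw [bt_neg_zero (not_le.1 hc), mul_zero, ENNReal.ofReal_zero, zero_mul, zero_mul]

end Pool.Agent.H15.G1
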