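import Pool.Agent.H15.G1.L.Geo

/-!
# Module Jlem: the invariance of `T3` under `(v,w) ↔ (v',w')`, linearity, slicing

`T3_J`: `coll_preserving` (H25/Kin/BMeas) with `coll p = (post, post', dirk v w)`: for `|σ| = 1`, `v ≠ w`, `y = post v w σ`, `z = post' v w σ`, `k = dirk v w`:
`post y z k = v`, `post' y z k = w`, `len (y-z) = len (v-w)`, `cosTh y z k = cosTh v w σ` (`dirk y z = σ`). `ae_good`. `MeasurePreserving.lintegral_comp`.
`T3_slice`: Tonelli (`lintegral_prod`).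
-/

set_option autoImplicit false

open MeasureTheory Set Filter Topology Pool.Agent.H25.Kin Pool.Agent.H82.BK Pool.Agent.H82.CM
open Pool.Agent.H48.PL Pool.Agent.H48.PI Pool.Agent.H48.PW Pool.Agent.H82.NT
open scoped ENNReal

namespace Pool.Agent.H15.G1

variable {d : ℕ} {γ s C Ca cb ε : ℝ} {b : ℝ → ℝ}

private lemma Jlem_meas (hb : Measurable b) {Ψ : Vec d → Vec d → Vec d → Vec d → ℝ≥0∞} (hΨ : Meas4 Ψ) :
    Measurable fun p : Vec d × Vec d × Vec d =>
      ENNReal.ofReal (len (p.1 - p.2.1) ^ γ * bt b ε (cosTh p.1 p.2.1 p.2.2)) *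
        Ψ p.1 p.2.1 (post p.1 p.2.1 p.2.2) (post' p.1 p.2.1 p.2.2) := by
  refine Measurable.mul ?_ ?_
  · exact ((measurable_lenpow γ).mul ((measurable_bt hb ε).comp measurable_cosTh)).ennreal_ofReal
  · have h : Measurable fun p : Vec d × Vec d × Vec d =>
        (p.1, p.2.1, post p.1 p.2.1 p.2.2, post' p.1 p.2.1 p.2.2) :=
      measurable_fst.prodMk ((measurable_fst.comp measurable_snd).prodMk
        ((continuous_post (d := d)).measurable.prodMk (continuous_post' (d := d)).measurable))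
    exact hΨ.comp h

theorem T3_J (H : Hyp d γ s b C Ca) (ε : ℝ) {Ψ : Vec d → Vec d → Vec d → Vec d → ℝ≥0∞} (hΨ : Meas4 Ψ) :
    T3 γ b ε Ψ = T3 γ b ε fun v w y z => Ψ y z v w := by
  have h1 := (coll_preserving (d := d) H.hd1).lintegral_comp
    (Jlem_meas (γ := γ) (ε := ε) H.bm hΨ)
  unfold T3
  rw [← h1]
  refine lintegral_congr_ae ?_
  filter_upwards [ae_good (d := d) H.hd1] with p hp
  obtain ⟨v, w, σ⟩ := p
  simp only [coll] at hp ⊢
  rw [len_post hp.2, cosTh_post hp.1 hp.2, post_post hp.1 hp.2, post'_post hp.1 hp.2]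

theorem T3_add (hb : Measurable b) {Ψ Φ : Vec d → Vec d → Vec d → Vec d → ℝ≥0∞} (hΨ : Meas4 Ψ) :
    (T3 γ b ε fun v w y z => Ψ v w y z + Φ v w y z) = T3 γ b ε Ψ + T3 γ b ε Φ := by
  unfold T3
  rw [← lintegral_add_left (Jlem_meas (γ := γ) (ε := ε) hb hΨ)]
  refine lintegral_congr fun p => ?_
  rw [mul_add]

theorem T3_mul (c : ℝ) (hc : 0 ≤ c) (Ψ : Vec d → Vec d → Vec d → Vec d → ℝ≥0∞) :
    (T3 γ b ε fun v w y z => ENNReal.ofReal c * Ψ v w y z) = ENNReal.ofReal c * T3 γ b ε Ψ := by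
  unfold T3
  rw [← lintegral_const_mul' _ _ ENNReal.ofReal_ne_top]
  refine lintegral_congr fun p => ?_
  ring

private lemma Jlem_prod {f : Vec d × Vec d × Vec d → ℝ≥0∞} (hf : Measurable f) :
    ∫⁻ p, f p ∂(mu3 d) = ∫⁻ v, ∫⁻ w, ∫⁻ σ, f (v, w, σ) ∂(surf d) := by
  rw [lintegral_prod f hf.aemeasurable]
  refine lintegral_congr fun v => ?_
  exact lintegral_prod (fun q : Vec d × Vec d => f (v, q)) (hf.comp measurable_prodMk_left).aemeasurable

theorem T3_slice (hb : Measurable b) {Ψ : Vec d → Vec d → Vec d → Vec d → ℝ≥0∞} (hΨ : Meas4 Ψ) :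
    T3 γ b ε Ψ = ∫⁻ v, ∫⁻ w, ∫⁻ σ, ENNReal.ofReal (len (v - w) ^ γ * bt b ε (cosTh v w σ)) *
      Ψ v w (post v w σ) (post' v w σ) ∂(surf d) :=
  Jlem_prod (Jlem_meas (γ := γ) (ε := ε) hb hΨ)

/-- loss type -/
theorem T3_loss (H : Hyp d γ s b C Ca) (hε : 0 < ε) {q k : Vec d → ℝ} {T : Vec d → Vec d → Vec d → ℝ}
    (hq : Measurable q) (hk : Measurable k) (hT : Measurable fun p : Vec d × Vec d × Vec d => T p.1 p.2.1 p.2.2)
    (hq0 : ∀ v, 0 ≤ q v) (hk0 : ∀ v, 0 ≤ k v) (hT0 : ∀ v w y, 0 ≤ T v w y) :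
    (T3 γ b ε fun v w y _ => ENNReal.ofReal (k w * (q v * T v w y))) =
      ∫⁻ v, ENNReal.ofReal (q v) * ∫⁻ w, ENNReal.ofReal (k w * len (v - w) ^ γ) *
        ∫⁻ σ, ENNReal.ofReal (bt b ε (cosTh v w σ) * T v w (post v w σ)) ∂(surf d) := by
  have hM : Meas4 (d := d) fun v w y _ => ENNReal.ofReal (k w * (q v * T v w y)) := by
    unfold Meas4
    refine Measurable.ennreal_ofReal ?_
    have h3 : Measurable fun q : Vec d × Vec d × Vec d × Vec d => (q.1, q.2.1, q.2.2.1) :=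
      measurable_fst.prodMk ((measurable_fst.comp measurable_snd).prodMk
        (measurable_fst.comp (measurable_snd.comp measurable_snd)))
    have h4 : Measurable fun q : Vec d × Vec d × Vec d × Vec d => T q.1 q.2.1 q.2.2.1 := hT.comp h3
    exact (hk.comp (measurable_fst.comp measurable_snd)).mul ((hq.comp measurable_fst).mul h4)
  rw [T3_slice H.bm hM]
  refine lintegral_congr fun v => ?_
  rw [← lintegral_const_mul' _ _ ENNReal.ofReal_ne_top]
  refine lintegral_congr fun w => ?_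
  rw [← mul_assoc, ← lintegral_const_mul' _ _ (ENNReal.mul_ne_top ENNReal.ofReal_ne_top
    ENNReal.ofReal_ne_top)]
  refine lintegral_congr fun σ => ?_
  have hl : 0 ≤ len (v - w) ^ γ := Real.rpow_nonneg (len_nonneg _) _
  rw [ENNReal.ofReal_mul hl, ENNReal.ofReal_mul (hk0 w), ENNReal.ofReal_mul (hq0 v),
    ENNReal.ofReal_mul (hk0 w), ENNReal.ofReal_mul' (hT0 v w _)]
  ring

end Pool.Agent.H15.G1
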