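import Pool.Agent.H15.G1.L.AnnLow
import Pool.Agent.H15.G1.L.Jlem
import Pool.Agent.H15.G1.L.LIm

/-!
# Module Hardy1: (L5), first step

`ρ = |v-u|`. On `HR c u v z` (`c ≤ c₁(Λ) ≤ 1`): `ρ < c|v-z|`, so `qC = (ρ²/|V|²)^(-s)` and `ann_low` (`128Λ²c² ≤ 1`; `ρ = 0` excluded by `ε nsq V ≤ ρ²`, `V ≠ 0`): `cH ≤ c₀⁻¹ Λ^(2s) ∫ bt 1[annulus]`.
`Gs v ≤ 2 (F v - F y)²/Wp v + 2 (F y)²/Wp v`, `F = g Wp`; `|y-v| ≤ 6Λc⟨v⟩` so `Wp y ≤ 2 Wp v` (c₁ small, depending on `p'`, `Λ`): `(F y)²/Wp v ≤ 2 Gs y`. `T3_loss`, then `T3_J` on both parts: the triple is now `(v,z,y)` with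
`|y-u| < c min(|y-z|, ⟨y⟩)`, `Λ|y-u| ≤ |y-v| ≤ 6Λ|y-u|`; `|y-z| = |v-w| ≤ √2 |v-z|`, `⟨y⟩ ≤ 2⟨v⟩`: `RetS Λ (2c)`. First part: `(z,y) ∈ RegS P.θ P.L v` (`nsq (y-v) < θ(1+nsq v)`, `θ ≤ 1/4`) and not `AS`
(`nsq (y-v) ≤ 72Λ²c² nsq (v-z) < τ²/64 nsq (v-z)`), so `kM = g z`: `≤ 16 LC` (`ω y ≤ 2 ≤ 4 ω v`). Second part `≤ 16 LR`.
-/

set_option autoImplicit false

open MeasureTheory Set Filter Topology Pool.Agent.H25.Kin Pool.Agent.H82.BK Pool.Agent.H82.CM
open Pool.Agent.H48.PL Pool.Agent.H48.PI Pool.Agent.H48.PW Pool.Agent.H82.NT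
open scoped ENNReal

namespace Pool.Agent.H15.G1

variable {d : ℕ} {γ s C Ca cb ε : ℝ} {b : ℝ → ℝ}

/-- the annulus and the Hardy region -/
private def h1S (Λ c : ℝ) (u : Vec d) : Set (Vec d × Vec d × Vec d) :=
  {q | HR c u q.1 q.2.1 ∧ Λ * len (q.1 - u) ≤ len (q.2.2 - q.1) ∧
    len (q.2.2 - q.1) ≤ 6 * Λ * len (q.1 - u)}

private noncomputable def h1T (Λ c : ℝ) (u v w y : Vec d) : ℝ :=
  (h1S Λ c u).indicator (fun _ => 1) (v, w, y)

private lemma h1S_meas (Λ c : ℝ) (u : Vec d) : MeasurableSet (h1S Λ c u) := by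
  have hv : Measurable fun q : Vec d × Vec d × Vec d => len (q.1 - u) :=
    (continuous_len.comp (continuous_fst.sub continuous_const)).measurable
  have hw : Measurable fun q : Vec d × Vec d × Vec d => len (q.1 - q.2.1) :=
    (continuous_len.comp (continuous_fst.sub (continuous_fst.comp continuous_snd))).measurable
  have hy : Measurable fun q : Vec d × Vec d × Vec d => len (q.2.2 - q.1) :=
    (continuous_len.comp ((continuous_snd.comp continuous_snd).sub continuous_fst)).measurable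
  have hj : Measurable fun q : Vec d × Vec d × Vec d => jb q.1 :=
    jb_cont.measurable.comp measurable_fst
  have a1 : MeasurableSet {q : Vec d × Vec d × Vec d | HR c u q.1 q.2.1} := by
    unfold HR
    exact measurableSet_lt hv (measurable_const.mul (hw.min hj))
  have a2 : MeasurableSet {q : Vec d × Vec d × Vec d | Λ * len (q.1 - u) ≤ len (q.2.2 - q.1)} :=
    measurableSet_le (measurable_const.mul hv) hy
  have a3 : MeasurableSet {q : Vec d × Vec d × Vec d | len (q.2.2 - q.1) ≤ 6 * Λ * len (q.1 - u)} :=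
    measurableSet_le hy (measurable_const.mul hv)
  exact a1.inter (a2.inter a3)

private lemma h1T_meas (Λ c : ℝ) (u : Vec d) :
    Measurable fun q : Vec d × Vec d × Vec d => h1T Λ c u q.1 q.2.1 q.2.2 := by
  unfold h1T
  exact measurable_const.indicator (h1S_meas Λ c u)

private lemma h1T_nn (Λ c : ℝ) (u v w y : Vec d) : 0 ≤ h1T Λ c u v w y :=
  Set.indicator_nonneg (fun _ _ => zero_le_one) _

open Classical in
/-- the annulus bounds `cH` -/
private lemma h1_one {c₀ Λ c : ℝ} (hΛ : 1 ≤ Λ) (hc : 0 < c) (hc1 : 128 * (Λ * c) ^ 2 ≤ 1) (hε : 0 < ε)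
    (hann : ∀ ρ : ℝ, 0 < ρ → ∀ v w : Vec d, v ≠ w → 128 * (Λ * ρ) ^ 2 ≤ nsq (v - w) →
      ε * nsq (v - w) ≤ ρ ^ 2 →
      ENNReal.ofReal (c₀ * Λ ^ (-(2 * s)) * (ρ ^ 2 / nsq (v - w)) ^ (-s)) ≤
        ∫⁻ σ, (if Λ * ρ ≤ len (post v w σ - v) ∧ len (post v w σ - v) ≤ 6 * Λ * ρ then
          ENNReal.ofReal (bt b ε (cosTh v w σ)) else 0) ∂(surf d))
    (u v w : Vec d) :
    ENNReal.ofReal (c₀ * Λ ^ (-(2 * s)) * cH s ε c u v w) ≤
      ∫⁻ σ, ENNReal.ofReal (bt b ε (cosTh v w σ) * h1T Λ c u v w (post v w σ)) ∂(surf d) := by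
  by_cases h : HR c u v w ∧ ε * nsq (v - w) ≤ nsq (v - u)
  · have hHR : len (v - u) < c * min (len (v - w)) (jb v) := h.1
    have h1 : len (v - u) < c * len (v - w) :=
      lt_of_lt_of_le hHR (mul_le_mul_of_nonneg_left (min_le_left _ _) hc.le)
    have hu0 := len_nonneg (v - u)
    have hw0 : 0 < len (v - w) := by
      by_contra hcon
      have : c * len (v - w) ≤ 0 := mul_nonpos_of_nonneg_of_nonpos hc.le (not_lt.1 hcon)
      linarith
    have hvw : v ≠ w := by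
      rintro rfl
      rw [sub_self, len_zero] at hw0
      exact lt_irrefl _ hw0
    have hV : 0 < nsq (v - w) := sq_pos_of_ne (sub_ne_zero.2 hvw)
    have h2 : ε * nsq (v - w) ≤ len (v - u) ^ 2 := by rw [len_sq]; exact h.2
    have hρ : 0 < len (v - u) := by
      rcases hu0.lt_or_eq with h3 | h3
      · exact h3
      · rw [← h3] at h2
        have := mul_pos hε hV
        nlinarith
    have h4 : len (v - u) ^ 2 ≤ c ^ 2 * nsq (v - w) := by
      rw [← len_sq (v - w), ← mul_pow]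
      exact pow_le_pow_left₀ hu0 h1.le 2
    have h5 : 128 * (Λ * len (v - u)) ^ 2 ≤ nsq (v - w) := by
      have h6 : (Λ * len (v - u)) ^ 2 ≤ (Λ * c) ^ 2 * nsq (v - w) := by
        rw [mul_pow, mul_pow, mul_assoc]
        exact mul_le_mul_of_nonneg_left h4 (sq_nonneg _)
      have h7 : 128 * ((Λ * c) ^ 2 * nsq (v - w)) ≤ 1 * nsq (v - w) := by
        rw [← mul_assoc]
        exact mul_le_mul_of_nonneg_right hc1 hV.le
      linarith
    have h8 := hann (len (v - u)) hρ v w hvw h5 h2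
    have hq1 : len (v - u) ^ 2 / nsq (v - w) ≤ 1 := by
      rw [div_le_one hV]
      have h9 : c ^ 2 ≤ 1 := by
        have h10 : c ^ 2 ≤ (Λ * c) ^ 2 := by
          refine pow_le_pow_left₀ hc.le ?_ 2
          nlinarith
        nlinarith [sq_nonneg (Λ * c)]
      nlinarith
    have hq2 : ε ≤ len (v - u) ^ 2 / nsq (v - w) := by
      rw [le_div_iff₀ hV]
      exact h2
    have e1 : cH s ε c u v w = (len (v - u) ^ 2 / nsq (v - w)) ^ (-s) := by
      unfold cH qC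
      rw [if_pos h, min_eq_right hq1, max_eq_right hq2]
    rw [e1]
    refine h8.trans (lintegral_mono fun σ => ?_)
    dsimp only
    split_ifs with h11
    · have e2 : h1T Λ c u v w (post v w σ) = 1 := by
        unfold h1T
        exact Set.indicator_of_mem (show (v, w, post v w σ) ∈ h1S Λ c u from ⟨h.1, h11⟩) _
      rw [e2, mul_one]
    · exact zero_le
  · have e1 : cH s ε c u v w = 0 := by
      unfold cH
      rw [if_neg h]
    rw [e1, mul_zero, ENNReal.ofReal_zero]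
    exact zero_le

/-- the splitting of `Gs` -/
private lemma h1_G {gv gy A B : ℝ} (hA : 0 < A) (hB : 0 < B) (hBA : B ≤ 2 * A) :
    gv ^ 2 * A ≤ 2 * ((gy * B - gv * A) ^ 2 / A) + 4 * (gy ^ 2 * B) := by
  have e1 : 2 * ((gy * B - gv * A) ^ 2 / A) + 4 * (gy ^ 2 * B) =
      (2 * (gy * B - gv * A) ^ 2 + 4 * gy ^ 2 * B * A) / A := by
    field_simp
  rw [e1, le_div_iff₀ hA]
  have h1 : gy ^ 2 * B * B ≤ gy ^ 2 * B * (2 * A) :=
    mul_le_mul_of_nonneg_left hBA (by positivity)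
  nlinarith [sq_nonneg (gv * A - 2 * (gy * B))]

/-- `Wp y ≤ 2 Wp v` -/
private lemma h1_Wp {Λ c : ℝ} (hΛ : 1 ≤ Λ) (hc : 0 < c) (p : ℕ)
    (hp : (1 + 6 * Λ * c) ^ (2 * p) ≤ 2) {u v w y : Vec d} (h : (v, w, y) ∈ h1S Λ c u) :
    Wp p y ≤ 2 * Wp p v := by
  obtain ⟨h1, -, h3⟩ := h
  have h1' : len (v - u) < c * min (len (v - w)) (jb v) := h1
  have h4 : len (v - u) ≤ c * jb v :=
    h1'.le.trans (mul_le_mul_of_nonneg_left (min_le_right _ _) hc.le)
  have h3' : len (y - v) ≤ 6 * Λ * len (v - u) := h3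
  have h5 : 6 * Λ * len (v - u) ≤ 6 * Λ * (c * jb v) := mul_le_mul_of_nonneg_left h4 (by linarith)
  have h6 := (abs_le.1 (jb_lip y v)).2
  have h7 : jb y ≤ (1 + 6 * Λ * c) * jb v := by linarith
  have h8 : jb y ^ (2 * p) ≤ ((1 + 6 * Λ * c) * jb v) ^ (2 * p) :=
    pow_le_pow_left₀ (jb_pos y).le h7 _
  unfold Wp
  rw [← jb_sq, ← jb_sq, ← pow_mul, ← pow_mul]
  rw [mul_pow] at h8
  refine h8.trans ?_
  have := jb_pos v
  exact mul_le_mul_of_nonneg_right hp (by positivity)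

private lemma h1_Gs {Λ c : ℝ} (hΛ : 1 ≤ Λ) (hc : 0 < c) (p : ℕ)
    (hp : (1 + 6 * Λ * c) ^ (2 * p) ≤ 2) (g : Vec d → ℝ) {u v w y : Vec d}
    (h : (v, w, y) ∈ h1S Λ c u) : Gs p g v ≤ 2 * dF p g y v + 4 * Gs p g y :=
  h1_G (Wp_pos p v) (Wp_pos p y) (h1_Wp hΛ hc p hp h)

/-- the geometry after the exchange -/
private lemma h1_exch (P : Lp) (hP : P.Ok) {Λ c : ℝ} (hΛ : 1 ≤ Λ) (hc : 0 < c) (h12 : 12 * Λ * c ≤ 1)
    (hθ : 144 * (Λ * c) ^ 2 < P.θ) (hτ : 72 * (Λ * c) ^ 2 ≤ P.τ ^ 2 / 64)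
    {u v w y z : Vec d} (hG : Geo v w y z) (h : (y, z, v) ∈ h1S Λ c u) :
    RetS Λ (2 * c) u v z y ∧ (z, y) ∈ RegS P.θ P.L v ∧ ¬ AS P v z y := by
  obtain ⟨h1, h2, h3⟩ := h
  simp only at h1 h2 h3
  have h1' : len (y - u) < c * min (len (y - z)) (jb y) := h1
  have hyv : nsq (v - y) = nsq (y - v) := by rw [← sq_neg, neg_sub]
  have hlyv : len (v - y) = len (y - v) := by unfold len; rw [hyv]
  rw [hlyv] at h2 h3
  have hpos := hG.pos
  have htot := hG.tot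
  have hle := hG.le
  have hu0 := len_nonneg (y - u)
  have ha : len (y - u) < c * len (y - z) :=
    lt_of_lt_of_le h1' (mul_le_mul_of_nonneg_left (min_le_left _ _) hc.le)
  have hb : len (y - u) < c * jb y :=
    lt_of_lt_of_le h1' (mul_le_mul_of_nonneg_left (min_le_right _ _) hc.le)
  have hΛc : 0 < Λ * c := mul_pos (by linarith) hc
  -- `⟨y⟩ ≤ 2 ⟨v⟩`
  have hjy := jb_pos y
  have hjv := jb_pos v
  have h4 : len (y - v) ≤ 1 / 2 * jb y := by
    have h5 : 6 * Λ * len (y - u) ≤ 6 * Λ * (c * jb y) :=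
      mul_le_mul_of_nonneg_left hb.le (by linarith)
    have h6 : 6 * Λ * (c * jb y) ≤ 1 / 2 * jb y := by
      have h7 : 6 * Λ * c ≤ 1 / 2 := by linarith
      calc 6 * Λ * (c * jb y) = (6 * Λ * c) * jb y := by ring
        _ ≤ 1 / 2 * jb y := mul_le_mul_of_nonneg_right h7 hjy.le
    linarith
  have h5 := (abs_le.1 (jb_lip y v)).2
  have h6 : jb y ≤ 2 * jb v := by linarith
  -- `|y-z| ≤ 2 |v-z|`
  have h7 : nsq (y - z) ≤ 2 * nsq (v - z) := by
    rw [hpos.2.2]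
    linarith
  have h8 : len (y - z) ≤ 2 * len (v - z) := by
    have h9 : len (y - z) ^ 2 ≤ (2 * len (v - z)) ^ 2 := by
      rw [mul_pow, len_sq, len_sq]
      linarith [hpos.1]
    exact le_of_sq_le_sq h9 (by have := len_nonneg (v - z); linarith)
  have hR : RetS Λ (2 * c) u v z y := by
    refine ⟨h2, h3, ?_⟩
    rcases le_total (len (v - z)) (jb v) with h9 | h9
    · rw [min_eq_left h9]
      have : c * len (y - z) ≤ c * (2 * len (v - z)) := mul_le_mul_of_nonneg_left h8 hc.le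
      linarith
    · rw [min_eq_right h9]
      have : c * jb y ≤ c * (2 * jb v) := mul_le_mul_of_nonneg_left h6 hc.le
      linarith
  -- the displacement
  have hd1 : nsq (y - v) ≤ 36 * Λ ^ 2 * nsq (y - u) := by
    rw [← len_sq (y - v), ← len_sq (y - u)]
    have := pow_le_pow_left₀ (len_nonneg (y - v)) h3 2
    calc len (y - v) ^ 2 ≤ (6 * Λ * len (y - u)) ^ 2 := this
      _ = 36 * Λ ^ 2 * len (y - u) ^ 2 := by ring
  have hΛ2 : 0 < 36 * Λ ^ 2 := by positivity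
  have hd2 : nsq (y - u) < c ^ 2 * nsq (y - z) := by
    rw [← len_sq (y - u), ← len_sq (y - z), ← mul_pow]
    exact pow_lt_pow_left₀ ha hu0 (by norm_num)
  have hd3 : nsq (y - u) ≤ c ^ 2 * (4 * (1 + nsq v)) := by
    rw [← len_sq (y - u)]
    have h9 : len (y - u) ≤ c * (2 * jb v) := hb.le.trans (mul_le_mul_of_nonneg_left h6 hc.le)
    have h10 := pow_le_pow_left₀ hu0 h9 2
    have h11 : (c * (2 * jb v)) ^ 2 = c ^ 2 * (4 * (1 + nsq v)) := by
      rw [← jb_sq]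
      ring
    rw [h11] at h10
    exact h10
  have hv : 0 ≤ nsq v := sq_nonneg' v
  have hreg : nsq (y - v) < P.θ * (1 + nsq v) := by
    calc nsq (y - v) ≤ 36 * Λ ^ 2 * nsq (y - u) := hd1
      _ ≤ 36 * Λ ^ 2 * (c ^ 2 * (4 * (1 + nsq v))) := mul_le_mul_of_nonneg_left hd3 hΛ2.le
      _ = 144 * (Λ * c) ^ 2 * (1 + nsq v) := by ring
      _ < P.θ * (1 + nsq v) := mul_lt_mul_of_pos_right hθ (by linarith)
  have hRg : (z, y) ∈ RegS P.θ P.L v := by
    have h4' : nsq (y - v) < (1 + nsq v) / 4 := by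
      have := hP.hθ1
      nlinarith
    refine ⟨fun hc' => ?_, fun hc' => ?_⟩
    · have := hc'.2
      simp only at this
      linarith
    · have := hc'.2
      simp only at this
      linarith
  have hAS : ¬ AS P v z y := by
    intro h9
    have h10 : P.τ ^ 2 / 64 * nsq (v - z) ≤ nsq (y - v) := h9.2.1
    have h11 : nsq (y - v) < P.τ ^ 2 / 64 * nsq (v - z) := by
      calc nsq (y - v) ≤ 36 * Λ ^ 2 * nsq (y - u) := hd1
        _ < 36 * Λ ^ 2 * (c ^ 2 * nsq (y - z)) := mul_lt_mul_of_pos_left hd2 hΛ2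
        _ ≤ 36 * Λ ^ 2 * (c ^ 2 * (2 * nsq (v - z))) := by gcongr
        _ = 72 * (Λ * c) ^ 2 * nsq (v - z) := by ring
        _ ≤ P.τ ^ 2 / 64 * nsq (v - z) := mul_le_mul_of_nonneg_right hτ hpos.1.le
    linarith
  exact ⟨hR, hRg, hAS⟩

private lemma h1_m1 (p : ℕ) (Λ c : ℝ) (u : Vec d) {g ω : Vec d → ℝ} (hg : Measurable g)
    (hω : Measurable ω) :
    Meas4 (d := d) fun v w y _ => ENNReal.ofReal (g w * ((ω v * (2 * dF p g y v + 4 * Gs p g y)) * h1T Λ c u v w y)) := by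
  unfold Meas4
  have h1 : Measurable fun q : Vec d × Vec d × Vec d × Vec d => q.1 := measurable_fst
  have h2 : Measurable fun q : Vec d × Vec d × Vec d × Vec d => q.2.1 :=
    measurable_fst.comp measurable_snd
  have h3 : Measurable fun q : Vec d × Vec d × Vec d × Vec d => q.2.2.1 :=
    measurable_fst.comp (measurable_snd.comp measurable_snd)
  have h5 : Measurable fun q : Vec d × Vec d × Vec d × Vec d => h1T Λ c u q.1 q.2.1 q.2.2.1 :=
    Measurable.comp (g := fun q : Vec d × Vec d × Vec d => h1T Λ c u q.1 q.2.1 q.2.2)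
      (f := fun q : Vec d × Vec d × Vec d × Vec d => (q.1, q.2.1, q.2.2.1))
      (h1T_meas Λ c u) (h1.prodMk (h2.prodMk h3))
  have h6 : Measurable fun q : Vec d × Vec d × Vec d × Vec d => dF p g q.2.2.1 q.1 :=
    Measurable.comp (g := fun q : Vec d × Vec d => dF p g q.1 q.2)
      (f := fun q : Vec d × Vec d × Vec d × Vec d => (q.2.2.1, q.1))
      (meas_dF p hg) (h3.prodMk h1)
  exact ((hg.comp h2).mul (((hω.comp h1).mul ((measurable_const.mul h6).add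
    (measurable_const.mul ((meas_Gs p hg).comp h3)))).mul h5)).ennreal_ofReal

private lemma h1_mC (P : Lp) {g g1 k ω : Vec d → ℝ} (p : ℕ) (hg : Measurable g) (hg1 : Measurable g1)
    (hk : Measurable k) (hω : Measurable ω) :
    Meas4 (d := d) fun v _ y z => ENNReal.ofReal (kM P g1 k v z y * (ω v * dF p g v y)) := by
  unfold Meas4
  have h1 : Measurable fun q : Vec d × Vec d × Vec d × Vec d => q.1 := measurable_fst
  have h3 : Measurable fun q : Vec d × Vec d × Vec d × Vec d => q.2.2.1 :=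
    measurable_fst.comp (measurable_snd.comp measurable_snd)
  have h4 : Measurable fun q : Vec d × Vec d × Vec d × Vec d => q.2.2.2 :=
    measurable_snd.comp (measurable_snd.comp measurable_snd)
  have h5 : Measurable fun q : Vec d × Vec d × Vec d × Vec d => kM P g1 k q.1 q.2.2.2 q.2.2.1 :=
    Measurable.comp (g := fun q : Vec d × Vec d × Vec d => kM P g1 k q.1 q.2.1 q.2.2)
      (f := fun q : Vec d × Vec d × Vec d × Vec d => (q.1, q.2.2.2, q.2.2.1))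
      (meas_kM P hg1 hk) (h1.prodMk (h4.prodMk h3))
  have h6 : Measurable fun q : Vec d × Vec d × Vec d × Vec d => dF p g q.1 q.2.2.1 :=
    Measurable.comp (g := fun q : Vec d × Vec d => dF p g q.1 q.2)
      (f := fun q : Vec d × Vec d × Vec d × Vec d => (q.1, q.2.2.1))
      (meas_dF p hg) (h1.prodMk h3)
  exact (h5.mul ((hω.comp h1).mul h6)).ennreal_ofReal

open Classical in
/-- the pointwise bound after the exchange -/
private lemma h1_pt (P : Lp) (hP : P.Ok) {Λ c : ℝ} (hΛ : 1 ≤ Λ) (hc : 0 < c) (h12 : 12 * Λ * c ≤ 1)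
    (hθ : 144 * (Λ * c) ^ 2 < P.θ) (hτ : 72 * (Λ * c) ^ 2 ≤ P.τ ^ 2 / 64) (p : ℕ)
    {g g1 ω : Vec d → ℝ} (D : Dat g g1 ω) {u v w y z : Vec d} (hG : Geo v w y z) :
    ENNReal.ofReal (g z * ((ω y * (2 * dF p g v y + 4 * Gs p g v)) * h1T Λ c u y z v)) ≤
      ENNReal.ofReal 16 * (ENNReal.ofReal (kM P g1 (gR g g1) v z y * (ω v * dF p g v y)) +
        if RetS Λ (2 * c) u v z y then ENNReal.ofReal (g z * (ω v * Gs p g v)) else 0) := by
  by_cases h : (y, z, v) ∈ h1S Λ c u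
  · obtain ⟨hR, hRg, hAS⟩ := h1_exch P hP hΛ hc h12 hθ hτ hG h
    have e1 : h1T Λ c u y z v = 1 := by
      unfold h1T
      exact Set.indicator_of_mem h _
    have e2 : kM P g1 (gR g g1) v z y = g z := by
      unfold kM gR
      rw [if_pos hRg, if_neg hAS]
      ring
    rw [if_pos hR, e1, e2, mul_one]
    have hg := D.g0 z
    have hω : ω y ≤ 4 * ω v := by linarith [D.ωl v, D.ωu y]
    have hω0 : 0 ≤ ω v := by linarith [D.ωl v]
    have hdF : 0 ≤ dF p g v y := by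
      unfold dF
      have := Wp_pos p y
      positivity
    have hGs := Gs_nonneg p g v
    rw [← ENNReal.ofReal_add (mul_nonneg hg (mul_nonneg hω0 hdF)) (mul_nonneg hg (mul_nonneg hω0 hGs)),
      ← ENNReal.ofReal_mul (by norm_num)]
    refine ENNReal.ofReal_le_ofReal ?_
    have h1 : ω y * (2 * dF p g v y + 4 * Gs p g v) ≤ 4 * ω v * (2 * dF p g v y + 4 * Gs p g v) :=
      mul_le_mul_of_nonneg_right hω (by positivity)
    have h2 : 0 ≤ ω v * dF p g v y := mul_nonneg hω0 hdF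
    have h3 : ω y * (2 * dF p g v y + 4 * Gs p g v) ≤ 16 * (ω v * dF p g v y + ω v * Gs p g v) := by
      linarith
    calc g z * (ω y * (2 * dF p g v y + 4 * Gs p g v))
        ≤ g z * (16 * (ω v * dF p g v y + ω v * Gs p g v)) := mul_le_mul_of_nonneg_left h3 hg
      _ = 16 * (g z * (ω v * dF p g v y) + g z * (ω v * Gs p g v)) := by ring
  · have e1 : h1T Λ c u y z v = 0 := by
      unfold h1T
      exact Set.indicator_of_notMem h _
    rw [e1, mul_zero, mul_zero, ENNReal.ofReal_zero]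
    exact zero_le

theorem hardy_1 (HL : HypL d γ s b C Ca cb) (hγ : 0 ≤ γ) (P : Lp) (hP : P.Ok) : ∃ K : ℝ, 0 ≤ K ∧ ∀ Λ : ℝ, 2 ≤ Λ →
    ∃ c₁ : ℝ, 0 < c₁ ∧ c₁ ≤ 1 ∧ ∀ c : ℝ, 0 < c → c ≤ c₁ → ∀ ε : ℝ, 0 < ε → ε ≤ 1 → ∀ g g1 ω : Vec d → ℝ, Dat g g1 ω →
      ∀ u : Vec d, LI γ (2 * P.p') g g ω (cH s ε c u) ≤ ENNReal.ofReal (K * Λ ^ (2 * s)) *
        (LC γ b ε P g g1 (gR g g1) ω + LR γ b ε P g ω Λ (2 * c) u) := by
  classical
  have _ := hγ
  obtain ⟨c₀, hc₀, hann⟩ := ann_low HL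
  have H := HL.H
  refine ⟨c₀⁻¹ * 16, by positivity, fun Λ hΛ2 => ?_⟩
  have hΛ : 1 ≤ Λ := by linarith
  have hΛ0 : 0 < Λ := by linarith
  have hθ := hP.hθ
  have hθ1 := hP.hθ1
  have hτ := hP.hτ
  have hτ1 := hP.hτ1
  -- the choice of `c₁`
  set n : ℕ := 2 * (2 * P.p') with hn
  have hn0 : (0 : ℝ) < n := by
    have := hP.hp
    have h1 : 0 < n := by omega
    exact_mod_cast h1
  have hn1 : (1 : ℝ) ≤ n := by
    have := hP.hp
    have h1 : 1 ≤ n := by omega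
    exact_mod_cast h1
  set c₁ : ℝ := P.θ * P.τ / (72 * Λ * n) with hc₁
  have hc₁0 : 0 < c₁ := by positivity
  have hΛc₁ : Λ * c₁ = P.θ * P.τ / (72 * n) := by
    rw [hc₁]
    field_simp
  have hk0 : 0 < P.θ * P.τ := mul_pos hθ hτ
  have hk1 : P.θ * P.τ ≤ 1 / 16 := by nlinarith
  have hb1 : Λ * c₁ ≤ P.θ * P.τ / 72 := by
    rw [hΛc₁]
    exact div_le_div_of_nonneg_left hk0.le (by norm_num) (by linarith)
  refine ⟨c₁, hc₁0, ?_, fun c hc hcc ε hε hε1 g g1 ω D u => ?_⟩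
  · have h1 : c₁ ≤ Λ * c₁ := by nlinarith
    linarith
  have hΛc : Λ * c ≤ Λ * c₁ := mul_le_mul_of_nonneg_left hcc hΛ0.le
  have hΛc0 : 0 < Λ * c := mul_pos hΛ0 hc
  have hx : Λ * c ≤ P.θ * P.τ / 72 := hΛc.trans hb1
  have h12 : 12 * Λ * c ≤ 1 := by nlinarith
  have hxsq : (Λ * c) ^ 2 ≤ (P.θ * P.τ / 72) ^ 2 := pow_le_pow_left₀ hΛc0.le hx 2
  have h128 : 128 * (Λ * c) ^ 2 ≤ 1 := by nlinarith
  have hθc : 144 * (Λ * c) ^ 2 < P.θ := by
    have h1 : 144 * (P.θ * P.τ / 72) ^ 2 = P.θ * (P.θ * P.τ ^ 2 / 36) := by ring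
    have h2 : P.θ * P.τ ^ 2 / 36 < 1 := by
      have : P.θ * P.τ ^ 2 ≤ 1 := by nlinarith
      linarith
    have h3 : P.θ * (P.θ * P.τ ^ 2 / 36) < P.θ * 1 := mul_lt_mul_of_pos_left h2 hθ
    linarith
  have hτc : 72 * (Λ * c) ^ 2 ≤ P.τ ^ 2 / 64 := by
    have h1 : 72 * (P.θ * P.τ / 72) ^ 2 = P.τ ^ 2 * (P.θ ^ 2 / 72) := by ring
    have h2 : P.θ ^ 2 / 72 ≤ 1 / 64 := by nlinarith
    have h3 : P.τ ^ 2 * (P.θ ^ 2 / 72) ≤ P.τ ^ 2 * (1 / 64) := mul_le_mul_of_nonneg_left h2 (sq_nonneg _)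
    linarith
  have hp : (1 + 6 * Λ * c) ^ (2 * (2 * P.p')) ≤ 2 := by
    rw [← hn]
    have h1 : 1 + 6 * Λ * c ≤ Real.exp (6 * Λ * c) := by
      have := Real.add_one_le_exp (6 * Λ * c)
      linarith
    have h2 : (1 + 6 * Λ * c) ^ n ≤ Real.exp (6 * Λ * c) ^ n :=
      pow_le_pow_left₀ (by positivity) h1 n
    have h3 : Real.exp (6 * Λ * c) ^ n = Real.exp (n * (6 * Λ * c)) := by
      rw [← Real.exp_nat_mul]
    have h4 : n * (6 * Λ * c) ≤ 1 / 2 := by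
      have h5 : Λ * c ≤ P.θ * P.τ / (72 * n) := hΛc.trans hΛc₁.le
      have h6 : n * (P.θ * P.τ / (72 * n)) = P.θ * P.τ / 72 := by
        field_simp
      have h7 : (n : ℝ) * (Λ * c) ≤ n * (P.θ * P.τ / (72 * n)) := mul_le_mul_of_nonneg_left h5 hn0.le
      rw [h6] at h7
      calc (n : ℝ) * (6 * Λ * c) = 6 * (n * (Λ * c)) := by ring
        _ ≤ 6 * (P.θ * P.τ / 72) := by linarith
        _ ≤ 1 / 2 := by linarith
    have h8 : Real.exp (n * (6 * Λ * c)) ≤ 2 := by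
      have h9 : Real.exp (n * (6 * Λ * c)) ≤ Real.exp (Real.log 2) :=
        Real.exp_le_exp.2 (h4.trans (by have := Real.log_two_gt_d9; linarith))
      rwa [Real.exp_log (by norm_num)] at h9
    rw [h3] at h2
    exact h2.trans h8
  have hgm : Measurable g := D.nice.cont.measurable
  have hkm : Measurable (gR g g1) := hgm.sub D.m1
  have hωm : Measurable ω := D.ωc.measurable
  have hω0 : ∀ v, 0 ≤ ω v := fun v => by linarith [D.ωl v]
  have hq : Measurable fun v => ω v * Gs (2 * P.p') g v := hωm.mul (meas_Gs _ hgm)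
  have hq0 : ∀ v, 0 ≤ ω v * Gs (2 * P.p') g v := fun v => mul_nonneg (hω0 v) (Gs_nonneg _ g v)
  -- step 1
  have hB0 : 0 < c₀ * Λ ^ (-(2 * s)) := mul_pos hc₀ (Real.rpow_pos_of_pos hΛ0 _)
  have s1 : LI γ (2 * P.p') g g ω (fun v z => c₀ * Λ ^ (-(2 * s)) * cH s ε c u v z) ≤
      T3 γ b ε fun v w y _ => ENNReal.ofReal (g w * ((ω v * Gs (2 * P.p') g v) * h1T Λ c u v w y)) := by
    rw [T3_loss H hε (T := h1T Λ c u) hq hgm (h1T_meas Λ c u) hq0 D.g0 (fun v w y => h1T_nn Λ c u v w y)]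
    unfold LI
    refine lintegral_mono fun v => mul_le_mul le_rfl (lintegral_mono fun w => ?_) zero_le zero_le
    dsimp only
    have hlk : 0 ≤ g w * len (v - w) ^ γ := mul_nonneg (D.g0 w) (Real.rpow_nonneg (len_nonneg _) γ)
    rw [ENNReal.ofReal_mul hlk]
    exact mul_le_mul le_rfl (h1_one hΛ hc h128 hε
      (fun ρ hρ v w => hann ε ρ Λ hε hρ hΛ v w) u v w) zero_le zero_le
  -- step 2
  have s2 : (T3 γ b ε fun v w y _ => ENNReal.ofReal (g w * ((ω v * Gs (2 * P.p') g v) * h1T Λ c u v w y))) ≤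
      T3 γ b ε fun v w y _ => ENNReal.ofReal (g w * ((ω v *
        (2 * dF (2 * P.p') g y v + 4 * Gs (2 * P.p') g y)) * h1T Λ c u v w y)) := by
    refine T3_mono H.hd1 fun v w y z _ => ENNReal.ofReal_le_ofReal ?_
    refine mul_le_mul_of_nonneg_left ?_ (D.g0 w)
    by_cases h : (v, w, y) ∈ h1S Λ c u
    · exact mul_le_mul_of_nonneg_right (mul_le_mul_of_nonneg_left
        (h1_Gs hΛ hc (2 * P.p') hp g h) (hω0 v)) (h1T_nn Λ c u v w y)
    · have e1 : h1T Λ c u v w y = 0 := by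
        unfold h1T
        exact Set.indicator_of_notMem h _
      rw [e1, mul_zero, mul_zero]
  -- step 3
  have s3 := T3_J (γ := γ) (b := b) H ε (h1_m1 (2 * P.p') Λ c u hgm hωm)
  have s4 : (T3 γ b ε fun v w y z => ENNReal.ofReal (g z * ((ω y *
        (2 * dF (2 * P.p') g v y + 4 * Gs (2 * P.p') g v)) * h1T Λ c u y z v))) ≤
      ENNReal.ofReal 16 * (LC γ b ε P g g1 (gR g g1) ω + LR γ b ε P g ω Λ (2 * c) u) := by
    unfold LC LR
    rw [← T3_add H.bm (h1_mC P (2 * P.p') hgm D.m1 hkm hωm), ← T3_mul 16 (by norm_num)]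
    exact T3_mono H.hd1 fun v w y z hG => h1_pt P hP hΛ hc h12 hθc hτc (2 * P.p') D hG
  have s5 : LI γ (2 * P.p') g g ω (fun v z => c₀ * Λ ^ (-(2 * s)) * cH s ε c u v z) ≤
      ENNReal.ofReal 16 * (LC γ b ε P g g1 (gR g g1) ω + LR γ b ε P g ω Λ (2 * c) u) :=
    s1.trans (s2.trans (s3.le.trans s4))
  rw [LI_mul hB0.le] at s5
  have hA : 0 ≤ c₀⁻¹ * Λ ^ (2 * s) := by positivity
  have e5 : c₀⁻¹ * Λ ^ (2 * s) * (c₀ * Λ ^ (-(2 * s))) = 1 := by
    rw [Real.rpow_neg hΛ0.le]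
    have : Λ ^ (2 * s) ≠ 0 := (Real.rpow_pos_of_pos hΛ0 _).ne'
    field_simp
  calc LI γ (2 * P.p') g g ω (cH s ε c u)
      = ENNReal.ofReal (c₀⁻¹ * Λ ^ (2 * s) * (c₀ * Λ ^ (-(2 * s)))) *
          LI γ (2 * P.p') g g ω (cH s ε c u) := by
        rw [e5, ENNReal.ofReal_one, one_mul]
    _ = ENNReal.ofReal (c₀⁻¹ * Λ ^ (2 * s)) * (ENNReal.ofReal (c₀ * Λ ^ (-(2 * s))) *
          LI γ (2 * P.p') g g ω (cH s ε c u)) := by
        rw [ENNReal.ofReal_mul hA, mul_assoc]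
    _ ≤ ENNReal.ofReal (c₀⁻¹ * Λ ^ (2 * s)) * (ENNReal.ofReal 16 *
          (LC γ b ε P g g1 (gR g g1) ω + LR γ b ε P g ω Λ (2 * c) u)) :=
        mul_le_mul le_rfl s5 zero_le zero_le
    _ = ENNReal.ofReal (c₀⁻¹ * 16 * Λ ^ (2 * s)) *
          (LC γ b ε P g g1 (gR g g1) ω + LR γ b ε P g ω Λ (2 * c) u) := by
        rw [← mul_assoc, ← ENNReal.ofReal_mul hA]
        congr 2
        ring

end Pool.Agent.H15.G1
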