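import Pool.Agent.H15.G1.L.RetUp
import Pool.Agent.H15.G1.L.Car
import Pool.Agent.H15.G1.L.LIm

/-!
# Module Hardy2: (L5), the returned mass

`T3_carF` with `T = 1_RetS`, `ret_up`: inner integral `≤ K Λ^(-(d-1)) max(ε, ρ²/|m|²)^(-s)` and it vanishes unless `ρ = |v-u| ≤ |v-y|+|y-u| < (6Λ+1) 2c min(|m|, ⟨v⟩)`. Case `HR c u v z`: `= K Λ^(-(d-1)) qC` (`ρ < c|m| ≤ |m|`, `c ≤ 1`).
Otherwise `ρ ≥ c min(|m|, ⟨v⟩)`: `ρ ≥ c|m|`: `max(..)^(-s) ≤ c^(-2s)`; `ρ ≥ c⟨v⟩`: fast partner (`cF = 1`): `max(ε, c²⟨v⟩²/|m|²)^(-s) ≤ C(c,θ) mF`; not fast: `|m|² ≤ (2+2L')⟨v⟩²`: constant. So `≤ K₁ cB`. Points `v = u` are a null set.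
-/

set_option autoImplicit false

open MeasureTheory Set Filter Topology Pool.Agent.H25.Kin Pool.Agent.H82.BK Pool.Agent.H82.CM
open Pool.Agent.H48.PL Pool.Agent.H48.PI Pool.Agent.H48.PW Pool.Agent.H82.NT
open scoped ENNReal

namespace Pool.Agent.H15.G1

variable {d : ℕ} {γ s C Ca cb ε : ℝ} {b : ℝ → ℝ}

private lemma hardy2_jb_sq (v : Vec d) : jb v ^ 2 = 1 + nsq v := by
  unfold jb
  exact Real.sq_sqrt (by have := sq_nonneg' v; linarith)

private lemma hardy2_nsq_sub (v z : Vec d) : nsq (v - z) ≤ 2 * nsq v + 2 * nsq z := by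
  unfold nsq
  rw [Finset.mul_sum, Finset.mul_sum, ← Finset.sum_add_distrib]
  refine Finset.sum_le_sum fun i _ => ?_
  have : (v - z) i = v i - z i := rfl
  rw [this]
  nlinarith [sq_nonneg (v i + z i)]

/-- the power of the maximum -/
private lemma hardy2_pow {s a x y : ℝ} (hs : 0 ≤ s) (ha : 0 < a) (hy : 0 < y) (h : a * y ≤ x) :
    x ^ (-s) ≤ a ^ (-s) * y ^ (-s) := by
  rw [← Real.mul_rpow ha.le hy.le]
  exact Real.rpow_le_rpow_of_nonpos (mul_pos ha hy) h (by linarith)

/-- pointwise bound -/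
private lemma hardy2_pt (P : Lp) (hP : P.Ok) {s c ε : ℝ} (hs : 0 ≤ s) (hc : 0 < c) (hc1 : c ≤ 1)
    (hε : 0 < ε) (u v z : Vec d) (hvz : v ≠ z) :
    max ε (nsq (v - u) / nsq (v - z)) ^ (-s) ≤
      cG s ε c u v z + (c ^ 2 / (2 + 2 * P.L')) ^ (-s) * cB P s ε v z := by
  have hL := hP.hL34
  have hθ := hP.hθ
  have hθ1 := hP.hθ1
  have hm : 0 < nsq (v - z) := sq_pos_of_ne (sub_ne_zero.2 hvz)
  have hv : 0 ≤ nsq v := sq_nonneg' v
  have hu : 0 ≤ nsq (v - u) := sq_nonneg' _
  have hD : 0 < 2 + 2 * P.L' := by linarith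
  set a := c ^ 2 / (2 + 2 * P.L') with ha
  have hc2 : 0 < c ^ 2 := by positivity
  have hc21 : c ^ 2 ≤ 1 := by nlinarith
  have ha0 : 0 < a := by positivity
  have haD : a * (2 + 2 * P.L') = c ^ 2 := by rw [ha]; field_simp
  have hac : a ≤ c ^ 2 := by nlinarith
  have ha1 : a ≤ 1 := hac.trans hc21
  have hmF := mF_bd P hs hε v z
  have hcF := c_nonneg P v z
  have hap : 0 ≤ a ^ (-s) := Real.rpow_nonneg ha0.le _
  have hcB1 : 1 ≤ cB P s ε v z := by
    unfold cB
    have := mul_nonneg hmF.1 hcF.2.2.1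
    linarith
  have hq := qC_bd hs hε (len (v - u)) v z
  have hcG0 : 0 ≤ cG s ε c u v z := by
    unfold cG
    split_ifs
    · exact hq.1
    · exact le_rfl
  have hX0 : 0 < max ε (nsq (v - u) / nsq (v - z)) := lt_of_lt_of_le hε (le_max_left _ _)
  by_cases hHR : HR c u v z
  · have h1 : len (v - u) < c * len (v - z) :=
      lt_of_lt_of_le hHR (mul_le_mul_of_nonneg_left (min_le_left _ _) hc.le)
    have h2 : nsq (v - u) ≤ nsq (v - z) := by
      rw [← len_sq (v - u), ← len_sq (v - z)]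
      have h3 := len_nonneg (v - u)
      have h4 := len_nonneg (v - z)
      have h5 : len (v - u) ≤ len (v - z) := by nlinarith
      exact pow_le_pow_left₀ h3 h5 2
    have h3 : nsq (v - u) / nsq (v - z) ≤ 1 := by
      rw [div_le_one hm]; exact h2
    have h4 : cG s ε c u v z = max ε (nsq (v - u) / nsq (v - z)) ^ (-s) := by
      unfold cG qC
      rw [if_pos hHR, len_sq, min_eq_right h3]
    rw [h4]
    have h5 : 0 ≤ a ^ (-s) * cB P s ε v z := mul_nonneg hap (by linarith)
    linarith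
  · have h1 : c * min (len (v - z)) (jb v) ≤ len (v - u) := not_lt.1 hHR
    have key : max ε (nsq (v - u) / nsq (v - z)) ^ (-s) ≤ a ^ (-s) * cB P s ε v z := by
      rcases le_or_gt (len (v - z)) (jb v) with h2 | h2
      · rw [min_eq_left h2] at h1
        have h3 : c ^ 2 * nsq (v - z) ≤ nsq (v - u) := by
          rw [← len_sq (v - u), ← len_sq (v - z), ← mul_pow]
          exact pow_le_pow_left₀ (mul_nonneg hc.le (len_nonneg _)) h1 2
        have h4 : a * 1 ≤ max ε (nsq (v - u) / nsq (v - z)) := by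
          rw [mul_one]
          refine le_trans ?_ (le_max_right _ _)
          rw [le_div_iff₀ hm]
          nlinarith
        refine (hardy2_pow hs ha0 one_pos h4).trans ?_
        rw [Real.one_rpow]
        exact mul_le_mul_of_nonneg_left hcB1 hap
      · rw [min_eq_right h2.le] at h1
        have h3 : c ^ 2 * (1 + nsq v) ≤ nsq (v - u) := by
          rw [← len_sq (v - u), ← hardy2_jb_sq, ← mul_pow]
          exact pow_le_pow_left₀ (mul_nonneg hc.le (Real.sqrt_nonneg _)) h1 2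
        by_cases hF : FastR P v z
        · have h5 : P.θ / (nsq (v - z) / (1 + nsq v)) = P.θ * (1 + nsq v) / nsq (v - z) := by
            field_simp
          have h6 : a * max (P.θ / (nsq (v - z) / (1 + nsq v))) ε ≤
              max ε (nsq (v - u) / nsq (v - z)) := by
            rw [mul_max_of_nonneg _ _ ha0.le]
            refine max_le ?_ ?_
            · refine le_trans ?_ (le_max_right _ _)
              rw [h5, ← mul_div_assoc]
              refine (div_le_div_iff_of_pos_right hm).2 ?_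
              refine le_trans ?_ h3
              rw [← mul_assoc]
              refine mul_le_mul_of_nonneg_right ?_ (by linarith)
              nlinarith
            · refine le_trans ?_ (le_max_left _ _)
              nlinarith
          have h7 : 0 < max (P.θ / (nsq (v - z) / (1 + nsq v))) ε := lt_of_lt_of_le hε (le_max_right _ _)
          refine (hardy2_pow hs ha0 h7 h6).trans ?_
          refine mul_le_mul_of_nonneg_left ?_ hap
          unfold cB cF
          rw [if_pos hF, mul_one]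
          unfold mF
          linarith
        · have h5 : nsq z ≤ P.L' * (1 + nsq v) := not_lt.1 hF
          have h6 := hardy2_nsq_sub v z
          have h4 : a * 1 ≤ max ε (nsq (v - u) / nsq (v - z)) := by
            rw [mul_one]
            refine le_trans ?_ (le_max_right _ _)
            rw [le_div_iff₀ hm]
            have h7 : nsq (v - z) ≤ (2 + 2 * P.L') * (1 + nsq v) := by nlinarith
            calc a * nsq (v - z) ≤ a * ((2 + 2 * P.L') * (1 + nsq v)) :=
                  mul_le_mul_of_nonneg_left h7 ha0.le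
              _ = c ^ 2 * (1 + nsq v) := by rw [← mul_assoc, haD]
              _ ≤ nsq (v - u) := h3
          refine (hardy2_pow hs ha0 one_pos h4).trans ?_
          rw [Real.one_rpow]
          exact mul_le_mul_of_nonneg_left hcB1 hap
    linarith

open Classical in
/-- the indicator of `RetS` -/
private noncomputable def hardy2_T (Λ c : ℝ) (u v z y : Vec d) : ℝ := if RetS Λ c u v z y then 1 else 0

private lemma hardy2_T_meas (Λ c : ℝ) (u : Vec d) :
    Measurable fun p : Vec d × Vec d × Vec d => hardy2_T Λ c u p.1 p.2.1 p.2.2 := by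
  classical
  have h1 : Measurable fun p : Vec d × Vec d × Vec d =>
      (((u, p.1), (p.2.1, p.2.2)) : (Vec d × Vec d) × (Vec d × Vec d)) :=
    (measurable_const.prodMk measurable_fst).prodMk (measurable_snd.fst.prodMk measurable_snd.snd)
  have h2 : MeasurableSet {p : Vec d × Vec d × Vec d | RetS Λ c u p.1 p.2.1 p.2.2} :=
    (meas_ret (d := d) Λ c).preimage h1
  unfold hardy2_T
  exact Measurable.ite h2 measurable_const measurable_const

private lemma hardy2_LR (P : Lp) (g ω : Vec d → ℝ) (Λ c : ℝ) (u : Vec d) :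
    LR γ b ε P g ω Λ c u = T3 γ b ε fun v _ y z =>
      ENNReal.ofReal (g z * ((ω v * Gs (2 * P.p') g v) * hardy2_T Λ c u v z y)) := by
  unfold LR
  congr 1
  funext v w y z
  unfold hardy2_T
  split_ifs
  · rw [mul_one]
  · rw [mul_zero, mul_zero, ENNReal.ofReal_zero]

theorem hardy_2 (H : Hyp d γ s b C Ca) (hγ : 0 ≤ γ) (P : Lp) (hP : P.Ok) : ∃ K : ℝ, 0 ≤ K ∧ ∀ Λ : ℝ, 2 ≤ Λ →
    ∀ c : ℝ, 0 < c → c ≤ 1 → ∃ K₁ : ℝ, 0 ≤ K₁ ∧ ∀ ε : ℝ, 0 < ε → ε ≤ 1 → ∀ g g1 ω : Vec d → ℝ, Dat g g1 ω → ∀ u : Vec d,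
      LR γ b ε P g ω Λ (2 * c) u ≤ ENNReal.ofReal (K * Λ ^ (-((d : ℝ) - 1))) * LI γ (2 * P.p') g g ω (cG s ε c u) +
        ENNReal.ofReal K₁ * LI γ (2 * P.p') g g ω (cB P s ε) := by
  classical
  obtain ⟨K, hK, hret⟩ := ret_up H
  refine ⟨K, hK, fun Λ hΛ c hc hc1 => ?_⟩
  have hΛ0 : 0 < Λ := by linarith
  have hA : 0 ≤ K * Λ ^ (-((d : ℝ) - 1)) := mul_nonneg hK (Real.rpow_nonneg hΛ0.le _)
  have hL := hP.hL34
  have hB : 0 ≤ (c ^ 2 / (2 + 2 * P.L')) ^ (-s) :=
    Real.rpow_nonneg (div_nonneg (by positivity) (by linarith)) _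
  refine ⟨K * Λ ^ (-((d : ℝ) - 1)) * (c ^ 2 / (2 + 2 * P.L')) ^ (-s), mul_nonneg hA hB,
    fun ε hε hε1 g g1 ω D u => ?_⟩
  set A := K * Λ ^ (-((d : ℝ) - 1)) with hAdef
  set B := (c ^ 2 / (2 + 2 * P.L')) ^ (-s) with hBdef
  have hs : 0 ≤ s := H.hs.le
  have hgm : Measurable g := D.nice.cont.measurable
  have hωm : Measurable ω := D.ωc.measurable
  have hω0 : ∀ v, 0 ≤ ω v := fun v => by have := D.ωl v; linarith
  have hq0 : ∀ v, 0 ≤ ω v * Gs (2 * P.p') g v := fun v => mul_nonneg (hω0 v) (Gs_nonneg _ _ _)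
  have : Nonempty (Fin d) := ⟨⟨0, by have := H.hd; omega⟩⟩
  have hmG : Measurable fun q : Vec d × Vec d => A * cG s ε c u q.1 q.2 := by
    refine measurable_const.mul ?_
    exact (meas_cG (d := d) s ε c).comp (measurable_const.prodMk (measurable_fst.prodMk measurable_snd))
  have hmB : Measurable fun q : Vec d × Vec d => A * B * cB P s ε q.1 q.2 :=
    measurable_const.mul (meas_cB P s ε)
  have hG0 : ∀ v z : Vec d, 0 ≤ cG s ε c u v z := fun v z => by
    unfold cG
    split_ifs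
    · exact (qC_bd hs hε _ v z).1
    · exact le_rfl
  have hB0 : ∀ v z : Vec d, 0 ≤ cB P s ε v z := fun v z => by
    unfold cB
    have := mul_nonneg (mF_bd P hs hε v z).1 (c_nonneg P v z).2.2.1
    linarith
  have e1 : ENNReal.ofReal A * LI γ (2 * P.p') g g ω (cG s ε c u) +
      ENNReal.ofReal (A * B) * LI γ (2 * P.p') g g ω (cB P s ε) =
      LI γ (2 * P.p') g g ω (fun v z => A * cG s ε c u v z + A * B * cB P s ε v z) := by
    rw [LI_add hgm hgm hωm hmG hmB D.g0 (fun v z => mul_nonneg hA (hG0 v z))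
      (fun v z => mul_nonneg (mul_nonneg hA hB) (hB0 v z)), LI_mul hA, LI_mul (mul_nonneg hA hB)]
  have hqm : Measurable fun v : Vec d => ω v * Gs (2 * P.p') g v := hωm.mul (meas_Gs _ hgm)
  rw [e1, hardy2_LR, T3_carF H hε hqm hgm (hardy2_T_meas Λ (2 * c) u) hq0 D.g0
    (fun v z y => by unfold hardy2_T; split_ifs <;> norm_num)]
  unfold LI
  refine lintegral_mono_ae ?_
  have hu : ∀ᵐ v : Vec d, v ≠ u := by
    rw [ae_iff]
    have : {a : Vec d | ¬ a ≠ u} = {u} := by ext x; simp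
    rw [this]
    exact measure_singleton u
  filter_upwards [hu] with v hv
  refine mul_le_mul_right ?_ _
  have e2 : (∫⁻ z : Vec d, ENNReal.ofReal (g z * len (v - z) ^ γ *
      (A * cG s ε c u v z + A * B * cB P s ε v z))) =
      ∫⁻ m : Vec d, ENNReal.ofReal (g (v - m) * len m ^ γ *
      (A * cG s ε c u v (v - m) + A * B * cB P s ε v (v - m))) := by
    rw [← lintegral_sub_left_eq_self (μ := (volume : Measure (Vec d))) (fun z : Vec d =>
      ENNReal.ofReal (g z * len (v - z) ^ γ * (A * cG s ε c u v z + A * B * cB P s ε v z))) v]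
    refine lintegral_congr fun m => ?_
    rw [sub_sub_cancel]
  rw [e2]
  have h0 : ∀ᵐ m : Vec d, m ≠ 0 := by
    rw [ae_iff]
    have : {a : Vec d | ¬ a ≠ 0} = {0} := by ext x; simp
    rw [this]
    exact measure_singleton 0
  refine lintegral_mono_ae ?_
  filter_upwards [h0] with m hm
  have h1 := hret Λ hΛ ε hε hε1 u v m hm hv
  have h2 : (∫⁻ σ in {σ : Vec d | 0 < dot m σ}, ENNReal.ofReal (Kn d γ (bt b ε) (co m σ) *
      hardy2_T Λ (2 * c) u v (v - m) (v + hh σ m)) ∂(surf d)) ≤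
      ∫⁻ σ in {σ : Vec d | 0 < dot m σ}, (if Λ * len (v + hh σ m - u) ≤ len (hh σ m) then
          ENNReal.ofReal (Kn d γ (bt b ε) (co m σ)) else 0) ∂(surf d) := by
    refine lintegral_mono fun σ => ?_
    unfold hardy2_T
    by_cases hR : RetS Λ (2 * c) u v (v - m) (v + hh σ m)
    · have h3 : Λ * len (v + hh σ m - u) ≤ len (hh σ m) := by
        have h4 := hR.1
        rwa [add_sub_cancel_left] at h4
      rw [if_pos hR, if_pos h3, mul_one]
    · rw [if_neg hR, mul_zero, ENNReal.ofReal_zero]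
      exact zero_le
  have hvz : v ≠ v - m := by
    intro h
    apply hm
    have : v - (v - m) = 0 := by rw [← h, sub_self]
    rwa [sub_sub_cancel] at this
  have h3 := hardy2_pt P hP hs hc hc1 hε u v (v - m) hvz
  rw [sub_sub_cancel] at h3
  have hw : 0 ≤ len m ^ γ * g (v - m) := mul_nonneg (Real.rpow_nonneg (len_nonneg m) _) (D.g0 _)
  calc ENNReal.ofReal (len m ^ γ * g (v - m)) * _ ≤ ENNReal.ofReal (len m ^ γ * g (v - m)) *
        ENNReal.ofReal (A * max ε (nsq (v - u) / nsq m) ^ (-s)) := mul_le_mul_right (h2.trans h1) _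
    _ = ENNReal.ofReal (len m ^ γ * g (v - m) * (A * max ε (nsq (v - u) / nsq m) ^ (-s))) :=
        (ENNReal.ofReal_mul hw).symm
    _ ≤ _ := by
        refine ENNReal.ofReal_le_ofReal ?_
        calc len m ^ γ * g (v - m) * (A * max ε (nsq (v - u) / nsq m) ^ (-s))
            ≤ len m ^ γ * g (v - m) * (A * (cG s ε c u v (v - m) + B * cB P s ε v (v - m))) :=
              mul_le_mul_of_nonneg_left (mul_le_mul_of_nonneg_left h3 hA) hw
          _ = g (v - m) * len m ^ γ *
              (A * cG s ε c u v (v - m) + A * B * cB P s ε v (v - m)) := by ring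

end Pool.Agent.H15.G1
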