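import Pool.Agent.H15.G1.L.Hardy1
import Pool.Agent.H15.G1.L.Hardy2

/-!
# Module Hardy3: (L5) for fixed `u`

`cG ≤ cH + cE` (on `HR` with `nsq (v-u) < ε nsq (v-z)`: `qC ≤ ε^(-s)`). `hardy_1`, `hardy_2` with `Λ` so large that `K K' Λ^(2s-(d-1)) ≤ 1/2` (`d - 1 ≥ 1 > 2s`), `c = c₁(Λ)`; cancel `(1/2) LI (cH)`, finite (`LI_ne_top`, `cH ≤ ε^(-s)`).
-/

set_option autoImplicit false

open MeasureTheory Set Filter Topology Pool.Agent.H25.Kin Pool.Agent.H82.BK Pool.Agent.H82.CM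
open Pool.Agent.H48.PL Pool.Agent.H48.PI Pool.Agent.H48.PW Pool.Agent.H82.NT
open scoped ENNReal

namespace Pool.Agent.H15.G1

variable {d : ℕ} {γ s C Ca cb ε : ℝ} {b : ℝ → ℝ}

private lemma Hardy3_q0 (hε : 0 < ε) (ρ : ℝ) (v w : Vec d) : 0 ≤ qC s ε ρ v w := by
  unfold qC
  exact Real.rpow_nonneg (le_trans hε.le (le_max_left _ _)) _

private lemma Hardy3_qle (hs : 0 < s) (hε : 0 < ε) (ρ : ℝ) (v w : Vec d) : qC s ε ρ v w ≤ ε ^ (-s) := by
  unfold qC
  exact Real.rpow_le_rpow_of_nonpos hε (le_max_left _ _) (by linarith)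

private lemma Hardy3_H0 (hε : 0 < ε) (c : ℝ) (u v z : Vec d) : 0 ≤ cH s ε c u v z := by
  unfold cH
  split_ifs
  · exact Hardy3_q0 hε _ _ _
  · exact le_rfl

private lemma Hardy3_E0 (hε : 0 < ε) (u v z : Vec d) : 0 ≤ cE s ε u v z := by
  unfold cE
  split_ifs
  · exact Real.rpow_nonneg hε.le _
  · exact le_rfl

private lemma Hardy3_Hle (hs : 0 < s) (hε : 0 < ε) (c : ℝ) (u v z : Vec d) : cH s ε c u v z ≤ ε ^ (-s) := by
  unfold cH
  split_ifs
  · exact Hardy3_qle hs hε _ _ _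
  · exact Real.rpow_nonneg hε.le _

private lemma Hardy3_G (hs : 0 < s) (hε : 0 < ε) (c : ℝ) (u v z : Vec d) :
    cG s ε c u v z ≤ cH s ε c u v z + cE s ε u v z := by
  have hH := Hardy3_H0 (s := s) hε c u v z
  have hE := Hardy3_E0 (s := s) hε u v z
  by_cases h : HR c u v z
  · by_cases h1 : ε * nsq (v - z) ≤ nsq (v - u)
    · have e1 : cG s ε c u v z = qC s ε (len (v - u)) v z := if_pos h
      have e2 : cH s ε c u v z = qC s ε (len (v - u)) v z := if_pos ⟨h, h1⟩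
      rw [e1, ← e2]
      linarith
    · have e1 : cG s ε c u v z = qC s ε (len (v - u)) v z := if_pos h
      have e2 : cE s ε u v z = ε ^ (-s) := if_pos (not_le.1 h1)
      rw [e1, e2]
      have := Hardy3_qle hs hε (len (v - u)) v z
      linarith
  · have e1 : cG s ε c u v z = 0 := if_neg h
    rw [e1]
    linarith

private lemma Hardy3_ml : Measurable fun q : Vec d × Vec d => len (q.1 - q.2) :=
  (continuous_len.comp (continuous_fst.sub continuous_snd)).measurable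

private lemma Hardy3_mn : Measurable fun q : Vec d × Vec d => nsq (q.1 - q.2) :=
  (continuous_sq.comp (continuous_fst.sub continuous_snd)).measurable

private lemma Hardy3_mu (u : Vec d) : Measurable fun q : Vec d × Vec d => len (q.1 - u) :=
  (continuous_len.comp (continuous_fst.sub continuous_const)).measurable

private lemma Hardy3_mnu (u : Vec d) : Measurable fun q : Vec d × Vec d => nsq (q.1 - u) :=
  (continuous_sq.comp (continuous_fst.sub continuous_const)).measurable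

private lemma Hardy3_mq (u : Vec d) :
    Measurable fun q : Vec d × Vec d => qC s ε (len (q.1 - u)) q.1 q.2 := by
  unfold qC
  exact (measurable_const.max (measurable_const.min
    (((Hardy3_mu u).pow_const 2).div Hardy3_mn))).pow_const _

private lemma Hardy3_mH (c : ℝ) (u : Vec d) :
    Measurable fun q : Vec d × Vec d => cH s ε c u q.1 q.2 := by
  unfold cH HR
  refine Measurable.ite ?_ (Hardy3_mq u) measurable_const
  refine MeasurableSet.inter ?_ ?_
  · exact measurableSet_lt (Hardy3_mu u)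
      (measurable_const.mul (Hardy3_ml.min (jb_cont.measurable.comp measurable_fst)))
  · exact measurableSet_le (measurable_const.mul Hardy3_mn) (Hardy3_mnu u)

private lemma Hardy3_mE (u : Vec d) :
    Measurable fun q : Vec d × Vec d => cE s ε u q.1 q.2 := by
  unfold cE
  exact Measurable.ite (measurableSet_lt (Hardy3_mnu u) (measurable_const.mul Hardy3_mn))
    measurable_const measurable_const

theorem hardy_u (HL : HypL d γ s b C Ca cb) (h2 : 2 * s < 1) (hγ : 0 ≤ γ) (P : Lp) (hP : P.Ok) :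
    ∃ c K : ℝ, 0 < c ∧ c ≤ 1 ∧ 0 ≤ K ∧ ∀ ε : ℝ, 0 < ε → ε ≤ 1 → ∀ g g1 ω : Vec d → ℝ, Dat g g1 ω → ∀ u : Vec d,
      LI γ (2 * P.p') g g ω (cG s ε c u) ≤ ENNReal.ofReal K *
        (LC γ b ε P g g1 (gR g g1) ω + LI γ (2 * P.p') g g ω (cB P s ε) + LI γ (2 * P.p') g g ω (cE s ε u)) := by
  have H := HL.H
  obtain ⟨K, hK, h1⟩ := hardy_1 HL hγ P hP
  obtain ⟨K', hK', h2'⟩ := hardy_2 H hγ P hP
  have hd : (2 : ℝ) ≤ d := by exact_mod_cast H.hd
  -- the choice of `Λ`
  have hex : 2 * s - ((d : ℝ) - 1) < 0 := by linarith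
  obtain ⟨Λ, hΛ2, hΛ⟩ : ∃ Λ : ℝ, 2 ≤ Λ ∧ K * K' * Λ ^ (2 * s - ((d : ℝ) - 1)) ≤ 1 / 2 := by
    have ht : Tendsto (fun x : ℝ => x ^ (2 * s - ((d : ℝ) - 1))) atTop (nhds 0) := by
      have := tendsto_rpow_neg_atTop (y := -(2 * s - ((d : ℝ) - 1))) (by linarith)
      simpa using this
    have ht2 : Tendsto (fun x : ℝ => K * K' * x ^ (2 * s - ((d : ℝ) - 1))) atTop (nhds 0) := by
      simpa using ht.const_mul (K * K')
    have ht3 := (ht2.eventually_le_const (show (0 : ℝ) < 1 / 2 by norm_num)).and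
      (eventually_ge_atTop (2 : ℝ))
    obtain ⟨x, hx⟩ := ht3.exists
    exact ⟨x, hx.2, hx.1⟩
  have hΛ0 : 0 < Λ := by linarith
  obtain ⟨c, hc, hc1, h3⟩ := h1 Λ hΛ2
  obtain ⟨K₁, hK₁, h4⟩ := h2' Λ hΛ2 c hc hc1
  set A : ℝ := K * Λ ^ (2 * s) with hA
  set B : ℝ := K' * Λ ^ (-((d : ℝ) - 1)) with hB
  have hA0 : 0 ≤ A := mul_nonneg hK (Real.rpow_nonneg hΛ0.le _)
  have hB0 : 0 ≤ B := mul_nonneg hK' (Real.rpow_nonneg hΛ0.le _)
  have hAB : A * B ≤ 1 / 2 := by
    have e : A * B = K * K' * Λ ^ (2 * s - ((d : ℝ) - 1)) := by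
      rw [hA, hB, sub_eq_add_neg (2 * s), Real.rpow_add hΛ0]
      ring
    rw [e]
    exact hΛ
  refine ⟨c, 2 * A + 2 + 2 * A * K₁, hc, hc1, by positivity, ?_⟩
  intro ε hε hε1 g g1 ω D u
  have h5 := h3 c hc le_rfl ε hε hε1 g g1 ω D u
  have h6 := h4 ε hε hε1 g g1 ω D u
  set XG := LI γ (2 * P.p') g g ω (cG s ε c u) with hXG
  set XH := LI γ (2 * P.p') g g ω (cH s ε c u) with hXH
  set XE := LI γ (2 * P.p') g g ω (cE s ε u) with hXE
  set XB := LI γ (2 * P.p') g g ω (cB P s ε) with hXB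
  set XC := LC γ b ε P g g1 (gR g g1) ω with hXC
  have h7 : XG ≤ XH + XE := by
    rw [hXG, hXH, hXE, ← LI_add D.nice.cont.measurable D.nice.cont.measurable D.ωc.measurable
      (Hardy3_mH c u) (Hardy3_mE u) D.g0 (fun v z => Hardy3_H0 hε c u v z)
      (fun v z => Hardy3_E0 hε u v z)]
    exact LI_mono H.hd1 hγ fun v z _ => mul_le_mul_of_nonneg_left (Hardy3_G H.hs hε c u v z) (D.g0 z)
  have hfin : XH ≠ ⊤ :=
    LI_ne_top H.hd1 hγ H.g2 D (fun z => le_rfl) D.g0 (fun v z => Hardy3_H0 hε c u v z)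
      (fun v z => Hardy3_Hle H.hs hε c u v z)
  -- the main inequality
  have hABe : ENNReal.ofReal A * ENNReal.ofReal B ≤ ENNReal.ofReal (1 / 2) := by
    rw [← ENNReal.ofReal_mul hA0]
    exact ENNReal.ofReal_le_ofReal hAB
  have h8 : XH ≤ ENNReal.ofReal A * XC + ENNReal.ofReal (1 / 2) * (XH + XE) +
      ENNReal.ofReal (A * K₁) * XB := by
    calc XH ≤ ENNReal.ofReal A * (XC + LR γ b ε P g ω Λ (2 * c) u) := h5
      _ ≤ ENNReal.ofReal A * (XC + (ENNReal.ofReal B * XG + ENNReal.ofReal K₁ * XB)) := by gcongr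
      _ = ENNReal.ofReal A * XC + ENNReal.ofReal A * ENNReal.ofReal B * XG +
          ENNReal.ofReal (A * K₁) * XB := by
            rw [ENNReal.ofReal_mul hA0]
            ring
      _ ≤ _ := by gcongr
  -- cancel
  have h9 : XH ≤ 2 * (ENNReal.ofReal A * XC + ENNReal.ofReal (1 / 2) * XE +
      ENNReal.ofReal (A * K₁) * XB) := by
    have e2 : (2 : ℝ≥0∞) * ENNReal.ofReal (1 / 2) = 1 := by
      rw [show (2 : ℝ≥0∞) = ENNReal.ofReal 2 by simp, ← ENNReal.ofReal_mul (by norm_num)]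
      norm_num
    have h10 : XH + XH ≤ XH + 2 * (ENNReal.ofReal A * XC + ENNReal.ofReal (1 / 2) * XE +
      ENNReal.ofReal (A * K₁) * XB) := by
      calc XH + XH = 2 * XH := (two_mul _).symm
        _ ≤ 2 * (ENNReal.ofReal A * XC + ENNReal.ofReal (1 / 2) * (XH + XE) +
            ENNReal.ofReal (A * K₁) * XB) := by gcongr
        _ = (2 * ENNReal.ofReal (1 / 2)) * XH + 2 * (ENNReal.ofReal A * XC +
            ENNReal.ofReal (1 / 2) * XE + ENNReal.ofReal (A * K₁) * XB) := by ring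
        _ = _ := by rw [e2, one_mul]
    exact (ENNReal.add_le_add_iff_left hfin).1 h10
  have e2 : (2 : ℝ≥0∞) * ENNReal.ofReal (1 / 2) = 1 := by
    rw [show (2 : ℝ≥0∞) = ENNReal.ofReal 2 by simp, ← ENNReal.ofReal_mul (by norm_num)]
    norm_num
  have e3 : ENNReal.ofReal (2 * A + 2 + 2 * A * K₁) =
      2 * ENNReal.ofReal A + 2 + 2 * ENNReal.ofReal (A * K₁) := by
    have q1 : 0 ≤ 2 * A := mul_nonneg (by norm_num) hA0
    rw [ENNReal.ofReal_add (add_nonneg q1 (by norm_num)) (mul_nonneg q1 hK₁),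
      ENNReal.ofReal_add q1 (by norm_num), mul_assoc,
      ENNReal.ofReal_mul (show (0 : ℝ) ≤ 2 by norm_num),
      ENNReal.ofReal_mul (show (0 : ℝ) ≤ 2 by norm_num)]
    simp
  calc XG ≤ XH + XE := h7
    _ ≤ 2 * (ENNReal.ofReal A * XC + ENNReal.ofReal (1 / 2) * XE +
      ENNReal.ofReal (A * K₁) * XB) + XE := by gcongr
    _ = 2 * ENNReal.ofReal A * XC + (2 * ENNReal.ofReal (1 / 2)) * XE +
        2 * ENNReal.ofReal (A * K₁) * XB + XE := by ring
    _ = 2 * ENNReal.ofReal A * XC + 2 * XE + 2 * ENNReal.ofReal (A * K₁) * XB := by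
        rw [e2]; ring
    _ ≤ ENNReal.ofReal (2 * A + 2 + 2 * A * K₁) * XC +
        ENNReal.ofReal (2 * A + 2 + 2 * A * K₁) * XE +
        ENNReal.ofReal (2 * A + 2 + 2 * A * K₁) * XB := by
        rw [e3]
        gcongr
        · exact le_self_add.trans le_self_add
        · exact le_add_self.trans le_self_add
        · exact le_add_self
    _ = _ := by ring

end Pool.Agent.H15.G1
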