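import Pool.Agent.H15.G1.LDefs

/-!
# Module RetUp: the returned mass

`S = {σ : 0 < m·σ, Λ|v+h-u| ≤ |h|}`, `h = hh σ m`, `ρ = |v-u| > 0`, `Λ ≥ 2`. On `S`: `| |h| - ρ | ≤ |v+h-u| ≤ |h|/Λ ≤ |h|/2`, so `2ρ/3 ≤ |h| ≤ 2ρ`. Where `bt b ε (2c²-1) ≠ 0`: `2c² ≥ 1`,
`X = 2(1-c²) ≥ |h|²/|m|² ≥ 4q/9`, `q = ρ²/|m|²` (`nsq_hh`), and `bt ≤ 2C max(ε,X)^(-β)`, `β = (d-1)/2 + s`, so `Kn ≤ C' q^(-(d-1)/2) max(ε,q)^(-s)`.
Measure of `S`: if `S` is not empty take `σ₁ ∈ S`, `|σ₁| = 1`; `σ = (m+h)/|m+h|`, `|m+h| ≥ |m|`, `|h-h₁| ≤ (|h|+|h₁|)/Λ ≤ 4ρ/Λ`, so `1-σ·σ₁ ≤ 8q/Λ²`: `cap_bound` (H25/Kin/Cap2):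
`≤ C Λ^(-(d-1)) q^((d-1)/2)`. Product `K Λ^(-(d-1)) max(ε,q)^(-s)`.
-/

set_option autoImplicit false

open MeasureTheory Set Filter Topology Pool.Agent.H25.Kin Pool.Agent.H82.BK Pool.Agent.H82.CM
open Pool.Agent.H48.PL Pool.Agent.H48.PI Pool.Agent.H48.PW Pool.Agent.H82.NT
open scoped ENNReal

namespace Pool.Agent.H15.G1

variable {d : ℕ} {γ s C Ca cb ε : ℝ} {b : ℝ → ℝ}

/-- the folded kernel with the cut-off -/
private lemma ru_bt {β : ℝ} (hC : AngBound b C β) (hβ : 0 ≤ β) (hε : 0 < ε) (hε1 : ε ≤ 1) {x : ℝ}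
    (h1 : 0 ≤ x) (h2 : x ≤ 1) : bt b ε x ≤ 2 * C * max ε (1 - x) ^ (-β) := by
  have hC0 := hC.1
  rcases le_or_gt x (1 - ε) with h3 | h3
  · rw [max_eq_right (by linarith)]
    exact bt_le hC hβ h1 (by linarith)
  · rw [max_eq_left (by linarith)]
    have hp : 1 ≤ ε ^ (-β) := Real.one_le_rpow_of_pos_of_le_one_of_nonpos hε hε1 (by linarith)
    have h4 : (if 0 < x then bcut b ε x else 0) = 0 := by
      unfold bcut
      rw [if_neg (not_le.2 h3)]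
      simp
    have h5 : (if 0 ≤ x then bcut b ε (-x) else 0) ≤ C := by
      rw [if_pos h1]
      unfold bcut
      split_ifs
      · refine (hC.2 (-x) (by linarith) (by linarith)).2.trans ?_
        have h6 : (1 - -x) ^ (-β) ≤ 1 := Real.rpow_le_one_of_one_le_of_nonpos (by linarith) (by linarith)
        calc C * (1 - -x) ^ (-β) ≤ C * 1 := mul_le_mul_of_nonneg_left h6 hC0
          _ = C := mul_one C
      · exact hC0
    unfold bt
    rw [h4, zero_add]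
    refine h5.trans ?_
    nlinarith [mul_le_mul_of_nonneg_left hp hC0]

/-- `2ρ/3 ≤ |h| ≤ 2ρ` -/
private lemma ru_h {Λ : ℝ} (hΛ : 2 ≤ Λ) {u v h : Vec d} (hA : Λ * len (v + h - u) ≤ len h) :
    2 / 3 * len (v - u) ≤ len h ∧ len h ≤ 2 * len (v - u) ∧ Λ * len (v + h - u) ≤ 2 * len (v - u) := by
  have h0 := len_nonneg (v + h - u)
  have h1 : len (v - u) ≤ len (v + h - u) + len h := by
    have := len_sub_le (v + h - u) h
    rwa [show v + h - u - h = v - u by abel] at this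
  have h2 : len h ≤ len (v + h - u) + len (v - u) := by
    have := len_sub_le (v + h - u) (v - u)
    rwa [show v + h - u - (v - u) = h by abel] at this
  have h3 : 2 * len (v + h - u) ≤ Λ * len (v + h - u) := mul_le_mul_of_nonneg_right hΛ h0
  refine ⟨by linarith, by linarith, by linarith⟩

/-- two directions in `S` are close -/
private lemma ru_cap {Λ : ℝ} (hΛ : 2 ≤ Λ) {u v m σ σ₁ : Vec d} (hm : m ≠ 0) (hσ : nsq σ = 1) (hσ₁ : nsq σ₁ = 1)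
    (hd : 0 < dot m σ) (hd₁ : 0 < dot m σ₁) (hA : Λ * len (v + hh σ m - u) ≤ len (hh σ m))
    (hA₁ : Λ * len (v + hh σ₁ m - u) ≤ len (hh σ₁ m)) :
    1 - dot σ₁ σ ≤ 8 * (nsq (v - u) / nsq m) / Λ ^ 2 := by
  have hΛ0 : 0 < Λ := by linarith
  have hM : 0 < nsq m := sq_pos_of_ne hm
  have a1 := (ru_h hΛ hA).2.2
  have a2 := (ru_h hΛ hA₁).2.2
  have hρ := len_nonneg (v - u)
  have h1 : len (hh σ m - hh σ₁ m) ≤ len (v + hh σ m - u) + len (v + hh σ₁ m - u) := by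
    have := len_sub_le (v + hh σ m - u) (v + hh σ₁ m - u)
    rwa [show v + hh σ m - u - (v + hh σ₁ m - u) = hh σ m - hh σ₁ m by abel] at this
  have h2 : Λ * len (hh σ m - hh σ₁ m) ≤ 4 * len (v - u) := by
    calc Λ * len (hh σ m - hh σ₁ m) ≤ Λ * (len (v + hh σ m - u) + len (v + hh σ₁ m - u)) :=
          mul_le_mul_of_nonneg_left h1 hΛ0.le
      _ ≤ 4 * len (v - u) := by rw [mul_add]; linarith
  have h3 : Λ ^ 2 * nsq (hh σ m - hh σ₁ m) ≤ 16 * nsq (v - u) := by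
    have h4 := mul_self_le_mul_self (mul_nonneg hΛ0.le (len_nonneg _)) h2
    rw [← len_sq (hh σ m - hh σ₁ m), ← len_sq (v - u)]
    nlinarith
  set r := nsq m / dot m σ with hr
  set r₁ := nsq m / dot m σ₁ with hr₁
  have e1 : hh σ m - hh σ₁ m = r • σ - r₁ • σ₁ := by
    unfold hh
    abel
  have e2 : nsq (hh σ m - hh σ₁ m) = (r - r₁) ^ 2 + 2 * (r * r₁) * (1 - dot σ₁ σ) := by
    rw [e1, nsq_sub, nsq_smul, nsq_smul, hσ, hσ₁, smul_dot, dot_smul, dot_comm σ σ₁]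
    ring
  have h5 : ∀ τ : Vec d, nsq τ = 1 → 0 < dot m τ → dot m τ ^ 2 ≤ nsq m := by
    intro τ h6 _
    have := dot_sq_le m τ
    rwa [h6, mul_one] at this
  have h6 : 0 ≤ 1 - dot σ₁ σ := by
    have := (abs_le.1 (dot_le_one hσ₁ hσ)).2
    linarith
  have h7 : nsq m ≤ r * r₁ := by
    have b1 := h5 σ hσ hd
    have b2 := h5 σ₁ hσ₁ hd₁
    have b3 : dot m σ * dot m σ₁ ≤ nsq m := by nlinarith [sq_nonneg (dot m σ - dot m σ₁)]
    rw [hr, hr₁, div_mul_div_comm, le_div_iff₀ (mul_pos hd hd₁)]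
    exact mul_le_mul_of_nonneg_left b3 hM.le
  have h8 : 2 * nsq m * (1 - dot σ₁ σ) ≤ nsq (hh σ m - hh σ₁ m) := by
    rw [e2]
    nlinarith [sq_nonneg (r - r₁), mul_le_mul_of_nonneg_right h7 h6]
  rw [le_div_iff₀ (by positivity), ← mul_div_assoc, le_div_iff₀ hM]
  nlinarith [mul_le_mul_of_nonneg_left h8 (sq_nonneg Λ)]

/-- the pointwise bound -/
private lemma ru_kn (H : Hyp d γ s b C Ca) (hε : 0 < ε) (hε1 : ε ≤ 1) {Λ : ℝ} (hΛ : 2 ≤ Λ) {u v m σ : Vec d}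
    (hm : m ≠ 0) (hv : v ≠ u) (hσ : nsq σ = 1) (hd : 0 < dot m σ)
    (hA : Λ * len (v + hh σ m - u) ≤ len (hh σ m)) :
    Kn d γ (bt b ε) (co m σ) ≤ 2 ^ (d - 1) * (1 / 2) ^ (-2 - γ) * (2 * C) *
      ((4 / 9) ^ (-(((d : ℝ) - 1) / 2)) * (nsq (v - u) / nsq m) ^ (-(((d : ℝ) - 1) / 2)) *
        ((4 / 9) ^ (-s) * max ε (nsq (v - u) / nsq m) ^ (-s))) := by
  have hM : 0 < nsq m := sq_pos_of_ne hm
  have hρ : 0 < nsq (v - u) := sq_pos_of_ne (sub_ne_zero.2 hv)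
  have hC0 := H.bd.1
  have hcp := co_pos hd
  have hc1 := co_le_one (m := m) hσ
  have hs := H.hs
  have hD : 0 ≤ ((d : ℝ) - 1) / 2 := by
    have h1 : (1 : ℝ) ≤ d := by exact_mod_cast H.hd1
    linarith
  set q := nsq (v - u) / nsq m with hq
  have hq0 : 0 < q := div_pos hρ hM
  have hR : 0 ≤ 2 ^ (d - 1) * (1 / 2 : ℝ) ^ (-2 - γ) * (2 * C) *
      ((4 / 9) ^ (-(((d : ℝ) - 1) / 2)) * q ^ (-(((d : ℝ) - 1) / 2)) *
        ((4 / 9) ^ (-s) * max ε q ^ (-s))) := by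
    have : 0 < max ε q := lt_max_of_lt_left hε
    positivity
  rcases lt_or_ge (2 * co m σ ^ 2 - 1) 0 with h1 | h1
  · unfold Kn
    rw [bt_neg h1, mul_zero]
    exact hR
  have hc2 : (1 : ℝ) / 2 ≤ co m σ ^ 2 := by linarith
  have hc3 : (1 : ℝ) / 2 ≤ co m σ := by nlinarith
  have h2 : co m σ ^ (-2 - γ) ≤ (1 / 2 : ℝ) ^ (-2 - γ) :=
    Real.rpow_le_rpow_of_nonpos (by norm_num) hc3 (by linarith [H.g1])
  have h3 := ru_bt H.bd H.β0 hε hε1 h1 (by nlinarith)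
  have h4 : 4 / 9 * q ≤ 1 - (2 * co m σ ^ 2 - 1) := by
    have h5 := (ru_h hΛ hA).1
    have h6 : 4 / 9 * nsq (v - u) ≤ nsq (hh σ m) := by
      rw [← len_sq (v - u), ← len_sq (hh σ m)]
      nlinarith [len_nonneg (v - u)]
    rw [nsq_hh hσ hd] at h6
    have h7 : 4 / 9 * q ≤ (1 - co m σ ^ 2) / co m σ ^ 2 := by
      rw [hq, ← mul_div_assoc, div_le_iff₀ hM]
      linarith
    have h8 : (1 - co m σ ^ 2) / co m σ ^ 2 ≤ 2 * (1 - co m σ ^ 2) := by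
      rw [div_le_iff₀ (by positivity)]
      have h9 : 0 ≤ 1 - co m σ ^ 2 := by nlinarith
      nlinarith
    linarith
  set X := 1 - (2 * co m σ ^ 2 - 1) with hX
  have hMX : 4 / 9 * q ≤ max ε X := h4.trans (le_max_right _ _)
  have hMX2 : 4 / 9 * max ε q ≤ max ε X := by
    rw [mul_max_of_nonneg _ _ (by norm_num)]
    exact max_le ((by linarith : 4 / 9 * ε ≤ ε).trans (le_max_left _ _)) hMX
  have hX0 : 0 < max ε X := lt_max_of_lt_left hε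
  have hMq : 0 < max ε q := lt_max_of_lt_left hε
  have h5 : max ε X ^ (-(((d : ℝ) - 1) / 2 + s)) ≤
      (4 / 9) ^ (-(((d : ℝ) - 1) / 2)) * q ^ (-(((d : ℝ) - 1) / 2)) * ((4 / 9) ^ (-s) * max ε q ^ (-s)) := by
    rw [neg_add, Real.rpow_add hX0]
    refine mul_le_mul ?_ ?_ (Real.rpow_nonneg hX0.le _) (by positivity)
    · rw [← Real.mul_rpow (by norm_num) hq0.le]
      exact Real.rpow_le_rpow_of_nonpos (by positivity) hMX (by linarith)
    · rw [← Real.mul_rpow (by norm_num) hMq.le]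
      exact Real.rpow_le_rpow_of_nonpos (by positivity) hMX2 (by linarith)
  unfold Kn
  have h6 : bt b ε (2 * co m σ ^ 2 - 1) ≤ 2 * C *
      ((4 / 9) ^ (-(((d : ℝ) - 1) / 2)) * q ^ (-(((d : ℝ) - 1) / 2)) * ((4 / 9) ^ (-s) * max ε q ^ (-s))) :=
    h3.trans (mul_le_mul_of_nonneg_left h5 (by linarith))
  have h7 : 0 ≤ bt b ε (2 * co m σ ^ 2 - 1) := bt_nonneg H.bd hε (by linarith) (by nlinarith)
  calc 2 ^ (d - 1) * co m σ ^ (-2 - γ) * bt b ε (2 * co m σ ^ 2 - 1)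
      ≤ 2 ^ (d - 1) * (1 / 2 : ℝ) ^ (-2 - γ) * (2 * C *
      ((4 / 9) ^ (-(((d : ℝ) - 1) / 2)) * q ^ (-(((d : ℝ) - 1) / 2)) * ((4 / 9) ^ (-s) * max ε q ^ (-s)))) :=
        mul_le_mul (mul_le_mul_of_nonneg_left h2 (by positivity)) h6 h7 (by positivity)
    _ = _ := by ring

open Classical in
theorem ret_up (H : Hyp d γ s b C Ca) : ∃ K : ℝ, 0 ≤ K ∧ ∀ Λ : ℝ, 2 ≤ Λ → ∀ ε : ℝ, 0 < ε → ε ≤ 1 →
    ∀ u v m : Vec d, m ≠ 0 → v ≠ u →
      ∫⁻ σ in {σ : Vec d | 0 < dot m σ}, (if Λ * len (v + hh σ m - u) ≤ len (hh σ m) then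
          ENNReal.ofReal (Kn d γ (bt b ε) (co m σ)) else 0) ∂(surf d) ≤
        ENNReal.ofReal (K * Λ ^ (-((d : ℝ) - 1)) * max ε (nsq (v - u) / nsq m) ^ (-s)) := by
  obtain ⟨C₁, hC₁, hcap⟩ := cap_bound H.hd1
  have hC0 := H.bd.1
  set D : ℝ := ((d : ℝ) - 1) / 2 with hDdef
  refine ⟨2 ^ (d - 1) * (1 / 2) ^ (-2 - γ) * (2 * C) * (4 / 9) ^ (-D) * (4 / 9) ^ (-s) * (C₁ * 8 ^ D),
    by positivity, ?_⟩
  intro Λ hΛ ε hε hε1 u v m hm hv
  have hM : 0 < nsq m := sq_pos_of_ne hm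
  have hρ : 0 < nsq (v - u) := sq_pos_of_ne (sub_ne_zero.2 hv)
  have hq0 : 0 < nsq (v - u) / nsq m := div_pos hρ hM
  have hΛ0 : 0 < Λ := by linarith
  have hMq : 0 < max ε (nsq (v - u) / nsq m) := lt_max_of_lt_left hε
  by_cases hex : ∃ σ₁ : Vec d, nsq σ₁ = 1 ∧ 0 < dot m σ₁ ∧ Λ * len (v + hh σ₁ m - u) ≤ len (hh σ₁ m)
  · obtain ⟨σ₁, hσ₁, hd₁, hA₁⟩ := hex
    set U : Set (Vec d) := {σ : Vec d | 1 - dot σ₁ σ ≤ 8 * (nsq (v - u) / nsq m) / Λ ^ 2} with hU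
    set K₀ : ℝ := 2 ^ (d - 1) * (1 / 2) ^ (-2 - γ) * (2 * C) *
      ((4 / 9) ^ (-D) * (nsq (v - u) / nsq m) ^ (-D) *
        ((4 / 9) ^ (-s) * max ε (nsq (v - u) / nsq m) ^ (-s))) with hK₀
    have hK₀0 : 0 ≤ K₀ := by positivity
    have hUm : MeasurableSet U := measurableSet_cap _ _
    calc ∫⁻ σ in {σ : Vec d | 0 < dot m σ}, (if Λ * len (v + hh σ m - u) ≤ len (hh σ m) then
          ENNReal.ofReal (Kn d γ (bt b ε) (co m σ)) else 0) ∂(surf d)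
        ≤ ∫⁻ σ in {σ : Vec d | 0 < dot m σ}, U.indicator (fun _ => ENNReal.ofReal K₀) σ ∂(surf d) := by
          refine lintegral_mono_ae ?_
          have hae : ∀ᵐ σ ∂((surf d).restrict {σ : Vec d | 0 < dot m σ}), nsq σ = 1 :=
            ae_restrict_of_ae surf_ae
          filter_upwards [hae, ae_restrict_mem (measurableSet_half m)] with σ hσ hdσ
          split_ifs with hA
          · rw [indicator_of_mem]
            · exact ENNReal.ofReal_le_ofReal (ru_kn H hε hε1 hΛ hm hv hσ hdσ hA)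
            · exact ru_cap hΛ hm hσ hσ₁ hdσ hd₁ hA hA₁
          · exact zero_le
      _ ≤ ∫⁻ σ, U.indicator (fun _ => ENNReal.ofReal K₀) σ ∂(surf d) :=
          setLIntegral_le_lintegral _ _
      _ = ENNReal.ofReal K₀ * surf d U := by
          rw [lintegral_indicator hUm, setLIntegral_const]
      _ ≤ ENNReal.ofReal K₀ * ENNReal.ofReal (C₁ * (8 * (nsq (v - u) / nsq m) / Λ ^ 2) ^ D) := by
          gcongr
          exact hcap σ₁ hσ₁ _ (by positivity)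
      _ = ENNReal.ofReal (2 ^ (d - 1) * (1 / 2) ^ (-2 - γ) * (2 * C) * (4 / 9) ^ (-D) * (4 / 9) ^ (-s) *
            (C₁ * 8 ^ D) * Λ ^ (-((d : ℝ) - 1)) * max ε (nsq (v - u) / nsq m) ^ (-s)) := by
          rw [← ENNReal.ofReal_mul hK₀0]
          congr 1
          have e1 : (8 * (nsq (v - u) / nsq m) / Λ ^ 2) ^ D =
              8 ^ D * (nsq (v - u) / nsq m) ^ D * Λ ^ (-((d : ℝ) - 1)) := by
            rw [div_eq_mul_inv, Real.mul_rpow (by positivity) (by positivity),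
              Real.mul_rpow (by norm_num) hq0.le, Real.inv_rpow (by positivity)]
            congr 1
            rw [← Real.rpow_natCast Λ 2, ← Real.rpow_mul hΛ0.le, ← Real.rpow_neg hΛ0.le]
            congr 1
            rw [hDdef]
            push_cast
            ring
          have e2 : (nsq (v - u) / nsq m) ^ (-D) * (nsq (v - u) / nsq m) ^ D = 1 := by
            rw [← Real.rpow_add hq0, neg_add_cancel, Real.rpow_zero]
          rw [e1, hK₀]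
          calc _ = ((nsq (v - u) / nsq m) ^ (-D) * (nsq (v - u) / nsq m) ^ D) *
                (2 ^ (d - 1) * (1 / 2) ^ (-2 - γ) * (2 * C) * (4 / 9) ^ (-D) * (4 / 9) ^ (-s) *
            (C₁ * 8 ^ D) * Λ ^ (-((d : ℝ) - 1)) * max ε (nsq (v - u) / nsq m) ^ (-s)) := by ring
            _ = _ := by rw [e2, one_mul]
  · have h0 : ∫⁻ σ in {σ : Vec d | 0 < dot m σ}, (if Λ * len (v + hh σ m - u) ≤ len (hh σ m) then
          ENNReal.ofReal (Kn d γ (bt b ε) (co m σ)) else 0) ∂(surf d) = 0 := by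
      have hae : ∀ᵐ σ ∂((surf d).restrict {σ : Vec d | 0 < dot m σ}), nsq σ = 1 :=
        ae_restrict_of_ae surf_ae
      refine (lintegral_congr_ae (g := fun _ => 0) ?_).trans lintegral_zero
      filter_upwards [hae, ae_restrict_mem (measurableSet_half m)] with σ hσ hdσ
      exact if_neg fun hA => hex ⟨σ, hσ, hdσ, hA⟩
    rw [h0]
    exact zero_le

end Pool.Agent.H15.G1
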