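import Pool.Agent.H15.G1.L.Jlem
import Pool.Agent.H15.G1.L.IntM

/-!
# Module SplitQ: (L1)

Pointwise (`T3_mono`), then `T3_add`, `T3_mul`. `F = g Wp`, `p = 2p'`, `Wp y > 0`. Exceptional (`(z,y) ∉ RegS`): `kM = 0`, and with `r = rho v z`, `r² = Wp v / Wp z`:
`2 g z g v Wp v ≤ r (g v² Wp v + g z² Wp z)` (square of `g v √(Wp v) - g z √(Wp z)`; `√(Wp v) = (1+|v|²)^p'`). Regular, not `AS`: `kM = g z`, identity
`2 F v (g y) + (F v - F y)²/Wp y = F v²/Wp y + F y²/Wp y`, `F v²/Wp y = Gs v (Wp v / Wp y)`, `F y²/Wp y = Gs y`. Regular and `AS`: `kM = g2 z`, `g z = g2 z + g1 z`.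
-/

set_option autoImplicit false

open MeasureTheory Set Filter Topology Pool.Agent.H25.Kin Pool.Agent.H82.BK Pool.Agent.H82.CM
open Pool.Agent.H48.PL Pool.Agent.H48.PI Pool.Agent.H48.PW Pool.Agent.H82.NT
open scoped ENNReal

namespace Pool.Agent.H15.G1

variable {d : ℕ} {γ s C Ca cb ε : ℝ} {b : ℝ → ℝ}

/-! ### the pointwise inequalities, real numbers -/

private lemma spl_sq (P : Lp) (g : Vec d → ℝ) (v z : Vec d) :
    2 * (g z * (g v * Wp (2 * P.p') v)) ≤
      (Gs (2 * P.p') g v + Gs (2 * P.p') g z) * rho P v z := by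
  have hv : 0 < 1 + nsq v := by linarith [sq_nonneg' v]
  have hz : 0 < 1 + nsq z := by linarith [sq_nonneg' z]
  set A : ℝ := (1 + nsq v) ^ P.p' with hA
  set B : ℝ := (1 + nsq z) ^ P.p' with hB
  have hA0 : 0 < A := pow_pos hv _
  have hB0 : 0 < B := pow_pos hz _
  have eA : Wp (2 * P.p') v = A ^ 2 := by
    unfold Wp
    rw [hA, ← pow_mul, mul_comm]
  have eB : Wp (2 * P.p') z = B ^ 2 := by
    unfold Wp
    rw [hB, ← pow_mul, mul_comm]
  have er : rho P v z = A / B := by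
    unfold rho Tb
    rw [one_mul, div_pow]
  unfold Gs
  rw [er, eA, eB]
  have h1 : (g v ^ 2 * A ^ 2 + g z ^ 2 * B ^ 2) * (A / B) - 2 * (g z * (g v * A ^ 2)) =
      (g v * A - g z * B) ^ 2 * (A / B) := by
    field_simp
    ring
  have h2 : 0 ≤ (g v * A - g z * B) ^ 2 * (A / B) := by positivity
  linarith

private lemma spl_id (p : ℕ) (g : Vec d → ℝ) (v y : Vec d) :
    2 * (g y * (g v * Wp p v)) + dF p g v y = Gs p g v * (Wp p v / Wp p y) + Gs p g y := by
  have hy := Wp_pos p y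
  unfold dF Gs
  field_simp
  ring

private lemma spl_dF_nn (p : ℕ) (g : Vec d → ℝ) (v y : Vec d) : 0 ≤ dF p g v y := by
  have hy := Wp_pos p y
  unfold dF
  positivity

private lemma spl_rho_nn (P : Lp) (v z : Vec d) : 0 ≤ rho P v z := by
  have hv : 0 < 1 + nsq v := by linarith [sq_nonneg' v]
  have hz : 0 < 1 + nsq z := by linarith [sq_nonneg' z]
  unfold rho Tb
  positivity

private lemma spl_two (x : ℝ) : 2 * ENNReal.ofReal x = ENNReal.ofReal (2 * x) := by
  rw [ENNReal.ofReal_mul zero_le_two, ENNReal.ofReal_ofNat]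

private lemma spl_kM (P : Lp) {g g1 : Vec d → ℝ} {v z y : Vec d} (h : (z, y) ∈ RegS P.θ P.L v) :
    kM P g1 (gR g g1) v z y = gR g g1 z + (open Classical in if AS P v z y then 0 else g1 z) := by
  unfold kM
  rw [if_pos h]

open Classical in
private lemma spl_pt (P : Lp) {g g1 ω : Vec d → ℝ} (D : Dat g g1 ω) (v y z : Vec d) :
    2 * ENNReal.ofReal (g z * g y * (g v * Wp (2 * P.p') v * ω v)) +
        ENNReal.ofReal (kM P g1 (gR g g1) v z y * (ω v * dF (2 * P.p') g v y)) ≤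
      ENNReal.ofReal (kM P g1 (gR g g1) v z y *
          (ω v * Gs (2 * P.p') g v * (Wp (2 * P.p') v / Wp (2 * P.p') y))) +
        ENNReal.ofReal (kM P g1 (gR g g1) v z y * (ω v * Gs (2 * P.p') g y)) +
        (if (z, y) ∈ RegS P.θ P.L v then 0 else
          ENNReal.ofReal (g y * (ω v * Gs (2 * P.p') g v * rho P v z))) +
        (if (z, y) ∈ RegS P.θ P.L v then 0 else
          ENNReal.ofReal (g y * (ω v * Gs (2 * P.p') g z * rho P v z))) +
        2 * (if (z, y) ∈ RegS P.θ P.L v ∧ AS P v z y then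
          ENNReal.ofReal (g1 z * g y * (g v * Wp (2 * P.p') v * ω v)) else 0) := by
  have hω : 0 ≤ ω v := by linarith [D.ωl v]
  have hgy := D.g0 y
  have hgz := D.g0 z
  have hgv := D.g0 v
  have hg1 := D.g10 z
  have hR : 0 ≤ gR g g1 z := by
    unfold gR
    linarith [D.le z]
  have hWv := Wp_pos (2 * P.p') v
  have hWy := Wp_pos (2 * P.p') y
  have hdF := spl_dF_nn (2 * P.p') g v y
  have hGv := Gs_nonneg (2 * P.p') g v
  have hGy := Gs_nonneg (2 * P.p') g y
  have hGz := Gs_nonneg (2 * P.p') g z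
  have hr := spl_rho_nn P v z
  by_cases hS : (z, y) ∈ RegS P.θ P.L v
  · have hid := spl_id (2 * P.p') g v y
    rw [if_pos hS, if_pos hS, add_zero, add_zero, spl_kM P hS]
    by_cases hA : AS P v z y
    · rw [if_pos (show (z, y) ∈ RegS P.θ P.L v ∧ AS P v z y from ⟨hS, hA⟩), spl_two, spl_two]
      rw [if_pos hA, add_zero]
      have n1 : 0 ≤ 2 * (g z * g y * (g v * Wp (2 * P.p') v * ω v)) := by positivity
      have n2 : 0 ≤ gR g g1 z * (ω v * dF (2 * P.p') g v y) := by positivity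
      have n3 : 0 ≤ gR g g1 z * (ω v * Gs (2 * P.p') g v *
          (Wp (2 * P.p') v / Wp (2 * P.p') y)) := by positivity
      have n4 : 0 ≤ gR g g1 z * (ω v * Gs (2 * P.p') g y) := by positivity
      have n5 : 0 ≤ 2 * (g1 z * g y * (g v * Wp (2 * P.p') v * ω v)) := by positivity
      rw [← ENNReal.ofReal_add n1 n2, ← ENNReal.ofReal_add n3 n4,
        ← ENNReal.ofReal_add (add_nonneg n3 n4) n5]
      refine ENNReal.ofReal_le_ofReal (le_of_eq ?_)
      have e : g z = gR g g1 z + g1 z := by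
        unfold gR
        ring
      have h3 : gR g g1 z * ω v * (2 * (g y * (g v * Wp (2 * P.p') v)) +
          dF (2 * P.p') g v y) = gR g g1 z * ω v * (Gs (2 * P.p') g v *
            (Wp (2 * P.p') v / Wp (2 * P.p') y) + Gs (2 * P.p') g y) := by rw [hid]
      have h4 : g z * g y * (g v * Wp (2 * P.p') v * ω v) =
          gR g g1 z * g y * (g v * Wp (2 * P.p') v * ω v) +
            g1 z * g y * (g v * Wp (2 * P.p') v * ω v) := by
        rw [← add_mul, ← add_mul, ← e]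
      rw [h4]
      linarith
    · rw [if_neg (show ¬ ((z, y) ∈ RegS P.θ P.L v ∧ AS P v z y) from fun h => hA h.2), mul_zero,
        add_zero, spl_two]
      rw [if_neg hA]
      have e : gR g g1 z + g1 z = g z := by
        unfold gR
        ring
      rw [e]
      have n1 : 0 ≤ 2 * (g z * g y * (g v * Wp (2 * P.p') v * ω v)) := by positivity
      have n2 : 0 ≤ g z * (ω v * dF (2 * P.p') g v y) := by positivity
      have n3 : 0 ≤ g z * (ω v * Gs (2 * P.p') g v *
          (Wp (2 * P.p') v / Wp (2 * P.p') y)) := by positivity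
      have n4 : 0 ≤ g z * (ω v * Gs (2 * P.p') g y) := by positivity
      rw [← ENNReal.ofReal_add n1 n2, ← ENNReal.ofReal_add n3 n4]
      refine ENNReal.ofReal_le_ofReal (le_of_eq ?_)
      have h3 : g z * ω v * (2 * (g y * (g v * Wp (2 * P.p') v)) +
          dF (2 * P.p') g v y) = g z * ω v * (Gs (2 * P.p') g v *
            (Wp (2 * P.p') v / Wp (2 * P.p') y) + Gs (2 * P.p') g y) := by rw [hid]
      linarith
  · have hk : kM P g1 (gR g g1) v z y = 0 := by
      unfold kM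
      rw [if_neg hS]
    rw [if_neg hS, if_neg hS, if_neg (show ¬ ((z, y) ∈ RegS P.θ P.L v ∧ AS P v z y) from
      fun h => hS h.1), hk, zero_mul, zero_mul, zero_mul, ENNReal.ofReal_zero, add_zero, add_zero,
      zero_add, mul_zero, add_zero, spl_two]
    have n1 : 0 ≤ g y * (ω v * Gs (2 * P.p') g v * rho P v z) := by positivity
    have n2 : 0 ≤ g y * (ω v * Gs (2 * P.p') g z * rho P v z) := by positivity
    rw [← ENNReal.ofReal_add n1 n2]
    refine ENNReal.ofReal_le_ofReal ?_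
    have h1 := mul_le_mul_of_nonneg_left (spl_sq P g v z) (mul_nonneg hgy hω)
    calc 2 * (g z * g y * (g v * Wp (2 * P.p') v * ω v))
        = g y * ω v * (2 * (g z * (g v * Wp (2 * P.p') v))) := by ring
      _ ≤ _ := h1
      _ = _ := by ring

/-! ### measurability -/

private lemma spl_mvzy : Measurable fun q : Vec d × Vec d × Vec d × Vec d =>
    ((q.1, q.2.2.2, q.2.2.1) : Vec d × Vec d × Vec d) :=
  measurable_fst.prodMk (measurable_snd.snd.snd.prodMk measurable_snd.snd.fst)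

open Classical in
private noncomputable def spP (P : Lp) (g ω : Vec d → ℝ) (v _w y z : Vec d) : ℝ≥0∞ :=
  ENNReal.ofReal (g z * g y * (g v * Wp (2 * P.p') v * ω v))

private noncomputable def spC (P : Lp) (g g1 ω : Vec d → ℝ) (v _w y z : Vec d) : ℝ≥0∞ :=
  ENNReal.ofReal (kM P g1 (gR g g1) v z y * (ω v * dF (2 * P.p') g v y))

private noncomputable def spA (P : Lp) (g g1 ω : Vec d → ℝ) (v _w y z : Vec d) : ℝ≥0∞ :=
  ENNReal.ofReal (kM P g1 (gR g g1) v z y *
    (ω v * Gs (2 * P.p') g v * (Wp (2 * P.p') v / Wp (2 * P.p') y)))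

private noncomputable def spB (P : Lp) (g g1 ω : Vec d → ℝ) (v _w y z : Vec d) : ℝ≥0∞ :=
  ENNReal.ofReal (kM P g1 (gR g g1) v z y * (ω v * Gs (2 * P.p') g y))

open Classical in
private noncomputable def spD1 (P : Lp) (g ω : Vec d → ℝ) (v _w y z : Vec d) : ℝ≥0∞ :=
  if (z, y) ∈ RegS P.θ P.L v then 0 else
    ENNReal.ofReal (g y * (ω v * Gs (2 * P.p') g v * rho P v z))

open Classical in
private noncomputable def spD2 (P : Lp) (g ω : Vec d → ℝ) (v _w y z : Vec d) : ℝ≥0∞ :=
  if (z, y) ∈ RegS P.θ P.L v then 0 else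
    ENNReal.ofReal (g y * (ω v * Gs (2 * P.p') g z * rho P v z))

open Classical in
private noncomputable def spE (P : Lp) (g g1 ω : Vec d → ℝ) (v _w y z : Vec d) : ℝ≥0∞ :=
  if (z, y) ∈ RegS P.θ P.L v ∧ AS P v z y then
    ENNReal.ofReal (g1 z * g y * (g v * Wp (2 * P.p') v * ω v)) else 0

private noncomputable def spTw (F : Vec d → Vec d → Vec d → Vec d → ℝ≥0∞) (v w y z : Vec d) :
    ℝ≥0∞ := ENNReal.ofReal 2 * F v w y z

private noncomputable def spAd (F G : Vec d → Vec d → Vec d → Vec d → ℝ≥0∞) (v w y z : Vec d) :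
    ℝ≥0∞ := F v w y z + G v w y z

private lemma spl_add (hb : Measurable b) {F : Vec d → Vec d → Vec d → Vec d → ℝ≥0∞}
    (G : Vec d → Vec d → Vec d → Vec d → ℝ≥0∞) (hF : Meas4 F) :
    T3 γ b ε (spAd F G) = T3 γ b ε F + T3 γ b ε G := T3_add hb hF

private lemma spl_mul (F : Vec d → Vec d → Vec d → Vec d → ℝ≥0∞) :
    T3 γ b ε (spTw F) = 2 * T3 γ b ε F := by
  have h := T3_mul (γ := γ) (b := b) (ε := ε) 2 zero_le_two F
  rw [ENNReal.ofReal_ofNat] at h
  have e : spTw F = fun v w y z => 2 * F v w y z := by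
    funext v w y z
    unfold spTw
    rw [ENNReal.ofReal_ofNat]
  rw [e]
  exact h

private lemma spl_mAd {F G : Vec d → Vec d → Vec d → Vec d → ℝ≥0∞} (hF : Meas4 F)
    (hG : Meas4 G) : Meas4 (spAd F G) := Measurable.add hF hG

private lemma spl_meas (P : Lp) {g g1 ω : Vec d → ℝ} (D : Dat g g1 ω) :
    Meas4 (spP P g ω) ∧ Meas4 (spA P g g1 ω) ∧ Meas4 (spB P g g1 ω) := by
  have hg : Measurable g := D.nice.cont.measurable
  have hgR : Measurable (gR g g1) := hg.sub D.m1
  have hω : Measurable ω := D.ωc.measurable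
  have mv : Measurable fun q : Vec d × Vec d × Vec d × Vec d => q.1 := measurable_fst
  have my : Measurable fun q : Vec d × Vec d × Vec d × Vec d => q.2.2.1 := measurable_snd.snd.fst
  have mz : Measurable fun q : Vec d × Vec d × Vec d × Vec d => q.2.2.2 := measurable_snd.snd.snd
  have mk : Measurable fun q : Vec d × Vec d × Vec d × Vec d =>
      kM P g1 (gR g g1) q.1 q.2.2.2 q.2.2.1 :=
    Measurable.comp (g := fun q : Vec d × Vec d × Vec d => kM P g1 (gR g g1) q.1 q.2.1 q.2.2)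
      (f := fun q : Vec d × Vec d × Vec d × Vec d =>
        ((q.1, q.2.2.2, q.2.2.1) : Vec d × Vec d × Vec d)) (meas_kM P D.m1 hgR) spl_mvzy
  have mG : Measurable (Gs (2 * P.p') g) := meas_Gs (2 * P.p') hg
  have mW : Measurable (Wp (d := d) (2 * P.p')) := meas_Wp (2 * P.p')
  have mgz := hg.comp mz
  have mgy := hg.comp my
  have mgv := hg.comp mv
  have mWv := mW.comp mv
  have mWy := mW.comp my
  have mωv := hω.comp mv
  have mGv := mG.comp mv
  have mGy := mG.comp my
  refine ⟨?_, ?_, ?_⟩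
  · unfold Meas4 spP
    exact ((mgz.mul mgy).mul ((mgv.mul mWv).mul mωv)).ennreal_ofReal
  · unfold Meas4 spA
    exact (mk.mul ((mωv.mul mGv).mul (mWv.div mWy))).ennreal_ofReal
  · unfold Meas4 spB
    exact (mk.mul (mωv.mul mGy)).ennreal_ofReal

private lemma spl_measD (P : Lp) {g g1 ω : Vec d → ℝ} (D : Dat g g1 ω) :
    Meas4 (spD1 P g ω) ∧ Meas4 (spD2 P g ω) := by
  classical
  have hg : Measurable g := D.nice.cont.measurable
  have hω : Measurable ω := D.ωc.measurable
  have mv : Measurable fun q : Vec d × Vec d × Vec d × Vec d => q.1 := measurable_fst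
  have my : Measurable fun q : Vec d × Vec d × Vec d × Vec d => q.2.2.1 := measurable_snd.snd.fst
  have mz : Measurable fun q : Vec d × Vec d × Vec d × Vec d => q.2.2.2 := measurable_snd.snd.snd
  have mG : Measurable (Gs (2 * P.p') g) := meas_Gs (2 * P.p') hg
  have mr : Measurable fun q : Vec d × Vec d × Vec d × Vec d => rho P q.1 q.2.2.2 :=
    Measurable.comp (g := fun q : Vec d × Vec d => rho P q.1 q.2)
      (f := fun q : Vec d × Vec d × Vec d × Vec d => ((q.1, q.2.2.2) : Vec d × Vec d))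
      (meas_rho P) (mv.prodMk mz)
  have mS : MeasurableSet {q : Vec d × Vec d × Vec d × Vec d |
      (q.2.2.2, q.2.2.1) ∈ RegS P.θ P.L q.1} := spl_mvzy (meas_reg P)
  have mgy := hg.comp my
  have mωv := hω.comp mv
  have mGv := mG.comp mv
  have mGz := mG.comp mz
  refine ⟨?_, ?_⟩
  · unfold Meas4 spD1
    exact Measurable.ite mS measurable_const (mgy.mul ((mωv.mul mGv).mul mr)).ennreal_ofReal
  · unfold Meas4 spD2
    exact Measurable.ite mS measurable_const (mgy.mul ((mωv.mul mGz).mul mr)).ennreal_ofReal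

private lemma spl_le (P : Lp) {g g1 ω : Vec d → ℝ} (D : Dat g g1 ω) (v w y z : Vec d) :
    spAd (spTw (spP P g ω)) (spC P g g1 ω) v w y z ≤
      spAd (spAd (spAd (spAd (spA P g g1 ω) (spB P g g1 ω)) (spD1 P g ω)) (spD2 P g ω))
        (spTw (spE P g g1 ω)) v w y z := by
  have h := spl_pt P D v y z
  unfold spAd spTw spP spC spA spB spD1 spD2 spE
  rw [ENNReal.ofReal_ofNat]
  exact h

theorem split_q (H : Hyp d γ s b C Ca) (hε : 0 < ε) (P : Lp) {g g1 ω : Vec d → ℝ} (D : Dat g g1 ω) :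
    2 * LP γ b ε P g ω + LC γ b ε P g g1 (gR g g1) ω ≤
      LA γ b ε P g g1 (gR g g1) ω + LB γ b ε P g g1 (gR g g1) ω + LD1 γ b ε P g ω + LD2 γ b ε P g ω +
        2 * LPA γ b ε P g g1 ω := by
  have _ := hε
  obtain ⟨m0, m3, m4⟩ := spl_meas P D
  obtain ⟨m5, m6⟩ := spl_measD P D
  have m1 : Meas4 (spTw (spP P g ω)) := Measurable.const_mul m0 _
  have eP : LP γ b ε P g ω = T3 γ b ε (spP P g ω) := rfl
  have eC : LC γ b ε P g g1 (gR g g1) ω = T3 γ b ε (spC P g g1 ω) := rfl
  have eA : LA γ b ε P g g1 (gR g g1) ω = T3 γ b ε (spA P g g1 ω) := rfl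
  have eB : LB γ b ε P g g1 (gR g g1) ω = T3 γ b ε (spB P g g1 ω) := rfl
  have eD1 : LD1 γ b ε P g ω = T3 γ b ε (spD1 P g ω) := rfl
  have eD2 : LD2 γ b ε P g ω = T3 γ b ε (spD2 P g ω) := rfl
  have eE : LPA γ b ε P g g1 ω = T3 γ b ε (spE P g g1 ω) := rfl
  have m34 := spl_mAd m3 m4
  have m345 := spl_mAd m34 m5
  have m3456 := spl_mAd m345 m6
  rw [eP, eC, eA, eB, eD1, eD2, eE, ← spl_mul, ← spl_mul, ← spl_add H.bm _ m1,
    ← spl_add H.bm _ m3, ← spl_add H.bm _ m34, ← spl_add H.bm _ m345, ← spl_add H.bm _ m3456]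
  exact T3_mono H.hd1 fun v w y z _ => spl_le P D v w y z

end Pool.Agent.H15.G1
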