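import Pool.Agent.H15.G1.LDefs

/-!
# Module ThinG: small transversal deflections of one sign

`thin_low` (H48/PL/ThinL) and the reflection `σ ↦ refl (dir m) σ = 2 (σ·dir m) dir m - σ` (`refl_preserving`, H25/Kin/Cap): `dot m σ`, `co m σ` invariant, `hh (refl (dir m) σ) m = - hh σ m`. `SdS` is symmetric; each `h` has `h_e m_e ≥ 0` or
`(-h)_e m_e ≥ 0`: the integral over `SdS` is at most twice the one below.
-/

set_option autoImplicit false

open MeasureTheory Set Filter Topology Pool.Agent.H25.Kin Pool.Agent.H82.BK Pool.Agent.H82.CM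
open Pool.Agent.H48.PL Pool.Agent.H48.PI Pool.Agent.H48.PW Pool.Agent.H82.NT
open scoped ENNReal

namespace Pool.Agent.H15.G1

variable {d : ℕ} {γ s C Ca cb ε : ℝ} {b : ℝ → ℝ}

open Classical in
private noncomputable def ThinGF (e : Fin d) (τ γ : ℝ) (b : ℝ → ℝ) (ε : ℝ) (m h : Vec d) (c : ℝ) :
    ℝ≥0∞ :=
  if h ∈ SdS e τ m ∧ 0 ≤ h e * m e then ENNReal.ofReal (Kn d γ (bt b ε) c) else 0

private lemma ThinG_hhm (m : Vec d) : Measurable fun σ : Vec d => hh σ m := by
  have h1 : Measurable fun σ : Vec d => ((m, σ) : Vec d × Vec d) :=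
    measurable_const.prodMk measurable_id
  have h2 := (measurable_hh (d := d)).comp h1
  exact h2

private lemma ThinG_Knm (hb : Measurable b) (ε : ℝ) (m : Vec d) :
    Measurable fun σ : Vec d => Kn d γ (bt b ε) (co m σ) := by
  have hcom : Measurable fun σ : Vec d => co m σ :=
    measurable_co.comp (measurable_const.prodMk measurable_id)
  have hbt := measurable_bt (b := b) hb ε
  have hKm' : Measurable (Kn d γ (bt b ε)) := by
    unfold Kn
    have h1 : Measurable fun c : ℝ => c ^ (-2 - γ) := measurable_id.pow_const _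
    have h2 : Measurable fun c : ℝ => bt b ε (2 * c ^ 2 - 1) := hbt.comp (by fun_prop)
    exact (measurable_const.mul h1).mul h2
  exact hKm'.comp hcom

private lemma ThinG_meas (hb : Measurable b) (e : Fin d) (τ ε : ℝ) (m : Vec d)
    {f : Vec d → Vec d} (hf : Measurable f) :
    Measurable fun σ : Vec d => ThinGF e τ γ b ε m (f σ) (co m σ) := by
  have h1 : MeasurableSet {σ : Vec d | f σ ∈ SdS e τ m} := by
    have h2 : Measurable fun σ : Vec d => (m, f σ) := measurable_const.prodMk hf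
    exact h2 (measurableSet_SdS e τ)
  have h3 : MeasurableSet {σ : Vec d | 0 ≤ f σ e * m e} :=
    measurableSet_le measurable_const (((measurable_pi_apply e).comp hf).mul_const _)
  exact Measurable.ite (h1.inter h3) (ThinG_Knm hb ε m).ennreal_ofReal measurable_const

private lemma ThinG_neg (e : Fin d) (τ : ℝ) (m h : Vec d) (hh : h ∈ SdS e τ m) :
    -h ∈ SdS e τ m := by
  have h1 : nsq (-h) = nsq h := by
    unfold nsq
    exact Finset.sum_congr rfl fun i _ => by simp
  have h2 : len (-h) = len h := by unfold len; rw [h1]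
  obtain ⟨a, b', c⟩ := hh
  refine ⟨?_, ?_, ?_⟩
  · rw [h1]; exact a
  · rw [h1]; exact b'
  · rw [h2, Pi.neg_apply, abs_neg]; exact c

open Classical in
private lemma ThinG_le (e : Fin d) (τ : ℝ) (b : ℝ → ℝ) (ε : ℝ) (m h : Vec d) (c : ℝ) :
    (if h ∈ SdS e τ m then ENNReal.ofReal (Kn d γ (bt b ε) c) else 0) ≤
      ThinGF e τ γ b ε m h c + ThinGF e τ γ b ε m (-h) c := by
  by_cases hS : h ∈ SdS e τ m
  · rw [if_pos hS]
    rcases le_total 0 (h e * m e) with h1 | h1
    · unfold ThinGF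
      rw [if_pos ⟨hS, h1⟩]
      exact le_self_add
    · have h2 : 0 ≤ (-h) e * m e := by
        rw [Pi.neg_apply]
        linarith
      have h3 : ThinGF e τ γ b ε m (-h) c = ENNReal.ofReal (Kn d γ (bt b ε) c) := by
        unfold ThinGF
        rw [if_pos ⟨ThinG_neg e τ m h hS, h2⟩]
      rw [h3]
      exact le_add_self
  · rw [if_neg hS]
    exact bot_le

open Classical in
theorem thin_sgn (HL : HypL d γ s b C Ca cb) (e : Fin d) : ∃ c : ℝ, 0 < c ∧
    ∀ τ : ℝ, 0 < τ → τ ≤ 1 / 4 → ∀ m : Vec d, m ≠ 0 → |m e| ≤ len m / 16 →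
    ∀ ε : ℝ, 0 < ε → ε ≤ τ ^ 2 / 2 →
      ENNReal.ofReal (c * τ ^ (-(2 * s))) ≤ ∫⁻ σ in {σ : Vec d | 0 < dot m σ},
        (if hh σ m ∈ SdS e τ m ∧ 0 ≤ hh σ m e * m e then
          ENNReal.ofReal (Kn d γ (bt b ε) (co m σ)) else 0) ∂(surf d) := by
  obtain ⟨c, hc, hlow⟩ := thin_low HL e
  refine ⟨c / 2, by positivity, fun τ h0 h1 m hm hme ε hε hε1 => ?_⟩
  have hlow' := hlow τ h0 h1 m hm hme ε hε hε1
  have hS : MeasurableSet {σ : Vec d | 0 < dot m σ} := measurableSet_half m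
  have hRp : MeasurePreserving (fun σ : Vec d => refl (dir m) σ) (surf d) (surf d) :=
    refl_preserving HL.H.hd1 (nsq_dir hm)
  have hpre : (fun σ : Vec d => refl (dir m) σ) ⁻¹' {σ : Vec d | 0 < dot m σ} =
      {σ : Vec d | 0 < dot m σ} := by
    ext σ
    simp only [mem_preimage, mem_ofPred_eq, dot_refl_dir hm]
  have hRr : MeasurePreserving (fun σ : Vec d => refl (dir m) σ)
      ((surf d).restrict {σ : Vec d | 0 < dot m σ}) ((surf d).restrict {σ : Vec d | 0 < dot m σ}) := by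
    have := hRp.restrict_preimage hS
    rwa [hpre] at this
  have mf : Measurable fun σ : Vec d => ThinGF e τ γ b ε m (hh σ m) (co m σ) :=
    ThinG_meas HL.H.bm e τ ε m (ThinG_hhm m)
  have hsw : ∫⁻ σ in {σ : Vec d | 0 < dot m σ}, ThinGF e τ γ b ε m (hh σ m) (co m σ) ∂(surf d) =
      ∫⁻ σ in {σ : Vec d | 0 < dot m σ}, ThinGF e τ γ b ε m (-(hh σ m)) (co m σ) ∂(surf d) := by
    rw [← hRr.lintegral_comp mf]
    refine setLIntegral_congr_fun hS fun σ hσ => ?_
    have hσ' : 0 < dot m σ := hσ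
    have e1 : co m (refl (dir m) σ) = co m σ := by
      unfold co
      rw [dot_refl_dir hm]
    simp only [e1, hh_refl hσ']
  have h2 : ENNReal.ofReal (c * τ ^ (-(2 * s))) ≤
      2 * ∫⁻ σ in {σ : Vec d | 0 < dot m σ}, ThinGF e τ γ b ε m (hh σ m) (co m σ) ∂(surf d) := by
    calc ENNReal.ofReal (c * τ ^ (-(2 * s)))
        ≤ ∫⁻ σ in {σ : Vec d | 0 < dot m σ}, (if hh σ m ∈ SdS e τ m then
            ENNReal.ofReal (Kn d γ (bt b ε) (co m σ)) else 0) ∂(surf d) := hlow'
      _ ≤ ∫⁻ σ in {σ : Vec d | 0 < dot m σ}, (ThinGF e τ γ b ε m (hh σ m) (co m σ) +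
            ThinGF e τ γ b ε m (-(hh σ m)) (co m σ)) ∂(surf d) :=
          lintegral_mono fun σ => ThinG_le e τ b ε m (hh σ m) (co m σ)
      _ = (∫⁻ σ in {σ : Vec d | 0 < dot m σ}, ThinGF e τ γ b ε m (hh σ m) (co m σ) ∂(surf d)) +
            ∫⁻ σ in {σ : Vec d | 0 < dot m σ}, ThinGF e τ γ b ε m (-(hh σ m)) (co m σ) ∂(surf d) :=
          lintegral_add_left mf _
      _ = _ := by rw [← hsw, two_mul]
  have h3 : ENNReal.ofReal (c * τ ^ (-(2 * s))) =
      2 * ENNReal.ofReal (c / 2 * τ ^ (-(2 * s))) := by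
    have h4 : (2 : ℝ≥0∞) = ENNReal.ofReal 2 := by simp
    rw [h4, ← ENNReal.ofReal_mul (by norm_num)]
    congr 1
    ring
  rw [h3] at h2
  exact (ENNReal.mul_le_mul_iff_right (by norm_num) (by norm_num)).1 h2

end Pool.Agent.H15.G1
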